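import Pool.Agent.Run7.h549.Proj

set_option maxHeartbeats 400000
open MeasureTheory Set Filter Topology
open scoped ENNReal Real Pointwise

namespace Run7.h549

/-! ### Images of unions and intersections -/

theorem image_inter_convex {E F : Type*} [NormedAddCommGroup E] [NormedSpace ℝ E] [AddCommGroup F]
    [Module ℝ F] (T : E →ₗ[ℝ] F) {K L : Set E} (hK : IsClosed K) (hL : IsClosed L)
    (hM : Convex ℝ (K ∪ L)) : T '' (K ∩ L) = T '' K ∩ T '' L := by
  apply subset_antisymm (image_inter_subset _ _ _)
  rintro p ⟨⟨k, hk, hkp⟩, ⟨l, hl, hlp⟩⟩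
  have hseg : segment ℝ k l ⊆ K ∪ L := hM.segment_subset (Or.inl hk) (Or.inr hl)
  have hpre : IsPreconnected (segment ℝ k l) := (convex_segment k l).isPreconnected
  obtain ⟨m, hm1, hm2⟩ := isPreconnected_closed_iff.1 hpre K L hK hL hseg
    ⟨k, left_mem_segment ℝ k l, hk⟩ ⟨l, right_mem_segment ℝ k l, hl⟩
  refine ⟨m, hm2, ?_⟩
  obtain ⟨a, b, ha, hb, hab, rfl⟩ := hm1
  rw [map_add, map_smul, map_smul, hkp, hlp, ← add_smul, hab, one_smul]

theorem measure_inclusion_exclusion {S T : Set ℂ} (hS : IsCompact S) (hT : IsCompact T) :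
    (volume (S ∪ T)).toReal + (volume (S ∩ T)).toReal = (volume S).toReal + (volume T).toReal := by
  have h1 : volume (S ∪ T) ≠ ∞ := (hS.union hT).measure_lt_top.ne
  have h2 : volume (S ∩ T) ≠ ∞ := (hS.inter hT).measure_lt_top.ne
  rw [← ENNReal.toReal_add h1 h2, ← ENNReal.toReal_add hS.measure_lt_top.ne hT.measure_lt_top.ne,
    measure_union_add_inter S hT.measurableSet]

theorem pa_val (x : C2) {K L M N : ConvexBody C2} (hM : (M : Set C2) = (K : Set C2) ∪ L)
    (hN : (N : Set C2) = (K : Set C2) ∩ L) : pa x M + pa x N = pa x K + pa x L := by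
  unfold pa
  rw [hM, hN, image_union]
  have e : (fun z => inner ℂ x z) '' ((K : Set C2) ∩ L)
      = (fun z => inner ℂ x z) '' (K : Set C2) ∩ (fun z => inner ℂ x z) '' (L : Set C2) :=
    image_inter_convex (projL x).toLinearMap K.isClosed L.isClosed (by rw [← hM]; exact M.convex)
  rw [e]
  exact measure_inclusion_exclusion (K.isCompact.image (by fun_prop)) (L.isCompact.image (by fun_prop))

theorem pa_integrable (K : ConvexBody C2) :
    IntegrableOn (fun x : C2 => pa x K) (Metric.closedBall (0 : C2) 1) :=
  (pa_cont_left K).continuousOn.integrableOn_compact (isCompact_closedBall _ _)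

theorem al_val {K L M N : ConvexBody C2} (hM : (M : Set C2) = (K : Set C2) ∪ L)
    (hN : (N : Set C2) = (K : Set C2) ∩ L) : al M + al N = al K + al L := by
  unfold al
  rw [← mul_add, ← mul_add, ← integral_add (pa_integrable M) (pa_integrable N),
    ← integral_add (pa_integrable K) (pa_integrable L)]
  congr 1
  apply integral_congr_ae
  exact Eventually.of_forall fun x => pa_val x hM hN

theorem pa_trans (x v : C2) {K M : ConvexBody C2} (hM : (M : Set C2) = (fun z => z + v) '' (K : Set C2)) :
    pa x M = pa x K := by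
  unfold pa
  rw [hM, image_image]
  have e : (fun z => inner ℂ x (z + v)) '' (K : Set C2)
      = (fun p => inner ℂ x v + p) '' ((fun z => inner ℂ x z) '' (K : Set C2)) := by
    rw [image_image]
    apply image_congr
    intro z _
    rw [inner_add_right, add_comm]
  rw [e, image_add_left, measure_preimage_add]

theorem al_trans (v : C2) {K M : ConvexBody C2} (hM : (M : Set C2) = (fun z => z + v) '' (K : Set C2)) :
    al M = al K := by
  unfold al
  congr 1
  apply integral_congr_ae
  exact Eventually.of_forall fun x => pa_trans x v hM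

theorem pa_dil (x : C2) {t : ℝ} {K M : ConvexBody C2} (hM : (M : Set C2) = (fun z => t • z) '' (K : Set C2)) :
    pa x M = t ^ 2 * pa x K := by
  unfold pa
  rw [hM, image_image]
  have e : (fun z => inner ℂ x (t • z)) '' (K : Set C2) = t • ((fun z => inner ℂ x z) '' (K : Set C2)) := by
    rw [← image_smul, image_image]
    apply image_congr
    intro z _
    have : t • z = (t : ℂ) • z := by
      ext i; simp
    rw [this, inner_smul_right]
    simp
  rw [e, Measure.addHaar_smul, ENNReal.toReal_mul, Complex.finrank_real_complex,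
    ENNReal.toReal_ofReal (abs_nonneg _), abs_of_nonneg (by positivity)]

theorem al_dil {t : ℝ} {K M : ConvexBody C2} (hM : (M : Set C2) = (fun z => t • z) '' (K : Set C2)) :
    al M = t ^ 2 * al K := by
  unfold al
  have : ∫ x in Metric.closedBall (0 : C2) 1, pa x M
      = t ^ 2 * ∫ x in Metric.closedBall (0 : C2) 1, pa x K := by
    rw [← integral_const_mul]
    apply integral_congr_ae
    exact Eventually.of_forall fun x => pa_dil x hM
  rw [this]; ring

theorem pa_unitary (x : C2) (g : C2 ≃ₗᵢ[ℂ] C2) {K M : ConvexBody C2} (hM : (M : Set C2) = g '' (K : Set C2)) :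
    pa x M = pa (g.symm x) K := by
  unfold pa
  rw [hM, image_image]
  congr 2
  apply image_congr
  intro z _
  rw [← g.inner_map_map (g.symm x) z, g.apply_symm_apply]

/-- a complex linear isometry as a real linear isometry -/
noncomputable def toReal (g : C2 ≃ₗᵢ[ℂ] C2) : C2 ≃ₗᵢ[ℝ] C2 :=
  ⟨g.toLinearEquiv.restrictScalars ℝ, fun x => g.norm_map x⟩

theorem al_unitary (g : C2 ≃ₗᵢ[ℂ] C2) {K M : ConvexBody C2} (hM : (M : Set C2) = g '' (K : Set C2)) :
    al M = al K := by
  unfold al
  congr 1
  have h1 : ∀ x, pa x M = pa (g.symm x) K := fun x => pa_unitary x g hM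
  simp only [h1]
  rw [← integral_indicator Metric.isClosed_closedBall.measurableSet,
    ← integral_indicator Metric.isClosed_closedBall.measurableSet]
  have mp : MeasurePreserving (toReal g.symm) := LinearIsometryEquiv.measurePreserving _
  have me : MeasurableEmbedding (toReal g.symm) := (toReal g.symm).toHomeomorph.measurableEmbedding
  have hcomp := mp.integral_comp me ((Metric.closedBall (0 : C2) 1).indicator fun x => pa x K)
  rw [← hcomp]
  congr 1
  funext x
  have hx : toReal g.symm x = g.symm x := rfl
  by_cases h : x ∈ Metric.closedBall (0 : C2) 1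
  · have h' : toReal g.symm x ∈ Metric.closedBall (0 : C2) 1 := by
      rw [mem_closedBall_zero_iff] at h ⊢
      rw [hx, g.symm.norm_map]; exact h
    rw [indicator_of_mem h, indicator_of_mem h', hx]
  · have h' : toReal g.symm x ∉ Metric.closedBall (0 : C2) 1 := by
      rw [mem_closedBall_zero_iff] at h ⊢
      rw [hx, g.symm.norm_map]; exact h
    rw [indicator_of_notMem h, indicator_of_notMem h']

/-! ### Continuity -/

theorem pa_le {x : C2} {K : ConvexBody C2} {R : ℝ} (hR0 : 0 ≤ R) (hR : ∀ z ∈ (K : Set C2), ‖z‖ ≤ R)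
    (hx : ‖x‖ ≤ 1) : pa x K ≤ π * R ^ 2 := by
  unfold pa
  have hsub : (fun z => inner ℂ x z) '' (K : Set C2) ⊆ Metric.closedBall (0 : ℂ) R := by
    rintro _ ⟨z, hz, rfl⟩
    rw [mem_closedBall_zero_iff]
    calc ‖inner ℂ x z‖ ≤ ‖x‖ * ‖z‖ := norm_inner_le_norm x z
      _ ≤ 1 * R := mul_le_mul hx (hR z hz) (norm_nonneg _) zero_le_one
      _ = R := one_mul R
  have h1 : (volume (Metric.closedBall (0 : ℂ) R)).toReal = π * R ^ 2 := by
    rw [Complex.volume_closedBall, ENNReal.toReal_mul, ENNReal.toReal_pow, ENNReal.toReal_ofReal hR0]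
    simp [mul_comm]
  rw [← h1]
  exact ENNReal.toReal_mono (isCompact_closedBall _ _).measure_lt_top.ne (measure_mono hsub)

theorem al_cont : Continuous al := by
  rw [continuous_iff_continuousAt]
  intro K
  obtain ⟨R, hR0, hR⟩ := body_bound K
  unfold al
  apply ContinuousAt.mul continuousAt_const
  refine continuousAt_of_dominated (bound := fun _ => π * (R + 1) ^ 2) ?_ ?_ ?_ ?_
  · exact Eventually.of_forall fun Q => (pa_cont_left Q).aestronglyMeasurable
  · filter_upwards [Metric.ball_mem_nhds K one_pos] with Q hQ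
    filter_upwards [ae_restrict_mem Metric.isClosed_closedBall.measurableSet] with x hx
    rw [Real.norm_eq_abs, abs_of_nonneg (pa_nonneg _ _)]
    exact pa_le (by linarith) (body_bound' hR hQ) (mem_closedBall_zero_iff.1 hx)
  · exact (continuous_const : Continuous fun _ : C2 => π * (R + 1) ^ 2).continuousOn.integrableOn_compact
      (isCompact_closedBall _ _)
  · apply Eventually.of_forall
    intro x
    have h : Continuous (fun Q : ConvexBody C2 => ((x, Q) : C2 × ConvexBody C2)) := Continuous.prodMk_right x
    have h2 := Continuous.comp pa_cont h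
    exact h2.continuousAt

end Run7.h549
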