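import Pool.Agent.Run7.h549.Alpha

set_option maxHeartbeats 400000
open MeasureTheory Set Filter Topology
open scoped ENNReal Real Pointwise

namespace Run7.h549

/-- the real linear endomorphism of `ℂ` sending `1` to `a` and `i` to `b` -/
noncomputable def twoL (a b : ℂ) : ℂ →ₗ[ℝ] ℂ where
  toFun z := z.re • a + z.im • b
  map_add' z w := by simp only [Complex.add_re, Complex.add_im, add_smul]; abel
  map_smul' c z := by
    simp only [Complex.smul_re, Complex.smul_im, smul_eq_mul, mul_smul, RingHom.id_apply, smul_add]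

theorem det_twoL (a b : ℂ) : LinearMap.det (twoL a b) = ((starRingEnd ℂ) a * b).im := by
  rw [← LinearMap.det_toMatrix Complex.basisOneI, Matrix.det_fin_two]
  simp [LinearMap.toMatrix_apply, twoL]
  ring

/-- the area of a linear image of a planar set -/
theorem area_image (a b : ℂ) (P : Set (ℝ × ℝ)) :
    (volume ((fun p : ℝ × ℝ => p.1 • a + p.2 • b) '' P)).toReal
      = |((starRingEnd ℂ) a * b).im| * (volume P).toReal := by
  have e1 : (fun p : ℝ × ℝ => p.1 • a + p.2 • b) '' P
      = twoL a b '' (Complex.measurableEquivRealProd.symm '' P) := by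
    rw [image_image]
    apply image_congr
    intro p _
    rw [Complex.measurableEquivRealProd_symm_apply]
    rfl
  have e2 : volume (Complex.measurableEquivRealProd.symm '' P) = volume P := by
    have mp := Complex.volume_preserving_equiv_real_prod
    have h3 : Complex.measurableEquivRealProd.symm '' P = Complex.measurableEquivRealProd ⁻¹' P :=
      Complex.measurableEquivRealProd.symm.image_eq_preimage_symm P
    rw [h3]
    exact mp.measure_preimage_equiv P
  rw [e1, Measure.addHaar_image_linearMap, det_twoL, ENNReal.toReal_mul, e2,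
    ENNReal.toReal_ofReal (abs_nonneg _)]

theorem pa_klain (x u v : C2) {K : ConvexBody C2} {P : Set (ℝ × ℝ)}
    (hK : (K : Set C2) = (fun p : ℝ × ℝ => p.1 • u + p.2 • v) '' P) :
    pa x K = |((starRingEnd ℂ (inner ℂ x u)) * inner ℂ x v).im| * (volume P).toReal := by
  unfold pa
  rw [hK, image_image, ← area_image]
  congr 2
  apply image_congr
  intro p _
  have e1 : ∀ (r : ℝ) (w : C2), inner ℂ x (r • w) = r • inner ℂ x w := fun r w =>
    (projL x).map_smul r w
  rw [inner_add_right, e1, e1]

theorem al_klain {u v : C2} (hu : ‖u‖ = 1) (hv : ‖v‖ = 1) (huv : (inner ℂ u v).re = 0)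
    {K : ConvexBody C2} {P : Set (ℝ × ℝ)}
    (hK : (K : Set C2) = (fun p : ℝ × ℝ => p.1 • u + p.2 • v) '' P) :
    al K = (1 + (inner ℂ u v).im ^ 2) / 4 * (volume P).toReal := by
  unfold al
  simp only [pa_klain _ u v hK]
  rw [integral_mul_const, klain u v hu hv huv]
  have := Real.pi_pos
  field_simp
  ring

/-! ### Balls -/

theorem pa_ball {x c : C2} {r : ℝ} (hr : 0 ≤ r) {K : ConvexBody C2}
    (hK : (K : Set C2) = Metric.closedBall c r) : pa x K = π * r ^ 2 * ‖x‖ ^ 2 := by
  unfold pa
  have e : (fun z => inner ℂ x z) '' (K : Set C2) = Metric.closedBall (inner ℂ x c) (r * ‖x‖) := by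
    rw [hK]
    ext p
    constructor
    · rintro ⟨z, hz, rfl⟩
      rw [mem_closedBall_iff_norm] at hz ⊢
      rw [← inner_sub_right]
      calc ‖inner ℂ x (z - c)‖ ≤ ‖x‖ * ‖z - c‖ := norm_inner_le_norm _ _
        _ ≤ ‖x‖ * r := by gcongr
        _ = r * ‖x‖ := mul_comm _ _
    · intro hp
      rw [mem_closedBall_iff_norm] at hp
      by_cases hx : x = 0
      · refine ⟨c, Metric.mem_closedBall_self hr, ?_⟩
        rw [hx] at hp ⊢
        simp only [norm_zero, mul_zero, inner_zero_left, sub_zero] at hp ⊢
        exact (norm_le_zero_iff.1 hp).symm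
      · have hxn : 0 < ‖x‖ := norm_pos_iff.2 hx
        have hxc : (‖x‖ : ℂ) ≠ 0 := by exact_mod_cast hxn.ne'
        refine ⟨c + ((p - inner ℂ x c) / (‖x‖ : ℂ) ^ 2) • x, ?_, ?_⟩
        · rw [mem_closedBall_iff_norm, add_sub_cancel_left, norm_smul, norm_div, norm_pow,
            Complex.norm_real, norm_norm]
          rw [div_mul_eq_mul_div, div_le_iff₀ (by positivity)]
          nlinarith
        · simp only
          rw [inner_add_right, inner_smul_right, inner_self_eq_norm_sq_to_K]
          field_simp
          simp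
          ring
  rw [e, Complex.volume_closedBall, ENNReal.toReal_mul, ENNReal.toReal_pow,
    ENNReal.toReal_ofReal (by positivity)]
  simp
  ring

theorem al_ball {c : C2} {r : ℝ} (hr : 0 ≤ r) {K : ConvexBody C2}
    (hK : (K : Set C2) = Metric.closedBall c r) : al K = π * r ^ 2 := by
  unfold al
  simp only [pa_ball hr hK]
  rw [integral_const_mul, sq_ball]
  have := Real.pi_pos
  field_simp

theorem vol_ball {c : C2} {r : ℝ} (hr : 0 ≤ r) :
    (volume (Metric.closedBall c r)).toReal = π ^ 2 * r ^ 4 / 2 := by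
  have hfr : Module.finrank ℝ C2 = 4 := by
    have := Module.finrank_mul_finrank ℝ ℂ C2
    rw [Complex.finrank_real_complex, finrank_euclideanSpace, Fintype.card_fin] at this
    omega
  rw [InnerProductSpace.volume_closedBall, hfr, ENNReal.toReal_mul, ENNReal.toReal_pow,
    ENNReal.toReal_ofReal hr, ENNReal.toReal_ofReal (by positivity)]
  have e1 : Real.Gamma (((4 : ℕ) : ℝ) / 2 + 1) = 2 := by
    have : ((4 : ℕ) : ℝ) / 2 + 1 = (2 : ℕ) + 1 := by norm_num
    rw [this, Real.Gamma_nat_eq_factorial]
    norm_num [Nat.factorial]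
  have e2 : √π ^ 4 = π ^ 2 := by
    have : √π ^ 2 = π := Real.sq_sqrt Real.pi_pos.le
    calc √π ^ 4 = (√π ^ 2) ^ 2 := by ring
      _ = π ^ 2 := by rw [this]
  rw [e1, e2]
  ring

end Run7.h549
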