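import Pool.Agent.Run7.h549.Supp

set_option maxHeartbeats 400000
open MeasureTheory Set Filter Topology
open scoped ENNReal Real Pointwise

namespace Run7.h549

/-- the closed unit ball -/
abbrev BB : Set C2 := Metric.closedBall (0 : C2) 1

theorem BB_meas : MeasurableSet BB := Metric.isClosed_closedBall.measurableSet

theorem BB_fin : volume BB ≠ ∞ := (isCompact_closedBall _ _).measure_lt_top.ne

/-- multiplication by a unit complex number -/
noncomputable def rotL {c : ℂ} (hc : ‖c‖ = 1) : C2 ≃ₗᵢ[ℝ] C2 :=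
  LinearIsometry.toLinearIsometryEquiv
    ⟨(c • ContinuousLinearMap.id ℝ C2 : C2 →L[ℝ] C2).toLinearMap, fun x => by
      show ‖c • x‖ = ‖x‖
      rw [norm_smul, hc, one_mul]⟩ rfl

theorem rotL_apply {c : ℂ} (hc : ‖c‖ = 1) (x : C2) : rotL hc x = c • x := rfl

/-- integrals over the ball are invariant under isometries -/
theorem ball_iso (T : C2 ≃ₗᵢ[ℝ] C2) (F : C2 → ℝ) : ∫ x in BB, F (T x) = ∫ x in BB, F x := by
  rw [← integral_indicator BB_meas, ← integral_indicator BB_meas]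
  have mp : MeasurePreserving T := LinearIsometryEquiv.measurePreserving _
  have me : MeasurableEmbedding T := T.toHomeomorph.measurableEmbedding
  rw [← mp.integral_comp me (BB.indicator F)]
  congr 1
  funext x
  by_cases h : x ∈ BB
  · have h' : T x ∈ BB := by
      rw [mem_closedBall_zero_iff] at h ⊢
      rw [T.norm_map]; exact h
    rw [indicator_of_mem h, indicator_of_mem h']
  · have h' : T x ∉ BB := by
      rw [mem_closedBall_zero_iff] at h ⊢
      rw [T.norm_map]; exact h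
    rw [indicator_of_notMem h, indicator_of_notMem h']

/-- the extension of a function on the unit sphere homogeneous of degree two -/
noncomputable def hom2 (Φ : C2 → ℝ) (y : C2) : ℝ := ‖y‖ ^ 2 * Φ (‖y‖⁻¹ • y)

theorem hom2_meas {Φ : C2 → ℝ} (hm : Measurable Φ) : Measurable (hom2 Φ) := by
  unfold hom2
  apply Measurable.mul (by fun_prop)
  apply hm.comp
  fun_prop

theorem norm_unit {y : C2} (hy : y ≠ 0) : ‖‖y‖⁻¹ • y‖ = 1 := by
  rw [norm_smul, norm_inv, norm_norm, inv_mul_cancel₀ (norm_ne_zero_iff.2 hy)]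

theorem hom2_bound {Φ : C2 → ℝ} {C : ℝ} (hC : 0 ≤ C) (hb : ∀ y, ‖y‖ = 1 → |Φ y| ≤ C) {y : C2}
    (hy : ‖y‖ ≤ 1) : ‖hom2 Φ y‖ ≤ C := by
  unfold hom2
  by_cases h0 : y = 0
  · simp [h0, hC]
  rw [Real.norm_eq_abs, abs_mul, abs_of_nonneg (by positivity)]
  have h1 : ‖y‖ ^ 2 ≤ 1 := pow_le_one₀ (norm_nonneg _) hy
  calc ‖y‖ ^ 2 * |Φ (‖y‖⁻¹ • y)| ≤ 1 * C :=
        mul_le_mul h1 (hb _ (norm_unit h0)) (abs_nonneg _) zero_le_one
    _ = C := one_mul C

/-- measurable functions, bounded on the unit sphere -/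
def Nice (Φ : C2 → ℝ) : Prop := Measurable Φ ∧ ∃ C : ℝ, 0 ≤ C ∧ ∀ y, ‖y‖ = 1 → |Φ y| ≤ C

theorem nice_of_continuous {Φ : C2 → ℝ} (h : Continuous Φ) : Nice Φ := by
  refine ⟨h.measurable, ?_⟩
  obtain ⟨C, hC⟩ := (isCompact_closedBall (0 : C2) 1).exists_bound_of_continuousOn h.continuousOn
  refine ⟨max C 0, le_max_right _ _, fun y hy => ?_⟩
  have := hC y (mem_closedBall_zero_iff.2 hy.le)
  rw [Real.norm_eq_abs] at this
  exact this.trans (le_max_left _ _)

theorem hom2_integrable {Φ : C2 → ℝ} (hΦ : Nice Φ) : IntegrableOn (hom2 Φ) BB := by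
  obtain ⟨hm, C, hC, hb⟩ := hΦ
  exact Measure.integrableOn_of_bounded BB_fin (hom2_meas hm).aestronglyMeasurable (M := C) (by
    filter_upwards [ae_restrict_mem BB_meas] with y hy
    exact hom2_bound hC hb (mem_closedBall_zero_iff.1 hy))

theorem hom2_S (Φ : C2 → ℝ) (S : C2 ≃ₗᵢ[ℝ] C2) (θ : ℝ) (x : C2) :
    hom2 Φ (S (cis θ • x)) = ‖x‖ ^ 2 * Φ (S (cis θ • ‖x‖⁻¹ • x)) := by
  unfold hom2
  have h1 : ‖S (cis θ • x)‖ = ‖x‖ := by rw [S.norm_map, norm_smul, norm_cis, one_mul]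
  rw [h1, ← map_smul]
  congr 3
  rw [smul_comm]

theorem cis_smul_cont : Continuous fun p : C2 × ℝ => cis p.2 • p.1 := by
  have h := cis_cont
  fun_prop

theorem avg_integrable {Φ : C2 → ℝ} (hΦ : Nice Φ) (S : C2 ≃ₗᵢ[ℝ] C2) :
    Integrable (Function.uncurry fun (x : C2) (θ : ℝ) => hom2 Φ (S (cis θ • x)))
      ((volume.restrict BB).prod (volume.restrict (Ioc (-π) π))) := by
  obtain ⟨hm, C, hC, hb⟩ := hΦ
  have : IsFiniteMeasure (volume.restrict BB) := ⟨by
    rw [Measure.restrict_apply_univ]; exact BB_fin.lt_top⟩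
  have hmeas : Measurable (Function.uncurry fun (x : C2) (θ : ℝ) => hom2 Φ (S (cis θ • x))) := by
    have h1 : Measurable fun p : C2 × ℝ => S (cis p.2 • p.1) :=
      (S.continuous.comp cis_smul_cont).measurable
    exact (hom2_meas hm).comp h1
  apply Integrable.of_bound hmeas.aestronglyMeasurable C
  have h2 : ∀ᵐ p ∂((volume.restrict BB).prod (volume.restrict (Ioc (-π) π))), p ∈ BB ×ˢ (univ : Set ℝ) := by
    have h3 : (volume.restrict BB).prod (volume.restrict (Ioc (-π) π))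
        = ((volume : Measure C2).prod (volume : Measure ℝ)).restrict (BB ×ˢ Ioc (-π) π) :=
      Measure.prod_restrict _ _
    rw [h3]
    filter_upwards [ae_restrict_mem (BB_meas.prod measurableSet_Ioc)] with p hp
    exact ⟨hp.1, mem_univ _⟩
  filter_upwards [h2] with p hp
  apply hom2_bound hC hb
  rw [S.norm_map, norm_smul, norm_cis, one_mul]
  exact mem_closedBall_zero_iff.1 hp.1

/-- averaging over the circles `θ ↦ S (e^{iθ} x)` does nothing -/
theorem avg_eq {Φ : C2 → ℝ} (hΦ : Nice Φ)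
    (S : C2 ≃ₗᵢ[ℝ] C2) :
    ∫ x in BB, (∫ θ in (-π)..π, hom2 Φ (S (cis θ • x))) / 2 = π * ∫ x in BB, hom2 Φ x := by
  have hpi := Real.pi_pos
  have e1 : ∀ x : C2, (∫ θ in (-π)..π, hom2 Φ (S (cis θ • x))) / 2
      = (∫ θ in Ioc (-π) π, hom2 Φ (S (cis θ • x))) / 2 := by
    intro x
    rw [intervalIntegral.integral_of_le (by linarith)]
  simp only [e1]
  rw [integral_div, integral_integral_swap (avg_integrable hΦ S)]
  have e2 : ∀ θ : ℝ, ∫ x in BB, hom2 Φ (S (cis θ • x)) = ∫ x in BB, hom2 Φ x := by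
    intro θ
    exact ball_iso ((rotL (norm_cis θ)).trans S) (hom2 Φ)
  simp only [e2]
  rw [setIntegral_const, smul_eq_mul, Measure.real, Real.volume_Ioc, ENNReal.toReal_ofReal (by linarith)]
  ring

theorem avg_int_on {Φ : C2 → ℝ} (hΦ : Nice Φ)
    (S : C2 ≃ₗᵢ[ℝ] C2) :
    IntegrableOn (fun x => (∫ θ in (-π)..π, hom2 Φ (S (cis θ • x))) / 2) BB := by
  have hpi := Real.pi_pos
  have e1 : ∀ x : C2, (∫ θ in (-π)..π, hom2 Φ (S (cis θ • x))) / 2
      = (∫ θ in Ioc (-π) π, hom2 Φ (S (cis θ • x))) / 2 := by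
    intro x
    rw [intervalIntegral.integral_of_le (by linarith)]
  simp only [e1]
  exact (avg_integrable hΦ S).integral_prod_left.div_const 2

theorem avg_point (Φ : C2 → ℝ) (S : C2 ≃ₗᵢ[ℝ] C2) (x : C2) :
    (∫ θ in (-π)..π, hom2 Φ (S (cis θ • x))) / 2
      = ‖x‖ ^ 2 * ((∫ θ in (-π)..π, Φ (S (cis θ • ‖x‖⁻¹ • x))) / 2) := by
  simp only [hom2_S]
  rw [intervalIntegral.integral_const_mul]
  ring

theorem pa_zero (M : ConvexBody C2) : pa 0 M = 0 := by
  have := pa_smul 0 0 M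
  simpa using this

theorem pa_norm (x : C2) (M : ConvexBody C2) : pa x M = ‖x‖ ^ 2 * pa (‖x‖⁻¹ • x) M := by
  by_cases hx : x = 0
  · rw [hx, pa_zero]; simp
  · have hn : ‖x‖ ≠ 0 := norm_ne_zero_iff.2 hx
    rw [pa_smul]
    field_simp

theorem al_le_avg {Φ : C2 → ℝ} (hΦ : Nice Φ)
    (S : C2 ≃ₗᵢ[ℝ] C2) {M : ConvexBody C2}
    (h : ∀ x, ‖x‖ = 1 → pa x M ≤ (∫ θ in (-π)..π, Φ (S (cis θ • x))) / 2) :
    al M ≤ 3 / π * ∫ x in BB, hom2 Φ x := by
  have hpi := Real.pi_pos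
  have h1 : ∫ x in BB, pa x M ≤ ∫ x in BB, (∫ θ in (-π)..π, hom2 Φ (S (cis θ • x))) / 2 := by
    apply setIntegral_mono_on (pa_integrable M) (avg_int_on hΦ S) BB_meas
    intro x _
    rw [avg_point, pa_norm]
    by_cases hx : x = 0
    · simp [hx]
    · apply mul_le_mul_of_nonneg_left _ (by positivity)
      apply h
      exact norm_unit hx
  rw [avg_eq hΦ S] at h1
  unfold al
  have h2 := mul_le_mul_of_nonneg_left h1 (by positivity : (0:ℝ) ≤ 3 / π ^ 2)
  refine h2.trans (le_of_eq ?_)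
  field_simp

theorem al_ge_avg {Φ : C2 → ℝ} (hΦ : Nice Φ)
    (S : C2 ≃ₗᵢ[ℝ] C2) {M : ConvexBody C2}
    (h : ∀ x, ‖x‖ = 1 → (∫ θ in (-π)..π, Φ (S (cis θ • x))) / 2 ≤ pa x M) :
    3 / π * ∫ x in BB, hom2 Φ x ≤ al M := by
  have hpi := Real.pi_pos
  have h1 : ∫ x in BB, (∫ θ in (-π)..π, hom2 Φ (S (cis θ • x))) / 2 ≤ ∫ x in BB, pa x M := by
    apply setIntegral_mono_on (avg_int_on hΦ S) (pa_integrable M) BB_meas
    intro x _
    rw [avg_point, pa_norm]
    by_cases hx : x = 0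
    · simp [hx]
    · apply mul_le_mul_of_nonneg_left _ (by positivity)
      apply h
      exact norm_unit hx
  rw [avg_eq hΦ S] at h1
  unfold al
  have h2 := mul_le_mul_of_nonneg_left h1 (by positivity : (0:ℝ) ≤ 3 / π ^ 2)
  refine le_trans (le_of_eq ?_) h2
  field_simp

end Run7.h549
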