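import Pool.Agent.Run7.h549.Iface

set_option maxHeartbeats 400000
open MeasureTheory Set Filter Topology
open scoped ENNReal Real

namespace Run7.h549

section vol

variable {E : Type*} [NormedAddCommGroup E] [InnerProductSpace ℝ E] [FiniteDimensional ℝ E]
  [MeasurableSpace E] [BorelSpace E]

omit [FiniteDimensional ℝ E] [MeasurableSpace E] [BorelSpace E] in
theorem body_near {K Q : ConvexBody E} {r : ℝ} (h : dist K Q < r) {x : E} (hx : x ∈ K) :
    ∃ y ∈ (Q : Set E), dist x y < r :=
  Metric.exists_dist_lt_of_hausdorffDist_lt hx (by rw [ConvexBody.hausdorffDist_coe]; exact h)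
    ConvexBody.hausdorffEDist_ne_top

/-- interior points remain interior under small perturbations -/
theorem mem_of_ball {P Q : ConvexBody E} {x : E} {r : ℝ} (hb : Metric.ball x r ⊆ P)
    (h : dist P Q < r) : x ∈ Q := by
  by_contra hx
  have hx' : x ∉ (Q : Set E) := hx
  obtain ⟨f, c, h1, h2⟩ := geometric_hahn_banach_point_closed Q.convex Q.isClosed hx'
  set n : E := (InnerProductSpace.toDual ℝ E).symm f with hn
  have hf : ∀ y, f y = inner ℝ n y := by
    intro y
    rw [hn, InnerProductSpace.toDual_symm_apply]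
  obtain ⟨b0, hb0⟩ := Q.nonempty
  have hn0 : 0 < ‖n‖ := by
    rw [norm_pos_iff]
    intro h0
    have e1 := h2 b0 hb0
    rw [hf, h0, inner_zero_left] at h1 e1
    linarith
  obtain ⟨ρ, hρ1, hρ2⟩ := exists_between h
  have hρ0 : 0 < ρ := lt_of_le_of_lt dist_nonneg hρ1
  set y : E := x - (ρ / ‖n‖) • n with hy
  have hyb : y ∈ (P : Set E) := by
    apply hb
    rw [mem_ball_iff_norm, hy, sub_sub_cancel_left, norm_neg, norm_smul, norm_div, norm_norm,
      div_mul_cancel₀ _ hn0.ne', Real.norm_eq_abs, abs_of_pos hρ0]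
    exact hρ2
  obtain ⟨b, hb1, hb2⟩ := body_near hρ1 hyb
  have e1 := h2 b hb1
  have e2 : f b = f y + inner ℝ n (b - y) := by
    rw [hf, hf, ← inner_add_right]; congr 1; abel
  have e3 : f y = f x - ρ * ‖n‖ := by
    rw [hf, hf, hy, inner_sub_right, inner_smul_right, real_inner_self_eq_norm_sq]
    field_simp
  have e4 : inner ℝ n (b - y) ≤ ‖n‖ * dist y b := by
    rw [dist_eq_norm, norm_sub_rev]
    exact real_inner_le_norm _ _
  have e5 : ‖n‖ * dist y b < ‖n‖ * ρ := mul_lt_mul_of_pos_left hb2 hn0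
  linarith

omit [FiniteDimensional ℝ E] [MeasurableSpace E] [BorelSpace E] in
theorem body_bound (K : ConvexBody E) : ∃ R : ℝ, 0 ≤ R ∧ ∀ x ∈ (K : Set E), ‖x‖ ≤ R := by
  obtain ⟨R, hR0, hR⟩ := K.isBounded.exists_pos_norm_le
  exact ⟨R, hR0.le, hR⟩

theorem body_bound' {K Q : ConvexBody E} {R : ℝ} (hR : ∀ x ∈ (K : Set E), ‖x‖ ≤ R)
    (h : dist Q K < 1) : ∀ x ∈ (Q : Set E), ‖x‖ ≤ R + 1 := by
  intro x hx
  obtain ⟨y, hy, hd⟩ := body_near h hx
  have := hR y hy
  rw [dist_eq_norm] at hd
  have := norm_le_norm_add_norm_sub' x y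
  linarith

theorem vol_ENN_cont (μ : Measure E) [μ.IsAddHaarMeasure] :
    Continuous (fun P : ConvexBody E => μ (P : Set E)) := by
  rw [continuous_iff_continuousAt]
  intro P
  obtain ⟨R, hR0, hR⟩ := body_bound P
  refine tendsto_measure_of_ae_tendsto_indicator (𝓝 P) (B := Metric.closedBall (0 : E) (R + 1))
    P.isClosed.measurableSet (fun Q => Q.isClosed.measurableSet) Metric.isClosed_closedBall.measurableSet
    (isCompact_closedBall _ _).measure_lt_top.ne ?_ ?_
  · filter_upwards [Metric.ball_mem_nhds P one_pos] with Q hQ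
    intro x hx
    rw [mem_closedBall_zero_iff]
    exact body_bound' hR hQ x hx
  · have hfr : μ (frontier (P : Set E)) = 0 := P.convex.addHaar_frontier μ
    have hae : ∀ᵐ x ∂μ, x ∉ frontier (P : Set E) := measure_eq_zero_iff_ae_notMem.1 hfr
    filter_upwards [hae] with x hx
    by_cases hP : x ∈ (P : Set E)
    · have hint : x ∈ interior (P : Set E) := by
        by_contra hni
        apply hx
        rw [P.isClosed.frontier_eq]
        exact ⟨hP, hni⟩
      obtain ⟨r, hr, hball⟩ := Metric.isOpen_iff.1 isOpen_interior x hint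
      filter_upwards [Metric.ball_mem_nhds P hr] with Q hQ
      rw [Metric.mem_ball, dist_comm] at hQ
      exact iff_of_true (mem_of_ball (hball.trans interior_subset) hQ) hP
    · have hpos : 0 < Metric.infDist x (P : Set E) :=
        (P.isClosed.notMem_iff_infDist_pos P.nonempty).1 hP
      filter_upwards [Metric.ball_mem_nhds P hpos] with Q hQ
      refine iff_of_false ?_ hP
      intro hxQ
      have h1 : Metric.infDist x (P : Set E) ≤ Metric.hausdorffDist (Q : Set E) P :=
        Metric.infDist_le_hausdorffDist_of_mem hxQ ConvexBody.hausdorffEDist_ne_top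
      rw [ConvexBody.hausdorffDist_coe] at h1
      rw [Metric.mem_ball] at hQ
      linarith

theorem vol_cont (μ : Measure E) [μ.IsAddHaarMeasure] :
    Continuous (fun P : ConvexBody E => (μ (P : Set E)).toReal) := by
  rw [continuous_iff_continuousAt]
  intro P
  exact (ENNReal.tendsto_toReal P.isCompact.measure_lt_top.ne).comp (vol_ENN_cont μ).continuousAt

end vol

section map

variable {E F : Type*} [NormedAddCommGroup E] [NormedSpace ℝ E] [NormedAddCommGroup F]
  [NormedSpace ℝ F]

/-- the image of a convex body under a continuous linear map -/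
def mapBody (T : E →L[ℝ] F) (K : ConvexBody E) : ConvexBody F where
  carrier := T '' K
  convex' := K.convex.linear_image T.toLinearMap
  isCompact' := K.isCompact.image T.continuous
  nonempty' := K.nonempty.image T

theorem coe_mapBody (T : E →L[ℝ] F) (K : ConvexBody E) : (mapBody T K : Set F) = T '' K := rfl

theorem body_closest (K Q : ConvexBody E) {x : E} (hx : x ∈ (K : Set E)) :
    ∃ y ∈ (Q : Set E), dist x y ≤ dist K Q := by
  obtain ⟨y, hy, he⟩ := Q.isCompact.exists_infDist_eq_dist Q.nonempty x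
  refine ⟨y, hy, ?_⟩
  rw [← he, ← ConvexBody.hausdorffDist_coe]
  exact Metric.infDist_le_hausdorffDist_of_mem hx ConvexBody.hausdorffEDist_ne_top

theorem dist_mapBody (T T' : E →L[ℝ] F) (K K' : ConvexBody E) {R : ℝ} (hR0 : 0 ≤ R)
    (hR : ∀ x ∈ (K : Set E), ‖x‖ ≤ R) :
    dist (mapBody T K) (mapBody T' K') ≤ ‖T - T'‖ * R + ‖T'‖ * dist K K' := by
  have key : ∀ z ∈ (K : Set E), ∀ z' : E, dist z z' ≤ dist K K' →
      dist (T z) (T' z') ≤ ‖T - T'‖ * R + ‖T'‖ * dist K K' := by
    intro z hz z' hd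
    have e : T z - T' z' = (T - T') z + T' (z - z') := by simp
    rw [dist_eq_norm, e]
    refine (norm_add_le _ _).trans (add_le_add ?_ ?_)
    · exact ((T - T').le_opNorm z).trans (mul_le_mul_of_nonneg_left (hR z hz) (norm_nonneg _))
    · rw [dist_eq_norm] at hd
      exact (T'.le_opNorm _).trans (mul_le_mul_of_nonneg_left hd (norm_nonneg _))
  rw [← ConvexBody.hausdorffDist_coe]
  apply Metric.hausdorffDist_le_of_mem_dist (by positivity)
  · rintro _ ⟨z, hz, rfl⟩
    obtain ⟨z', hz', hd⟩ := body_closest K K' hz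
    exact ⟨T' z', mem_image_of_mem _ hz', key z hz z' hd⟩
  · rintro _ ⟨z', hz', rfl⟩
    obtain ⟨z, hz, hd⟩ := body_closest K' K hz'
    refine ⟨T z, mem_image_of_mem _ hz, ?_⟩
    rw [dist_comm]
    apply key z hz z'
    rw [dist_comm, dist_comm K K']
    exact hd

theorem mapBody_cont : Continuous (fun p : (E →L[ℝ] F) × ConvexBody E => mapBody p.1 p.2) := by
  rw [continuous_iff_continuousAt]
  rintro ⟨T, K⟩
  obtain ⟨R, hR0, hR⟩ := K.isBounded.exists_pos_norm_le
  rw [ContinuousAt, tendsto_iff_dist_tendsto_zero]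
  have hb : ∀ p : (E →L[ℝ] F) × ConvexBody E, dist (mapBody p.1 p.2) (mapBody T K)
      ≤ ‖T - p.1‖ * R + ‖p.1‖ * dist K p.2 := by
    intro p
    rw [dist_comm]
    exact dist_mapBody T p.1 K p.2 hR0.le hR
  refine squeeze_zero (fun _ => dist_nonneg) hb ?_
  have hc : Continuous (fun p : (E →L[ℝ] F) × ConvexBody E => ‖T - p.1‖ * R + ‖p.1‖ * dist K p.2) := by
    fun_prop
  have := hc.tendsto (T, K)
  simpa using this

end map

end Run7.h549
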