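import Mathlib

set_option maxHeartbeats 400000

namespace Run7.h549

open PowerSeries Finset

/-- `a k = C(6k,3k) C(3k,k)`. -/
def aa (k : ℕ) : ℕ := Nat.choose (6 * k) (3 * k) * Nat.choose (3 * k) k

/-- `b k = a k C(2k,k)`. -/
def bb (k : ℕ) : ℕ := aa k * Nat.centralBinom k

theorem aa_fact (k : ℕ) : aa k * ((3 * k).factorial * k.factorial * (2 * k).factorial) =
    (6 * k).factorial := by
  have h1 := Nat.choose_mul_factorial_mul_factorial (show 3 * k ≤ 6 * k by omega)
  have h2 := Nat.choose_mul_factorial_mul_factorial (show k ≤ 3 * k by omega)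
  rw [show 6 * k - 3 * k = 3 * k by omega] at h1
  rw [show 3 * k - k = 2 * k by omega] at h2
  unfold aa
  calc (6 * k).choose (3 * k) * (3 * k).choose k * ((3 * k).factorial * k.factorial * (2 * k).factorial)
      = (6 * k).choose (3 * k) * (3 * k).factorial * ((3 * k).choose k * k.factorial * (2 * k).factorial) := by ring
    _ = (6 * k).factorial := by rw [h2, h1]

theorem aa_succ (k : ℕ) : aa (k + 1) * (k + 1) ^ 2 = 12 * (6 * k + 1) * (6 * k + 5) * aa k := by
  have h0 := aa_fact k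
  have h1 := aa_fact (k + 1)
  have e6 : (6 * (k + 1)).factorial = (6 * k + 6) * (6 * k + 5) * (6 * k + 4) * (6 * k + 3) *
      (6 * k + 2) * (6 * k + 1) * (6 * k).factorial := by
    rw [show 6 * (k + 1) = 6 * k + 5 + 1 by ring]
    simp only [Nat.factorial_succ]
    ring
  have e3 : (3 * (k + 1)).factorial = (3 * k + 3) * (3 * k + 2) * (3 * k + 1) *
      (3 * k).factorial := by
    rw [show 3 * (k + 1) = 3 * k + 2 + 1 by ring]
    simp only [Nat.factorial_succ]
    ring
  have e2 : (2 * (k + 1)).factorial = (2 * k + 2) * (2 * k + 1) * (2 * k).factorial := by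
    rw [show 2 * (k + 1) = 2 * k + 1 + 1 by ring]
    simp only [Nat.factorial_succ]
    ring
  have e1 : (k + 1).factorial = (k + 1) * k.factorial := Nat.factorial_succ k
  rw [e6, e3, e2, e1, ← h0] at h1
  set F := (3 * k).factorial * k.factorial * (2 * k).factorial with hF
  have hFpos : 0 < F := by positivity
  have hG : 0 < 2 * (3 * k + 3) * (3 * k + 2) * (3 * k + 1) * (2 * k + 1) * F := by positivity
  apply Nat.eq_of_mul_eq_mul_left hG
  have h2 : aa (k + 1) * ((3 * k + 3) * (3 * k + 2) * (3 * k + 1) * (3 * k).factorial *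
      ((k + 1) * k.factorial) * ((2 * k + 2) * (2 * k + 1) * (2 * k).factorial)) =
      aa (k + 1) * ((3 * k + 3) * (3 * k + 2) * (3 * k + 1) * ((k + 1)) * ((2 * k + 2) *
      (2 * k + 1)) * F) := by rw [hF]; ring
  rw [h2] at h1
  linear_combination h1

theorem bb_succ (k : ℕ) : bb (k + 1) * (k + 1) ^ 3 =
    24 * (2 * k + 1) * (6 * k + 1) * (6 * k + 5) * bb k := by
  have h1 := aa_succ k
  have h2 := Nat.succ_mul_centralBinom_succ k
  unfold bb
  calc aa (k + 1) * (k + 1).centralBinom * (k + 1) ^ 3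
      = (aa (k + 1) * (k + 1) ^ 2) * ((k + 1) * (k + 1).centralBinom) := by ring
    _ = _ := by rw [h1, h2]; ring

/-- The derivation `X d/dX`. -/
noncomputable def th : Derivation ℚ ℚ⟦X⟧ ℚ⟦X⟧ := (X : ℚ⟦X⟧) • derivative ℚ

theorem th_apply (f : ℚ⟦X⟧) : th f = X * derivative ℚ f := rfl

theorem th_mul (f g : ℚ⟦X⟧) : th (f * g) = f * th g + g * th f := by
  rw [Derivation.leibniz]; rfl

theorem th_X : th (X : ℚ⟦X⟧) = X := by rw [th_apply, derivative_X, mul_one]

theorem th_natCast (n : ℕ) : th (n : ℚ⟦X⟧) = 0 := Derivation.map_natCast _ _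

theorem th_2 : th (2 : ℚ⟦X⟧) = 0 := by exact_mod_cast th_natCast 2
theorem th_60 : th (60 : ℚ⟦X⟧) = 0 := by exact_mod_cast th_natCast 60
theorem th_432 : th (432 : ℚ⟦X⟧) = 0 := by exact_mod_cast th_natCast 432
theorem th_864 : th (864 : ℚ⟦X⟧) = 0 := by exact_mod_cast th_natCast 864
theorem th_one : th (1 : ℚ⟦X⟧) = 0 := by exact_mod_cast th_natCast 1

theorem coeff_th (f : ℚ⟦X⟧) (n : ℕ) : coeff n (th f) = n * coeff n f := by
  rw [th_apply]
  cases n with
  | zero => simp
  | succ n =>
    rw [coeff_succ_X_mul, coeff_derivative]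
    push_cast
    ring

noncomputable def DD : ℚ⟦X⟧ := 1 - 432 * X
noncomputable def ss : ℚ⟦X⟧ := 1 - 864 * X
noncomputable def uu : ℚ⟦X⟧ := X * DD

theorem th_DD : th DD = -(432 * X) := by
  unfold DD
  rw [map_sub, th_mul, th_X, th_432, th_one]
  ring

theorem th_ss : th ss = -(864 * X) := by
  unfold ss
  rw [map_sub, th_mul, th_X, th_864, th_one]
  ring

theorem th_uu : th uu = X * ss := by
  unfold uu
  rw [th_mul, th_X, th_DD]
  unfold DD ss
  ring

/-- The third order operator. -/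
noncomputable def LL (f : ℚ⟦X⟧) : ℚ⟦X⟧ :=
  DD ^ 2 * th (th (th f)) - 1296 * X * DD * th (th f)
    - (672 * X - 476928 * X ^ 2) * th f - (120 * X - 103680 * X ^ 2) * f

theorem LL_sub (f g : ℚ⟦X⟧) : LL (f - g) = LL f - LL g := by
  unfold LL
  simp only [map_sub]
  ring

theorem LL_add (f g : ℚ⟦X⟧) : LL (f + g) = LL f + LL g := by
  unfold LL
  simp only [map_add]
  ring

noncomputable def yy : ℚ⟦X⟧ := PowerSeries.mk fun k => (aa k : ℚ)

theorem yy_ode : DD * th (th yy) = 432 * X * th yy + 60 * X * yy := by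
  ext n
  unfold DD
  cases n with
  | zero =>
    have h1 : (1 - 432 * X) * th (th yy) = th (th yy) - X * (432 * th (th yy)) := by ring
    have h2 : 432 * X * th yy + 60 * X * yy = X * (432 * th yy + 60 * yy) := by ring
    rw [h1, h2, map_sub, coeff_zero_X_mul, coeff_zero_X_mul, coeff_th]
    simp
  | succ n =>
    have h1 : (1 - 432 * X) * th (th yy) = th (th yy) - X * ((432 : ℕ) • th (th yy)) := by
      rw [nsmul_eq_mul]; push_cast; ring
    have h2 : 432 * X * th yy + 60 * X * yy = X * ((432 : ℕ) • th yy + (60 : ℕ) • yy) := by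
      rw [nsmul_eq_mul, nsmul_eq_mul]; push_cast; ring
    rw [h1, h2, map_sub, coeff_succ_X_mul, coeff_succ_X_mul, map_add, map_nsmul, map_nsmul,
      map_nsmul]
    simp only [coeff_th]
    have ha : coeff n yy = (aa n : ℚ) := by simp [yy]
    have hb : coeff (n + 1) yy = (aa (n + 1) : ℚ) := by simp [yy]
    rw [ha, hb]
    have h := aa_succ n
    have h' : (aa (n + 1) : ℚ) * ((n : ℚ) + 1) ^ 2 = 12 * (6 * n + 1) * (6 * n + 5) * aa n := by
      exact_mod_cast h
    push_cast
    simp only [nsmul_eq_mul]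
    push_cast
    linear_combination h'

theorem yy_ode2 : -(432 * X) * th (th yy) + DD * th (th (th yy)) =
    432 * X * th yy + 432 * X * th (th yy) + 60 * X * yy + 60 * X * th yy := by
  have h := congrArg th yy_ode
  simp only [map_add, th_mul, th_X, th_DD, th_432, th_60] at h
  linear_combination h

theorem LL_yy : LL (yy * yy) = 0 := by
  have h1 := yy_ode
  have h2 := yy_ode2
  have e1 : th (yy * yy) = 2 * (yy * th yy) := by rw [th_mul]; ring
  have e2 : th (th (yy * yy)) = 2 * (th yy * th yy) + 2 * (yy * th (th yy)) := by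
    rw [e1, th_mul, th_mul, th_2]; ring
  have e3 : th (th (th (yy * yy))) = 6 * (th yy * th (th yy)) + 2 * (yy * th (th (th yy))) := by
    rw [e2, map_add, th_mul, th_mul, th_mul, th_mul, th_2]; ring
  unfold LL
  rw [e3, e2, e1]
  clear e1 e2 e3
  generalize th (th (th yy)) = y3 at *
  generalize th (th yy) = y2 at *
  generalize th yy = y1 at *
  unfold DD at *
  linear_combination (6 * y1 * (1 - 432 * X) - 864 * X * yy) * h1 + 2 * yy * (1 - 432 * X) * h2

theorem E1 (k : ℕ) : DD * th (uu ^ k) = (k : ℚ⟦X⟧) * ss * uu ^ k := by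
  induction k with
  | zero => simp
  | succ k ih =>
    rw [pow_succ, th_mul, th_uu]
    push_cast
    have : DD * (uu ^ k * (X * ss) + uu * th (uu ^ k)) =
      uu ^ k * ss * (X * DD) + uu * (DD * th (uu ^ k)) := by ring
    rw [this, ih]
    have hu : X * DD = uu := rfl
    rw [hu]
    ring

theorem E2 (k : ℕ) : -(432 * X) * th (uu ^ k) + DD * th (th (uu ^ k)) =
    (k : ℚ⟦X⟧) * (-(864 * X) * uu ^ k + ss * th (uu ^ k)) := by
  have h := congrArg th (E1 k)
  simp only [th_mul, th_DD, th_ss, th_natCast] at h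
  linear_combination h

theorem E3 (k : ℕ) : -(432 * X) * th (uu ^ k) - 864 * X * th (th (uu ^ k)) +
    DD * th (th (th (uu ^ k))) =
    (k : ℚ⟦X⟧) * (-(864 * X) * uu ^ k - 1728 * X * th (uu ^ k) + ss * th (th (uu ^ k))) := by
  have h := congrArg th (E2 k)
  simp only [map_add, map_neg, th_mul, th_X, th_DD, th_ss, th_natCast, th_432, th_864] at h
  linear_combination h

theorem LL_pow (k : ℕ) : DD * LL (uu ^ k) =
    ss * ((k : ℚ⟦X⟧) ^ 3 - 24 * (2 * k + 1) * (6 * k + 1) * (6 * k + 5) * uu) * uu ^ k := by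
  have h1 := E1 k
  have h2 := E2 k
  have h3 := E3 k
  unfold LL
  generalize uu ^ k = f at *
  generalize th f = f1 at *
  generalize th f1 = f2 at *
  generalize th f2 = f3 at *
  have hu : uu = X * DD := rfl
  rw [hu]
  unfold DD ss at *
  linear_combination (1 - 432 * X) ^ 2 * h3 +
    ((k : ℚ⟦X⟧) * (1 - 864 * X) - 432 * X) * (1 - 432 * X) * h2 +
    (((k : ℚ⟦X⟧) * (1 - 864 * X) - 432 * X) * (432 * X + k * (1 - 864 * X)) +
      (432 * X - 1728 * k * X) * (1 - 432 * X) - (672 * X - 476928 * X ^ 2)) * h1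

end Run7.h549
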