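import Pool.Agent.Run7.h549.Cv1

set_option maxHeartbeats 400000

namespace Run7.h549

open PowerSeries Finset

noncomputable def PN (N : ℕ) : ℚ⟦X⟧ := ∑ k ∈ range (N + 1), ((bb k : ℕ) : ℚ⟦X⟧) * uu ^ k

theorem LL_natCast_mul (c : ℕ) (f : ℚ⟦X⟧) : LL ((c : ℚ⟦X⟧) * f) = c * LL f := by
  have h : ∀ g : ℚ⟦X⟧, th ((c : ℚ⟦X⟧) * g) = c * th g := by
    intro g
    rw [th_mul, th_natCast]; ring
  unfold LL
  rw [h, h, h]
  ring

theorem LL_PN (N : ℕ) : DD * LL (PN N) =
    -(ss * (((bb (N + 1) : ℕ) : ℚ⟦X⟧) * ((N : ℚ⟦X⟧) + 1) ^ 3) * uu ^ (N + 1)) := by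
  have hb : ∀ k : ℕ, ((bb (k + 1) : ℕ) : ℚ⟦X⟧) * ((k : ℚ⟦X⟧) + 1) ^ 3 =
      24 * (2 * k + 1) * (6 * k + 1) * (6 * k + 5) * ((bb k : ℕ) : ℚ⟦X⟧) := by
    intro k
    have h := congrArg (fun t : ℕ => (t : ℚ⟦X⟧)) (bb_succ k)
    push_cast at h
    exact h
  induction N with
  | zero =>
    have h := LL_pow 0
    have h0 := hb 0
    unfold PN
    rw [range_one, sum_singleton, LL_natCast_mul]
    push_cast at *
    linear_combination ((bb 0 : ℕ) : ℚ⟦X⟧) * h + ss * uu * h0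
  | succ N ih =>
    have h := LL_pow (N + 1)
    have h0 := hb (N + 1)
    have hs : PN (N + 1) = PN N + ((bb (N + 1) : ℕ) : ℚ⟦X⟧) * uu ^ (N + 1) := by
      unfold PN
      rw [sum_range_succ]
    rw [hs, LL_add, LL_natCast_mul]
    push_cast at *
    linear_combination ih + ((bb (N + 1) : ℕ) : ℚ⟦X⟧) * h + ss * uu ^ (N + 2) * h0

theorem DD_ne : DD ≠ 0 := by
  intro h
  have := congrArg (coeff 0) h
  unfold DD at this
  simp at this

theorem LL_delta (N : ℕ) : LL (yy * yy - PN N) =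
    X ^ (N + 1) * (ss * (((bb (N + 1) : ℕ) : ℚ⟦X⟧) * ((N : ℚ⟦X⟧) + 1) ^ 3) * DD ^ N) := by
  apply mul_left_cancel₀ DD_ne
  rw [LL_sub, LL_yy, mul_sub, LL_PN]
  have hu : uu = X * DD := rfl
  rw [hu, mul_pow]
  ring

theorem LL_expand (f : ℚ⟦X⟧) : LL f = th (th (th f)) -
    X * ((864 : ℕ) • th (th (th f)) + (1296 : ℕ) • th (th f) + (672 : ℕ) • th f + (120 : ℕ) • f) +
    X * (X * ((186624 : ℕ) • th (th (th f)) + (559872 : ℕ) • th (th f) + (476928 : ℕ) • th f +
      (103680 : ℕ) • f)) := by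
  unfold LL DD
  simp only [nsmul_eq_mul]
  push_cast
  ring

theorem coeff_LL_succ_succ (f : ℚ⟦X⟧) (n : ℕ) (h0 : coeff n f = 0) (h1 : coeff (n + 1) f = 0) :
    coeff (n + 2) (LL f) = ((n : ℚ) + 2) ^ 3 * coeff (n + 2) f := by
  rw [LL_expand, map_add, map_sub, coeff_succ_X_mul, coeff_succ_X_mul, coeff_succ_X_mul]
  simp only [map_add, map_nsmul, coeff_th, h0, h1]
  push_cast
  simp only [nsmul_eq_mul]
  ring

theorem coeff_LL_one (f : ℚ⟦X⟧) (h0 : coeff 0 f = 0) : coeff 1 (LL f) = coeff 1 f := by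
  rw [LL_expand, map_add, map_sub, coeff_succ_X_mul, coeff_succ_X_mul, coeff_zero_X_mul]
  simp only [map_add, map_nsmul, coeff_th, h0]
  push_cast
  simp only [nsmul_eq_mul]
  ring

theorem uniq (f : ℚ⟦X⟧) (N : ℕ) (h0 : coeff 0 f = 0)
    (h : ∀ m ≤ N, coeff m (LL f) = 0) : ∀ m ≤ N, coeff m f = 0 := by
  intro m
  induction m using Nat.strong_induction_on with
  | _ m ih =>
    intro hm
    match m, ih, hm with
    | 0, _, _ => exact h0
    | 1, _, hm => rw [← coeff_LL_one f h0]; exact h 1 hm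
    | (k + 2), ih, hm =>
      have a := ih k (by omega) (by omega)
      have b := ih (k + 1) (by omega) (by omega)
      have c := coeff_LL_succ_succ f k a b
      rw [h (k + 2) hm] at c
      have hpos : ((k : ℚ) + 2) ^ 3 ≠ 0 := by positivity
      exact (mul_eq_zero.mp c.symm).resolve_left hpos

theorem coeff_DD_pow (k j : ℕ) : coeff j (DD ^ k) = (-432) ^ j * (Nat.choose k j : ℚ) := by
  induction k generalizing j with
  | zero =>
    cases j with
    | zero => simp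
    | succ j => simp [coeff_one]
  | succ k ih =>
    have h : DD ^ (k + 1) = DD ^ k - X * ((432 : ℕ) • DD ^ k) := by
      rw [pow_succ]
      nth_rewrite 2 [DD]
      rw [nsmul_eq_mul]; push_cast; ring
    rw [h, map_sub]
    cases j with
    | zero =>
      rw [coeff_zero_X_mul, ih 0]
      simp
    | succ j =>
      rw [coeff_succ_X_mul, map_nsmul, ih, ih, Nat.choose_succ_succ]
      simp only [nsmul_eq_mul]
      push_cast
      ring

theorem coeff_uu_pow (k m : ℕ) : coeff m (uu ^ k) =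
    if k ≤ m then (-432) ^ (m - k) * (Nat.choose k (m - k) : ℚ) else 0 := by
  have hu : uu = X * DD := rfl
  rw [hu, mul_pow, coeff_X_pow_mul']
  split_ifs with h
  · rw [coeff_DD_pow]
  · rfl

theorem coeff_PN (N m : ℕ) : coeff m (PN N) = ∑ k ∈ range (N + 1), (bb k : ℚ) *
    (if k ≤ m then (-432) ^ (m - k) * (Nat.choose k (m - k) : ℚ) else 0) := by
  unfold PN
  rw [map_sum]
  apply sum_congr rfl
  intro k _
  have : ((bb k : ℕ) : ℚ⟦X⟧) * uu ^ k = (bb k) • uu ^ k := by rw [nsmul_eq_mul]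
  rw [this, map_nsmul, coeff_uu_pow, nsmul_eq_mul]

theorem coeff_eq (N : ℕ) : coeff N (yy * yy) = coeff N (PN N) := by
  have h0 : coeff 0 (yy * yy - PN N) = 0 := by
    have hy0 : coeff 0 (yy * yy) = 1 := by
      rw [coeff_zero_eq_constantCoeff_apply, map_mul, ← coeff_zero_eq_constantCoeff_apply]
      simp [yy, aa]
    rw [map_sub, coeff_PN, hy0]
    rw [sum_eq_single 0]
    · simp [bb, aa]
    · intro b _ hb
      rw [if_neg (by omega)]; ring
    · intro h; simp at h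
  have h1 : ∀ m ≤ N, coeff m (LL (yy * yy - PN N)) = 0 := by
    intro m hm
    rw [LL_delta, coeff_X_pow_mul', if_neg (by omega)]
  have h2 := uniq _ N h0 h1 N le_rfl
  rw [map_sub] at h2
  linarith

theorem conv_identity (n : ℕ) : (∑ j ∈ range (n + 1), ((aa j * aa (n - j) : ℕ) : ℤ)) =
    ∑ k ∈ range (n + 1), ((bb k * Nat.choose k (n - k) : ℕ) : ℤ) * (-432) ^ (n - k) := by
  have h := coeff_eq n
  rw [coeff_mul, Finset.Nat.sum_antidiagonal_eq_sum_range_succ
    (fun i j => coeff i yy * coeff j yy) n, coeff_PN] at h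
  have hy : ∀ i, coeff i yy = (aa i : ℚ) := fun i => by simp [yy]
  simp only [hy] at h
  have h' : (∑ j ∈ range (n + 1), ((aa j * aa (n - j) : ℕ) : ℚ)) =
    ∑ k ∈ range (n + 1), ((bb k * Nat.choose k (n - k) : ℕ) : ℚ) * (-432) ^ (n - k) := by
    push_cast
    rw [Nat.succ_eq_add_one] at h
    rw [h]
    apply sum_congr rfl
    intro k hk
    rw [if_pos (by simp at hk; omega)]
    ring
  exact_mod_cast h'

end Run7.h549
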