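import Pool.Agent.Run7.h549.Cv2

set_option maxHeartbeats 400000

namespace Run7.h549

open Finset

theorem floor_lin (i j m l q : ℕ) (hq : 0 < q) :
    (i * m + j * l) / q = i * (m / q) + j * (l / q) + (i * (m % q) + j * (l % q)) / q := by
  have h1 := Nat.div_add_mod m q
  have h2 := Nat.div_add_mod l q
  have : i * m + j * l = (i * (m % q) + j * (l % q)) + q * (i * (m / q) + j * (l / q)) := by
    nth_rewrite 1 [← h1]
    nth_rewrite 1 [← h2]
    ring
  rw [this, Nat.add_mul_div_left _ _ hq]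
  ring

theorem core_ineq (q μ ν : ℕ) (hq : 0 < q) (hμ : μ < q) (hν : ν < q) :
    (6 * μ + 3 * ν) / q + (3 * μ + 3 * ν) / q + 2 * ((μ + ν) / q) ≤
      (6 * μ + 6 * ν) / q + (2 * μ + ν) / q + (4 * μ + 2 * ν) / q := by
  have a1 : (3 * μ + 3 * ν) / q = (6 * μ + 6 * ν) / q / 2 := by
    rw [Nat.div_div_eq_div_mul, show 6 * μ + 6 * ν = (3 * μ + 3 * ν) * 2 by ring,
      Nat.mul_div_mul_right _ _ (by norm_num)]
  have a2 : (μ + ν) / q = (6 * μ + 6 * ν) / q / 6 := by
    rw [Nat.div_div_eq_div_mul, show 6 * μ + 6 * ν = (μ + ν) * 6 by ring,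
      Nat.mul_div_mul_right _ _ (by norm_num)]
  have b1 : (6 * μ + 3 * ν) / q = (12 * μ + 6 * ν) / q / 2 := by
    rw [Nat.div_div_eq_div_mul, show 12 * μ + 6 * ν = (6 * μ + 3 * ν) * 2 by ring,
      Nat.mul_div_mul_right _ _ (by norm_num)]
  have b2 : (2 * μ + ν) / q = (12 * μ + 6 * ν) / q / 6 := by
    rw [Nat.div_div_eq_div_mul, show 12 * μ + 6 * ν = (2 * μ + ν) * 6 by ring,
      Nat.mul_div_mul_right _ _ (by norm_num)]
  have b3 : (4 * μ + 2 * ν) / q = (12 * μ + 6 * ν) / q / 3 := by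
    rw [Nat.div_div_eq_div_mul, show 12 * μ + 6 * ν = (4 * μ + 2 * ν) * 3 by ring,
      Nat.mul_div_mul_right _ _ (by norm_num)]
  rw [a1, a2, b1, b2, b3]
  have hB1 := Nat.div_mul_le_self (6 * μ + 6 * ν) q
  have hB2 := Nat.lt_div_mul_add (a := 6 * μ + 6 * ν) hq
  have hG1 := Nat.div_mul_le_self (12 * μ + 6 * ν) q
  have hG2 := Nat.lt_div_mul_add (a := 12 * μ + 6 * ν) hq
  have hB3 : (6 * μ + 6 * ν) / q < 12 := by
    rw [Nat.div_lt_iff_lt_mul hq]; omega
  have hG3 : (12 * μ + 6 * ν) / q < 18 := by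
    rw [Nat.div_lt_iff_lt_mul hq]; omega
  generalize (6 * μ + 6 * ν) / q = B at *
  generalize (12 * μ + 6 * ν) / q = G at *
  clear a1 a2 b1 b2 b3
  interval_cases B <;> interval_cases G <;> omega

theorem core_strict (q μ ν w : ℕ) (hq : 4 ≤ q) (hμ : μ < q) (hν : ν < q)
    (hw : 4 * μ + 2 * ν = q * w + 1) :
    1 + (6 * μ + 3 * ν) / q + (3 * μ + 3 * ν) / q + 2 * ((μ + ν) / q) ≤
      (6 * μ + 6 * ν) / q + (2 * μ + ν) / q + (4 * μ + 2 * ν) / q := by
  have hq0 : 0 < q := by omega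
  have a1 : (3 * μ + 3 * ν) / q = (6 * μ + 6 * ν) / q / 2 := by
    rw [Nat.div_div_eq_div_mul, show 6 * μ + 6 * ν = (3 * μ + 3 * ν) * 2 by ring,
      Nat.mul_div_mul_right _ _ (by norm_num)]
  have a2 : (μ + ν) / q = (6 * μ + 6 * ν) / q / 6 := by
    rw [Nat.div_div_eq_div_mul, show 6 * μ + 6 * ν = (μ + ν) * 6 by ring,
      Nat.mul_div_mul_right _ _ (by norm_num)]
  have b1 : (6 * μ + 3 * ν) / q = (12 * μ + 6 * ν) / q / 2 := by
    rw [Nat.div_div_eq_div_mul, show 12 * μ + 6 * ν = (6 * μ + 3 * ν) * 2 by ring,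
      Nat.mul_div_mul_right _ _ (by norm_num)]
  have b2 : (2 * μ + ν) / q = (12 * μ + 6 * ν) / q / 6 := by
    rw [Nat.div_div_eq_div_mul, show 12 * μ + 6 * ν = (2 * μ + ν) * 6 by ring,
      Nat.mul_div_mul_right _ _ (by norm_num)]
  have b3 : (4 * μ + 2 * ν) / q = (12 * μ + 6 * ν) / q / 3 := by
    rw [Nat.div_div_eq_div_mul, show 12 * μ + 6 * ν = (4 * μ + 2 * ν) * 3 by ring,
      Nat.mul_div_mul_right _ _ (by norm_num)]
  have hG : (12 * μ + 6 * ν) / q = 3 * w := by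
    have : 12 * μ + 6 * ν = 3 + q * (3 * w) := by
      have : 12 * μ + 6 * ν = 3 * (4 * μ + 2 * ν) := by ring
      rw [this, hw]; ring
    rw [this, Nat.add_mul_div_left _ _ hq0, Nat.div_eq_of_lt (by omega)]
    ring
  rw [a1, a2, b1, b2, b3, hG]
  have hB1 := Nat.div_mul_le_self (6 * μ + 6 * ν) q
  have hB2 := Nat.lt_div_mul_add (a := 6 * μ + 6 * ν) hq0
  have hB3 : (6 * μ + 6 * ν) / q < 12 := by
    rw [Nat.div_lt_iff_lt_mul hq0]; omega
  have hw6 : w < 6 := by
    by_contra hcon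
    have : q * 6 ≤ q * w := Nat.mul_le_mul_left q (by omega)
    omega
  generalize (6 * μ + 6 * ν) / q = B at *
  clear a1 a2 b1 b2 b3 hG
  interval_cases w <;> interval_cases B <;> omega

/-- The floor inequality used for each prime power `q`. -/
theorem floor_ineq (m l q : ℕ) (hq : 2 ≤ q) (hn : 1 ≤ 2 * m + l) :
    (if q ∣ 2 * (2 * m + l) - 1 then 1 else 0) + (3 * (2 * m + l)) / q + (3 * (m + l)) / q +
      2 * ((m + l) / q) + m / q + l / q ≤
    (if q ∣ 3 then 1 else 0) + (6 * (m + l)) / q + (2 * m + l) / q + (2 * (2 * m + l)) / q := by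
  have hq0 : 0 < q := by omega
  have e1 : (3 * (2 * m + l)) / q = 6 * (m / q) + 3 * (l / q) + (6 * (m % q) + 3 * (l % q)) / q := by
    rw [← floor_lin _ _ _ _ _ hq0]; congr 1; ring
  have e2 : (3 * (m + l)) / q = 3 * (m / q) + 3 * (l / q) + (3 * (m % q) + 3 * (l % q)) / q := by
    rw [← floor_lin _ _ _ _ _ hq0]; congr 1; ring
  have e3 : (m + l) / q = (m / q) + (l / q) + ((m % q) + (l % q)) / q := by
    have := floor_lin 1 1 m l q hq0
    simpa using this
  have e4 : (6 * (m + l)) / q = 6 * (m / q) + 6 * (l / q) + (6 * (m % q) + 6 * (l % q)) / q := by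
    rw [← floor_lin _ _ _ _ _ hq0]; congr 1; ring
  have e5 : (2 * m + l) / q = 2 * (m / q) + (l / q) + (2 * (m % q) + (l % q)) / q := by
    have := floor_lin 2 1 m l q hq0
    simpa using this
  have e6 : (2 * (2 * m + l)) / q = 4 * (m / q) + 2 * (l / q) + (4 * (m % q) + 2 * (l % q)) / q := by
    rw [← floor_lin _ _ _ _ _ hq0]; congr 1; ring
  rw [e1, e2, e3, e4, e5, e6]
  have hμ : m % q < q := Nat.mod_lt _ hq0
  have hν : l % q < q := Nat.mod_lt _ hq0
  have base := core_ineq q (m % q) (l % q) hq0 hμ hν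
  by_cases h1 : q ∣ 2 * (2 * m + l) - 1
  · rw [if_pos h1]
    by_cases h3 : q ∣ 3
    · rw [if_pos h3]; omega
    · rw [if_neg h3]
      obtain ⟨w, hw⟩ := h1
      have hq2 : q ≠ 2 := by rintro rfl; omega
      have hq3 : q ≠ 3 := by rintro rfl; exact h3 (dvd_refl _)
      have hq4 : 4 ≤ q := by omega
      have hm := Nat.div_add_mod m q
      have hl := Nat.div_add_mod l q
      -- `4 μ + 2 ν = q w' + 1`
      have key : ∃ w', 4 * (m % q) + 2 * (l % q) = q * w' + 1 := by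
        have h4 : 4 * m + 2 * l = q * w + 1 := by omega
        have h5 : 4 * (m % q) + 2 * (l % q) + q * (4 * (m / q) + 2 * (l / q)) = q * w + 1 := by
          rw [← h4]
          nth_rewrite 3 [← hm]
          nth_rewrite 3 [← hl]
          ring
        have h6 : 4 * (m / q) + 2 * (l / q) ≤ w := by
          by_contra hcon
          have : q * (w + 1) ≤ q * (4 * (m / q) + 2 * (l / q)) := Nat.mul_le_mul_left q (by omega)
          have h7 : q * (w + 1) = q * w + q := by ring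
          omega
        refine ⟨w - (4 * (m / q) + 2 * (l / q)), ?_⟩
        rw [Nat.mul_sub]
        have h8 : q * (4 * (m / q) + 2 * (l / q)) ≤ q * w := Nat.mul_le_mul_left q h6
        omega
      obtain ⟨w', hw'⟩ := key
      have st := core_strict q (m % q) (l % q) w' hq4 hμ hν hw'
      omega
  · rw [if_neg h1]
    split_ifs <;> omega

end Run7.h549
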