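import Pool.Agent.Run7.h549.Cv3

set_option maxHeartbeats 400000

namespace Run7.h549

open Finset Nat

theorem fact_dvd (m l : ℕ) (hn : 1 ≤ 2 * m + l) :
    (2 * (2 * m + l) - 1) * ((3 * (2 * m + l))! * ((3 * (m + l))! * ((m + l)! * ((m + l)! *
      (m ! * l !))))) ∣
    3 * ((6 * (m + l))! * ((2 * m + l)! * (2 * (2 * m + l))!)) := by
  have hf : ∀ x : ℕ, x ! ≠ 0 := Nat.factorial_ne_zero
  have h0 : 2 * (2 * m + l) - 1 ≠ 0 := by omega
  have hL : (2 * (2 * m + l) - 1) * ((3 * (2 * m + l))! * ((3 * (m + l))! * ((m + l)! *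
      ((m + l)! * (m ! * l !))))) ≠ 0 := by
    simp only [ne_eq, mul_eq_zero, not_or]
    exact ⟨h0, hf _, hf _, hf _, hf _, hf _, hf _⟩
  have hR : 3 * ((6 * (m + l))! * ((2 * m + l)! * (2 * (2 * m + l))!)) ≠ 0 := by
    simp only [ne_eq, mul_eq_zero, not_or]
    exact ⟨by norm_num, hf _, hf _, hf _⟩
  rw [← Nat.factorization_prime_le_iff_dvd hL hR]
  intro p hp
  set b : ℕ := 6 * (m + l) + 3 * (2 * m + l) + 5 with hb
  have hlog : ∀ x, x ≤ 6 * (m + l) + 3 * (2 * m + l) → Nat.log p x < b := by
    intro x hx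
    exact lt_of_le_of_lt (Nat.log_le_self p x) (by omega)
  have hpow : ∀ x, x < b → x < p ^ b := fun x hx =>
    lt_trans hx (Nat.lt_pow_self hp.one_lt)
  rw [Nat.factorization_mul h0 (by simp only [ne_eq, mul_eq_zero, not_or]; exact ⟨hf _, hf _, hf _, hf _, hf _, hf _⟩),
    Nat.factorization_mul (hf _) (by simp only [ne_eq, mul_eq_zero, not_or]; exact ⟨hf _, hf _, hf _, hf _, hf _⟩),
    Nat.factorization_mul (hf _) (by simp only [ne_eq, mul_eq_zero, not_or]; exact ⟨hf _, hf _, hf _, hf _⟩),
    Nat.factorization_mul (hf _) (by simp only [ne_eq, mul_eq_zero, not_or]; exact ⟨hf _, hf _, hf _⟩),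
    Nat.factorization_mul (hf _) (by simp only [ne_eq, mul_eq_zero, not_or]; exact ⟨hf _, hf _⟩),
    Nat.factorization_mul (hf _) (hf _),
    Nat.factorization_mul (by norm_num) (by simp only [ne_eq, mul_eq_zero, not_or]; exact ⟨hf _, hf _, hf _⟩),
    Nat.factorization_mul (hf _) (by simp only [ne_eq, mul_eq_zero, not_or]; exact ⟨hf _, hf _⟩),
    Nat.factorization_mul (hf _) (hf _)]
  simp only [Finsupp.coe_add, Pi.add_apply]
  rw [Nat.factorization_eq_card_pow_dvd_of_lt hp (by omega) (hpow _ (by omega)),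
    Nat.factorization_eq_card_pow_dvd_of_lt hp (by omega : 0 < 3) (hpow 3 (by omega)),
    Nat.factorization_factorial hp (hlog (3 * (2 * m + l)) (by omega)),
    Nat.factorization_factorial hp (hlog (3 * (m + l)) (by omega)),
    Nat.factorization_factorial hp (hlog (m + l) (by omega)),
    Nat.factorization_factorial hp (hlog m (by omega)),
    Nat.factorization_factorial hp (hlog l (by omega)),
    Nat.factorization_factorial hp (hlog (6 * (m + l)) (by omega)),
    Nat.factorization_factorial hp (hlog (2 * m + l) (by omega)),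
    Nat.factorization_factorial hp (hlog (2 * (2 * m + l)) (by omega)),
    Finset.card_filter, Finset.card_filter]
  simp only [← Finset.sum_add_distrib]
  apply Finset.sum_le_sum
  intro i hi
  rw [Finset.mem_Ico] at hi
  have hq : 2 ≤ p ^ i := by
    calc 2 ≤ p := hp.two_le
      _ = p ^ 1 := (pow_one p).symm
      _ ≤ p ^ i := Nat.pow_le_pow_right hp.pos hi.1
  have := floor_ineq m l (p ^ i) hq hn
  omega

theorem term_eq (m l : ℕ) :
    (bb (m + l) * Nat.choose (m + l) m) * ((3 * (m + l))! * ((m + l)! * ((m + l)! *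
      (m ! * l !)))) = (6 * (m + l))! := by
  have h1 := aa_fact (m + l)
  have h2 : Nat.centralBinom (m + l) * ((m + l)! * (m + l)!) = (2 * (m + l))! := by
    have := Nat.choose_mul_factorial_mul_factorial (show m + l ≤ 2 * (m + l) by omega)
    rw [show 2 * (m + l) - (m + l) = m + l by omega] at this
    rw [Nat.centralBinom, ← this]; ring
  have h3 : Nat.choose (m + l) m * (m ! * l !) = (m + l)! := by
    have := Nat.choose_mul_factorial_mul_factorial (show m ≤ m + l by omega)
    rw [show m + l - m = l by omega] at this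
    rw [← this]; ring
  unfold bb
  calc aa (m + l) * (m + l).centralBinom * (m + l).choose m * ((3 * (m + l))! * ((m + l)! *
        ((m + l)! * (m ! * l !))))
      = aa (m + l) * ((3 * (m + l))! * ((m + l).choose m * (m ! * l !)) *
        ((m + l).centralBinom * ((m + l)! * (m + l)!))) := by ring
    _ = (6 * (m + l))! := by rw [h3, h2, h1]

theorem choose_eq' (n : ℕ) : Nat.choose (3 * n) n * (n ! * (2 * n)!) = (3 * n)! := by
  have := Nat.choose_mul_factorial_mul_factorial (show n ≤ 3 * n by omega)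
  rw [show 3 * n - n = 2 * n by omega] at this
  rw [← this]; ring

/-- `(2n-1) C(3n,n)` divides three times the term with index `k = m + l`, where `n = 2m + l`. -/
theorem term_dvd (m l : ℕ) (hn : 1 ≤ 2 * m + l) :
    (2 * (2 * m + l) - 1) * Nat.choose (3 * (2 * m + l)) (2 * m + l) ∣
      3 * (bb (m + l) * Nat.choose (m + l) m) := by
  have h := fact_dvd m l hn
  have e1 := term_eq m l
  have e2 := choose_eq' (2 * m + l)
  rw [← e1, ← e2] at h
  set W := (3 * (m + l))! * ((m + l)! * ((m + l)! * (m ! * l !))) with hW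
  set V := (2 * m + l)! * (2 * (2 * m + l))! with hV
  have hpos : 0 < V * W := by positivity
  apply Nat.dvd_of_mul_dvd_mul_right hpos
  have a1 : (2 * (2 * m + l) - 1) * ((3 * (2 * m + l)).choose (2 * m + l) * V * W) =
      (2 * (2 * m + l) - 1) * (3 * (2 * m + l)).choose (2 * m + l) * (V * W) := by ring
  have a2 : 3 * (bb (m + l) * (m + l).choose m * W * V) =
      3 * (bb (m + l) * (m + l).choose m) * (V * W) := by ring
  rw [← a1, ← a2]
  exact h

theorem digsum_double (m : ℕ) : (Nat.digits 2 (2 * m)).sum = (Nat.digits 2 m).sum := by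
  rcases Nat.eq_zero_or_pos m with rfl | h
  · simp
  · rw [Nat.digits_def' (by norm_num) (by omega)]
    simp

theorem digsum_pos (m : ℕ) (h : 0 < m) : 0 < (Nat.digits 2 m).sum := by
  induction m using Nat.strong_induction_on with
  | _ m ih =>
    rw [Nat.digits_def' (by norm_num) h, List.sum_cons]
    rcases Nat.mod_two_eq_zero_or_one m with h0 | h0
    · have := ih (m / 2) (by omega) (by omega)
      omega
    · omega

theorem digsum_three (n : ℕ) (h : 0 < n) : 2 ≤ (Nat.digits 2 (3 * n)).sum := by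
  induction n using Nat.strong_induction_on with
  | _ n ih =>
    rcases Nat.even_or_odd' n with ⟨c, hc | hc⟩
    · have := ih c (by omega) (by omega)
      rw [hc, show 3 * (2 * c) = 2 * (3 * c) by ring, digsum_double]
      exact this
    · rw [Nat.digits_def' (by norm_num) (by omega), List.sum_cons]
      have h1 := digsum_pos (3 * n / 2) (by omega)
      omega

theorem four_dvd_cb (n : ℕ) (h : 0 < n) : 4 ∣ Nat.centralBinom (3 * n) := by
  have hp : Fact (Nat.Prime 2) := ⟨Nat.prime_two⟩
  have k := @sub_one_mul_padicValNat_choose_eq_sub_sum_digits' 2 (3 * n) (3 * n) _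
  have hd : 3 * n + 3 * n = 2 * (3 * n) := by ring
  rw [hd, digsum_double] at k
  have h2 := digsum_three n h
  have h3 : 2 ≤ padicValNat 2 (Nat.centralBinom (3 * n)) := by
    rw [Nat.centralBinom]
    omega
  have h4 : (2 : ℕ) ^ 2 ∣ Nat.centralBinom (3 * n) :=
    (padicValNat_dvd_iff_le (Nat.centralBinom_ne_zero _)).mpr h3
  simpa using h4

theorem last_dvd (n : ℕ) (h : 1 ≤ n) :
    8 * (2 * n - 1) * Nat.choose (3 * n) n ∣ bb n := by
  obtain ⟨c, hc⟩ := four_dvd_cb n h
  have h1 : 2 * (2 * n - 1) ∣ Nat.centralBinom n := by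
    obtain ⟨t, rfl⟩ := Nat.exists_eq_add_of_le' h
    have a := Nat.succ_mul_centralBinom_succ t
    have b := Nat.succ_dvd_centralBinom t
    obtain ⟨e, he⟩ := b
    rw [he] at a
    refine ⟨e, ?_⟩
    apply Nat.eq_of_mul_eq_mul_left (show 0 < t + 1 by omega)
    have : 2 * (t + 1) - 1 = 2 * t + 1 := by omega
    rw [this, a]
    ring
  obtain ⟨d, hd⟩ := h1
  have hcb : Nat.choose (6 * n) (3 * n) = Nat.centralBinom (3 * n) := by
    rw [Nat.centralBinom]; congr 1; ring
  unfold bb aa
  rw [hcb, hc, hd]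
  exact ⟨c * d, by ring⟩

/-- The divisibility conjectured by Z.-W. Sun. -/
theorem sun_divisibility (n : ℕ) (hn : 1 ≤ n) :
    8 * (2 * n - 1) * Nat.choose (3 * n) n ∣ ∑ j ∈ range (n + 1), aa j * aa (n - j) := by
  have key : ((8 * (2 * n - 1) * Nat.choose (3 * n) n : ℕ) : ℤ) ∣
      ((∑ j ∈ range (n + 1), aa j * aa (n - j) : ℕ) : ℤ) := by
    rw [Nat.cast_sum, conv_identity]
    apply Finset.dvd_sum
    intro k hk
    rw [Finset.mem_range] at hk
    rcases Nat.lt_or_ge k n with hkn | hkn
    · rcases Nat.lt_or_ge (2 * k) n with h2 | h2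
      · rw [Nat.choose_eq_zero_of_lt (show k < n - k by omega)]
        simp
      · obtain ⟨m, rfl⟩ : ∃ m, n = k + (m + 1) := ⟨n - k - 1, by omega⟩
        obtain ⟨l, hl⟩ : ∃ l, k = (m + 1) + l := ⟨k - (m + 1), by omega⟩
        have ht := term_dvd (m + 1) l (by omega)
        rw [← hl, show 2 * (m + 1) + l = k + (m + 1) by omega] at ht
        rw [show k + (m + 1) - k = m + 1 by omega, pow_succ]
        obtain ⟨e, he⟩ := ht
        refine ⟨-((-432) ^ m * (18 * (e : ℤ))), ?_⟩
        have he' : (3 : ℤ) * ((bb k * k.choose (m + 1) : ℕ) : ℤ) =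
            ((2 * (k + (m + 1)) - 1 : ℕ) : ℤ) * (Nat.choose (3 * (k + (m + 1))) (k + (m + 1)) : ℤ) *
              (e : ℤ) := by exact_mod_cast he
        push_cast at he' ⊢
        linear_combination (-144 * (-432) ^ m) * he'
    · obtain rfl : k = n := by omega
      rw [Nat.sub_self, pow_zero, mul_one, Nat.choose_zero_right, mul_one]
      exact_mod_cast last_dvd k hn
  exact_mod_cast key

end Run7.h549
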