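import Pool.Agent.Run7.h549.Marginal

open MeasureTheory Set
open scoped ENNReal Real ContDiff FourierTransform SchwartzMap LineDeriv

namespace Run7.h549

theorem marg_tsupport {f : C2 → ℝ} (hc : HasCompactSupport f) {u : C2} (hu : ‖u‖ = 1) :
    tsupport (marg f u) ⊆ (fun z => inner ℂ u z) '' tsupport f := by
  have hcl : IsClosed ((fun z => inner ℂ u z) '' tsupport f) :=
    (hc.isCompact.image (by fun_prop)).isClosed
  apply closure_minimal _ hcl
  intro p hp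
  by_contra hne
  apply hp
  unfold marg
  have : (fun η : ℂ => f (p • u + η • jj u)) = fun _ => 0 := by
    funext η
    by_contra h0
    apply hne
    exact ⟨p • u + η • jj u, subset_tsupport f h0, inner_frame hu _ _⟩
  rw [this]; simp

theorem marg_compact {f : C2 → ℝ} (hc : HasCompactSupport f) {u : C2} (hu : ‖u‖ = 1) :
    HasCompactSupport (marg f u) :=
  HasCompactSupport.of_support_subset_isCompact (hc.isCompact.image (by fun_prop))
    (subset_trans (subset_tsupport _) (marg_tsupport hc hu))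

theorem marg_nonneg {f : C2 → ℝ} (hf : ∀ z, 0 ≤ f z) (u : C2) (p : ℂ) : 0 ≤ marg f u p :=
  integral_nonneg fun _ => hf _

theorem marg_integral {f : C2 → ℝ} (hf : Continuous f) (hc : HasCompactSupport f) {u : C2}
    (hu : ‖u‖ = 1) : ∫ p, marg f u p = ∫ z, f z :=
  (integral_frame hu (hf.integrable_of_hasCompactSupport hc)).symm

theorem inner_frame_real {u : C2} (hu : ‖u‖ = 1) (p η ζ : ℂ) :
    inner ℝ (p • u + η • jj u) (ζ • u) = inner ℝ p ζ := by
  have h1 : ∀ x y : C2, inner ℝ x y = (inner ℂ x y).re := by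
    intro x y
    rw [inner_C2, PiLp.inner_apply, Fin.sum_univ_two]
    simp [Complex.inner]
    ring
  rw [h1, inner_smul_right, ← inner_conj_symm, inner_frame hu, Complex.inner, mul_comm]

theorem marg_fourier {f : C2 → ℝ} (hf : Continuous f) (hc : HasCompactSupport f) {u : C2}
    (hu : ‖u‖ = 1) (ζ : ℂ) :
    𝓕 (fun p : ℂ => (marg f u p : ℂ)) ζ = 𝓕 (fun z : C2 => (f z : ℂ)) (ζ • u) := by
  rw [Real.fourier_eq, Real.fourier_eq]
  have hcc : HasCompactSupport (fun z : C2 => (f z : ℂ)) := hc.comp_left (g := Complex.ofReal) rfl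
  have hint : Integrable (fun z : C2 => (f z : ℂ)) :=
    (Complex.continuous_ofReal.comp hf).integrable_of_hasCompactSupport hcc
  have hint2 : Integrable (fun z : C2 => Real.fourierChar (-inner ℝ z (ζ • u)) • (f z : ℂ)) :=
    (Real.fourierIntegral_convergent_iff (ζ • u)).2 hint
  rw [integral_frame hu hint2]
  apply integral_congr_ae
  apply Filter.Eventually.of_forall
  intro p
  simp only [inner_frame_real hu, marg, Circle.smul_def, smul_eq_mul]
  rw [integral_const_mul]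
  congr 1
  exact integral_ofReal.symm

/-- the marginal as a Schwartz function -/
noncomputable def margS {f : C2 → ℝ} (hf : ContDiff ℝ ∞ f) (hc : HasCompactSupport f) {u : C2}
    (hu : ‖u‖ = 1) : 𝓢(ℂ, ℂ) :=
  HasCompactSupport.toSchwartzMap (f := fun p : ℂ => (marg f u p : ℂ))
    ((marg_compact hc hu).comp_left (g := Complex.ofReal) rfl)
    (Complex.ofRealCLM.contDiff.comp (marg_contDiff hf hc hu))

theorem margS_deriv {f : C2 → ℝ} (hf : ContDiff ℝ ∞ f) (hc : HasCompactSupport f) {u : C2}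
    (hu : ‖u‖ = 1) (m p : ℂ) :
    (∂_{m} (margS hf hc hu)) p = ((fderiv ℝ (marg f u) p m : ℝ) : ℂ) := by
  rw [SchwartzMap.lineDerivOp_apply_eq_fderiv]
  have hd : DifferentiableAt ℝ (marg f u) p :=
    (marg_contDiff hf hc hu).differentiable (by simp) p
  have h1 : HasFDerivAt (fun p : ℂ => (marg f u p : ℂ))
      (Complex.ofRealCLM.comp (fderiv ℝ (marg f u) p)) p :=
    Complex.ofRealCLM.hasFDerivAt.comp p hd.hasFDerivAt
  have h2 : fderiv ℝ (margS hf hc hu) p = Complex.ofRealCLM.comp (fderiv ℝ (marg f u) p) :=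
    h1.fderiv
  rw [h2]
  rfl

theorem energy_one {f : C2 → ℝ} (hf : ContDiff ℝ ∞ f) (hc : HasCompactSupport f) {u : C2}
    (hu : ‖u‖ = 1) (m : ℂ) :
    ∫ p, (fderiv ℝ (marg f u) p m) ^ 2
      = ∫ ζ : ℂ, (4 * π ^ 2 * (inner ℝ ζ m) ^ 2 * ‖𝓕 (fun z : C2 => (f z : ℂ)) (ζ • u)‖ ^ 2)
    ∧ Integrable (fun ζ : ℂ =>
        (4 * π ^ 2 * (inner ℝ ζ m) ^ 2 * ‖𝓕 (fun z : C2 => (f z : ℂ)) (ζ • u)‖ ^ 2)) := by
  have h1 := SchwartzMap.integral_norm_sq_fourier (∂_{m} (margS hf hc hu))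
  have e1 : ∀ p, ‖(∂_{m} (margS hf hc hu)) p‖ ^ 2 = (fderiv ℝ (marg f u) p m) ^ 2 := by
    intro p
    rw [margS_deriv]
    simp
  have e2 : ∀ ζ : ℂ, ‖(𝓕 (∂_{m} (margS hf hc hu))) ζ‖ ^ 2
      = 4 * π ^ 2 * (inner ℝ ζ m) ^ 2 * ‖𝓕 (fun z : C2 => (f z : ℂ)) (ζ • u)‖ ^ 2 := by
    intro ζ
    rw [SchwartzMap.fourier_lineDerivOp_eq]
    have ht : (fun x : ℂ => inner ℝ x m).HasTemperateGrowth := ((innerSL ℝ).flip m).hasTemperateGrowth
    have h3 : (𝓕 (margS hf hc hu)) ζ = 𝓕 (fun z : C2 => (f z : ℂ)) (ζ • u) := by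
      rw [SchwartzMap.fourier_coe]
      exact marg_fourier hf.continuous hc hu ζ
    rw [smul_apply, SchwartzMap.smulLeftCLM_apply_apply ht, h3, norm_smul, norm_smul]
    simp only [norm_mul, Complex.norm_I, Complex.norm_real, Real.norm_eq_abs, mul_one, mul_pow, sq_abs,
      Complex.norm_ofNat]
    ring
  simp only [e1, e2] at h1
  refine ⟨h1.symm, ?_⟩
  have h4 := SchwartzMap.memLp (𝓕 (∂_{m} (margS hf hc hu)) : 𝓢(ℂ, ℂ)) 2 (volume : Measure ℂ)
  have h5 := h4.integrable_norm_pow (by norm_num)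
  refine h5.congr (Filter.Eventually.of_forall fun ζ => ?_)
  simp only [← e2 ζ]

/-- the energy identity -/
theorem energy {f : C2 → ℝ} (hf : ContDiff ℝ ∞ f) (hc : HasCompactSupport f) {u : C2}
    (hu : ‖u‖ = 1) :
    (∫ p, ((fderiv ℝ (marg f u) p 1) ^ 2 + (fderiv ℝ (marg f u) p Complex.I) ^ 2)
      = 4 * π ^ 2 * ∫ ζ : ℂ, (‖ζ‖ ^ 2 * ‖𝓕 (fun z : C2 => (f z : ℂ)) (ζ • u)‖ ^ 2))
    ∧ Integrable (fun ζ : ℂ => ‖ζ‖ ^ 2 * ‖𝓕 (fun z : C2 => (f z : ℂ)) (ζ • u)‖ ^ 2) := by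
  obtain ⟨h1, i1⟩ := energy_one hf hc hu 1
  obtain ⟨h2, i2⟩ := energy_one hf hc hu Complex.I
  have hcd := marg_contDiff hf hc hu
  have hfd : Continuous (fderiv ℝ (marg f u)) := hcd.continuous_fderiv (by simp)
  have hsd : HasCompactSupport (fderiv ℝ (marg f u)) := (marg_compact hc hu).fderiv ℝ
  have j : ∀ m : ℂ, Integrable (fun p => (fderiv ℝ (marg f u) p m) ^ 2) := by
    intro m
    apply Continuous.integrable_of_hasCompactSupport (by fun_prop)
    exact hsd.comp_left (g := fun L : ℂ →L[ℝ] ℝ => (L m) ^ 2) (by simp)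
  have e : ∀ ζ : ℂ, 4 * π ^ 2 * (inner ℝ ζ 1) ^ 2 * ‖𝓕 (fun z : C2 => (f z : ℂ)) (ζ • u)‖ ^ 2
      + 4 * π ^ 2 * (inner ℝ ζ Complex.I) ^ 2 * ‖𝓕 (fun z : C2 => (f z : ℂ)) (ζ • u)‖ ^ 2
      = 4 * π ^ 2 * (‖ζ‖ ^ 2 * ‖𝓕 (fun z : C2 => (f z : ℂ)) (ζ • u)‖ ^ 2) := by
    intro ζ
    have : ‖ζ‖ ^ 2 = (inner ℝ ζ (1:ℂ)) ^ 2 + (inner ℝ ζ Complex.I) ^ 2 := by
      rw [← Complex.normSq_eq_norm_sq, Complex.normSq_apply, Complex.inner, Complex.inner]
      simp
      ring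
    rw [this]; ring
  constructor
  · rw [integral_add (j 1) (j Complex.I), h1, h2, ← integral_add i1 i2, ← integral_const_mul]
    exact integral_congr_ae (Filter.Eventually.of_forall e)
  · have h3 := (i1.add i2).const_mul (4 * π ^ 2)⁻¹
    refine h3.congr (Filter.Eventually.of_forall fun ζ => ?_)
    simp only [Pi.add_apply]
    rw [e ζ]
    field_simp

end Run7.h549
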