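import Pool.Agent.Run7.h549.Iface

open MeasureTheory Set
open scoped ENNReal Real

namespace Run7.h549

/-- the quaternionic structure: `jj u` is orthogonal to `u` over `ℂ` and has the same norm -/
noncomputable def jj (u : C2) : C2 := !₂[-(starRingEnd ℂ (u 1)), starRingEnd ℂ (u 0)]

theorem norm_sq_C2 (u : C2) : ‖u‖ ^ 2 = ‖u 0‖ ^ 2 + ‖u 1‖ ^ 2 := by
  rw [EuclideanSpace.norm_sq_eq, Fin.sum_univ_two]

theorem norm_jj (u : C2) : ‖jj u‖ = ‖u‖ := by
  have h : ‖jj u‖ ^ 2 = ‖u‖ ^ 2 := by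
    rw [norm_sq_C2, norm_sq_C2]
    simp [jj]
    ring
  exact (sq_eq_sq₀ (norm_nonneg _) (norm_nonneg _)).1 h

theorem inner_C2 (u v : C2) :
    inner ℂ u v = starRingEnd ℂ (u 0) * v 0 + starRingEnd ℂ (u 1) * v 1 := by
  rw [PiLp.inner_apply, Fin.sum_univ_two]
  simp only [RCLike.inner_apply]
  ring

theorem inner_jj (u : C2) : inner ℂ u (jj u) = 0 := by
  rw [inner_C2]
  simp [jj]
  ring

/-- the linear map `(p, η) ↦ p • u + η • jj u` -/
noncomputable def frameLin (u : C2) : WithLp 2 (ℂ × ℂ) →ₗ[ℂ] C2 where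
  toFun q := q.fst • u + q.snd • jj u
  map_add' q r := by
    simp only [WithLp.add_fst, WithLp.add_snd, add_smul]; abel
  map_smul' c q := by
    simp only [WithLp.smul_fst, WithLp.smul_snd, smul_add, smul_smul, smul_eq_mul, RingHom.id_apply]

theorem frameLin_norm {u : C2} (hu : ‖u‖ = 1) (q : WithLp 2 (ℂ × ℂ)) : ‖frameLin u q‖ = ‖q‖ := by
  have h : ‖frameLin u q‖ ^ 2 = ‖q‖ ^ 2 := by
    have e : frameLin u q = q.fst • u + q.snd • jj u := rfl
    have ho : inner ℂ (q.fst • u) (q.snd • jj u) = 0 := by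
      rw [inner_smul_left, inner_smul_right, inner_jj]; simp
    rw [e, sq, norm_add_sq_eq_norm_sq_add_norm_sq_of_inner_eq_zero _ _ ho, norm_smul, norm_smul,
      norm_jj, hu, WithLp.prod_norm_sq_eq_of_L2]
    ring
  exact (sq_eq_sq₀ (norm_nonneg _) (norm_nonneg _)).1 h

/-- the same as a real linear isometry -/
noncomputable def frame (u : C2) (hu : ‖u‖ = 1) : WithLp 2 (ℂ × ℂ) ≃ₗᵢ[ℝ] C2 :=
  LinearIsometry.toLinearIsometryEquiv
    ⟨(frameLin u).restrictScalars ℝ, fun q => frameLin_norm hu q⟩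
    (by
      rw [LinearEquiv.finrank_eq (WithLp.linearEquiv 2 ℝ (ℂ × ℂ))]
      rw [Module.finrank_prod, Complex.finrank_real_complex]
      have := Module.finrank_mul_finrank ℝ ℂ C2
      rw [Complex.finrank_real_complex, finrank_euclideanSpace, Fintype.card_fin] at this
      omega)

theorem frame_apply (u : C2) (hu : ‖u‖ = 1) (q : WithLp 2 (ℂ × ℂ)) :
    frame u hu q = q.fst • u + q.snd • jj u := rfl

theorem mp_frame (u : C2) (hu : ‖u‖ = 1) :
    MeasurePreserving (fun q : ℂ × ℂ => q.1 • u + q.2 • jj u) := by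
  have h1 := (WithLp.volume_preserving_toLp ℂ ℂ)
  have h2 := (frame u hu).measurePreserving
  exact h2.comp h1

theorem norm_frame {u : C2} (hu : ‖u‖ = 1) (p η : ℂ) :
    ‖p • u + η • jj u‖ ^ 2 = ‖p‖ ^ 2 + ‖η‖ ^ 2 := by
  have := frameLin_norm hu (WithLp.toLp 2 (p, η))
  have e : frameLin u (WithLp.toLp 2 (p, η)) = p • u + η • jj u := rfl
  rw [e] at this
  rw [this, WithLp.prod_norm_sq_eq_of_L2]
  rfl

theorem inner_frame {u : C2} (hu : ‖u‖ = 1) (p η : ℂ) :
    inner ℂ u (p • u + η • jj u) = p := by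
  rw [inner_add_right, inner_smul_right, inner_smul_right, inner_jj, inner_self_eq_norm_sq_to_K, hu]
  simp

theorem frame_surj {u : C2} (hu : ‖u‖ = 1) (z : C2) :
    ∃ η : ℂ, z = (inner ℂ u z) • u + η • jj u := by
  obtain ⟨q, hq⟩ := (frame u hu).surjective z
  refine ⟨q.snd, ?_⟩
  have e : z = q.fst • u + q.snd • jj u := by rw [← hq]; rfl
  have : inner ℂ u z = q.fst := by rw [e]; exact inner_frame hu _ _
  rw [this]; exact e

/-- integration in the frame -/
theorem integral_frame {u : C2} (hu : ‖u‖ = 1) {E : Type*} [NormedAddCommGroup E] [NormedSpace ℝ E]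
    {F : C2 → E} (hF : Integrable F) :
    ∫ z, F z = ∫ p : ℂ, ∫ η : ℂ, F (p • u + η • jj u) := by
  have hmp := mp_frame u hu
  have hint : Integrable (fun q : ℂ × ℂ => F (q.1 • u + q.2 • jj u)) (volume.prod volume) :=
    hmp.integrable_comp_of_integrable hF
  rw [← integral_prod (f := fun q : ℂ × ℂ => F (q.1 • u + q.2 • jj u)) hint]
  rw [← Measure.volume_eq_prod]
  have hme : MeasurableEmbedding (fun q : ℂ × ℂ => q.1 • u + q.2 • jj u) := by
    have h1 : MeasurableEmbedding (WithLp.toLp 2 : ℂ × ℂ → WithLp 2 (ℂ × ℂ)) :=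
      (MeasurableEquiv.toLp 2 (ℂ × ℂ)).measurableEmbedding
    have h2 : MeasurableEmbedding (frame u hu) :=
      (frame u hu).toHomeomorph.measurableEmbedding
    exact h2.comp h1
  exact (hmp.integral_comp hme F).symm

end Run7.h549
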