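import Pool.Agent.Run7.h549.Prof

set_option maxHeartbeats 400000
open MeasureTheory Set Filter Topology
open scoped ENNReal Real Pointwise

namespace Run7.h549

theorem pa_ge_disc {x : C2} {K : ConvexBody C2} {n : ℝ} (hn : 0 ≤ n)
    (h : ∀ p : ℂ, ‖p‖ ≤ n → ∃ z ∈ (K : Set C2), inner ℂ x z = p) : π * n ^ 2 ≤ pa x K := by
  have hsub : Metric.closedBall (0 : ℂ) n ⊆ (fun z => inner ℂ x z) '' (K : Set C2) := by
    intro p hp
    obtain ⟨z, hz, he⟩ := h p (mem_closedBall_zero_iff.1 hp)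
    exact ⟨z, hz, he⟩
  have h1 : (volume (Metric.closedBall (0 : ℂ) n)).toReal = π * n ^ 2 := by
    rw [Complex.volume_closedBall, ENNReal.toReal_mul, ENNReal.toReal_pow, ENNReal.toReal_ofReal hn]
    simp [mul_comm]
  unfold pa
  rw [← h1]
  exact ENNReal.toReal_mono (K.isCompact.image (by fun_prop)).measure_lt_top.ne (measure_mono hsub)

theorem norm_cis_smul_0 (θ : ℝ) (x : C2) : ‖(cis θ • x) 0‖ = ‖x 0‖ := by
  rw [PiLp.smul_apply, norm_smul, norm_cis, one_mul]

theorem al_ge_circ {F : ℝ → ℝ} (hF : Continuous F) {K : ConvexBody C2}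
    (hK : ∀ x : C2, ‖x‖ = 1 → π * F (‖x 0‖ ^ 2) ≤ pa x K) : π * ∫ w in (0:ℝ)..1, F w ≤ al K := by
  have hpi := Real.pi_pos
  have hcont : Continuous fun y : C2 => F (‖y 0‖ ^ 2) := by fun_prop
  have h := al_ge_avg (Φ := fun y : C2 => F (‖y 0‖ ^ 2)) (nice_of_continuous hcont)
    (LinearIsometryEquiv.refl ℝ C2) (M := K) (by
    intro x hx
    have e : ∀ θ : ℝ, F (‖((LinearIsometryEquiv.refl ℝ C2) (cis θ • x)) 0‖ ^ 2) = F (‖x 0‖ ^ 2) := by
      intro θ
      show F (‖(cis θ • x) 0‖ ^ 2) = F (‖x 0‖ ^ 2)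
      rw [norm_cis_smul_0]
    simp only [e]
    rw [intervalIntegral.integral_const, smul_eq_mul]
    refine le_trans (le_of_eq ?_) (hK x hx)
    ring)
  have h2 : LL (fun y : C2 => F (‖y 0‖ ^ 2)) = π ^ 2 / 3 * ∫ w in (0:ℝ)..1, F w :=
    LL_rad' hF (fun y _ => rfl)
  unfold LL at h2
  rw [h2] at h
  refine le_trans (le_of_eq ?_) h
  field_simp

/-! ### The body with support function `max r |y₀|` -/

theorem wulff_disc {r : ℝ} {w : ℂ} (hw : ‖w‖ ≤ 1) : (!₂[w, 0] : C2) ∈ wulff (fun y => max r ‖y 0‖) := by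
  intro y _
  rw [inner_C2]
  have e : (starRingEnd ℂ) (y 0) * (!₂[w, 0] : C2) 0 + (starRingEnd ℂ) (y 1) * (!₂[w, 0] : C2) 1
      = (starRingEnd ℂ) (y 0) * w := by simp
  rw [e]
  refine le_trans ?_ (le_max_right _ _)
  refine (Complex.re_le_norm _).trans ?_
  rw [norm_mul, RCLike.norm_conj]
  calc ‖y 0‖ * ‖w‖ ≤ ‖y 0‖ * 1 := by gcongr
    _ = ‖y 0‖ := mul_one _

theorem wulff_ball {r : ℝ} {z : C2} (hz : ‖z‖ ≤ r) : z ∈ wulff (fun y => max r ‖y 0‖) := by
  intro y hy
  refine le_trans ?_ (le_max_left _ _)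
  refine (Complex.re_le_norm _).trans ?_
  calc ‖inner ℂ y z‖ ≤ ‖y‖ * ‖z‖ := norm_inner_le_norm _ _
    _ = ‖z‖ := by rw [hy, one_mul]
    _ ≤ r := hz

theorem pa_H {r : ℝ} (hr : 0 ≤ r) {K : ConvexBody C2}
    (hK : (K : Set C2) = wulff (fun y => max r ‖y 0‖)) {x : C2} (hx : ‖x‖ = 1) :
    π * max (r ^ 2) (‖x 0‖ ^ 2) ≤ pa x K := by
  have h1 : π * r ^ 2 ≤ pa x K := by
    apply pa_ge_disc hr
    intro p hp
    refine ⟨p • x, ?_, ?_⟩
    · rw [hK]
      apply wulff_ball
      rw [norm_smul, hx, mul_one]; exact hp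
    · rw [inner_smul_right, inner_self_eq_norm_sq_to_K, hx]; simp
  have h2 : π * ‖x 0‖ ^ 2 ≤ pa x K := by
    apply pa_ge_disc (norm_nonneg _)
    intro p hp
    by_cases h0 : x 0 = 0
    · refine ⟨0, ?_, ?_⟩
      · rw [hK]
        apply wulff_ball
        rw [norm_zero]; exact hr
      · rw [h0, norm_zero] at hp
        rw [inner_zero_right, norm_le_zero_iff.1 hp]
    · refine ⟨!₂[p / (starRingEnd ℂ) (x 0), 0], ?_, ?_⟩
      · rw [hK]
        apply wulff_disc
        rw [norm_div, RCLike.norm_conj]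
        exact div_le_one_of_le₀ hp (norm_nonneg _)
      · rw [inner_C2]
        have h3 : (starRingEnd ℂ) (x 0) ≠ 0 := by
          simpa using h0
        simp
        field_simp
  rcases max_choice (r ^ 2) (‖x 0‖ ^ 2) with h | h <;> rw [h]
  · exact h1
  · exact h2

theorem int_max {e : ℝ} (h0 : 0 ≤ e) (h1 : e ≤ 1) : ∫ w in (0:ℝ)..1, max e w = (1 + e ^ 2) / 2 := by
  rw [← intervalIntegral.integral_add_adjacent_intervals (b := e)
    ((by fun_prop : Continuous fun w : ℝ => max e w).intervalIntegrable _ _)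
    ((by fun_prop : Continuous fun w : ℝ => max e w).intervalIntegrable _ _)]
  have e1 : ∫ w in (0:ℝ)..e, max e w = ∫ w in (0:ℝ)..e, e := by
    apply intervalIntegral.integral_congr
    intro w hw
    rw [uIcc_of_le h0] at hw
    exact max_eq_left hw.2
  have e2 : ∫ w in e..1, max e w = ∫ w in e..1, w := by
    apply intervalIntegral.integral_congr
    intro w hw
    rw [uIcc_of_le h1] at hw
    exact max_eq_right hw.1
  rw [e1, e2]
  simp
  ring

theorem al_H {r : ℝ} (hr : 0 ≤ r) (hr1 : r ≤ 1) {K : ConvexBody C2}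
    (hK : (K : Set C2) = wulff (fun y => max r ‖y 0‖)) : π * ((1 + (r ^ 2) ^ 2) / 2) ≤ al K := by
  have h := al_ge_circ (F := fun w => max (r ^ 2) w) (by fun_prop) (fun x hx => pa_H hr hK hx)
  rwa [int_max (by positivity) (by nlinarith)] at h

/-! ### The smoothed profiles -/

noncomputable def rt (e η w : ℝ) : ℝ := √((w - e) ^ 2 + η ^ 2)
noncomputable def ff (e η w : ℝ) : ℝ := (w + e + rt e η w) / 2
noncomputable def ff1 (e η w : ℝ) : ℝ := (1 + (w - e) / rt e η w) / 2
noncomputable def ff2 (e η w : ℝ) : ℝ := η ^ 2 / rt e η w ^ 3 / 2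

theorem rt_pos {e η : ℝ} (hη : 0 < η) (w : ℝ) : 0 < rt e η w := Real.sqrt_pos.2 (by positivity)

theorem rt_sq (e η w : ℝ) : rt e η w ^ 2 = (w - e) ^ 2 + η ^ 2 := Real.sq_sqrt (by positivity)

theorem rt_ge (e η w : ℝ) : |w - e| ≤ rt e η w := by
  apply Real.abs_le_sqrt
  nlinarith [sq_nonneg η]

theorem ff_ge (e η w : ℝ) : max e w ≤ ff e η w := by
  have h := abs_le.1 (rt_ge e η w)
  unfold ff
  apply max_le
  · linarith [h.1]
  · linarith [h.2, neg_abs_le (w - e), rt_ge e η w, le_abs_self (w - e)]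

theorem ff1_bounds {e η : ℝ} (hη : 0 < η) (w : ℝ) : 0 ≤ ff1 e η w ∧ ff1 e η w ≤ 1 := by
  have h := abs_le.1 (rt_ge e η w)
  have hp := rt_pos (e := e) hη w
  have h1 : -1 ≤ (w - e) / rt e η w := by
    rw [le_div_iff₀ hp]; linarith [h.1]
  have h2 : (w - e) / rt e η w ≤ 1 := by
    rw [div_le_one hp]; exact h.2
  unfold ff1
  constructor <;> linarith

theorem prof_ff {e η : ℝ} (he : 0 < e) (hη : 0 < η) : Prof (ff e η) (ff1 e η) (ff2 e η) := by
  have D : ∀ w, HasDerivAt (rt e η) ((w - e) / rt e η w) w := by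
    intro w
    have h1 : HasDerivAt (fun w : ℝ => (w - e) ^ 2 + η ^ 2) (2 * (w - e)) w := by
      have := (((hasDerivAt_id w).sub_const e).pow 2).add_const (η ^ 2)
      refine this.congr_deriv ?_
      simp
    have h2 := h1.sqrt (by positivity)
    refine h2.congr_deriv ?_
    have hp := rt_pos (e := e) hη w
    unfold rt at hp ⊢
    field_simp
  have hrc : Continuous (rt e η) := by unfold rt; fun_prop
  constructor
  · intro w
    have := (((hasDerivAt_id w).add_const e).add (D w)).div_const 2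
    exact this
  · intro w
    have hp := rt_pos (e := e) hη w
    have := ((((hasDerivAt_id w).sub_const e).div (D w) hp.ne').const_add 1).div_const 2
    refine this.congr_deriv ?_
    unfold ff2
    have hs := rt_sq e η w
    have e1 : η ^ 2 = rt e η w ^ 2 - (w - e) ^ 2 := by linarith
    rw [e1]
    simp
    field_simp
  · unfold ff2
    apply Continuous.div_const
    apply Continuous.div continuous_const (by fun_prop)
    intro w
    have hp := rt_pos (e := e) hη w
    positivity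
  · intro w _
    exact lt_of_lt_of_le he ((le_max_left _ _).trans (ff_ge e η w))
  · intro w _ _
    have hp := rt_pos (e := e) hη w
    unfold ff2
    positivity
  · intro w h0 h1
    have h2 := ff1_bounds (e := e) hη w
    have h3 := (le_max_right e w).trans (ff_ge e η w)
    have h4 := (le_max_left e w).trans (ff_ge e η w)
    apply mul_nonneg
    · nlinarith [h2.1, h2.2]
    · have : 0 ≤ (1 - w) * ff1 e η w := mul_nonneg (by linarith) h2.1
      linarith

theorem alL_H_eta {r : ℝ} (hr : 0 < r) {K : ConvexBody C2}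
    (hK : (K : Set C2) = wulff (fun y => max r ‖y 0‖)) {η : ℝ} (hη : 0 < η) :
    alL K ≤ π * ∫ w in (0:ℝ)..1, hF (ff (r ^ 2) η) (ff1 (r ^ 2) η) w := by
  apply alL_prof' (prof_ff (by positivity) hη)
  intro z hz y hy
  rw [hK] at hz
  refine (hz y hy).trans ?_
  have h := ff_ge (r ^ 2) η (‖y 0‖ ^ 2)
  apply max_le
  · apply Real.le_sqrt_of_sq_le
    exact (le_max_left _ _).trans h
  · apply Real.le_sqrt_of_sq_le
    exact (le_max_right _ _).trans h

end Run7.h549
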