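import Pool.Agent.Run7.h549.High1

set_option maxHeartbeats 400000
open MeasureTheory Set Filter Topology
open scoped ENNReal Real Pointwise

namespace Run7.h549

/-- the limit of the integrands -/
noncomputable def h0 (e w : ℝ) : ℝ := if w < e then e else w - (1 - w) / 2

theorem int_h0 {e : ℝ} (he0 : 0 ≤ e) (he1 : e ≤ 1) :
    ∫ w in (0:ℝ)..1, h0 e w = (1 + e ^ 2) / 2 - (1 - e) ^ 2 / 4 := by
  have i1 : IntervalIntegrable (h0 e) volume 0 e := by
    have h : IntervalIntegrable (fun _ : ℝ => e) volume 0 e := by simp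
    apply h.congr_ae
    rw [uIoc_of_le he0, ← restrict_Ioo_eq_restrict_Ioc]
    filter_upwards [ae_restrict_mem measurableSet_Ioo] with w hw
    unfold h0
    rw [if_pos hw.2]
  have i2 : IntervalIntegrable (h0 e) volume e 1 := by
    have h : IntervalIntegrable (fun w : ℝ => w - (1 - w) / 2) volume e 1 :=
      (by fun_prop : Continuous fun w : ℝ => w - (1 - w) / 2).intervalIntegrable _ _
    apply h.congr_ae
    rw [uIoc_of_le he1]
    filter_upwards [ae_restrict_mem measurableSet_Ioc] with w hw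
    unfold h0
    rw [if_neg (not_lt.2 hw.1.le)]
  rw [← intervalIntegral.integral_add_adjacent_intervals i1 i2]
  have e1 : ∫ w in (0:ℝ)..e, h0 e w = ∫ w in (0:ℝ)..e, e := by
    apply intervalIntegral.integral_congr_ae
    have : ∀ᵐ w : ℝ, w ≠ e := by
      rw [ae_iff]; simp
    filter_upwards [this] with w hw hmem
    rw [uIoc_of_le he0] at hmem
    unfold h0
    rw [if_pos (lt_of_le_of_ne hmem.2 hw)]
  have e2 : ∫ w in e..1, h0 e w = ∫ w in e..1, (3 / 2 * w - 1 / 2) := by
    apply intervalIntegral.integral_congr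
    intro w hw
    rw [uIcc_of_le he1] at hw
    simp only
    unfold h0
    rw [if_neg (not_lt.2 hw.1)]
    ring
  rw [e1, e2, intervalIntegral.integral_sub ((by fun_prop : Continuous fun w : ℝ => 3 / 2 * w).intervalIntegrable _ _)
    (by simp), intervalIntegral.integral_const_mul]
  simp
  ring

theorem rt_tendsto (e w : ℝ) : Tendsto (fun η => rt e η w) (𝓝[>] 0) (𝓝 |w - e|) := by
  have h : Continuous fun η => rt e η w := by unfold rt; fun_prop
  have h1 := h.tendsto 0
  have h2 : rt e 0 w = |w - e| := by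
    unfold rt
    simp [Real.sqrt_sq_eq_abs]
  rw [h2] at h1
  exact h1.mono_left nhdsWithin_le_nhds

theorem hF_tendsto {e w : ℝ} (he : 0 < e) (hw : w ≠ e) :
    Tendsto (fun η => hF (ff e η) (ff1 e η) w) (𝓝[>] 0) (𝓝 (h0 e w)) := by
  have hne : |w - e| ≠ 0 := abs_ne_zero.2 (sub_ne_zero.2 hw)
  have h1 := rt_tendsto e w
  have h2 : Tendsto (fun η => ff e η w) (𝓝[>] 0) (𝓝 ((w + e + |w - e|) / 2)) := by
    unfold ff
    exact (tendsto_const_nhds.add h1).div_const 2
  have h3 : Tendsto (fun η => ff1 e η w) (𝓝[>] 0) (𝓝 ((1 + (w - e) / |w - e|) / 2)) := by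
    unfold ff1
    exact (tendsto_const_nhds.add (tendsto_const_nhds.div h1 hne)).div_const 2
  have hfne : (w + e + |w - e|) / 2 ≠ 0 := by
    rcases abs_cases (w - e) with ⟨h, _⟩ | ⟨h, _⟩ <;> rw [h]
    · have : 0 ≤ w - e := by assumption
      have : 0 < (w + e + (w - e)) / 2 := by linarith
      exact this.ne'
    · have : 0 < (w + e + -(w - e)) / 2 := by linarith
      exact this.ne'
  have h4 := h2.sub ((((h3.pow 2).div h2 hfne).mul_const (w * (1 - w))).div_const 2)
  unfold hF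
  refine (h4.congr (fun η => rfl)).trans (le_of_eq ?_)
  congr 1
  unfold h0
  by_cases hlt : w < e
  · rw [if_pos hlt, abs_of_neg (by linarith)]
    have : (w - e) / -(w - e) = -1 := by
      have : w - e ≠ 0 := sub_ne_zero.2 hw
      field_simp
    rw [this]
    norm_num
    ring
  · rw [if_neg hlt]
    have hlt' : e < w := lt_of_le_of_ne (not_lt.1 hlt) (Ne.symm hw)
    rw [abs_of_pos (by linarith)]
    have : (w - e) / (w - e) = 1 := div_self (sub_ne_zero.2 hw)
    rw [this]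
    have hw0 : w ≠ 0 := by linarith
    have e3 : (w + e + (w - e)) / 2 = w := by ring
    rw [e3]
    field_simp
    ring

theorem hF_bound {e η w : ℝ} (he : 0 < e) (he1 : e ≤ 1) (hη : 0 < η) (hη1 : η ≤ 1) (hw0 : 0 ≤ w)
    (hw1 : w ≤ 1) : ‖hF (ff e η) (ff1 e η) w‖ ≤ 3 := by
  have h1 : rt e η w ≤ 2 := by
    unfold rt
    rw [show (2:ℝ) = √4 by rw [show (4:ℝ) = 2 ^ 2 by norm_num, Real.sqrt_sq (by norm_num)]]
    apply Real.sqrt_le_sqrt
    nlinarith
  have h2 : ff e η w ≤ 2 := by unfold ff; linarith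
  have h3 : 0 < ff e η w := (prof_ff he hη).pos w hw0
  have h4 : w ≤ ff e η w := (le_max_right _ _).trans (ff_ge e η w)
  obtain ⟨h5, h6⟩ := ff1_bounds (e := e) hη w
  have h7 : ff1 e η w ^ 2 / ff e η w * (w * (1 - w)) / 2 ≤ 1 := by
    have h8 : ff1 e η w ^ 2 ≤ 1 := pow_le_one₀ h5 h6
    have h9 : ff1 e η w ^ 2 / ff e η w * (w * (1 - w)) / 2
        = ff1 e η w ^ 2 * (w / ff e η w) * ((1 - w) / 2) := by ring
    rw [h9]
    have h10 : w / ff e η w ≤ 1 := div_le_one_of_le₀ h4 h3.le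
    have h11 : 0 ≤ w / ff e η w := div_nonneg hw0 h3.le
    calc ff1 e η w ^ 2 * (w / ff e η w) * ((1 - w) / 2) ≤ 1 * 1 * 1 := by
          gcongr
          linarith
      _ = 1 := by norm_num
  have h8 : 0 ≤ ff1 e η w ^ 2 / ff e η w * (w * (1 - w)) / 2 := by
    have : 0 ≤ 1 - w := by linarith
    positivity
  unfold hF
  rw [Real.norm_eq_abs, abs_le]
  constructor <;> linarith

theorem int_hF_tendsto {e : ℝ} (he : 0 < e) (he1 : e ≤ 1) :
    Tendsto (fun η => ∫ w in (0:ℝ)..1, hF (ff e η) (ff1 e η) w) (𝓝[>] 0)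
      (𝓝 (∫ w in (0:ℝ)..1, h0 e w)) := by
  apply intervalIntegral.tendsto_integral_filter_of_dominated_convergence (fun _ => 3)
  · apply Eventually.of_forall
    intro η
    have hrc : Continuous (rt e η) := by unfold rt; fun_prop
    have m1 : Measurable (ff e η) := by unfold ff; fun_prop
    have m2 : Measurable (ff1 e η) := by
      unfold ff1
      have := hrc.measurable
      fun_prop
    have m3 : Measurable (hF (ff e η) (ff1 e η)) := by unfold hF; fun_prop
    exact m3.aestronglyMeasurable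
  · have h1 : ∀ᶠ η : ℝ in 𝓝[>] 0, 0 < η := self_mem_nhdsWithin
    have h2 : ∀ᶠ η : ℝ in 𝓝[>] 0, η ≤ 1 := by
      apply Filter.Eventually.filter_mono nhdsWithin_le_nhds
      exact Iic_mem_nhds (by norm_num)
    filter_upwards [h1, h2] with η a b
    apply Eventually.of_forall
    intro w hw
    rw [uIoc_of_le zero_le_one] at hw
    exact hF_bound he he1 a b hw.1.le hw.2
  · simp
  · have : ∀ᵐ w : ℝ, w ≠ e := by
      rw [ae_iff]; simp
    filter_upwards [this] with w hw _
    exact hF_tendsto he hw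

/-- `α_L` of the body with support function `max r |y₀|` -/
theorem alL_H {r : ℝ} (hr : 0 < r) (hr1 : r ≤ 1) {K : ConvexBody C2}
    (hK : (K : Set C2) = wulff (fun y => max r ‖y 0‖)) :
    alL K ≤ π * ((1 + (r ^ 2) ^ 2) / 2 - (1 - r ^ 2) ^ 2 / 4) := by
  have he : 0 < r ^ 2 := by positivity
  have he1 : r ^ 2 ≤ 1 := pow_le_one₀ hr.le hr1
  rw [← int_h0 he.le he1]
  have h := (int_hF_tendsto he he1).const_mul π
  have h1 : ∀ᶠ η : ℝ in 𝓝[>] 0, alL K ≤ π * ∫ w in (0:ℝ)..1, hF (ff (r ^ 2) η) (ff1 (r ^ 2) η) w := by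
    filter_upwards [self_mem_nhdsWithin] with η hη
    exact alL_H_eta hr hK hη
  exact ge_of_tendsto h h1

/-! ### The volume -/

/-- squared radius of the section -/
noncomputable def TS (e s : ℝ) : ℝ :=
  if s ≤ e ^ 2 then e - s else if s ≤ 1 then e / (1 - e) * (1 - √s) ^ 2 else 0

theorem TS_nonneg {e s : ℝ} (he0 : 0 < e) (he1 : e < 1) : 0 ≤ TS e s := by
  unfold TS
  split_ifs with h1 h2
  · nlinarith
  · have : 0 < 1 - e := by linarith
    positivity
  · exact le_rfl

theorem TS_meas (e : ℝ) : Measurable (TS e) := by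
  unfold TS
  apply Measurable.ite measurableSet_Iic (by fun_prop)
  apply Measurable.ite measurableSet_Iic (by fun_prop) measurable_const

theorem TS_section {e : ℝ} (he0 : 0 < e) (he1 : e < 1) {z w : ℂ}
    (hw : ‖w‖ ^ 2 ≤ TS e (‖z‖ ^ 2)) (hz : ‖z‖ ≤ 1) :
    (!₂[z, w] : C2) ∈ wulff (fun y => max (√e) ‖y 0‖) := by
  have h1e : 0 < 1 - e := by linarith
  by_cases h1 : ‖z‖ ^ 2 ≤ e ^ 2
  · unfold TS at hw
    rw [if_pos h1] at hw
    apply wulff_ball
    apply Real.le_sqrt_of_sq_le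
    rw [norm_sq_C2]
    simp
    linarith
  · unfold TS at hw
    have h2 : ‖z‖ ^ 2 ≤ 1 := pow_le_one₀ (norm_nonneg _) hz
    rw [if_neg h1, if_pos h2, Real.sqrt_sq (norm_nonneg _)] at hw
    have hez : e ≤ ‖z‖ := by
      by_contra hc
      push Not at hc
      apply h1
      have := norm_nonneg z
      gcongr
    -- `‖w‖ ≤ √e / √(1-e) (1 - ‖z‖)`
    set a := √e with ha
    set b := √(1 - e) with hb
    have ha2 : a ^ 2 = e := Real.sq_sqrt he0.le
    have hb2 : b ^ 2 = 1 - e := Real.sq_sqrt h1e.le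
    have ha0 : 0 < a := Real.sqrt_pos.2 he0
    have hb0 : 0 < b := Real.sqrt_pos.2 h1e
    have hwb : ‖w‖ * b ≤ a * (1 - ‖z‖) := by
      have h3 : (‖w‖ * b) ^ 2 ≤ (a * (1 - ‖z‖)) ^ 2 := by
        rw [mul_pow, mul_pow, ha2, hb2]
        have := mul_le_mul_of_nonneg_right hw h1e.le
        calc ‖w‖ ^ 2 * (1 - e) ≤ e / (1 - e) * (1 - ‖z‖) ^ 2 * (1 - e) := this
          _ = e * (1 - ‖z‖) ^ 2 := by field_simp
      have h4 : 0 ≤ a * (1 - ‖z‖) := mul_nonneg ha0.le (by linarith)
      exact le_of_sq_le_sq h3 h4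
    intro y hy
    rw [inner_C2]
    have e0 : (starRingEnd ℂ) (y 0) * (!₂[z, w] : C2) 0 + (starRingEnd ℂ) (y 1) * (!₂[z, w] : C2) 1
        = (starRingEnd ℂ) (y 0) * z + (starRingEnd ℂ) (y 1) * w := by simp
    rw [e0]
    have h5 : ((starRingEnd ℂ) (y 0) * z + (starRingEnd ℂ) (y 1) * w).re ≤ ‖y 0‖ * ‖z‖ + ‖y 1‖ * ‖w‖ := by
      refine (Complex.re_le_norm _).trans ?_
      refine (norm_add_le _ _).trans ?_
      rw [norm_mul, norm_mul, RCLike.norm_conj, RCLike.norm_conj]
    refine h5.trans ?_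
    have hyn := norm_sq_C2 y
    rw [hy] at hyn
    set p := ‖y 0‖ with hp
    set q := ‖y 1‖ with hq
    have hp0 : 0 ≤ p := norm_nonneg _
    have hq0 : 0 ≤ q := norm_nonneg _
    -- at the tangency point
    have h6 : p * e + q * (a * b) ≤ a := by
      have h7 : p * a + q * b ≤ 1 := by
        nlinarith [sq_nonneg (p - a), sq_nonneg (q - b)]
      calc p * e + q * (a * b) = a * (p * a + q * b) := by rw [← ha2]; ring
        _ ≤ a * 1 := mul_le_mul_of_nonneg_left h7 ha0.le
        _ = a := mul_one a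
    have h8 : q * ‖w‖ * b ^ 2 ≤ q * (a * b) * (1 - ‖z‖) := by
      have := mul_le_mul_of_nonneg_left hwb (mul_nonneg hq0 hb0.le)
      nlinarith
    rw [hb2] at h8
    -- convex combination
    set M := max a p with hM
    have h9 : p ≤ M := le_max_right _ _
    have h10 : p * e + q * (a * b) ≤ M := h6.trans (le_max_left _ _)
    have h11 : (p * ‖z‖ + q * ‖w‖) * (1 - e) ≤ M * (1 - e) := by
      have k1 := mul_le_mul_of_nonneg_right h9 (by linarith : (0:ℝ) ≤ ‖z‖ - e)
      have k2 := mul_le_mul_of_nonneg_right h10 (by linarith : (0:ℝ) ≤ 1 - ‖z‖)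
      nlinarith
    exact le_of_mul_le_mul_right h11 h1e

end Run7.h549
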