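import Pool.Agent.Run7.h549.High2

set_option maxHeartbeats 400000
open MeasureTheory Set Filter Topology
open scoped ENNReal Real Pointwise

namespace Run7.h549

theorem int_TS {e : ℝ} (he0 : 0 < e) (he1 : e < 1) :
    ∫ s in (0:ℝ)..1, TS e s = 1 / 2 - (1 - e) + 2 / 3 * (1 - e) ^ 2 - (1 - e) ^ 3 / 6 := by
  have h1e : 0 < 1 - e := by linarith
  have he2 : 0 < e ^ 2 := by positivity
  have he21 : e ^ 2 ≤ 1 := by nlinarith
  have i1 : IntervalIntegrable (TS e) volume 0 (e ^ 2) := by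
    have h : IntervalIntegrable (fun s : ℝ => e - s) volume 0 (e ^ 2) :=
      (by fun_prop : Continuous fun s : ℝ => e - s).intervalIntegrable _ _
    apply h.congr_ae
    rw [uIoc_of_le he2.le]
    filter_upwards [ae_restrict_mem measurableSet_Ioc] with s hs
    unfold TS
    rw [if_pos hs.2]
  have i2 : IntervalIntegrable (TS e) volume (e ^ 2) 1 := by
    have h : IntervalIntegrable (fun s : ℝ => e / (1 - e) * (1 - √s) ^ 2) volume (e ^ 2) 1 :=
      (by fun_prop : Continuous fun s : ℝ => e / (1 - e) * (1 - √s) ^ 2).intervalIntegrable _ _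
    apply h.congr_ae
    rw [uIoc_of_le he21]
    filter_upwards [ae_restrict_mem measurableSet_Ioc] with s hs
    unfold TS
    rw [if_neg (not_le.2 hs.1), if_pos hs.2]
  rw [← intervalIntegral.integral_add_adjacent_intervals i1 i2]
  have e1 : ∫ s in (0:ℝ)..(e ^ 2), TS e s = ∫ s in (0:ℝ)..(e ^ 2), (e - s) := by
    apply intervalIntegral.integral_congr
    intro s hs
    rw [uIcc_of_le he2.le] at hs
    unfold TS
    rw [if_pos hs.2]
  have e2 : ∫ s in (e ^ 2)..1, TS e s = ∫ s in (e ^ 2)..1, e / (1 - e) * (1 - √s) ^ 2 := by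
    apply intervalIntegral.integral_congr_ae
    have : ∀ᵐ s : ℝ, s ≠ e ^ 2 := by
      rw [ae_iff]; simp
    filter_upwards [this] with s _ hs
    rw [uIoc_of_le he21] at hs
    unfold TS
    rw [if_neg (not_le.2 hs.1), if_pos hs.2]
  have e3 : ∫ s in (0:ℝ)..(e ^ 2), (e - s) = e ^ 3 - e ^ 4 / 2 := by
    rw [intervalIntegral.integral_sub (by simp) (by simp)]
    simp
    ring
  have e4 : ∫ s in (e ^ 2)..1, (1 - √s) ^ 2 = 1 / 6 - (e ^ 2 - 4 / 3 * (e ^ 2 * e) + e ^ 4 / 2) := by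
    have hd : ∀ s ∈ uIcc (e ^ 2) 1, HasDerivAt (fun s : ℝ => s - 4 / 3 * (s * √s) + s ^ 2 / 2)
        ((1 - √s) ^ 2) s := by
      intro s hs
      rw [uIcc_of_le he21] at hs
      have hs0 : 0 < s := lt_of_lt_of_le he2 hs.1
      have hsq : √s ^ 2 = s := Real.sq_sqrt hs0.le
      have hsp : 0 < √s := Real.sqrt_pos.2 hs0
      have := ((hasDerivAt_id s).sub (((hasDerivAt_id s).mul ((hasDerivAt_id s).sqrt hs0.ne')).const_mul
        (4 / 3))).add (((hasDerivAt_id s).pow 2).div_const 2)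
      refine this.congr_deriv ?_
      simp
      have h2 : s * (1 / (2 * √s)) = √s / 2 := by
        have h3 : s = √s * √s := by rw [← sq]; exact hsq.symm
        conv_lhs => rw [h3]
        rw [Real.sqrt_mul_self hsp.le]
        field_simp
      have h4 : s * ((√s)⁻¹ * 2⁻¹) = √s / 2 := by rw [← h2]; field_simp
      linear_combination (-4 / 3) * h4 - hsq
    rw [intervalIntegral.integral_eq_sub_of_hasDerivAt hd
      ((by fun_prop : Continuous fun s : ℝ => (1 - √s) ^ 2).intervalIntegrable _ _)]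
    rw [Real.sqrt_sq he0.le]
    simp
    ring
  rw [e1, e2, e3, intervalIntegral.integral_const_mul, e4]
  field_simp
  ring

theorem vol_H {e : ℝ} (he0 : 0 < e) (he1 : e < 1) {K : ConvexBody C2}
    (hK : (K : Set C2) = wulff (fun y => max (√e) ‖y 0‖)) :
    π ^ 2 * (1 / 2 - (1 - e) + 2 / 3 * (1 - e) ^ 2 - (1 - e) ^ 3 / 6) ≤ (volume (K : Set C2)).toReal := by
  have hfin : volume (K : Set C2) ≠ ∞ := K.isCompact.measure_lt_top.ne
  rw [← ENNReal.ofReal_le_iff_le_toReal hfin, vol_sections K.isClosed.measurableSet, ← int_TS he0 he1]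
  have h1 : ∀ z : ℂ, ENNReal.ofReal (π * TS e (‖z‖ ^ 2))
      ≤ volume {w : ℂ | (!₂[z, w] : C2) ∈ (K : Set C2)} := by
    intro z
    by_cases hz : ‖z‖ ≤ 1
    · have hn := TS_nonneg (s := ‖z‖ ^ 2) he0 he1
      have hsub : Metric.closedBall (0 : ℂ) (√(TS e (‖z‖ ^ 2)))
          ⊆ {w : ℂ | (!₂[z, w] : C2) ∈ (K : Set C2)} := by
        intro w hw
        rw [mem_closedBall_zero_iff] at hw
        rw [mem_ofPred_eq, hK]
        apply TS_section he0 he1 _ hz
        calc ‖w‖ ^ 2 ≤ √(TS e (‖z‖ ^ 2)) ^ 2 := by gcongr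
          _ = _ := Real.sq_sqrt hn
      refine le_trans (le_of_eq ?_) (measure_mono hsub)
      rw [Complex.volume_closedBall, ← ENNReal.ofReal_pow (Real.sqrt_nonneg _), Real.sq_sqrt hn, mul_comm π,
        ENNReal.ofReal_mul hn]
      congr 1
      exact ENNReal.ofReal_coe_nnreal (p := NNReal.pi)
    · have h2 : TS e (‖z‖ ^ 2) = 0 := by
        push Not at hz
        unfold TS
        have h3 : 1 < ‖z‖ ^ 2 := by nlinarith
        rw [if_neg, if_neg (not_le.2 h3)]
        have : e ^ 2 < 1 := by nlinarith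
        linarith
      rw [h2]
      simp
  refine le_trans (le_of_eq ?_) (lintegral_mono h1)
  rw [lint_normsq (F := fun s => ENNReal.ofReal (π * TS e s)) (by
    have := TS_meas e
    fun_prop)]
  have h3 : ∫⁻ s in Ioi (0:ℝ), ENNReal.ofReal (π * TS e s)
      = ∫⁻ s in Ioc (0:ℝ) 1, ENNReal.ofReal (π * TS e s) := by
    rw [← lintegral_indicator measurableSet_Ioi, ← lintegral_indicator measurableSet_Ioc]
    congr 1
    funext s
    by_cases hs : s ∈ Ioc (0:ℝ) 1
    · rw [indicator_of_mem hs, indicator_of_mem (show s ∈ Ioi (0:ℝ) from hs.1)]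
    · rw [indicator_of_notMem hs]
      by_cases hs0 : s ∈ Ioi (0:ℝ)
      · rw [indicator_of_mem hs0]
        have hs1 : 1 < s := by
          by_contra hc
          push Not at hc
          exact hs ⟨hs0, hc⟩
        have : TS e s = 0 := by
          unfold TS
          rw [if_neg, if_neg (not_le.2 hs1)]
          have : e ^ 2 < 1 := by nlinarith
          linarith
        rw [this]; simp
      · rw [indicator_of_notMem hs0]
  have hb : ∀ s ∈ Ioc (0:ℝ) 1, ‖TS e s‖ ≤ 1 + e / (1 - e) := by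
    intro s hs
    have h1e : 0 < 1 - e := by linarith
    have hd : 0 < e / (1 - e) := by positivity
    rw [Real.norm_eq_abs, abs_of_nonneg (TS_nonneg he0 he1)]
    unfold TS
    rw [if_pos hs.2]
    split_ifs with h1
    · linarith [hs.1]
    · have h2 : 0 ≤ √s := Real.sqrt_nonneg s
      have h4 : √s ≤ 1 := by exact Real.sqrt_le_one.2 hs.2
      have h5 : (1 - √s) ^ 2 ≤ 1 := by nlinarith
      nlinarith [mul_le_mul_of_nonneg_left h5 hd.le]
  have hint : IntegrableOn (fun s => π * TS e s) (Ioc (0:ℝ) 1) := by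
    apply Integrable.const_mul
    exact Measure.integrableOn_of_bounded (M := 1 + e / (1 - e)) (by simp) (TS_meas e).aestronglyMeasurable
      (by filter_upwards [ae_restrict_mem measurableSet_Ioc] with s hs; exact hb s hs)
  rw [h3, ← ofReal_integral_eq_lintegral_ofReal hint
    (Eventually.of_forall fun s => mul_nonneg Real.pi_pos.le (TS_nonneg he0 he1)),
    ← ENNReal.ofReal_mul Real.pi_pos.le, integral_const_mul,
    ← intervalIntegral.integral_of_le zero_le_one]
  congr 1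
  ring

/-- for `2a > 5b ≥ 0` the ball is not a minimiser -/
theorem high {a b : ℝ} (hb : 0 ≤ b) (h : 5 * b < 2 * a) : ∃ K : ConvexBody C2,
    (volume (K : Set C2)).toReal = 1 ∧
    a * (4 * alL K - 2 * al K) + b * (3 * al K - 2 * alL K) < √2 * (2 * a + b) := by
  have hpi := Real.pi_pos
  have hab : 0 < 2 * a + b := by linarith
  set c : ℝ := b / (2 * a + b) with hc
  have hc0 : 0 ≤ c := by positivity
  have hc6 : c < 1 / 6 := by
    rw [hc, div_lt_iff₀ hab]; linarith
  set x : ℝ := 1 / 3 - 2 * c with hx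
  have hx0 : 0 < x := by linarith
  have hx1 : x ≤ 1 / 3 := by linarith
  set e : ℝ := 1 - x with he
  have he0 : 0 < e := by linarith
  have he1 : e < 1 := by linarith
  have hr : 0 < √e := Real.sqrt_pos.2 he0
  have hr1 : √e ≤ 1 := by exact Real.sqrt_le_one.2 he1.le
  have hr2 : √e ^ 2 = e := Real.sq_sqrt he0.le
  set K : ConvexBody C2 := wulffBody (fun y => max (√e) ‖y 0‖) (fun y _ => hr.le.trans (le_max_left _ _)) 1
    (by norm_num) (fun y hy => max_le hr1 (norm_coord_le hy.le 0)) with hK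
  have hKc : (K : Set C2) = wulff (fun y => max (√e) ‖y 0‖) := rfl
  have e1 := al_H hr.le hr1 hKc
  have e2 := alL_H hr hr1 hKc
  have e3 := vol_H he0 he1 hKc
  rw [hr2] at e1 e2
  set V := (volume (K : Set C2)).toReal with hV
  have h1e : 1 - e = x := by linarith
  rw [h1e] at e2 e3
  have hk : (π * (1 - x + c * x ^ 2)) ^ 2 < 2 * V := by
    have h3 : 2 * (π ^ 2 * (1 / 2 - x + 2 / 3 * x ^ 2 - x ^ 3 / 6))
        = (π * (1 - x + c * x ^ 2)) ^ 2 + π ^ 2 * (x ^ 2 * ((1 / 3 - 2 * c) * (1 - x) - c ^ 2 * x ^ 2)) := by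
      ring
    have h4 : 0 < (1 / 3 - 2 * c) * (1 - x) - c ^ 2 * x ^ 2 := by
      rw [← hx]
      have h5 : c ^ 2 ≤ 1 / 36 := by nlinarith
      have h6 : c ^ 2 * x ^ 2 ≤ 1 / 36 * (x * (1 / 3)) := by
        have : x ^ 2 ≤ x * (1 / 3) := by nlinarith
        calc c ^ 2 * x ^ 2 ≤ 1 / 36 * x ^ 2 := by gcongr
          _ ≤ 1 / 36 * (x * (1 / 3)) := by gcongr
      nlinarith
    have h7 : 0 < π ^ 2 * (x ^ 2 * ((1 / 3 - 2 * c) * (1 - x) - c ^ 2 * x ^ 2)) := by positivity
    linarith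
  have hV0 : 0 < V := by nlinarith [sq_nonneg (π * (1 - x + c * x ^ 2))]
  have hk2 : π * (1 - x + c * x ^ 2) < √(2 * V) := Real.lt_sqrt_of_sq_lt hk
  obtain ⟨K', hv, ha, hl⟩ := normalise K hV0
  refine ⟨K', hv, ?_⟩
  rw [ha, hl]
  have hsV : 0 < √V := Real.sqrt_pos.2 hV0
  have e4 : a * (4 * (alL K / √V) - 2 * (al K / √V)) + b * (3 * (al K / √V) - 2 * (alL K / √V))
      = ((3 * b - 2 * a) * al K + (4 * a - 2 * b) * alL K) / √V := by ring
  rw [e4, div_lt_iff₀ hsV]
  have e5 : √2 * (2 * a + b) * √V = (2 * a + b) * √(2 * V) := by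
    rw [Real.sqrt_mul (by norm_num)]; ring
  rw [e5]
  have k1 := mul_le_mul_of_nonneg_left e1 (by linarith : 0 ≤ 2 * a - 3 * b)
  have k2 := mul_le_mul_of_nonneg_left e2 (by linarith : 0 ≤ 4 * a - 2 * b)
  have k3 : (3 * b - 2 * a) * (π * ((1 + e ^ 2) / 2)) + (4 * a - 2 * b) * (π * ((1 + e ^ 2) / 2 - x ^ 2 / 4))
      = (2 * a + b) * (π * (1 - x + c * x ^ 2)) := by
    have hcb : (2 * a + b) * c = b := by rw [hc]; field_simp
    have : (2 * a + b) * (π * (1 - x + c * x ^ 2)) = π * ((2 * a + b) * (1 - x) + ((2 * a + b) * c) * x ^ 2) := by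
      ring
    rw [this, hcb, he]
    ring
  have k4 := mul_lt_mul_of_pos_left hk2 hab
  nlinarith

end Run7.h549
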