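import Mathlib

/-!
# Interface (helper549, MP_14a161_gt): isoperimetric minimum of the hermitian valuations of degree 2 of `ℂ²`

MAIN THEOREM: for `b ≤ 2a ≤ 3b` the minimum of `a μ₂₀ + b μ₂₁` over convex bodies of volume one is
`√2 (2a+b)`, attained at the ball.

Let `al K` be the average over the unit ball of `|x|²`-weighted complex projections,
`al K = (3/π²) ∫_{|x| ≤ 1} area {⟪x,z⟫ : z ∈ K} dx`, the mean area of the projections of `K` on complex lines.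
Key inequality (SETS): `al K ≥ √(2 vol K)`.
Proof: for a smooth `f`, `0 ≤ f ≤ 1`, with support in `K`, and `φ_x` the density of the image of `f dz`
under `z ↦ ⟪x,z⟫`: Plancherel gives an identity for the mean of `∫ |∇ φ_x|²`, and S_planar bounds every
`∫ |∇ φ_x|²` from below by `8 π (∫ f)² / area²`.
-/

open MeasureTheory Set
open scoped ENNReal Real

namespace Run7.h549

abbrev C2 := EuclideanSpace ℂ (Fin 2)

/-- P1: the area is a continuous function of a planar convex body (Hausdorff metric).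
Proof: `K_n → K`. If `x ∉ K` then `x ∉ K_n` for large `n` (closedness).
If `x ∈ interior K`, `ball x r ⊆ K`, and `dist K_n K < r` then `x ∈ K_n`: otherwise separate `x` from
`K_n` by a half plane; the point of `ball x r` furthest in the opposite direction has distance close to `r`
from `K_n`. The frontier of `K` is a null set (`Convex.addHaar_frontier`). Dominated convergence. -/
def S_vol : Prop :=
  Continuous (fun P : ConvexBody ℂ => (volume (P : Set ℂ)).toReal)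

/-- P2: the planar inequality (Saint-Venant, with the sharp constant, by Knothe's map).
Proof. WLOG `P` has nonempty interior (otherwise `φ = 0`). Let `(α, β)` be the projection of
`interior P` on the first axis, `ℓ(s)` the length of the vertical section at `s` (positive and continuous on
`(α, β)`), `|P| = π r²`. Let `X : (α, β) → (-r, r)`, `C¹` and increasing, be given by
`∫_α^s ℓ = ∫_{-r}^{X(s)} 2 √(r² - y²) dy`, so `X' = ℓ / (2 √(r² - X²))`.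
On the section at `s` (an interval `(m(s) - ℓ(s)/2, m(s) + ℓ(s)/2)`) let
`Y(s,t) = √(r² - X(s)²) (t - m(s)) / (ℓ(s)/2)`, so `∂_t Y = 2 √(r²-X²)/ℓ = 1 / X'(s)`.
Then `X' + ∂_t Y ≥ 2`, and by integration by parts on lines
`2 ∫ φ ≤ ∫ φ (X' + ∂_t Y) = - ∫ (ψ₁ X + ψ₂ Y) ≤ (∫ ψ₁² + ψ₂²)^(1/2) (∫_P X² + Y²)^(1/2)`, and
`∫_P X² + Y² = ∫_α^β (X² + (r² - X²)/3) ℓ ds = ∫_{-r}^r (r²/3 + 2y²/3) 2 √(r² - y²) dy = π r⁴ / 2 = |P|²/(2π)`. -/
def S_planar : Prop :=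
  ∀ (P : Set ℂ) (_ : IsCompact P) (_ : Convex ℝ P) (φ ψ₁ ψ₂ : ℂ → ℝ)
    (_ : Continuous φ) (_ : Continuous ψ₁) (_ : Continuous ψ₂) (_ : ∀ p, 0 ≤ φ p)
    (_ : tsupport φ ⊆ interior P)
    (_ : ∀ p, HasDerivAt (fun t : ℝ => φ (p + (t : ℂ))) (ψ₁ p) 0)
    (_ : ∀ p, HasDerivAt (fun t : ℝ => φ (p + (t : ℂ) * Complex.I)) (ψ₂ p) 0),
    8 * π * (∫ p, φ p) ^ 2 ≤ (volume P).toReal ^ 2 * ∫ p, (ψ₁ p ^ 2 + ψ₂ p ^ 2)

/-- P4: polar coordinates along complex lines.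
Proof. Tonelli; for `ζ ≠ 0` substitute `x = ζ⁻¹ y` (real Jacobian `|ζ|⁻⁴`); Tonelli;
`∫_{|ζ| ≥ s} |ζ|⁻⁸ dζ = 2π ∫_s^∞ r⁻⁷ dr = (π/3) s⁻⁶`. -/
def S_polar : Prop :=
  ∀ (G : C2 → ℝ≥0∞) (_ : Measurable G),
    ∫⁻ x in Metric.closedBall (0 : C2) 1, ‖x‖ₑ ^ 6 * ∫⁻ ζ : ℂ, ‖ζ‖ₑ ^ 2 * G (ζ • x)
      = ENNReal.ofReal (π / 3) * ∫⁻ z, G z

/-- P5: the Klain function.
Proof. Put `w = Im ⟪u,v⟫`, `|w| ≤ 1`. The form `q x = Im (conj ⟪x,u⟫ * ⟪x,v⟫)` is a hermitian form with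
eigenvalues `(w+1)/2`, `(w-1)/2` (up to the sign of `w`): there is a complex linear isometry `T` of `C2` with
`q (T x) = (w+1)/2 |x₀|² + (w-1)/2 |x₁|²`. With `s = |x₀|²`, `t = |x₁|²` the integral is
`π² ∫_{s,t ≥ 0, s+t ≤ 1} |(w+1)/2 s - (1-w)/2 t| ds dt = (π²/3) ∫_0^1 |τ - (1-w)/2| dτ
= (π²/3) (((1+w)/2)² + ((1-w)/2)²)/2 = (π²/12)(1 + w²)`. -/
def S_klain : Prop :=
  ∀ (u v : C2) (_ : ‖u‖ = 1) (_ : ‖v‖ = 1) (_ : (inner ℂ u v).re = 0),
    ∫ x in Metric.closedBall (0 : C2) 1, |((starRingEnd ℂ (inner ℂ x u)) * inner ℂ x v).im|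
      = π ^ 2 / 12 * (1 + (inner ℂ u v).im ^ 2)

end Run7.h549
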