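import Pool.Agent.Run7.h549.Key2

set_option maxHeartbeats 400000
open MeasureTheory Set Filter Topology
open scoped ENNReal Real ContDiff FourierTransform SchwartzMap Manifold

namespace Run7.h549

theorem al_nonneg (K : ConvexBody C2) : 0 ≤ al K := by
  unfold al
  have : 0 ≤ ∫ x in Metric.closedBall (0 : C2) 1, pa x K := integral_nonneg fun x => pa_nonneg x K
  positivity

theorem integral_le_of_lint {μ : Measure C2} {L : C2 → ℝ} (hL : Integrable L μ) {c : ℝ} (hc : 0 ≤ c)
    (h : ∫⁻ x, ENNReal.ofReal (L x) ∂μ ≤ ENNReal.ofReal c) : ∫ x, L x ∂μ ≤ c := by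
  rw [integral_eq_lintegral_pos_part_sub_lintegral_neg_part hL]
  have h1 : (∫⁻ x, ENNReal.ofReal (L x) ∂μ).toReal ≤ c := by
    have := ENNReal.toReal_mono ENNReal.ofReal_ne_top h
    rwa [ENNReal.toReal_ofReal hc] at this
  have h2 : 0 ≤ (∫⁻ x, ENNReal.ofReal (-L x) ∂μ).toReal := ENNReal.toReal_nonneg
  linarith

theorem al_ge_smooth {K : ConvexBody C2} {f : C2 → ℝ} (hf : ContDiff ℝ ∞ f)
    (hc : HasCompactSupport f) (h0 : ∀ z, 0 ≤ f z) (h1 : ∀ z, f z ≤ 1)
    (ts : tsupport f ⊆ interior (K : Set C2)) : √(2 * ∫ z, f z) ≤ al K := by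
  set I := ∫ z, f z with hI
  have hI0 : 0 ≤ I := integral_nonneg h0
  rcases hI0.eq_or_lt with hI00 | hIpos
  · rw [← hI00]; simp [al_nonneg]
  set v := √(2 * I) with hv
  have hvp : 0 < v := Real.sqrt_pos.2 (by positivity)
  have hv2 : v ^ 2 = 2 * I := Real.sq_sqrt (by positivity)
  have hfi : Integrable f := hf.continuous.integrable_of_hasCompactSupport hc
  have hf2i : Integrable (fun z => f z ^ 2) := by
    apply Continuous.integrable_of_hasCompactSupport
    · have := hf.continuous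
      fun_prop
    · exact hc.comp_left (g := fun x : ℝ => x ^ 2) (by simp)
  have hf2 : ∫ z, f z ^ 2 ≤ I := by
    apply integral_mono hf2i hfi
    intro z
    simp only
    nlinarith [h0 z, h1 z]
  have hf20 : 0 ≤ ∫ z, f z ^ 2 := integral_nonneg fun z => by positivity
  set L : C2 → ℝ := fun x => 8 * π * I ^ 2 * (3 * (v ^ 2)⁻¹ * ‖x‖ ^ 2 - 2 * (v ^ 3)⁻¹ * pa x K) with hL
  have hpc := pa_cont_left K
  have i1 : IntegrableOn (fun x : C2 => ‖x‖ ^ 2) (Metric.closedBall (0 : C2) 1) :=
    (by fun_prop : Continuous fun x : C2 => ‖x‖ ^ 2).continuousOn.integrableOn_compact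
      (isCompact_closedBall _ _)
  have i2 : IntegrableOn (fun x : C2 => pa x K) (Metric.closedBall (0 : C2) 1) :=
    hpc.continuousOn.integrableOn_compact (isCompact_closedBall _ _)
  have iL : IntegrableOn L (Metric.closedBall (0 : C2) 1) := by
    apply ContinuousOn.integrableOn_compact (isCompact_closedBall _ _)
    apply Continuous.continuousOn
    rw [hL]
    fun_prop
  have hlint : ∫⁻ x in Metric.closedBall (0 : C2) 1, ENNReal.ofReal (L x)
      ≤ ENNReal.ofReal (4 * π ^ 2 * (π / 3) * ∫ z, f z ^ 2) := by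
    have hG := GF_meas hf hc
    have hp := polar (GF f) hG
    rw [GF_lint hf hc] at hp
    have hmN : Measurable (fun x : C2 => ‖x‖ₑ ^ 6 * NN f x) := by
      apply Measurable.mul (by fun_prop)
      unfold NN
      have hm : Measurable (fun q : C2 × ℂ => ‖q.2‖ₑ ^ 2 * GF f (q.2 • q.1)) := by
        have a1 : Measurable (fun q : C2 × ℂ => q.2 • q.1) := by fun_prop
        have a2 : Measurable (fun q : C2 × ℂ => GF f (q.2 • q.1)) := hG.comp a1
        fun_prop
      exact hm.lintegral_prod_right'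
    calc ∫⁻ x in Metric.closedBall (0 : C2) 1, ENNReal.ofReal (L x)
        ≤ ∫⁻ x in Metric.closedBall (0 : C2) 1, ENNReal.ofReal (4 * π ^ 2) * (‖x‖ₑ ^ 6 * NN f x) := by
          apply lintegral_mono_ae
          have hne : ∀ᵐ x : C2 ∂(volume.restrict (Metric.closedBall (0 : C2) 1)), x ≠ 0 := by
            apply ae_restrict_of_ae
            have : (volume : Measure C2) {0} = 0 := measure_singleton 0
            exact measure_eq_zero_iff_ae_notMem.1 this
          filter_upwards [hne] with x hx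
          exact pointwise hf hc h0 ts hvp hx
      _ = ENNReal.ofReal (4 * π ^ 2) * ∫⁻ x in Metric.closedBall (0 : C2) 1, ‖x‖ₑ ^ 6 * NN f x :=
          lintegral_const_mul _ hmN
      _ = ENNReal.ofReal (4 * π ^ 2 * (π / 3) * ∫ z, f z ^ 2) := by
          have : ∫⁻ x in Metric.closedBall (0 : C2) 1, ‖x‖ₑ ^ 6 * NN f x
              = ENNReal.ofReal (π / 3) * ENNReal.ofReal (∫ z, f z ^ 2) := hp
          rw [this, ← mul_assoc, ← ENNReal.ofReal_mul (by positivity), ← ENNReal.ofReal_mul (by positivity)]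
  have hint := integral_le_of_lint iL (by positivity) hlint
  have eL : ∫ x in Metric.closedBall (0 : C2) 1, L x
      = 8 * π * I ^ 2 * (3 * (v ^ 2)⁻¹ * (π ^ 2 / 3) - 2 * (v ^ 3)⁻¹ * (π ^ 2 / 3 * al K)) := by
    rw [hL, integral_const_mul, integral_sub (i1.const_mul _) (i2.const_mul _), integral_const_mul,
      integral_const_mul, sq_ball]
    unfold al
    field_simp
  rw [eL] at hint
  have h5 : 8 * π * I ^ 2 * (3 * (v ^ 2)⁻¹ * (π ^ 2 / 3) - 2 * (v ^ 3)⁻¹ * (π ^ 2 / 3 * al K))
      ≤ 4 * π ^ 2 * (π / 3) * I := by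
    refine hint.trans ?_
    gcongr
  have hIv : I = v ^ 2 / 2 := by rw [hv2]; ring
  rw [hIv] at h5
  have h6 : 8 * π * (v ^ 2 / 2) ^ 2 * (3 * (v ^ 2)⁻¹ * (π ^ 2 / 3) - 2 * (v ^ 3)⁻¹ * (π ^ 2 / 3 * al K))
      = (2 * π ^ 3 / 3) * v * (3 * v - 2 * al K) := by
    field_simp
    ring
  have h7 : 4 * π ^ 2 * (π / 3) * (v ^ 2 / 2) = (2 * π ^ 3 / 3) * v * v := by ring
  rw [h6, h7] at h5
  have h8 : 3 * v - 2 * al K ≤ v := le_of_mul_le_mul_left h5 (by positivity)
  linarith

theorem exists_smooth (K : ConvexBody C2) {c : ℝ} (hc : c < (volume (K : Set C2)).toReal) :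
    ∃ f : C2 → ℝ, ContDiff ℝ ∞ f ∧ HasCompactSupport f ∧ (∀ z, 0 ≤ f z) ∧ (∀ z, f z ≤ 1) ∧
      tsupport f ⊆ interior (K : Set C2) ∧ c < ∫ z, f z := by
  by_cases hc0 : c < 0
  · refine ⟨0, contDiff_const, HasCompactSupport.zero, by simp, by simp, by simp, by simpa using hc0⟩
  push Not at hc0
  have hvol : volume (interior (K : Set C2)) = volume (K : Set C2) :=
    measure_interior_of_null_frontier (K.convex.addHaar_frontier volume)
  have hfin : volume (K : Set C2) ≠ ⊤ := K.isCompact.measure_lt_top.ne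
  have hlt : ENNReal.ofReal c < volume (interior (K : Set C2)) := by
    rw [hvol]
    exact (ENNReal.ofReal_lt_iff_lt_toReal hc0 hfin).2 hc
  obtain ⟨C, hCi, hC, hCv⟩ := isOpen_interior.measurableSet.exists_lt_isCompact hlt
  obtain ⟨g, hg0, hg1, hg⟩ := exists_contMDiffMap_zero_one_nhds_of_isClosed (n := ⊤)
    (modelWithCornersSelf ℝ C2) (s := (interior (K : Set C2))ᶜ) (t := C)
    isOpen_interior.isClosed_compl hC.isClosed
    (disjoint_compl_left_iff_subset.2 hCi)
  have hgs : ContDiff ℝ ∞ (g : C2 → ℝ) := contMDiff_iff_contDiff.1 g.contMDiff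
  have hts : tsupport (g : C2 → ℝ) ⊆ interior (K : Set C2) := by
    intro x hx
    by_contra hxn
    have h1 : ∀ᶠ y in 𝓝 x, g y = 0 := by
      have := eventually_nhdsSet_iff_forall.1 hg0 x hxn
      exact this
    exact (notMem_tsupport_iff_eventuallyEq.2 h1) hx
  have hcs : HasCompactSupport (g : C2 → ℝ) :=
    K.isCompact.of_isClosed_subset (isClosed_tsupport _) (hts.trans interior_subset)
  refine ⟨g, hgs, hcs, fun z => (hg z).1, fun z => (hg z).2, hts, ?_⟩
  have hCfin : volume C ≠ ⊤ := hC.measure_lt_top.ne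
  have h2 : c < (volume C).toReal := (ENNReal.ofReal_lt_iff_lt_toReal hc0 hCfin).1 hCv
  have h3 : (volume C).toReal = ∫ z in C, (1 : ℝ) := by simp [Measure.real]
  have h4 : ∫ z in C, (1 : ℝ) = ∫ z in C, g z := by
    apply setIntegral_congr_fun hC.measurableSet
    intro z hz
    have := hg1.self_of_nhdsSet z hz
    exact this.symm
  have h5 : ∫ z in C, g z ≤ ∫ z, g z := by
    apply setIntegral_le_integral (hgs.continuous.integrable_of_hasCompactSupport hcs)
    exact Eventually.of_forall fun z => (hg z).1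
  linarith

/-- KEY INEQUALITY: `al K ≥ √(2 vol K)` -/
theorem al_ge (K : ConvexBody C2) : √(2 * (volume (K : Set C2)).toReal) ≤ al K := by
  rw [Real.sqrt_le_left (al_nonneg K)]
  by_contra hlt
  push Not at hlt
  obtain ⟨f, h1, h2, h3, h4, h5, h6⟩ := exists_smooth K (c := al K ^ 2 / 2) (by linarith)
  have := al_ge_smooth h1 h2 h3 h4 h5
  rw [Real.sqrt_le_left (al_nonneg K)] at this
  linarith

end Run7.h549
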