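import Pool.Agent.Run7.h549.Planar3

set_option maxHeartbeats 200000
open MeasureTheory Set Filter Topology
open scoped ENNReal Real

namespace Run7.h549

variable {α β R : ℝ} {L U : ℝ → ℝ}

theorem area_le (h : SD α β R L U) {P : Set ℂ} (hP : IsCompact P)
    (hsub : ∀ s ∈ Ioo α β, ∀ t, L s ≤ t → t ≤ U s → (s : ℂ) + (t : ℂ) * Complex.I ∈ P) :
    FF α β L U β ≤ (volume P).toReal := by
  have iL : IntegrableOn L (Ioo α β) := by
    refine IntegrableOn.of_bound (by simp) (h.cL.aestronglyMeasurable measurableSet_Ioo) R ?_
    filter_upwards [ae_restrict_mem measurableSet_Ioo] with s hs using (h.bd s hs).1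
  have iU : IntegrableOn U (Ioo α β) := by
    refine IntegrableOn.of_bound (by simp) (h.cU.aestronglyMeasurable measurableSet_Ioo) R ?_
    filter_upwards [ae_restrict_mem measurableSet_Ioo] with s hs using (h.bd s hs).2
  have h1 := volume_regionBetween_eq_integral iL iU measurableSet_Ioo (fun x hx => (h.pos x hx).le)
  have e1 : FF α β L U β = ∫ y in Ioo α β, (U - L) y := by
    unfold FF lam
    rw [intervalIntegral.integral_of_le h.lt.le, integral_Ioc_eq_integral_Ioo,
      setIntegral_indicator measurableSet_Ioo, inter_self]
    rfl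
  have h2 : (volume.prod volume) (regionBetween L U (Ioo α β)) ≤ volume P := by
    rw [← Measure.volume_eq_prod]
    have mp := Complex.volume_preserving_equiv_real_prod.symm
    rw [← mp.measure_preimage_equiv P]
    apply measure_mono
    intro q hq
    have := hsub q.1 hq.1 q.2 hq.2.1.le hq.2.2.le
    simp only [mem_preimage]
    convert this using 1
    apply Complex.ext <;> simp [Complex.measurableEquivRealProd]
  rw [h1, ← e1] at h2
  exact (ENNReal.ofReal_le_iff_le_toReal hP.measure_lt_top.ne).1 h2

theorem planar : S_planar := by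
  intro P hP hc φ ψ₁ ψ₂ cφ c1 c2 hn ts d1 d2
  have hE0 : 0 ≤ ∫ p, (ψ₁ p ^ 2 + ψ₂ p ^ 2) := integral_nonneg fun p => by positivity
  by_cases hi : (interior P).Nonempty
  · obtain ⟨α, β, R, L, U, h1, h2, h3, h4, h5, h6, h7⟩ := sections hP hc hi
    have h : SD α β R L U := ⟨h1, h2, h3, h4, h5⟩
    have hcs : HasCompactSupport φ :=
      hP.of_isClosed_subset (isClosed_tsupport _) (ts.trans interior_subset)
    have key := planar_core h isOpen_interior
      (lt_of_le_of_lt (measure_mono interior_subset) hP.measure_lt_top) h6 cφ c1 c2 hcs hn ts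
      (fun z => by
        have := d1 z
        unfold HasLineDerivAt
        simpa using this)
      (fun z => by
        have := d2 z
        unfold HasLineDerivAt
        simpa using this)
    have ha := area_le h hP h7
    have ha0 := area_pos h
    refine key.trans ?_
    apply mul_le_mul_of_nonneg_right _ hE0
    nlinarith
  · have : tsupport φ = ∅ := by
      rw [not_nonempty_iff_eq_empty] at hi
      rw [hi] at ts
      exact subset_empty_iff.1 ts
    have h0 : φ = 0 := tsupport_eq_empty_iff.1 this
    rw [h0]
    simp
    positivity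

end Run7.h549
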