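import Pool.Agent.Run7.h549.Iface

open MeasureTheory Set
open scoped ENNReal Real

namespace Run7.h549

/-- multiplication by a complex number as a real linear map of `ℂ²` -/
noncomputable def cmul (ζ : ℂ) : C2 →ₗ[ℝ] C2 := (ζ • (LinearMap.id : C2 →ₗ[ℂ] C2)).restrictScalars ℝ

theorem cmul_apply (ζ : ℂ) (x : C2) : cmul ζ x = ζ • x := rfl

theorem det_cmul (ζ : ℂ) : LinearMap.det (cmul ζ) = ‖ζ‖ ^ 4 := by
  unfold cmul
  rw [LinearMap.det_restrictScalars, LinearMap.det_smul]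
  simp only [LinearMap.det_id, mul_one, finrank_euclideanSpace, Fintype.card_fin]
  rw [Algebra.norm_complex_apply, Complex.normSq_eq_norm_sq, norm_pow]
  ring

theorem lintegral_cmul {H : C2 → ℝ≥0∞} (hH : Measurable H) {ζ : ℂ} (hζ : ζ ≠ 0) :
    ∫⁻ x : C2, H (ζ • x) = ENNReal.ofReal ((‖ζ‖ ^ 4)⁻¹) * ∫⁻ y, H y := by
  have hd : LinearMap.det (cmul ζ) ≠ 0 := by
    rw [det_cmul]; positivity
  have h1 := Measure.map_linearMap_addHaar_eq_smul_addHaar (volume : Measure C2) hd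
  have hm : Measurable (fun x : C2 => cmul ζ x) := by
    have : Continuous (fun x : C2 => ζ • x) := continuous_const_smul ζ
    exact this.measurable
  have h2 : ∫⁻ y, H y ∂(Measure.map (cmul ζ) volume) = ∫⁻ x : C2, H (ζ • x) := by
    rw [lintegral_map hH hm]
    rfl
  rw [← h2, h1, lintegral_smul_measure, det_cmul, abs_of_nonneg (by positivity)]
  rfl

theorem rad_int {s : ℝ} (hs : 0 < s) :
    ∫⁻ ζ : ℂ, ENNReal.ofReal (if s ≤ ‖ζ‖ then (‖ζ‖ ^ 8)⁻¹ else 0) = ENNReal.ofReal (π / 3 * (s ^ 6)⁻¹) := by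
  rw [← Complex.lintegral_comp_polarCoord_symm]
  have e1 : ∀ p ∈ polarCoord.target, ENNReal.ofReal p.1 • ENNReal.ofReal
      (if s ≤ ‖Complex.polarCoord.symm p‖ then (‖Complex.polarCoord.symm p‖ ^ 8)⁻¹ else 0)
      = ENNReal.ofReal (if s ≤ p.1 then (p.1 ^ 7)⁻¹ else 0) := by
    intro p hp
    have hp1 : 0 < p.1 := hp.1
    rw [Complex.norm_polarCoord_symm, abs_of_pos hp1, smul_eq_mul, ← ENNReal.ofReal_mul hp1.le]
    congr 1
    split_ifs
    · field_simp
    · simp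
  rw [setLIntegral_congr_fun polarCoord.open_target.measurableSet e1]
  have e2 : polarCoord.target = Ioi (0:ℝ) ×ˢ Ioo (-π) π := rfl
  rw [e2, Measure.volume_eq_prod, ← Measure.prod_restrict]
  rw [lintegral_prod _ (by
    apply Measurable.aemeasurable
    apply ENNReal.measurable_ofReal.comp
    exact Measurable.ite (measurableSet_le measurable_const measurable_fst) (by fun_prop) measurable_const)]
  simp only [lintegral_const, Measure.restrict_apply_univ, Real.volume_Ioo]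
  rw [lintegral_mul_const _ (by
    apply ENNReal.measurable_ofReal.comp
    exact Measurable.ite (measurableSet_le measurable_const measurable_id) (by fun_prop) measurable_const)]
  have e3 : ∫⁻ a in Ioi (0:ℝ), ENNReal.ofReal (if s ≤ a then (a ^ 7)⁻¹ else 0)
      = ∫⁻ a in Ioi s, ENNReal.ofReal ((a:ℝ) ^ (-7:ℝ)) := by
    have : (fun a : ℝ => ENNReal.ofReal (if s ≤ a then (a ^ 7)⁻¹ else 0))
        = (Ici s).indicator (fun a => ENNReal.ofReal ((a ^ 7)⁻¹)) := by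
      funext a
      by_cases h : s ≤ a
      · rw [if_pos h, indicator_of_mem (show a ∈ Ici s from h)]
      · rw [if_neg h, indicator_of_notMem (show a ∉ Ici s from h)]; simp
    rw [this, setLIntegral_indicator measurableSet_Ici]
    have h4 : Ici s ∩ Ioi 0 = Ici s := by
      ext a; simp only [mem_inter_iff, mem_Ici, mem_Ioi, and_iff_left_iff_imp]
      intro h; linarith
    rw [h4, setLIntegral_congr (Ioi_ae_eq_Ici (a := s)).symm]
    apply setLIntegral_congr_fun measurableSet_Ioi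
    intro a ha
    have ha0 : 0 < a := lt_trans hs ha
    simp only
    rw [Real.rpow_neg ha0.le]
    norm_num
  rw [e3, ← ofReal_integral_eq_lintegral_ofReal]
  · rw [integral_Ioi_rpow_of_lt (by norm_num) hs, ← ENNReal.ofReal_mul]
    · congr 1
      have : s ^ ((-7:ℝ) + 1) = (s^6)⁻¹ := by
        norm_num
      rw [this]
      ring
    · have : s ^ ((-7:ℝ) + 1) = (s^6)⁻¹ := by
        norm_num
      rw [this]
      norm_num
      positivity
  · exact (integrableOn_Ioi_rpow_of_lt (by norm_num) hs)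
  · filter_upwards [ae_restrict_mem measurableSet_Ioi] with a ha
    have ha0 : 0 < a := lt_trans hs ha
    positivity

theorem polar : S_polar := by
  intro G hG
  have hcont : Continuous (fun q : C2 × ℂ => q.2 • q.1) := continuous_snd.smul continuous_fst
  have hcont' : Continuous (fun q : ℂ × C2 => q.1 • q.2) := continuous_fst.smul continuous_snd
  -- step 1: bring everything inside
  have s1 : ∫⁻ x in Metric.closedBall (0 : C2) 1, ‖x‖ₑ ^ 6 * ∫⁻ ζ : ℂ, ‖ζ‖ₑ ^ 2 * G (ζ • x)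
      = ∫⁻ x : C2, ∫⁻ ζ : ℂ, (if ‖x‖ ≤ 1 then 1 else 0) * (‖x‖ₑ ^ 6 * (‖ζ‖ₑ ^ 2 * G (ζ • x))) := by
    rw [← lintegral_indicator Metric.isClosed_closedBall.measurableSet]
    apply lintegral_congr
    intro x
    have hm : Measurable (fun ζ : ℂ => ‖ζ‖ₑ ^ 2 * G (ζ • x)) := by
      apply Measurable.mul (by fun_prop)
      exact hG.comp (by fun_prop : Measurable (fun ζ : ℂ => ζ • x))
    by_cases h : ‖x‖ ≤ 1
    · rw [indicator_of_mem (by simpa using h)]
      simp only [h, if_true, one_mul]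
      rw [lintegral_const_mul _ hm]
    · rw [indicator_of_notMem (by simpa using h)]
      simp [h]
  rw [s1]
  have hmeas : Measurable (fun q : C2 × ℂ => (if ‖q.1‖ ≤ 1 then (1:ℝ≥0∞) else 0) *
      (‖q.1‖ₑ ^ 6 * (‖q.2‖ₑ ^ 2 * G (q.2 • q.1)))) := by
    apply Measurable.mul
    · exact Measurable.ite (measurableSet_le (by fun_prop) measurable_const) measurable_const measurable_const
    · apply Measurable.mul (by fun_prop)
      apply Measurable.mul (by fun_prop)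
      exact hG.comp hcont.measurable
  rw [lintegral_lintegral_swap (f := fun (x : C2) (ζ : ℂ) => (if ‖x‖ ≤ 1 then (1:ℝ≥0∞) else 0) *
      (‖x‖ₑ ^ 6 * (‖ζ‖ₑ ^ 2 * G (ζ • x)))) hmeas.aemeasurable]
  -- step 2: substitution
  have s2 : ∀ ζ : ℂ, ζ ≠ 0 → ∫⁻ x : C2, (if ‖x‖ ≤ 1 then (1:ℝ≥0∞) else 0) *
      (‖x‖ₑ ^ 6 * (‖ζ‖ₑ ^ 2 * G (ζ • x)))
      = ∫⁻ y : C2, ENNReal.ofReal (if ‖y‖ ≤ ‖ζ‖ then (‖ζ‖ ^ 8)⁻¹ else 0) * (‖y‖ₑ ^ 6 * G y) := by
    intro ζ hζ
    have hz : 0 < ‖ζ‖ := norm_pos_iff.mpr hζ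
    set H : C2 → ℝ≥0∞ := fun y => ENNReal.ofReal (if ‖y‖ ≤ ‖ζ‖ then (‖ζ‖ ^ 4)⁻¹ else 0) * (‖y‖ₑ ^ 6 * G y) with hH
    have hHm : Measurable H := by
      apply Measurable.mul
      · apply ENNReal.measurable_ofReal.comp
        exact Measurable.ite (measurableSet_le (by fun_prop) measurable_const) measurable_const measurable_const
      · exact Measurable.mul (by fun_prop) hG
    have e1 : ∀ x : C2, (if ‖x‖ ≤ 1 then (1:ℝ≥0∞) else 0) * (‖x‖ₑ ^ 6 * (‖ζ‖ₑ ^ 2 * G (ζ • x))) = H (ζ • x) := by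
      intro x
      simp only [hH, norm_smul, enorm_smul]
      have h1 : (‖ζ‖ * ‖x‖ ≤ ‖ζ‖) ↔ ‖x‖ ≤ 1 := by
        constructor
        · intro h; by_contra h'; push Not at h'; nlinarith
        · intro h; nlinarith
      by_cases h : ‖x‖ ≤ 1
      · rw [if_pos h, if_pos (h1.mpr h)]
        have e2 : ‖ζ‖ₑ = ENNReal.ofReal ‖ζ‖ := (ofReal_norm ζ).symm
        have e3 : ENNReal.ofReal ((‖ζ‖ ^ 4)⁻¹) * ‖ζ‖ₑ ^ 6 = ‖ζ‖ₑ ^ 2 := by
          rw [e2, ← ENNReal.ofReal_pow hz.le, ← ENNReal.ofReal_pow hz.le, ← ENNReal.ofReal_mul (by positivity)]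
          congr 1
          field_simp
        rw [mul_pow, one_mul, ← e3]
        ring
      · rw [if_neg h, if_neg (fun h' => h (h1.mp h'))]
        simp
    simp_rw [e1]
    rw [lintegral_cmul hHm hζ, ← lintegral_const_mul _ hHm]
    apply lintegral_congr
    intro y
    simp only [hH]
    rw [← mul_assoc, ← ENNReal.ofReal_mul (by positivity)]
    congr 2
    split_ifs
    · field_simp
    · simp
  have s3 : ∫⁻ ζ : ℂ, ∫⁻ x : C2, (if ‖x‖ ≤ 1 then (1:ℝ≥0∞) else 0) *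
      (‖x‖ₑ ^ 6 * (‖ζ‖ₑ ^ 2 * G (ζ • x)))
      = ∫⁻ ζ : ℂ, ∫⁻ y : C2, ENNReal.ofReal (if ‖y‖ ≤ ‖ζ‖ then (‖ζ‖ ^ 8)⁻¹ else 0) * (‖y‖ₑ ^ 6 * G y) := by
    apply lintegral_congr_ae
    have : ∀ᵐ ζ : ℂ, ζ ≠ 0 := by
      rw [ae_iff]; simp
    filter_upwards [this] with ζ hζ using s2 ζ hζ
  rw [s3]
  have hmeas2 : Measurable (fun q : ℂ × C2 => ENNReal.ofReal (if ‖q.2‖ ≤ ‖q.1‖ then (‖q.1‖ ^ 8)⁻¹ else 0) *
      (‖q.2‖ₑ ^ 6 * G q.2)) := by
    apply Measurable.mul
    · apply ENNReal.measurable_ofReal.comp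
      exact Measurable.ite (measurableSet_le (by fun_prop) (by fun_prop)) (by fun_prop) measurable_const
    · exact Measurable.mul (by fun_prop) (hG.comp measurable_snd)
  rw [lintegral_lintegral_swap (f := fun (ζ : ℂ) (y : C2) =>
      ENNReal.ofReal (if ‖y‖ ≤ ‖ζ‖ then (‖ζ‖ ^ 8)⁻¹ else 0) * (‖y‖ₑ ^ 6 * G y)) hmeas2.aemeasurable]
  rw [← lintegral_const_mul _ hG]
  apply lintegral_congr_ae
  have : ∀ᵐ y : C2, y ≠ 0 := by
    rw [ae_iff]; simp
  filter_upwards [this] with y hy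
  have hy0 : 0 < ‖y‖ := norm_pos_iff.mpr hy
  rw [lintegral_mul_const _ (by
    apply ENNReal.measurable_ofReal.comp
    exact Measurable.ite (measurableSet_le measurable_const (by fun_prop)) (by fun_prop) measurable_const)]
  rw [rad_int hy0]
  have e2 : ‖y‖ₑ = ENNReal.ofReal ‖y‖ := (ofReal_norm y).symm
  rw [← mul_assoc, e2, ← ENNReal.ofReal_pow hy0.le, ← ENNReal.ofReal_mul (by positivity)]
  congr 2
  field_simp

end Run7.h549
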