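import Pool.Agent.Run7.h549.Proj
import Pool.Agent.Run7.h549.Polar
import Pool.Agent.Run7.h549.Energy
import Pool.Agent.Run7.h549.Planar4

set_option maxHeartbeats 400000
open MeasureTheory Set Filter Topology
open scoped ENNReal Real ContDiff FourierTransform SchwartzMap

namespace Run7.h549

/-- the squared Fourier transform -/
noncomputable def GF (f : C2 → ℝ) (z : C2) : ℝ≥0∞ := ‖𝓕 (fun z : C2 => (f z : ℂ)) z‖ₑ ^ 2

noncomputable def fS {f : C2 → ℝ} (hf : ContDiff ℝ ∞ f) (hc : HasCompactSupport f) : 𝓢(C2, ℂ) :=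
  HasCompactSupport.toSchwartzMap (f := fun p : C2 => (f p : ℂ))
    (hc.comp_left (g := Complex.ofReal) rfl) (Complex.ofRealCLM.contDiff.comp hf)

theorem fS_fourier {f : C2 → ℝ} (hf : ContDiff ℝ ∞ f) (hc : HasCompactSupport f) (z : C2) :
    (𝓕 (fS hf hc)) z = 𝓕 (fun z : C2 => (f z : ℂ)) z := by
  rw [SchwartzMap.fourier_coe]
  rfl

theorem enorm_sq_eq {z : ℂ} : ‖z‖ₑ ^ 2 = ENNReal.ofReal (‖z‖ ^ 2) := by
  rw [ENNReal.ofReal_pow (norm_nonneg _), ofReal_norm]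

theorem GF_meas {f : C2 → ℝ} (hf : ContDiff ℝ ∞ f) (hc : HasCompactSupport f) :
    Measurable (GF f) := by
  have h1 : Continuous (fun z : C2 => (𝓕 (fS hf hc) : 𝓢(C2, ℂ)) z) :=
    (𝓕 (fS hf hc) : 𝓢(C2, ℂ)).continuous
  have h2 : GF f = fun z => ‖(𝓕 (fS hf hc)) z‖ₑ ^ 2 := by
    funext z
    rw [fS_fourier]
    rfl
  rw [h2]
  have := h1.measurable
  fun_prop

theorem GF_lint {f : C2 → ℝ} (hf : ContDiff ℝ ∞ f) (hc : HasCompactSupport f) :
    ∫⁻ z, GF f z = ENNReal.ofReal (∫ z, f z ^ 2) := by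
  have h1 := SchwartzMap.integral_norm_sq_fourier (fS hf hc)
  have h2 : ∀ z, ‖(fS hf hc) z‖ ^ 2 = f z ^ 2 := by
    intro z
    have : (fS hf hc) z = (f z : ℂ) := rfl
    rw [this, Complex.norm_real, Real.norm_eq_abs, sq_abs]
  simp only [h2] at h1
  have h3 := (SchwartzMap.memLp (𝓕 (fS hf hc) : 𝓢(C2, ℂ)) 2 (volume : Measure C2)).integrable_norm_pow
    (by norm_num)
  rw [← h1, ofReal_integral_eq_lintegral_ofReal h3 (Eventually.of_forall fun _ => by positivity)]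
  apply lintegral_congr
  intro z
  unfold GF
  rw [enorm_sq_eq, fS_fourier]

/-- the energy along the complex line of `x` -/
noncomputable def NN (f : C2 → ℝ) (x : C2) : ℝ≥0∞ := ∫⁻ ζ : ℂ, ‖ζ‖ₑ ^ 2 * GF f (ζ • x)

theorem lint_scale {H : ℂ → ℝ≥0∞} (hH : Measurable H) {ρ : ℝ} (hρ : 0 < ρ) :
    ∫⁻ ζ : ℂ, H (ρ • ζ) = ENNReal.ofReal ((ρ ^ 2)⁻¹) * ∫⁻ ζ, H ζ := by
  have h1 := Measure.map_addHaar_smul (volume : Measure ℂ) hρ.ne'
  have hm : Measurable (fun ζ : ℂ => ρ • ζ) := by fun_prop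
  rw [← lintegral_map hH hm, h1, lintegral_smul_measure, Complex.finrank_real_complex,
    abs_of_pos (by positivity)]
  rfl

theorem NN_smul {f : C2 → ℝ} (hf : ContDiff ℝ ∞ f) (hc : HasCompactSupport f) (u : C2) {ρ : ℝ}
    (hρ : 0 < ρ) : ENNReal.ofReal (ρ ^ 6) * NN f (ρ • u) = ENNReal.ofReal (ρ ^ 2) * NN f u := by
  have hG := GF_meas hf hc
  have hm : Measurable (fun ζ : ℂ => ‖ζ‖ₑ ^ 2 * GF f (ζ • u)) := by
    have h1 : Measurable (fun ζ : ℂ => ζ • u) := (continuous_id.smul continuous_const).measurable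
    have h2 : Measurable (fun ζ : ℂ => GF f (ζ • u)) := hG.comp h1
    fun_prop
  have e1 : ∀ ζ : ℂ, ‖ζ‖ₑ ^ 2 * GF f (ζ • (ρ • u))
      = ENNReal.ofReal ((ρ ^ 2)⁻¹) * (‖(ρ • ζ)‖ₑ ^ 2 * GF f ((ρ • ζ) • u)) := by
    intro ζ
    have e2 : ζ • (ρ • u) = (ρ • ζ) • u := by rw [smul_comm, smul_assoc]
    rw [e2, enorm_sq_eq, enorm_sq_eq, ← mul_assoc, ← ENNReal.ofReal_mul (by positivity)]
    congr 2
    rw [norm_smul, Real.norm_eq_abs, mul_pow, sq_abs]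
    field_simp
  unfold NN
  simp only [e1]
  have hm2 : Measurable (fun ζ : ℂ => ‖(ρ • ζ)‖ₑ ^ 2 * GF f ((ρ • ζ) • u)) :=
    hm.comp (by fun_prop : Measurable fun ζ : ℂ => ρ • ζ)
  rw [lintegral_const_mul _ hm2, lint_scale (H := fun ζ : ℂ => ‖ζ‖ₑ ^ 2 * GF f (ζ • u)) hm hρ,
    ← mul_assoc, ← mul_assoc, ← ENNReal.ofReal_mul (by positivity), ← ENNReal.ofReal_mul (by positivity)]
  congr 2
  field_simp

theorem NN_unit {f : C2 → ℝ} (hf : ContDiff ℝ ∞ f) (hc : HasCompactSupport f) {u : C2}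
    (hu : ‖u‖ = 1) :
    ENNReal.ofReal (∫ p, ((fderiv ℝ (marg f u) p 1) ^ 2 + (fderiv ℝ (marg f u) p Complex.I) ^ 2))
      = ENNReal.ofReal (4 * π ^ 2) * NN f u := by
  obtain ⟨h1, h2⟩ := energy hf hc hu
  rw [h1, ENNReal.ofReal_mul (by positivity),
    ofReal_integral_eq_lintegral_ofReal h2 (Eventually.of_forall fun _ => by positivity)]
  congr 1
  apply lintegral_congr
  intro ζ
  unfold GF
  rw [enorm_sq_eq, enorm_sq_eq, ← ENNReal.ofReal_mul (by positivity)]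

end Run7.h549
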