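import Pool.Agent.Run7.h549.Key

set_option maxHeartbeats 400000
open MeasureTheory Set Filter Topology
open scoped ENNReal Real ContDiff FourierTransform SchwartzMap

namespace Run7.h549

theorem proj_interior {K : ConvexBody C2} {u : C2} (hu : ‖u‖ = 1) :
    (fun z => inner ℂ u z) '' interior (K : Set C2) ⊆ interior ((fun z => inner ℂ u z) '' (K : Set C2)) := by
  have hopen : IsOpen ((fun z => inner ℂ u z) '' interior (K : Set C2)) := by
    rw [Metric.isOpen_iff]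
    rintro _ ⟨z, hz, rfl⟩
    obtain ⟨r, hr, hb⟩ := Metric.isOpen_iff.1 isOpen_interior z hz
    refine ⟨r, hr, ?_⟩
    intro p hp
    rw [mem_ball_iff_norm] at hp
    refine ⟨z + (p - inner ℂ u z) • u, ?_, ?_⟩
    · apply hb
      rw [mem_ball_iff_norm, add_sub_cancel_left, norm_smul, hu, mul_one]
      exact hp
    · simp only
      rw [inner_add_right, inner_smul_right, inner_self_eq_norm_sq_to_K, hu]
      simp
  exact interior_maximal (image_mono interior_subset) hopen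

theorem unit_bound {K : ConvexBody C2} {f : C2 → ℝ} (hf : ContDiff ℝ ∞ f) (hc : HasCompactSupport f)
    (h0 : ∀ z, 0 ≤ f z) (ts : tsupport f ⊆ interior (K : Set C2)) {u : C2} (hu : ‖u‖ = 1) :
    8 * π * (∫ z, f z) ^ 2 ≤ pa u K ^ 2 *
      ∫ p, ((fderiv ℝ (marg f u) p 1) ^ 2 + (fderiv ℝ (marg f u) p Complex.I) ^ 2) := by
  have hcd := marg_contDiff hf hc hu
  have hfd : Continuous (fderiv ℝ (marg f u)) := hcd.continuous_fderiv (by simp)
  have hdiff : ∀ p, HasFDerivAt (marg f u) (fderiv ℝ (marg f u) p) p := fun p =>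
    ((hcd.differentiable (by simp)) p).hasFDerivAt
  have hP : IsCompact ((fun z => inner ℂ u z) '' (K : Set C2)) := K.isCompact.image (by fun_prop)
  have hPc : Convex ℝ ((fun z => inner ℂ u z) '' (K : Set C2)) := (mapBody (projL u) K).convex
  have hts : tsupport (marg f u) ⊆ interior ((fun z => inner ℂ u z) '' (K : Set C2)) :=
    (marg_tsupport hc hu).trans ((image_mono ts).trans (proj_interior hu))
  have key := planar _ hP hPc (marg f u) (fun p => fderiv ℝ (marg f u) p 1)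
    (fun p => fderiv ℝ (marg f u) p Complex.I) hcd.continuous (by fun_prop) (by fun_prop)
    (fun p => marg_nonneg h0 u p) hts ?_ ?_
  · rw [marg_integral hf.continuous hc hu] at key
    exact key
  · intro p
    have h1 : HasDerivAt (fun t : ℝ => p + (t : ℂ)) 1 0 := by
      have := (Complex.ofRealCLM.hasDerivAt (x := (0:ℝ))).const_add p
      simpa using this
    have h2 : HasFDerivAt (marg f u) (fderiv ℝ (marg f u) p) (p + ((0:ℝ) : ℂ)) := by
      simpa using hdiff p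
    exact h2.comp_hasDerivAt (0:ℝ) h1
  · intro p
    have h1 : HasDerivAt (fun t : ℝ => p + (t : ℂ) * Complex.I) Complex.I 0 := by
      have := ((Complex.ofRealCLM.hasDerivAt (x := (0:ℝ))).mul_const Complex.I).const_add p
      simpa using this
    have h2 : HasFDerivAt (marg f u) (fderiv ℝ (marg f u) p) (p + ((0:ℝ) : ℂ) * Complex.I) := by
      simpa using hdiff p
    exact h2.comp_hasDerivAt (0:ℝ) h1

theorem pointwise {K : ConvexBody C2} {f : C2 → ℝ} (hf : ContDiff ℝ ∞ f) (hc : HasCompactSupport f)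
    (h0 : ∀ z, 0 ≤ f z) (ts : tsupport f ⊆ interior (K : Set C2)) {v : ℝ} (hv : 0 < v) {x : C2}
    (hx : x ≠ 0) :
    ENNReal.ofReal (8 * π * (∫ z, f z) ^ 2 * (3 * (v ^ 2)⁻¹ * ‖x‖ ^ 2 - 2 * (v ^ 3)⁻¹ * pa x K))
      ≤ ENNReal.ofReal (4 * π ^ 2) * (‖x‖ₑ ^ 6 * NN f x) := by
  set ρ := ‖x‖ with hρdef
  have hρ : 0 < ρ := norm_pos_iff.2 hx
  set u : C2 := ρ⁻¹ • x with hu
  have hun : ‖u‖ = 1 := by
    rw [hu, norm_smul, norm_inv, Real.norm_eq_abs, abs_of_pos hρ]
    exact inv_mul_cancel₀ hρ.ne'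
  have hxu : x = ρ • u := by rw [hu, smul_smul, mul_inv_cancel₀ hρ.ne', one_smul]
  set I := ∫ z, f z with hI
  have key := unit_bound hf hc h0 ts hun
  rw [← hI] at key
  set E := ∫ p, ((fderiv ℝ (marg f u) p 1) ^ 2 + (fderiv ℝ (marg f u) p Complex.I) ^ 2) with hE
  have hE0 : 0 ≤ E := integral_nonneg fun p => by positivity
  have hpx : pa x K = ρ ^ 2 * pa u K := by rw [hxu, pa_smul]
  have hA0 := pa_nonneg u K
  set A := pa u K with hA
  have main : 8 * π * I ^ 2 * (3 * (v ^ 2)⁻¹ * ρ ^ 2 - 2 * (v ^ 3)⁻¹ * pa x K) ≤ ρ ^ 2 * E := by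
    rw [hpx]
    by_cases hI0 : I = 0
    · rw [hI0]; simp; positivity
    · have hIp : 0 < 8 * π * I ^ 2 := by positivity
      have hAp : 0 < A := by
        rcases hA0.eq_or_lt with h | h
        · rw [← h] at key; simp at key; linarith
        · exact h
      have h1 : 3 * (v ^ 2)⁻¹ - 2 * (v ^ 3)⁻¹ * A ≤ (A ^ 2)⁻¹ := by
        have : (A ^ 2)⁻¹ - (3 * (v ^ 2)⁻¹ - 2 * (v ^ 3)⁻¹ * A)
            = (A - v) ^ 2 * (2 * A + v) / (A ^ 2 * v ^ 3) := by
          field_simp; ring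
        have h2 : 0 ≤ (A - v) ^ 2 * (2 * A + v) / (A ^ 2 * v ^ 3) := by positivity
        linarith
      have h3 : 8 * π * I ^ 2 * (A ^ 2)⁻¹ ≤ E := by
        rw [← div_eq_mul_inv, div_le_iff₀ (by positivity)]
        linarith
      have h4 := mul_le_mul_of_nonneg_left h1 hIp.le
      have h5 : 8 * π * I ^ 2 * (3 * (v ^ 2)⁻¹ - 2 * (v ^ 3)⁻¹ * A) ≤ E := h4.trans h3
      have h6 := mul_le_mul_of_nonneg_left h5 (by positivity : 0 ≤ ρ ^ 2)
      calc 8 * π * I ^ 2 * (3 * (v ^ 2)⁻¹ * ρ ^ 2 - 2 * (v ^ 3)⁻¹ * (ρ ^ 2 * A))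
          = ρ ^ 2 * (8 * π * I ^ 2 * (3 * (v ^ 2)⁻¹ - 2 * (v ^ 3)⁻¹ * A)) := by ring
        _ ≤ ρ ^ 2 * E := h6
  refine (ENNReal.ofReal_le_ofReal main).trans (le_of_eq ?_)
  have e6 : ‖x‖ₑ ^ 6 = ENNReal.ofReal (ρ ^ 6) := by
    rw [ENNReal.ofReal_pow (norm_nonneg _), ofReal_norm]
  rw [ENNReal.ofReal_mul (by positivity), hE, NN_unit hf hc hun, e6]
  conv_rhs => rw [hxu]
  rw [NN_smul hf hc u hρ]
  ring

end Run7.h549
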