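import Pool.Agent.Run7.h549.Radial

set_option maxHeartbeats 400000
open MeasureTheory Set Filter Topology
open scoped ENNReal Real

namespace Run7.h549

/-- two orthogonal vectors (possibly zero) are multiples of the vectors of an orthonormal basis -/
theorem adapted_basis {g h : C2} (hgh : inner ℂ g h = 0) :
    ∃ b : OrthonormalBasis (Fin 2) ℂ C2, g = (‖g‖ : ℂ) • b 0 ∧ h = (‖h‖ : ℂ) • b 1 := by
  set v : Fin 2 → C2 := ![((‖g‖ : ℂ)⁻¹) • g, ((‖h‖ : ℂ)⁻¹) • h] with hv
  set s : Set (Fin 2) := {i | v i ≠ 0} with hs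
  have hunit : ∀ (k : C2), ((‖k‖ : ℂ)⁻¹) • k ≠ 0 → ‖((‖k‖ : ℂ)⁻¹) • k‖ = 1 := by
    intro k hk
    have : k ≠ 0 := by rintro rfl; simp at hk
    rw [norm_smul, norm_inv, Complex.norm_real, norm_norm, inv_mul_cancel₀ (norm_ne_zero_iff.2 this)]
  have hinner : inner ℂ (((‖g‖ : ℂ)⁻¹) • g) (((‖h‖ : ℂ)⁻¹) • h) = 0 := by
    rw [inner_smul_left, inner_smul_right, hgh]; simp
  have hon : Orthonormal ℂ (s.domRestrict v) := by
    constructor
    · rintro ⟨i, hi⟩
      have hi' : v i ≠ 0 := hi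
      fin_cases i
      · exact hunit g hi'
      · exact hunit h hi'
    · rintro ⟨i, hi⟩ ⟨j, hj⟩ hij
      show inner ℂ (v i) (v j) = 0
      have hij' : i ≠ j := fun e => hij (by simp [e])
      fin_cases i <;> fin_cases j
      · exact absurd rfl hij'
      · exact hinner
      · rw [← inner_conj_symm]
        have : inner ℂ (v 0) (v 1) = 0 := hinner
        show (starRingEnd ℂ) (inner ℂ (v 0) (v 1)) = 0
        rw [this]; simp
      · exact absurd rfl hij'
  obtain ⟨b, hb⟩ := hon.exists_orthonormalBasis_extension_of_card_eq (by simp)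
  refine ⟨b, ?_, ?_⟩
  · by_cases h0 : g = 0
    · rw [h0]; simp
    · have hn : (‖g‖ : ℂ) ≠ 0 := by
        exact_mod_cast norm_ne_zero_iff.2 h0
      have hm : (0 : Fin 2) ∈ s := by
        show v 0 ≠ 0
        simp only [hv, Matrix.cons_val_zero]
        exact smul_ne_zero (inv_ne_zero hn) h0
      rw [hb 0 hm]
      simp only [hv, Matrix.cons_val_zero, smul_smul, mul_inv_cancel₀ hn, one_smul]
  · by_cases h0 : h = 0
    · rw [h0]; simp
    · have hn : (‖h‖ : ℂ) ≠ 0 := by
        exact_mod_cast norm_ne_zero_iff.2 h0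
      have hm : (1 : Fin 2) ∈ s := by
        show v 1 ≠ 0
        simp only [hv, Matrix.cons_val_one, Matrix.cons_val_zero]
        exact smul_ne_zero (inv_ne_zero hn) h0
      rw [hb 1 hm]
      simp only [hv, Matrix.cons_val_one, Matrix.cons_val_zero, smul_smul, mul_inv_cancel₀ hn, one_smul]

theorem quad_diff (u v x : C2) :
    ((starRingEnd ℂ (inner ℂ x u)) * inner ℂ x v).im
      = (‖inner ℂ (u - Complex.I • v) x‖ ^ 2 - ‖inner ℂ (u + Complex.I • v) x‖ ^ 2) / 4 := by
  rw [inner_sub_left, inner_add_left, inner_smul_left]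
  have e1 : (starRingEnd ℂ) (inner ℂ x u) = inner ℂ u x := inner_conj_symm u x
  have e2 : inner ℂ x v = (starRingEnd ℂ) (inner ℂ v x) := (inner_conj_symm x v).symm
  rw [e1, e2]
  set a := inner ℂ u x
  set b := inner ℂ v x
  rw [← Complex.normSq_eq_norm_sq, ← Complex.normSq_eq_norm_sq, Complex.normSq_apply,
    Complex.normSq_apply]
  simp
  ring

theorem norm_sub_I {u v : C2} (hu : ‖u‖ = 1) (hv : ‖v‖ = 1) :
    ‖u - Complex.I • v‖ ^ 2 = 2 + 2 * (inner ℂ u v).im
    ∧ ‖u + Complex.I • v‖ ^ 2 = 2 - 2 * (inner ℂ u v).im := by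
  constructor
  · rw [@norm_sub_sq ℂ, inner_smul_right, norm_smul, Complex.norm_I, hu, hv]
    simp
    ring
  · rw [@norm_add_sq ℂ, inner_smul_right, norm_smul, Complex.norm_I, hu, hv]
    simp
    ring

theorem orth_I {u v : C2} (hu : ‖u‖ = 1) (hv : ‖v‖ = 1) (huv : (inner ℂ u v).re = 0) :
    inner ℂ (u - Complex.I • v) (u + Complex.I • v) = 0 := by
  rw [inner_sub_left, inner_add_right, inner_add_right, inner_smul_left, inner_smul_right,
    inner_smul_right, inner_smul_left, inner_self_eq_norm_sq_to_K, inner_self_eq_norm_sq_to_K, hu, hv]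
  have e : inner ℂ v u = (starRingEnd ℂ) (inner ℂ u v) := (inner_conj_symm v u).symm
  rw [e]
  generalize inner ℂ u v = z at huv
  apply Complex.ext
  · simp
    ring
  · simp [huv]

theorem klain : S_klain := by
  intro u v hu hv huv
  obtain ⟨n1, n2⟩ := norm_sub_I hu hv
  obtain ⟨b, hb0, hb1⟩ := adapted_basis (orth_I hu hv huv)
  set w := (inner ℂ u v).im with hw
  set g := u - Complex.I • v with hg
  set h := u + Complex.I • v with hh
  set p : ℝ := (1 + w) / 2 with hp
  set q : ℝ := (1 - w) / 2 with hq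
  have hp0 : 0 ≤ p := by have := sq_nonneg ‖g‖; rw [n1] at this; rw [hp]; linarith
  have hq0 : 0 ≤ q := by have := sq_nonneg ‖h‖; rw [n2] at this; rw [hq]; linarith
  have e1 : ∀ x : C2, ((starRingEnd ℂ (inner ℂ x u)) * inner ℂ x v).im
      = p * ‖(b.repr x) 0‖ ^ 2 - q * ‖(b.repr x) 1‖ ^ 2 := by
    intro x
    rw [quad_diff, ← hg, ← hh]
    have e2 : ‖inner ℂ g x‖ ^ 2 = ‖g‖ ^ 2 * ‖(b.repr x) 0‖ ^ 2 := by
      conv_lhs => rw [hb0]
      rw [inner_smul_left, OrthonormalBasis.repr_apply_apply, norm_mul, mul_pow]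
      simp
    have e3 : ‖inner ℂ h x‖ ^ 2 = ‖h‖ ^ 2 * ‖(b.repr x) 1‖ ^ 2 := by
      conv_lhs => rw [hb1]
      rw [inner_smul_left, OrthonormalBasis.repr_apply_apply, norm_mul, mul_pow]
      simp
    rw [e2, e3, n1, n2, hp, hq]
    ring
  simp only [e1]
  rw [integral_eq_lintegral_of_nonneg_ae (Eventually.of_forall fun _ => abs_nonneg _) (by
    apply Continuous.aestronglyMeasurable
    fun_prop)]
  have mp : MeasurePreserving b.repr := by
    have := (b.repr.toLinearIsometry.restrictScalars ℝ)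
    exact LinearIsometryEquiv.measurePreserving
      (⟨b.repr.toLinearEquiv.restrictScalars ℝ, fun x => b.repr.norm_map x⟩ : C2 ≃ₗᵢ[ℝ] C2)
  have e4 : ∫⁻ x in Metric.closedBall (0 : C2) 1,
      ENNReal.ofReal |p * ‖(b.repr x) 0‖ ^ 2 - q * ‖(b.repr x) 1‖ ^ 2|
      = ∫⁻ x : C2, ENNReal.ofReal (if ‖x 0‖ ^ 2 + ‖x 1‖ ^ 2 ≤ 1 then |p * ‖x 0‖ ^ 2 - q * ‖x 1‖ ^ 2| else 0) := by
    rw [← lintegral_indicator Metric.isClosed_closedBall.measurableSet]
    have hm : Measurable (fun x : C2 =>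
        ENNReal.ofReal (if ‖x 0‖ ^ 2 + ‖x 1‖ ^ 2 ≤ 1 then |p * ‖x 0‖ ^ 2 - q * ‖x 1‖ ^ 2| else 0)) := by
      apply ENNReal.measurable_ofReal.comp
      apply Measurable.ite _ (by fun_prop) measurable_const
      exact measurableSet_le (by fun_prop) measurable_const
    rw [← mp.lintegral_comp hm]
    congr 1
    funext x
    have hball : x ∈ Metric.closedBall (0 : C2) 1 ↔ ‖(b.repr x) 0‖ ^ 2 + ‖(b.repr x) 1‖ ^ 2 ≤ 1 := by
      rw [mem_closedBall_zero_iff, ← norm_sq_C2, b.repr.norm_map]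
      constructor
      · intro h; nlinarith [norm_nonneg x]
      · intro h; nlinarith [norm_nonneg x]
    by_cases hx : x ∈ Metric.closedBall (0 : C2) 1
    · rw [indicator_of_mem hx, if_pos (hball.1 hx)]
    · rw [indicator_of_notMem hx, if_neg (fun h => hx (hball.2 h))]
      simp
  rw [e4]
  have e5 := lint_C2 (F := fun s t => ENNReal.ofReal (if s + t ≤ 1 then |p * s - q * t| else 0)) (by
    apply ENNReal.measurable_ofReal.comp
    apply Measurable.ite _ (by fun_prop) measurable_const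
    exact measurableSet_le (by fun_prop) measurable_const)
  rw [e5, lint_triangle hp0 hq0 (by rw [hp, hq]; ring), ← ENNReal.ofReal_mul (by positivity),
    ENNReal.toReal_ofReal (by positivity), hp, hq]
  ring

end Run7.h549
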