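import Pool.Agent.Run7.h549.Quant

open MeasureTheory Set Filter Topology
open scoped ENNReal Real

namespace Run7.h549

/-- data of the vertical sections of a planar convex body -/
structure SD (α β R : ℝ) (L U : ℝ → ℝ) : Prop where
  lt : α < β
  cL : ContinuousOn L (Ioo α β)
  cU : ContinuousOn U (Ioo α β)
  pos : ∀ s ∈ Ioo α β, L s < U s
  bd : ∀ s ∈ Ioo α β, |L s| ≤ R ∧ |U s| ≤ R

/-- length of the section -/
noncomputable def lam (α β : ℝ) (L U : ℝ → ℝ) : ℝ → ℝ := (Ioo α β).indicator (fun s => U s - L s)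

/-- area to the left of `s` -/
noncomputable def FF (α β : ℝ) (L U : ℝ → ℝ) (s : ℝ) : ℝ := ∫ x in α..s, lam α β L U x

/-- normalised first coordinate of Knothe's map -/
noncomputable def QQ (α β : ℝ) (L U : ℝ → ℝ) (s : ℝ) : ℝ := qq (π * FF α β L U s / FF α β L U β)

noncomputable def et (α β : ℝ) (L U : ℝ → ℝ) (s : ℝ) : ℝ := √(1 - QQ α β L U s ^ 2)

noncomputable def QQ1 (α β : ℝ) (L U : ℝ → ℝ) (s : ℝ) : ℝ :=
  (2 * et α β L U s)⁻¹ * (π * lam α β L U s / FF α β L U β)

variable {α β R : ℝ} {L U : ℝ → ℝ}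

theorem lam_eq {s : ℝ} (hs : s ∈ Ioo α β) : lam α β L U s = U s - L s := indicator_of_mem hs _

theorem lam_pos (h : SD α β R L U) {s : ℝ} (hs : s ∈ Ioo α β) : 0 < lam α β L U s := by
  rw [lam_eq hs]; linarith [h.pos s hs]

theorem lam_int (h : SD α β R L U) : Integrable (lam α β L U) := by
  unfold lam
  rw [integrable_indicator_iff measurableSet_Ioo]
  refine IntegrableOn.of_bound (by simp) ?_ (2 * R) ?_
  · exact (((h.cU.sub h.cL).aestronglyMeasurable measurableSet_Ioo))
  · filter_upwards [ae_restrict_mem measurableSet_Ioo] with s hs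
    rw [Real.norm_eq_abs]
    have := h.bd s hs
    have h3 := abs_sub (U s) (L s)
    linarith [this.1, this.2]

theorem lam_contAt (h : SD α β R L U) {s : ℝ} (hs : s ∈ Ioo α β) : ContinuousAt (lam α β L U) s := by
  have h1 : ContinuousAt (fun s => U s - L s) s :=
    (h.cU.sub h.cL).continuousAt (isOpen_Ioo.mem_nhds hs)
  refine h1.congr ?_
  filter_upwards [isOpen_Ioo.mem_nhds hs] with x hx
  exact (lam_eq hx).symm

theorem FF_cont (h : SD α β R L U) : Continuous (FF α β L U) :=
  intervalIntegral.continuous_primitive (fun _ _ => (lam_int h).intervalIntegrable) α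

theorem FF_deriv (h : SD α β R L U) {s : ℝ} (hs : s ∈ Ioo α β) :
    HasDerivAt (FF α β L U) (lam α β L U s) s :=
  intervalIntegral.integral_hasDerivAt_right (lam_int h).intervalIntegrable
    ((lam_int h).aestronglyMeasurable.stronglyMeasurableAtFilter) (lam_contAt h hs)

theorem FF_left : FF α β L U α = 0 := by unfold FF; simp

theorem FF_pos (h : SD α β R L U) {s : ℝ} (h1 : α < s) (h2 : s ≤ β) : 0 < FF α β L U s := by
  unfold FF
  apply intervalIntegral.intervalIntegral_pos_of_pos_on (lam_int h).intervalIntegrable _ h1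
  intro x hx
  exact lam_pos h ⟨hx.1, lt_of_lt_of_le hx.2 h2⟩

theorem FF_lt (h : SD α β R L U) {s : ℝ} (hs : s ∈ Ioo α β) : FF α β L U s < FF α β L U β := by
  have h1 : FF α β L U β - FF α β L U s = ∫ x in s..β, lam α β L U x := by
    unfold FF
    rw [intervalIntegral.integral_interval_sub_left (lam_int h).intervalIntegrable
      (lam_int h).intervalIntegrable]
  have h2 : 0 < ∫ x in s..β, lam α β L U x := by
    apply intervalIntegral.intervalIntegral_pos_of_pos_on (lam_int h).intervalIntegrable _ hs.2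
    intro x hx
    exact lam_pos h ⟨lt_trans hs.1 hx.1, hx.2⟩
  linarith

theorem area_pos (h : SD α β R L U) : 0 < FF α β L U β := FF_pos h h.lt le_rfl

theorem QQ_cont (h : SD α β R L U) : Continuous (QQ α β L U) := by
  unfold QQ
  exact qq_cont.comp ((continuous_const.mul (FF_cont h)).div_const _)

theorem arg_mem (h : SD α β R L U) {s : ℝ} (hs : s ∈ Ioo α β) :
    0 < π * FF α β L U s / FF α β L U β ∧ π * FF α β L U s / FF α β L U β < π := by
  have h1 := area_pos h
  have h2 := FF_pos h hs.1 hs.2.le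
  have h3 := FF_lt h hs
  refine ⟨by positivity, ?_⟩
  rw [div_lt_iff₀ h1]
  exact mul_lt_mul_of_pos_left h3 Real.pi_pos

theorem QQ_mem (h : SD α β R L U) {s : ℝ} (hs : s ∈ Ioo α β) :
    -1 < QQ α β L U s ∧ QQ α β L U s < 1 := by
  obtain ⟨h1, h2⟩ := arg_mem h hs
  exact ⟨by rw [← qq_zero]; exact qq_strictMono h1, by rw [← qq_pi]; exact qq_strictMono h2⟩

theorem QQ_left : QQ α β L U α = -1 := by
  unfold QQ; rw [FF_left]; simp [qq_zero]

theorem QQ_right (h : SD α β R L U) : QQ α β L U β = 1 := by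
  unfold QQ
  rw [mul_div_assoc, div_self (area_pos h).ne', mul_one, qq_pi]

theorem et_pos (h : SD α β R L U) {s : ℝ} (hs : s ∈ Ioo α β) : 0 < et α β L U s := by
  obtain ⟨h1, h2⟩ := QQ_mem h hs
  exact Real.sqrt_pos.2 (by nlinarith)

theorem et_sq (h : SD α β R L U) {s : ℝ} (hs : s ∈ Ioo α β) :
    et α β L U s ^ 2 = 1 - QQ α β L U s ^ 2 := by
  obtain ⟨h1, h2⟩ := QQ_mem h hs
  exact Real.sq_sqrt (by nlinarith)

theorem et_cont (h : SD α β R L U) : Continuous (et α β L U) := by
  unfold et
  have := QQ_cont h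
  fun_prop

theorem et_le_one (s : ℝ) : et α β L U s ≤ 1 := by
  unfold et
  rw [Real.sqrt_le_left (by norm_num)]
  nlinarith [sq_nonneg (QQ α β L U s)]

theorem QQ_deriv (h : SD α β R L U) {s : ℝ} (hs : s ∈ Ioo α β) :
    HasDerivAt (QQ α β L U) (QQ1 α β L U s) s := by
  obtain ⟨h1, h2⟩ := arg_mem h hs
  have h3 := qq_deriv h1 h2
  have h4 : HasDerivAt (fun s => π * FF α β L U s / FF α β L U β)
      (π * lam α β L U s / FF α β L U β) s :=
    ((FF_deriv h hs).const_mul π).div_const _
  exact h3.comp s h4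

theorem QQ1_contAt (h : SD α β R L U) {s : ℝ} (hs : s ∈ Ioo α β) :
    ContinuousAt (QQ1 α β L U) s := by
  unfold QQ1
  apply ContinuousAt.mul
  · apply ContinuousAt.inv₀
    · exact (continuous_const.mul (et_cont h)).continuousAt
    · have := et_pos h hs; positivity
  · exact (continuousAt_const.mul (lam_contAt h hs)).div_const _

theorem QQ1_pos (h : SD α β R L U) {s : ℝ} (hs : s ∈ Ioo α β) : 0 < QQ1 α β L U s := by
  have h1 := et_pos h hs
  have h2 := lam_pos h hs
  have h3 := area_pos h
  unfold QQ1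
  positivity

theorem et_deriv (h : SD α β R L U) {s : ℝ} (hs : s ∈ Ioo α β) :
    HasDerivAt (et α β L U) (-(QQ α β L U s) * QQ1 α β L U s / et α β L U s) s := by
  have h1 : HasDerivAt (fun s => 1 - QQ α β L U s ^ 2) (-(2 * QQ α β L U s * QQ1 α β L U s)) s := by
    have := ((QQ_deriv h hs).pow 2).const_sub 1
    refine HasDerivAt.congr_deriv this ?_
    simp
  have hp := et_pos h hs
  have hne : (1 - QQ α β L U s ^ 2) ≠ 0 := by
    rw [← et_sq h hs]; positivity
  have h2 := h1.sqrt hne
  unfold et at *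
  convert h2 using 1
  field_simp

/-- the integral of the energy density of Knothe's map -/
theorem knothe_energy (h : SD α β R L U) :
    ∫ s in α..β, (FF α β L U β / π) * (QQ α β L U s ^ 2 + et α β L U s ^ 2 / 3) * lam α β L U s
      = FF α β L U β ^ 2 / (2 * π) := by
  have ha := area_pos h
  set a := FF α β L U β with hadef
  have key := intervalIntegral.integral_eq_sub_of_hasDerivAt_of_le
    (f := fun s => a / (2 * π) * FF α β L U s - a ^ 2 / (3 * π ^ 2) * (QQ α β L U s * et α β L U s ^ 3))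
    (f' := fun s => (a / π) * (QQ α β L U s ^ 2 + et α β L U s ^ 2 / 3) * lam α β L U s)
    h.lt.le ?_ ?_ ?_
  · rw [key]
    have e1 : et α β L U α = 0 := by unfold et; rw [QQ_left]; simp
    have e2 : et α β L U β = 0 := by unfold et; rw [QQ_right h]; simp
    rw [e1, e2, FF_left, ← hadef]
    ring
  · have h1 := FF_cont h
    have h2 := QQ_cont h
    have h3 := et_cont h
    apply Continuous.continuousOn
    fun_prop
  · intro s hs
    have h1 := FF_deriv h hs
    have h2 := QQ_deriv h hs
    have h3 := et_deriv h hs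
    have hp := et_pos h hs
    have hq := et_sq h hs
    have h4 := (h1.const_mul (a / (2 * π))).sub ((h2.mul (h3.pow 3)).const_mul (a ^ 2 / (3 * π ^ 2)))
    refine h4.congr_deriv ?_
    unfold QQ1
    rw [← hadef]
    have hq2 : QQ α β L U s ^ 2 = 1 - et α β L U s ^ 2 := by linarith
    simp only [Pi.pow_apply]
    field_simp
    ring_nf
    rw [show QQ α β L U s ^ 2 = 1 - et α β L U s ^ 2 from hq2]
    ring
  · have h2 := QQ_cont h
    have h3 := et_cont h
    have hc : Continuous (fun s => (a / π) * (QQ α β L U s ^ 2 + et α β L U s ^ 2 / 3)) := by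
      fun_prop
    exact (lam_int h).intervalIntegrable.continuousOn_mul hc.continuousOn

end Run7.h549
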