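import Pool.Agent.Run7.h549.AlphaKlain
import Pool.Agent.Run7.h549.Ineq

set_option maxHeartbeats 400000
open MeasureTheory Set Filter Topology
open scoped ENNReal Real Pointwise

namespace Run7.h549

/-- the quaternionic structure as a continuous real linear map -/
noncomputable def jjL : C2 →L[ℝ] C2 := LinearMap.toContinuousLinearMap
  { toFun := jj
    map_add' := fun x y => by
      ext i
      fin_cases i
      · simp [jj]; ring
      · simp [jj]
    map_smul' := fun c x => by
      ext i
      fin_cases i <;> simp [jj] }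

theorem jjL_apply (x : C2) : jjL x = jj x := rfl

/-- the isometry `x ↦ (i x + e^{iφ} j x) / √2` -/
noncomputable def Rl (c : ℂ) : C2 →L[ℝ] C2 :=
  ((√2)⁻¹ : ℝ) • (Complex.I • ContinuousLinearMap.id ℝ C2 + c • jjL)

theorem Rl_apply (c : ℂ) (x : C2) : Rl c x = ((√2)⁻¹ : ℝ) • (Complex.I • x + c • jj x) := rfl

theorem Rl_cont : Continuous Rl := by
  unfold Rl
  fun_prop

theorem jj_jj (x : C2) : jj (jj x) = -x := by
  ext i
  fin_cases i <;> simp [jj]

theorem jj_smul (c : ℂ) (x : C2) : jj (c • x) = (starRingEnd ℂ c) • jj x := by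
  ext i
  fin_cases i <;> simp [jj]

theorem jj_add (x y : C2) : jj (x + y) = jj x + jj y := by
  ext i
  fin_cases i
  · simp [jj]; ring
  · simp [jj]

theorem inner_jj_jj (x y : C2) : inner ℂ (jj x) (jj y) = (starRingEnd ℂ) (inner ℂ x y) := by
  rw [inner_C2, inner_C2]
  simp [jj]
  ring

theorem inner_jj_right (x y : C2) : inner ℂ x (jj y) = - inner ℂ y (jj x) := by
  rw [inner_C2, inner_C2]
  simp [jj]
  ring

end Run7.h549
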