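import Pool.Agent.Run7.h549.Lag

set_option maxHeartbeats 400000
open MeasureTheory Set Filter Topology
open scoped ENNReal Real Pointwise

namespace Run7.h549

theorem inner_Rl {c : ℂ} (hc : ‖c‖ = 1) (x y : C2) :
    inner ℂ (Rl c x) (Rl c y)
      = ((inner ℂ x y).re : ℂ) + ((c * inner ℂ y (jj x)).re : ℂ) * Complex.I := by
  have hs : ∀ (r : ℝ) (w : C2), r • w = (r : ℂ) • w := by
    intro r w; ext i; simp
  have hcc : (starRingEnd ℂ) c * c = 1 := by
    rw [← Complex.normSq_eq_conj_mul_self, Complex.normSq_eq_norm_sq, hc]; simp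
  have h2 : ((√2 : ℝ) : ℂ) * ((√2 : ℝ) : ℂ) = 2 := by
    rw [← Complex.ofReal_mul, Real.mul_self_sqrt (by norm_num)]; simp
  have h2' : ((√2 : ℝ) : ℂ)⁻¹ * ((√2 : ℝ) : ℂ)⁻¹ = 1 / 2 := by
    rw [← mul_inv, h2]; norm_num
  rw [Rl_apply, Rl_apply, hs, hs, inner_smul_left, inner_smul_right, inner_add_left, inner_add_right,
    inner_add_right, inner_smul_left, inner_smul_left, inner_smul_right, inner_smul_right,
    inner_smul_left, inner_smul_right, inner_smul_left, inner_smul_right, inner_jj_jj, inner_jj_right x y]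
  have e1 : inner ℂ (jj x) y = (starRingEnd ℂ) (inner ℂ y (jj x)) := (inner_conj_symm (jj x) y).symm
  rw [e1]
  generalize inner ℂ x y = s
  generalize inner ℂ y (jj x) = g
  have e3 : (starRingEnd ℂ) (((√2)⁻¹ : ℝ) : ℂ) = ((√2 : ℝ) : ℂ)⁻¹ := by
    rw [Complex.conj_ofReal]; push_cast; rfl
  have e4 : (((√2)⁻¹ : ℝ) : ℂ) = ((√2 : ℝ) : ℂ)⁻¹ := by push_cast; rfl
  rw [e3, e4, ← mul_assoc, h2']
  have e5 : (starRingEnd ℂ) c * (c * (starRingEnd ℂ) s) = (starRingEnd ℂ) s := by
    rw [← mul_assoc, hcc, one_mul]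
  rw [e5]
  apply Complex.ext
  · simp
    ring
  · simp
    ring

theorem Rl_norm {c : ℂ} (hc : ‖c‖ = 1) (x : C2) : ‖Rl c x‖ = ‖x‖ := by
  have h := inner_Rl hc x x
  rw [inner_jj, inner_self_eq_norm_sq_to_K, inner_self_eq_norm_sq_to_K] at h
  have h2 := congrArg Complex.re h
  simp at h2
  have h3 : ‖Rl c x‖ ^ 2 = ‖x‖ ^ 2 := by
    have e : ∀ r : ℝ, ((r : ℂ) ^ 2).re = r ^ 2 := by
      intro r; rw [← Complex.ofReal_pow, Complex.ofReal_re]
    rw [e, e] at h2
    exact h2
  exact (sq_eq_sq₀ (norm_nonneg _) (norm_nonneg _)).1 h3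

/-- `Rl c` as a linear isometric equivalence -/
noncomputable def RlI {c : ℂ} (hc : ‖c‖ = 1) : C2 ≃ₗᵢ[ℝ] C2 :=
  LinearIsometry.toLinearIsometryEquiv ⟨(Rl c).toLinearMap, fun x => Rl_norm hc x⟩ rfl

theorem vol_Rl {c : ℂ} (hc : ‖c‖ = 1) (K : ConvexBody C2) :
    volume (mapBody (Rl c) K : Set C2) = volume (K : Set C2) := by
  have mp : MeasurePreserving (RlI hc) := LinearIsometryEquiv.measurePreserving _
  have me : MeasurableEmbedding (RlI hc) := (RlI hc).toHomeomorph.measurableEmbedding
  have h1 : (mapBody (Rl c) K : Set C2) = (RlI hc) '' (K : Set C2) := rfl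
  rw [h1, ← mp.measure_preimage_emb me, preimage_image_eq _ (RlI hc).injective]

noncomputable def cis (φ : ℝ) : ℂ := Complex.exp (φ * Complex.I)

theorem norm_cis (φ : ℝ) : ‖cis φ‖ = 1 := Complex.norm_exp_ofReal_mul_I φ

theorem cis_cont : Continuous cis := by unfold cis; fun_prop

theorem cis_add (φ ψ : ℝ) : cis (φ + ψ) = cis φ * cis ψ := by
  unfold cis; rw [← Complex.exp_add]; push_cast; ring_nf

theorem cis_periodic : Function.Periodic cis (2 * π) := by
  intro φ
  rw [cis_add]
  have : cis (2 * π) = 1 := by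
    unfold cis; push_cast; exact Complex.exp_two_pi_mul_I
  rw [this, mul_one]

/-- the mean area of the projections on Lagrangian planes -/
noncomputable def alL (K : ConvexBody C2) : ℝ :=
  (2 * π)⁻¹ * ∫ φ in (0 : ℝ)..(2 * π), al (mapBody (Rl (cis φ)) K)

theorem alR_cont2 : Continuous (fun p : ConvexBody C2 × ℝ => al (mapBody (Rl (cis p.2)) p.1)) := by
  have h0 : Continuous (fun p : ConvexBody C2 × ℝ => Rl (cis p.2)) :=
    (Rl_cont.comp cis_cont).comp continuous_snd
  have h1 : Continuous (fun p : ConvexBody C2 × ℝ => ((Rl (cis p.2), p.1) : (C2 →L[ℝ] C2) × ConvexBody C2)) :=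
    h0.prodMk continuous_fst
  have h2 := Continuous.comp mapBody_cont h1
  have h3 := Continuous.comp al_cont h2
  exact h3

theorem alR_cont (K : ConvexBody C2) : Continuous (fun φ : ℝ => al (mapBody (Rl (cis φ)) K)) := by
  have h : Continuous (fun φ : ℝ => ((K, φ) : ConvexBody C2 × ℝ)) := Continuous.prodMk_right K
  have h2 := Continuous.comp alR_cont2 h
  exact h2

theorem alL_cont : Continuous alL := by
  unfold alL
  apply Continuous.mul continuous_const
  exact intervalIntegral.continuous_parametric_intervalIntegral_of_continuous'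
    (f := fun (K : ConvexBody C2) (φ : ℝ) => al (mapBody (Rl (cis φ)) K)) alR_cont2 0 (2 * π)

theorem alL_val {K L M N : ConvexBody C2} (hM : (M : Set C2) = (K : Set C2) ∪ L)
    (hN : (N : Set C2) = (K : Set C2) ∩ L) : alL M + alL N = alL K + alL L := by
  unfold alL
  rw [← mul_add, ← mul_add, ← intervalIntegral.integral_add ((alR_cont M).intervalIntegrable _ _)
    ((alR_cont N).intervalIntegrable _ _), ← intervalIntegral.integral_add
    ((alR_cont K).intervalIntegrable _ _) ((alR_cont L).intervalIntegrable _ _)]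
  congr 1
  apply intervalIntegral.integral_congr
  intro φ _
  apply al_val
  · rw [coe_mapBody, coe_mapBody, coe_mapBody, hM, image_union]
  · rw [coe_mapBody, coe_mapBody, coe_mapBody, hN]
    exact image_inter_convex (Rl (cis φ)).toLinearMap K.isClosed L.isClosed (by rw [← hM]; exact M.convex)

theorem alL_trans (v : C2) {K M : ConvexBody C2} (hM : (M : Set C2) = (fun z => z + v) '' (K : Set C2)) :
    alL M = alL K := by
  unfold alL
  congr 1
  apply intervalIntegral.integral_congr
  intro φ _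
  apply al_trans (Rl (cis φ) v)
  rw [coe_mapBody, coe_mapBody, hM, image_image, image_image]
  apply image_congr
  intro z _
  rw [map_add]

theorem alL_dil {t : ℝ} {K M : ConvexBody C2} (hM : (M : Set C2) = (fun z => t • z) '' (K : Set C2)) :
    alL M = t ^ 2 * alL K := by
  unfold alL
  have h : ∀ φ : ℝ, al (mapBody (Rl (cis φ)) M) = t ^ 2 * al (mapBody (Rl (cis φ)) K) := by
    intro φ
    apply al_dil
    rw [coe_mapBody, coe_mapBody, hM, image_image, image_image]
    apply image_congr
    intro z _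
    rw [map_smul]
  simp only [h]
  rw [intervalIntegral.integral_const_mul]
  ring

end Run7.h549
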