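import Pool.Agent.Run7.h549.Lag2

set_option maxHeartbeats 400000
open MeasureTheory Set Filter Topology
open scoped ENNReal Real Pointwise

namespace Run7.h549

theorem jjg (g : C2 ≃ₗᵢ[ℂ] C2) :
    ∃ l : ℂ, ‖l‖ = 1 ∧ ∀ x, jj (g x) = (starRingEnd ℂ l) • g (jj x) := by
  set e0 : C2 := !₂[1, 0] with he0
  set e1 : C2 := !₂[0, 1] with he1
  have n0 : ‖e0‖ = 1 := by
    have : ‖e0‖ ^ 2 = 1 := by rw [norm_sq_C2]; simp [he0]
    nlinarith [norm_nonneg e0]
  have n1 : ‖e1‖ = 1 := by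
    have : ‖e1‖ ^ 2 = 1 := by rw [norm_sq_C2]; simp [he1]
    nlinarith [norm_nonneg e1]
  have ho : inner ℂ e0 e1 = 0 := by rw [inner_C2]; simp [he0, he1]
  have np : ‖g e0‖ = 1 := by rw [g.norm_map, n0]
  obtain ⟨l, hl⟩ := frame_surj np (g e1)
  rw [g.inner_map_map, ho, zero_smul, zero_add] at hl
  have hln : ‖l‖ = 1 := by
    have := congrArg norm hl
    rw [g.norm_map, n1, norm_smul, norm_jj, np, mul_one] at this
    exact this.symm
  have hll : (starRingEnd ℂ) l * l = 1 := by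
    rw [← Complex.normSq_eq_conj_mul_self, Complex.normSq_eq_norm_sq, hln]; simp
  refine ⟨l, hln, ?_⟩
  intro x
  have hx : ∀ y : C2, y = y 0 • e0 + y 1 • e1 := by
    intro y
    ext i
    fin_cases i <;> simp [he0, he1]
  have hg : ∀ y : C2, g y = y 0 • g e0 + (y 1 * l) • jj (g e0) := by
    intro y
    conv_lhs => rw [hx y]
    rw [map_add, map_smul, map_smul, hl, smul_smul]
  rw [hg x, hg (jj x), jj_add, jj_smul, jj_smul, jj_jj]
  have a0 : (jj x) 0 = -(starRingEnd ℂ) (x 1) := by simp [jj]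
  have a1 : (jj x) 1 = (starRingEnd ℂ) (x 0) := by simp [jj]
  rw [a0, a1, smul_add, smul_smul, smul_smul, map_mul]
  have e3 : (starRingEnd ℂ) l * ((starRingEnd ℂ) (x 0) * l) = (starRingEnd ℂ) (x 0) := by
    rw [mul_comm ((starRingEnd ℂ) (x 0)) l, ← mul_assoc, hll, one_mul]
  rw [e3, smul_neg, mul_neg, neg_smul, mul_comm ((starRingEnd ℂ) (x 1))]
  abel

theorem Rl_g (g : C2 ≃ₗᵢ[ℂ] C2) : ∃ ψ : ℝ, ∀ (φ : ℝ) (x : C2),
    Rl (cis φ) (g x) = g (Rl (cis (φ + ψ)) x) := by
  obtain ⟨l, hl, hj⟩ := jjg g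
  have hl' : ‖(starRingEnd ℂ) l‖ = 1 := by rw [RCLike.norm_conj]; exact hl
  refine ⟨Complex.arg ((starRingEnd ℂ) l), ?_⟩
  intro φ x
  have e1 : cis (Complex.arg ((starRingEnd ℂ) l)) = (starRingEnd ℂ) l := by
    have := Complex.norm_mul_exp_arg_mul_I ((starRingEnd ℂ) l)
    rw [hl'] at this
    unfold cis
    simpa using this
  have hs : ∀ (r : ℝ) (w : C2), r • w = (r : ℂ) • w := by
    intro r w; ext i; simp
  rw [Rl_apply, Rl_apply, cis_add, e1, hj, hs, hs, map_smul, map_add, map_smul, map_smul, smul_smul]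

theorem alL_unitary (g : C2 ≃ₗᵢ[ℂ] C2) {K M : ConvexBody C2} (hM : (M : Set C2) = g '' (K : Set C2)) :
    alL M = alL K := by
  obtain ⟨ψ, hψ⟩ := Rl_g g
  unfold alL
  congr 1
  have h1 : ∀ φ : ℝ, al (mapBody (Rl (cis φ)) M) = al (mapBody (Rl (cis (φ + ψ))) K) := by
    intro φ
    apply al_unitary g
    rw [coe_mapBody, coe_mapBody, hM, image_image, image_image]
    apply image_congr
    intro z _
    exact hψ φ z
  simp only [h1]
  rw [intervalIntegral.integral_comp_add_right (fun φ => al (mapBody (Rl (cis φ)) K))]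
  have hper : Function.Periodic (fun φ => al (mapBody (Rl (cis φ)) K)) (2 * π) := by
    intro φ
    simp only
    rw [cis_periodic φ]
  have := hper.intervalIntegral_add_eq ψ 0
  rw [zero_add] at this ⊢
  rw [add_comm (2 * π) ψ]
  exact this

theorem alL_ge (K : ConvexBody C2) : √(2 * (volume (K : Set C2)).toReal) ≤ alL K := by
  unfold alL
  have h1 : ∀ φ : ℝ, √(2 * (volume (K : Set C2)).toReal) ≤ al (mapBody (Rl (cis φ)) K) := by
    intro φ
    have := al_ge (mapBody (Rl (cis φ)) K)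
    rwa [vol_Rl (norm_cis φ)] at this
  have hpi := Real.pi_pos
  have h2 : ∫ φ in (0 : ℝ)..(2 * π), √(2 * (volume (K : Set C2)).toReal)
      ≤ ∫ φ in (0 : ℝ)..(2 * π), al (mapBody (Rl (cis φ)) K) := by
    apply intervalIntegral.integral_mono_on (by positivity) (by simp)
      ((alR_cont K).intervalIntegrable _ _)
    intro φ _
    exact h1 φ
  rw [intervalIntegral.integral_const, sub_zero, smul_eq_mul] at h2
  rw [inv_mul_eq_div, le_div_iff₀ (by positivity)]
  linarith

theorem alL_ball {c : C2} {r : ℝ} (hr : 0 ≤ r) {K : ConvexBody C2}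
    (hK : (K : Set C2) = Metric.closedBall c r) : alL K = π * r ^ 2 := by
  unfold alL
  have h1 : ∀ φ : ℝ, al (mapBody (Rl (cis φ)) K) = π * r ^ 2 := by
    intro φ
    apply al_ball (c := RlI (norm_cis φ) c) hr
    have h2 : (mapBody (Rl (cis φ)) K : Set C2) = (RlI (norm_cis φ)) '' (K : Set C2) := rfl
    rw [h2, hK]
    exact (RlI (norm_cis φ)).toIsometryEquiv.image_closedBall c r
  simp only [h1]
  rw [intervalIntegral.integral_const, sub_zero, smul_eq_mul]
  have := Real.pi_pos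
  field_simp

theorem cis_re_im (φ : ℝ) : (cis φ).re = Real.cos φ ∧ (cis φ).im = Real.sin φ := by
  unfold cis
  rw [Complex.exp_ofReal_mul_I_re, Complex.exp_ofReal_mul_I_im]
  exact ⟨rfl, rfl⟩

theorem avg_sq (g : ℂ) : ∫ φ in (0 : ℝ)..(2 * π), ((cis φ * g).re) ^ 2 = π * ‖g‖ ^ 2 := by
  have e : ∀ φ : ℝ, ((cis φ * g).re) ^ 2
      = g.re ^ 2 * Real.cos φ ^ 2 + g.im ^ 2 * Real.sin φ ^ 2 - 2 * g.re * g.im * (Real.sin φ * Real.cos φ) := by
    intro φ
    rw [Complex.mul_re, (cis_re_im φ).1, (cis_re_im φ).2]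
    ring
  simp only [e]
  have c1 : Continuous fun φ : ℝ => g.re ^ 2 * Real.cos φ ^ 2 := by fun_prop
  have c2 : Continuous fun φ : ℝ => g.im ^ 2 * Real.sin φ ^ 2 := by fun_prop
  have c3 : Continuous fun φ : ℝ => 2 * g.re * g.im * (Real.sin φ * Real.cos φ) := by fun_prop
  have c12 : Continuous fun φ : ℝ => g.re ^ 2 * Real.cos φ ^ 2 + g.im ^ 2 * Real.sin φ ^ 2 := by
    fun_prop
  rw [intervalIntegral.integral_sub (c12.intervalIntegrable _ _) (c3.intervalIntegrable _ _),
    intervalIntegral.integral_add (c1.intervalIntegrable _ _) (c2.intervalIntegrable _ _),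
    intervalIntegral.integral_const_mul, intervalIntegral.integral_const_mul,
    intervalIntegral.integral_const_mul, integral_cos_sq, integral_sin_sq, integral_sin_mul_cos₁,
    ← Complex.normSq_eq_norm_sq, Complex.normSq_apply]
  simp
  ring

theorem norm_inner_jj {u v : C2} (hu : ‖u‖ = 1) (hv : ‖v‖ = 1) (huv : (inner ℂ u v).re = 0) :
    ‖inner ℂ v (jj u)‖ ^ 2 = 1 - (inner ℂ u v).im ^ 2 := by
  obtain ⟨η, hη⟩ := frame_surj hu v
  have h1 := norm_frame hu (inner ℂ u v) η
  rw [← hη, hv] at h1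
  have h2 : inner ℂ (jj u) v = η := by
    conv_lhs => rw [hη]
    have h3 : inner ℂ (jj u) u = 0 := by rw [← inner_conj_symm, inner_jj]; simp
    rw [inner_add_right, inner_smul_right, inner_smul_right, h3, inner_self_eq_norm_sq_to_K, norm_jj, hu]
    simp
  have h4 : ‖inner ℂ v (jj u)‖ = ‖η‖ := by rw [← h2, norm_inner_symm]
  have h5 : ‖inner ℂ u v‖ ^ 2 = (inner ℂ u v).im ^ 2 := by
    rw [← Complex.normSq_eq_norm_sq, Complex.normSq_apply, huv]; ring
  rw [h4]
  rw [h5] at h1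
  linarith

theorem alL_klain {u v : C2} (hu : ‖u‖ = 1) (hv : ‖v‖ = 1) (huv : (inner ℂ u v).re = 0)
    {K : ConvexBody C2} {P : Set (ℝ × ℝ)}
    (hK : (K : Set C2) = (fun p : ℝ × ℝ => p.1 • u + p.2 • v) '' P) :
    alL K = (3 - (inner ℂ u v).im ^ 2) / 8 * (volume P).toReal := by
  unfold alL
  have h1 : ∀ φ : ℝ, al (mapBody (Rl (cis φ)) K)
      = (1 + ((cis φ * inner ℂ v (jj u)).re) ^ 2) / 4 * (volume P).toReal := by
    intro φ
    have hin := inner_Rl (norm_cis φ) u v
    have hre : (inner ℂ (Rl (cis φ) u) (Rl (cis φ) v)).re = 0 := by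
      rw [hin, huv]; simp
    have him : (inner ℂ (Rl (cis φ) u) (Rl (cis φ) v)).im = (cis φ * inner ℂ v (jj u)).re := by
      rw [hin]; simp
    have := al_klain (by rw [Rl_norm (norm_cis φ), hu]) (by rw [Rl_norm (norm_cis φ), hv]) hre
      (K := mapBody (Rl (cis φ)) K) (P := P) (by
        rw [coe_mapBody, hK, image_image]
        apply image_congr
        intro p _
        rw [map_add, map_smul, map_smul])
    rw [this, him]
  simp only [h1]
  have c1 : Continuous fun φ : ℝ => ((cis φ * inner ℂ v (jj u)).re) ^ 2 := by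
    have := cis_cont
    fun_prop
  rw [intervalIntegral.integral_mul_const, intervalIntegral.integral_div,
    intervalIntegral.integral_add (by simp) (c1.intervalIntegrable _ _), avg_sq,
    norm_inner_jj hu hv huv, intervalIntegral.integral_const, sub_zero, smul_eq_mul]
  have := Real.pi_pos
  field_simp
  ring

end Run7.h549
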