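import Pool.Agent.Run7.h549.Vol3

set_option maxHeartbeats 400000
open MeasureTheory Set Filter Topology
open scoped ENNReal Real Pointwise

namespace Run7.h549

theorem finrank_C2 : Module.finrank ℝ C2 = 4 := by
  have := Module.finrank_mul_finrank ℝ ℂ C2
  rw [Complex.finrank_real_complex, finrank_euclideanSpace, Fintype.card_fin] at this
  omega

/-- normalising the volume -/
theorem normalise (K : ConvexBody C2) (hV : 0 < (volume (K : Set C2)).toReal) :
    ∃ K' : ConvexBody C2, (volume (K' : Set C2)).toReal = 1 ∧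
      al K' = al K / √((volume (K : Set C2)).toReal) ∧
      alL K' = alL K / √((volume (K : Set C2)).toReal) := by
  set V := (volume (K : Set C2)).toReal with hVdef
  set t : ℝ := (√(√V))⁻¹ with ht
  have h1 : 0 < √V := Real.sqrt_pos.2 hV
  have ht0 : 0 < t := inv_pos.2 (Real.sqrt_pos.2 h1)
  have ht2 : t ^ 2 = 1 / √V := by
    rw [ht, inv_pow, Real.sq_sqrt h1.le, one_div]
  have ht4 : t ^ 4 * V = 1 := by
    have e : t ^ 4 = (t ^ 2) ^ 2 := by ring
    rw [e, ht2, div_pow, Real.sq_sqrt hV.le]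
    field_simp
  set K' : ConvexBody C2 := mapBody (t • ContinuousLinearMap.id ℝ C2) K with hK'
  have hc : (K' : Set C2) = (fun z => t • z) '' (K : Set C2) := rfl
  refine ⟨K', ?_, ?_, ?_⟩
  · have h2 : (K' : Set C2) = t • (K : Set C2) := by rw [hc, image_smul]
    rw [h2, Measure.addHaar_smul, finrank_C2, ENNReal.toReal_mul, ENNReal.toReal_ofReal (abs_nonneg _),
      abs_of_nonneg (by positivity)]
    exact ht4
  · rw [al_dil hc, ht2]; ring
  · rw [alL_dil hc, ht2]; ring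

/-- for `2a < b` the ball is not a minimiser -/
theorem low {a b : ℝ} (h1 : 2 * a < b) (h2 : 0 < 2 * a + b) : ∃ K : ConvexBody C2,
    (volume (K : Set C2)).toReal = 1 ∧
    a * (4 * alL K - 2 * al K) + b * (3 * al K - 2 * alL K) < √2 * (2 * a + b) := by
  have hpi := Real.pi_pos
  obtain ⟨m, hm⟩ := exists_nat_gt ((2 * a + b) / (b - 2 * a))
  have hba : 0 < b - 2 * a := by linarith
  have hm1 : 2 * a + b < m * (b - 2 * a) := by rwa [div_lt_iff₀ hba] at hm
  have hm0 : (0:ℝ) ≤ m := by positivity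
  obtain ⟨c3, c4, hW⟩ := DI_WW m
  set y : ℝ := (m + 1) / 2 * ((3 * b - 2 * a) + (4 * a - 2 * b) / (m + 3)) / (2 * a + b) with hy
  set B : ℝ := (m + 1) * (m + 5) / (m + 3) with hB
  have hyB : 0 < 2 * y - B := by
    have e : 2 * y - B = 2 * (m + 1) * ((m + 2) * (b - 2 * a) - (2 * a + b)) / ((m + 3) * (2 * a + b)) := by
      rw [hy, hB]
      field_simp
      ring
    rw [e]
    have : 0 < (m + 2) * (b - 2 * a) - (2 * a + b) := by nlinarith
    positivity
  -- choose `δ`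
  have hcont : Continuous fun δ : ℝ => (2 * y - B) + 2 * c3 / π * δ + (2 * c4 / π - y ^ 2) * δ ^ 2 := by
    fun_prop
  have ev1 : ∀ᶠ δ : ℝ in 𝓝[>] 0, 0 < (2 * y - B) + 2 * c3 / π * δ + (2 * c4 / π - y ^ 2) * δ ^ 2 := by
    apply Filter.Eventually.filter_mono nhdsWithin_le_nhds
    apply hcont.continuousAt.eventually (p := fun r => 0 < r)
    apply lt_mem_nhds
    simpa using hyB
  have ev2 : ∀ᶠ δ : ℝ in 𝓝[>] 0, δ * ((m + 2) ^ 2 + 1) < 1 := by
    apply Filter.Eventually.filter_mono nhdsWithin_le_nhds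
    apply (by fun_prop : Continuous fun δ : ℝ => δ * (((m : ℝ) + 2) ^ 2 + 1)).continuousAt.eventually
      (p := fun r => r < 1)
    apply gt_mem_nhds
    simp
  have ev3 : ∀ᶠ δ : ℝ in 𝓝[>] 0, δ * ((m + 1) * (2 * m + 5)) < 1 := by
    apply Filter.Eventually.filter_mono nhdsWithin_le_nhds
    apply (by fun_prop : Continuous fun δ : ℝ => δ * (((m : ℝ) + 1) * (2 * m + 5))).continuousAt.eventually
      (p := fun r => r < 1)
    apply gt_mem_nhds
    simp
  have ev4 : ∀ᶠ δ : ℝ in 𝓝[>] 0, 0 < δ := self_mem_nhdsWithin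
  have ev5 : ∀ᶠ δ : ℝ in 𝓝[>] 0, δ ^ 2 * y < 1 := by
    apply Filter.Eventually.filter_mono nhdsWithin_le_nhds
    apply (by fun_prop : Continuous fun δ : ℝ => δ ^ 2 * y).continuousAt.eventually
      (p := fun r => r < 1)
    apply gt_mem_nhds
    simp
  obtain ⟨δ, hd1, hd2, hd3, hd4, hd5⟩ := (ev1.and (ev2.and (ev3.and (ev4.and ev5)))).exists
  have hδ1 : δ < 1 := by
    have : (0:ℝ) ≤ δ * (m + 2) ^ 2 := by positivity
    linarith
  set K : ConvexBody C2 := wulffBody (NP δ m) (fun y hy => (NP_bounds hd4.le hδ1 m hy).1) 2 (by norm_num)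
    (fun y hy => (NP_bounds hd4.le hδ1 m hy).2) with hK
  have hKc : (K : Set C2) = wulff (NP δ m) := rfl
  have e1 := al_P hd4.le hd2 hKc
  have e2 := alL_P hd4.le hd2 hKc
  have hV := vol_wulff_ge hd4.le hd2 hd3
  rw [← hKc] at hV
  have hfin : volume (K : Set C2) ≠ ∞ := K.isCompact.measure_lt_top.ne
  rw [ENNReal.ofReal_le_iff_le_toReal hfin, hW] at hV
  set V := (volume (K : Set C2)).toReal with hVd
  -- the key comparison
  have hk : (π * (1 - δ ^ 2 * y)) ^ 2 < 2 * V := by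
    have e3 : 2 * (π * (π / 2 * (1 - δ ^ 2 * B) + δ ^ 3 * c3 + δ ^ 4 * c4))
        = (π * (1 - δ ^ 2 * y)) ^ 2 + π ^ 2 * δ ^ 2 * ((2 * y - B) + 2 * c3 / π * δ
          + (2 * c4 / π - y ^ 2) * δ ^ 2) := by
      field_simp
      ring
    have h3 : 0 < π ^ 2 * δ ^ 2 * ((2 * y - B) + 2 * c3 / π * δ + (2 * c4 / π - y ^ 2) * δ ^ 2) := by
      positivity
    linarith
  have hV0 : 0 < V := by nlinarith [sq_nonneg (π * (1 - δ ^ 2 * y))]
  have hk2 : π * (1 - δ ^ 2 * y) < √(2 * V) := Real.lt_sqrt_of_sq_lt hk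
  obtain ⟨K', hv, ha, hl⟩ := normalise K hV0
  refine ⟨K', hv, ?_⟩
  rw [ha, hl, e1, e2]
  have hsV : 0 < √V := Real.sqrt_pos.2 hV0
  have e4 : a * (4 * (π * (1 - δ ^ 2 * (m + 1) / (2 * (m + 3))) / √V)
        - 2 * (π * (1 - δ ^ 2 * (m + 1) / 2) / √V))
      + b * (3 * (π * (1 - δ ^ 2 * (m + 1) / 2) / √V)
        - 2 * (π * (1 - δ ^ 2 * (m + 1) / (2 * (m + 3))) / √V))
      = (2 * a + b) * (π * (1 - δ ^ 2 * y)) / √V := by
    have hy2 : (2 * a + b) * y = (m + 1) / 2 * ((3 * b - 2 * a) + (4 * a - 2 * b) / (m + 3)) := by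
      rw [hy]
      field_simp
    have e6 : (2 * a + b) * (π * (1 - δ ^ 2 * y)) = π * ((2 * a + b) - δ ^ 2 * ((2 * a + b) * y)) := by
      ring
    have e7 : δ ^ 2 * ((m : ℝ) + 1) / (2 * (m + 3)) = δ ^ 2 * (m + 1) / 2 / (m + 3) := by rw [div_div]
    rw [e6, hy2, e7]
    ring
  rw [e4, div_lt_iff₀ hsV]
  have e5 : √2 * (2 * a + b) * √V = (2 * a + b) * √(2 * V) := by
    rw [Real.sqrt_mul (by norm_num)]; ring
  rw [e5]
  exact mul_lt_mul_of_pos_left hk2 h2

end Run7.h549
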