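import Pool.Agent.Run7.h549.Frame

open MeasureTheory Set
open scoped ENNReal Real ContDiff FourierTransform SchwartzMap Convolution

namespace Run7.h549

/-- the density of the image of `f dz` under `z ↦ ⟪u, z⟫` for a unit vector `u` -/
noncomputable def marg (f : C2 → ℝ) (u : C2) (p : ℂ) : ℝ := ∫ η : ℂ, f (p • u + η • jj u)

theorem marg_contDiff {f : C2 → ℝ} (hf : ContDiff ℝ ∞ f) (hc : HasCompactSupport f) {u : C2}
    (hu : ‖u‖ = 1) : ContDiff ℝ ∞ (marg f u) := by
  obtain ⟨R, hR⟩ := hc.isCompact.isBounded.subset_closedBall (0 : C2)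
  set g : ℂ → ℂ → ℝ := fun p x => f (p • u + (-x) • jj u) with hg
  have hgs : ∀ p, ∀ x, p ∈ (univ : Set ℂ) → x ∉ Metric.closedBall (0 : ℂ) R → g p x = 0 := by
    intro p x _ hx
    by_contra hne
    have h1 : p • u + (-x) • jj u ∈ tsupport f := subset_tsupport f hne
    have h2 := hR h1
    rw [mem_closedBall_zero_iff] at h2 hx
    apply hx
    have h3 := norm_frame hu p (-x)
    have h4 : ‖x‖ ^ 2 ≤ ‖p • u + (-x) • jj u‖ ^ 2 := by
      rw [h3, norm_neg]; nlinarith [sq_nonneg ‖p‖]
    exact le_trans (le_of_sq_le_sq h4 (norm_nonneg _)) h2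
  have hgc : ContDiffOn ℝ ∞ ↿g ((univ : Set ℂ) ×ˢ (univ : Set ℂ)) := by
    apply ContDiff.contDiffOn
    apply hf.comp
    fun_prop
  have key := contDiffOn_convolution_right_with_param_comp (μ := (volume : Measure ℂ)) (n := ⊤)
    (ContinuousLinearMap.lsmul ℝ ℝ) (s := (univ : Set ℂ)) (v := fun _ => (0 : ℂ))
    contDiffOn_const (f := fun _ : ℂ => (1 : ℝ)) (g := g) (k := Metric.closedBall (0 : ℂ) R)
    isOpen_univ (isCompact_closedBall _ _) hgs (locallyIntegrable_const _) hgc
  rw [contDiffOn_univ] at key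
  convert key using 1
  funext p
  unfold marg convolution
  simp [g]

end Run7.h549
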