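import Pool.Agent.Run7.h549.Wbody

set_option maxHeartbeats 400000
open MeasureTheory Set Filter Topology
open scoped ENNReal Real Pointwise

namespace Run7.h549

/-! ### The perturbed support function `1 + δ Re (y₀ ^ (m+2))` -/

theorem cis_hasDeriv (θ : ℝ) : HasDerivAt cis (cis θ * Complex.I) θ := by
  unfold cis
  have h1 : HasDerivAt (fun t : ℝ => (t : ℂ) * Complex.I) (1 * Complex.I) θ :=
    (Complex.ofRealCLM.hasDerivAt (x := θ)).mul_const Complex.I
  have h2 := h1.cexp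
  simpa using h2

theorem curve_hasDeriv (L : C2 →L[ℝ] ℂ) (x : C2) (θ : ℝ) :
    HasDerivAt (fun t : ℝ => L (cis t • x)) (L (cis θ • Complex.I • x)) θ := by
  have h1 : HasDerivAt (fun t : ℝ => cis t • x) ((cis θ * Complex.I) • x) θ :=
    (cis_hasDeriv θ).smul_const x
  rw [mul_smul] at h1
  exact L.hasFDerivAt.comp_hasDerivAt θ h1

/-- the first coordinate of `S (·)` as a real linear map -/
noncomputable def co0 (S : C2 ≃ₗᵢ[ℝ] C2) : C2 →L[ℝ] ℂ :=
  (((EuclideanSpace.proj (0 : Fin 2) : C2 →L[ℂ] ℂ)).restrictScalars ℝ).comp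
    (S.toContinuousLinearEquiv : C2 →L[ℝ] C2)

theorem co0_apply (S : C2 ≃ₗᵢ[ℝ] C2) (x : C2) : co0 S x = (S x) 0 := rfl

theorem supF_pert {P P1 : ℝ → ℂ} (d1 : ∀ θ, HasDerivAt P (P1 θ) θ) (d2 : ∀ θ, HasDerivAt P1 (-P θ) θ)
    (n1 : ∀ θ, ‖P θ‖ ≤ 1) (n2 : ∀ θ, ‖P1 θ‖ ≤ 1) (hper : ∀ θ, P (θ + 2 * π) = P θ) (m : ℕ) {δ : ℝ}
    (hδ : 0 ≤ δ) (hδ1 : δ * ((m + 2) ^ 2 + 1) < 1) :
    SupF (fun θ => 1 + δ * (P θ ^ (m + 2)).re) (fun θ => δ * ((m + 2) * P θ ^ (m + 1) * P1 θ).re)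
      (fun θ => δ * ((m + 2) * ((m + 1) * P θ ^ m * P1 θ ^ 2 - P θ ^ (m + 2))).re) := by
  have hre : ∀ {F : ℝ → ℂ} {F' : ℂ} {θ : ℝ}, HasDerivAt F F' θ →
      HasDerivAt (fun t => δ * (F t).re) (δ * F'.re) θ := by
    intro F F' θ h
    have h1 := Complex.reCLM.hasFDerivAt.comp_hasDerivAt θ h
    have h2 := h1.const_mul δ
    exact h2
  have hpw : ∀ (z : ℂ) (n : ℕ), ‖z‖ ≤ 1 → ‖z ^ n‖ ≤ 1 := by
    intro z n hz
    rw [norm_pow]
    exact pow_le_one₀ (norm_nonneg _) hz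
  have hrb : ∀ θ, |(P θ ^ (m + 2)).re| ≤ 1 := fun θ =>
    (Complex.abs_re_le_norm _).trans (hpw _ _ (n1 θ))
  have hδ2 : δ < 1 := by
    have : (0:ℝ) ≤ δ * (m + 2) ^ 2 := by positivity
    linarith
  constructor
  · intro θ
    have h1 : HasDerivAt (fun t => P t ^ (m + 2)) ((m + 2) * P θ ^ (m + 1) * P1 θ) θ := by
      have := (d1 θ).pow (m + 2)
      refine this.congr_deriv ?_
      push_cast
      simp
    exact (hre h1).const_add 1
  · intro θ
    apply hre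
    have h1 : HasDerivAt (fun t => P t ^ (m + 1)) ((m + 1) * P θ ^ m * P1 θ) θ := by
      have := (d1 θ).pow (m + 1)
      refine this.congr_deriv ?_
      push_cast
      simp
    have h2 := (h1.const_mul ((m : ℂ) + 2)).mul (d2 θ)
    refine h2.congr_deriv ?_
    ring
  · have c1 : Continuous P := continuous_iff_continuousAt.2 fun θ => (d1 θ).continuousAt
    have c2 : Continuous P1 := continuous_iff_continuousAt.2 fun θ => (d2 θ).continuousAt
    have c3 := Complex.continuous_re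
    apply continuous_const.mul
    apply c3.comp
    fun_prop
  · intro θ
    rw [hper]
  · intro θ
    have := (abs_le.1 (hrb θ)).1
    nlinarith
  · intro θ
    have h1 := (abs_le.1 (hrb θ)).1
    have h2 : |((m + 2) * ((m + 1) * P θ ^ m * P1 θ ^ 2 - P θ ^ (m + 2)) : ℂ).re| ≤ (m + 2) ^ 2 := by
      refine (Complex.abs_re_le_norm _).trans ?_
      rw [norm_mul]
      have e1 : ‖((m : ℂ) + 2)‖ = (m : ℝ) + 2 := by
        have : ((m : ℂ) + 2) = ((m + 2 : ℕ) : ℂ) := by push_cast; ring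
        rw [this, Complex.norm_natCast]; push_cast; ring
      have e2 : ‖((m : ℂ) + 1)‖ = (m : ℝ) + 1 := by
        have : ((m : ℂ) + 1) = ((m + 1 : ℕ) : ℂ) := by push_cast; ring
        rw [this, Complex.norm_natCast]; push_cast; ring
      have e3 : ‖((m + 1) * P θ ^ m * P1 θ ^ 2 - P θ ^ (m + 2) : ℂ)‖ ≤ (m : ℝ) + 2 := by
        refine (norm_sub_le _ _).trans ?_
        rw [norm_mul, norm_mul, e2]
        have a1 := hpw _ m (n1 θ)
        have a2 := hpw _ 2 (n2 θ)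
        have a3 := hpw _ (m + 2) (n1 θ)
        have a4 : ((m : ℝ) + 1) * ‖P θ ^ m‖ * ‖P1 θ ^ 2‖ ≤ (m + 1) * 1 * 1 := by
          gcongr
        linarith
      rw [e1]
      have : (0:ℝ) ≤ (m : ℝ) + 2 := by positivity
      calc ((m : ℝ) + 2) * ‖((m + 1) * P θ ^ m * P1 θ ^ 2 - P θ ^ (m + 2) : ℂ)‖
          ≤ (m + 2) * (m + 2) := mul_le_mul_of_nonneg_left e3 this
        _ = (m + 2) ^ 2 := by ring
    have h3 := (abs_le.1 h2).1
    have h4 := mul_le_mul_of_nonneg_left h1 hδ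
    have h5 := mul_le_mul_of_nonneg_left h3 hδ
    nlinarith

end Run7.h549
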