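import Pool.Agent.Run7.h549.Pert

set_option maxHeartbeats 400000
open MeasureTheory Set Filter Topology
open scoped ENNReal Real Pointwise

namespace Run7.h549

theorem taylor_pow {x y : ℂ} (hx : ‖x‖ ≤ 1) (hy : ‖y‖ ≤ 1) (n : ℕ) :
    ‖y ^ (n + 1) - x ^ (n + 1) - (n + 1) * x ^ n * (y - x)‖ ≤ (n + 1) * n / 2 * ‖y - x‖ ^ 2 := by
  induction n with
  | zero => simp
  | succ n ih =>
    have e : y ^ (n + 1 + 1) - x ^ (n + 1 + 1) - ((n + 1 : ℕ) + 1) * x ^ (n + 1) * (y - x)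
        = y * (y ^ (n + 1) - x ^ (n + 1) - (n + 1) * x ^ n * (y - x))
          + (n + 1) * x ^ n * (y - x) ^ 2 := by
      push_cast
      ring
    rw [e]
    refine (norm_add_le _ _).trans ?_
    have e2 : ‖((n : ℂ) + 1)‖ = (n : ℝ) + 1 := by
      have : ((n : ℂ) + 1) = ((n + 1 : ℕ) : ℂ) := by push_cast; ring
      rw [this, Complex.norm_natCast]; push_cast; ring
    rw [norm_mul, norm_mul, norm_mul, e2, norm_pow, norm_pow]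
    have h1 : ‖x‖ ^ n ≤ 1 := pow_le_one₀ (norm_nonneg _) hx
    have h2 := norm_nonneg (y - x)
    calc ‖y‖ * ‖y ^ (n + 1) - x ^ (n + 1) - (n + 1) * x ^ n * (y - x)‖
          + ((n : ℝ) + 1) * ‖x‖ ^ n * ‖y - x‖ ^ 2
        ≤ 1 * ((n + 1) * n / 2 * ‖y - x‖ ^ 2) + ((n : ℝ) + 1) * 1 * ‖y - x‖ ^ 2 := by
          gcongr
      _ = ((n + 1 : ℕ) + 1) * (n + 1 : ℕ) / 2 * ‖y - x‖ ^ 2 := by push_cast; ring

/-- the perturbed support function -/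
noncomputable def NP (δ : ℝ) (m : ℕ) (y : C2) : ℝ := 1 + δ * (y 0 ^ (m + 2)).re

/-- the points of the body with support function `NP` -/
noncomputable def bpt (δ : ℝ) (m : ℕ) (x : C2) : C2 :=
  !₂[((1 - δ * (m + 1) * (x 0 ^ (m + 2)).re : ℝ) : ℂ) * x 0
      + ((δ * (m + 2) : ℝ) : ℂ) * (starRingEnd ℂ) (x 0) ^ (m + 1),
    ((1 - δ * (m + 1) * (x 0 ^ (m + 2)).re : ℝ) : ℂ) * x 1]

theorem inner_bpt (δ : ℝ) (m : ℕ) (v x : C2) :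
    (inner ℂ v (bpt δ m x)).re = (1 - δ * (m + 1) * (x 0 ^ (m + 2)).re) * (inner ℂ v x).re
      + δ * (m + 2) * (x 0 ^ (m + 1) * v 0).re := by
  rw [inner_C2, inner_C2]
  have e1 : (bpt δ m x) 0 = ((1 - δ * (m + 1) * (x 0 ^ (m + 2)).re : ℝ) : ℂ) * x 0
      + ((δ * (m + 2) : ℝ) : ℂ) * (starRingEnd ℂ) (x 0) ^ (m + 1) := rfl
  have e2 : (bpt δ m x) 1 = ((1 - δ * (m + 1) * (x 0 ^ (m + 2)).re : ℝ) : ℂ) * x 1 := rfl
  rw [e1, e2]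
  have e3 : (x 0 ^ (m + 1) * v 0).re = ((starRingEnd ℂ) (v 0) * (starRingEnd ℂ) (x 0) ^ (m + 1)).re := by
    rw [← map_pow, ← map_mul, Complex.conj_re, mul_comm]
  rw [e3]
  have e4 : (starRingEnd ℂ) (v 0) * (((1 - δ * (m + 1) * (x 0 ^ (m + 2)).re : ℝ) : ℂ) * x 0
      + ((δ * (m + 2) : ℝ) : ℂ) * (starRingEnd ℂ) (x 0) ^ (m + 1))
      + (starRingEnd ℂ) (v 1) * (((1 - δ * (m + 1) * (x 0 ^ (m + 2)).re : ℝ) : ℂ) * x 1)
      = ((1 - δ * (m + 1) * (x 0 ^ (m + 2)).re : ℝ) : ℂ)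
          * ((starRingEnd ℂ) (v 0) * x 0 + (starRingEnd ℂ) (v 1) * x 1)
        + ((δ * (m + 2) : ℝ) : ℂ) * ((starRingEnd ℂ) (v 0) * (starRingEnd ℂ) (x 0) ^ (m + 1)) := by
    ring
  rw [e4, Complex.add_re, Complex.re_ofReal_mul, Complex.re_ofReal_mul]

theorem norm_coord_le {y : C2} {r : ℝ} (hy : ‖y‖ ≤ r) (i : Fin 2) : ‖y i‖ ≤ r :=
  (PiLp.norm_apply_le y i).trans hy

theorem norm_sub_sq_C2 (x y : C2) : ‖y - x‖ ^ 2 = ‖y‖ ^ 2 + ‖x‖ ^ 2 - 2 * (inner ℂ y x).re := by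
  rw [norm_sub_sq (𝕜 := ℂ)]
  simp
  ring

/-- the points `bpt` satisfy all the constraints, with a quantitative margin -/
theorem bpt_ineq {δ : ℝ} (hδ : 0 ≤ δ) (m : ℕ) {x y : C2} (hx : ‖x‖ ≤ 1) (hy : ‖y‖ = 1) :
    (1 - δ * ((m + 2) ^ 2 - 1)) * (1 - (inner ℂ y x).re) ≤ NP δ m y - (inner ℂ y (bpt δ m x)).re := by
  have hx0 := norm_coord_le hx 0
  have hy0 := norm_coord_le hy.le 0
  have hT := taylor_pow hx0 hy0 (m + 1)
  set E : ℂ := y 0 ^ (m + 1 + 1) - x 0 ^ (m + 1 + 1) - ((m + 1 : ℕ) + 1) * x 0 ^ (m + 1) * (y 0 - x 0)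
    with hE
  have hEre : E.re = (y 0 ^ (m + 2)).re + (m + 1) * (x 0 ^ (m + 2)).re
      - (m + 2) * (x 0 ^ (m + 1) * y 0).re := by
    have e : E = y 0 ^ (m + 2) + ((m + 1 : ℝ) : ℂ) * x 0 ^ (m + 2)
        - ((m + 2 : ℝ) : ℂ) * (x 0 ^ (m + 1) * y 0) := by
      rw [hE]; push_cast; ring
    rw [e, Complex.sub_re, Complex.add_re, Complex.re_ofReal_mul, Complex.re_ofReal_mul]
  have h1 : |E.re| ≤ ((m + 1 : ℕ) + 1) * (m + 1 : ℕ) / 2 * ‖y 0 - x 0‖ ^ 2 :=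
    (Complex.abs_re_le_norm _).trans hT
  have h2 : ‖y 0 - x 0‖ ^ 2 ≤ 2 * (1 - (inner ℂ y x).re) := by
    have h3 : ‖y 0 - x 0‖ ≤ ‖y - x‖ := by
      have := PiLp.norm_apply_le (y - x) 0
      simpa using this
    have h4 : ‖y 0 - x 0‖ ^ 2 ≤ ‖y - x‖ ^ 2 := by
      have := norm_nonneg (y 0 - x 0)
      gcongr
    have h5 := norm_sub_sq_C2 x y
    rw [hy] at h5
    have h6 : ‖x‖ ^ 2 ≤ 1 := pow_le_one₀ (norm_nonneg _) hx
    linarith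
  have h7 : |(x 0 ^ (m + 2)).re| ≤ 1 := by
    refine (Complex.abs_re_le_norm _).trans ?_
    rw [norm_pow]
    exact pow_le_one₀ (norm_nonneg _) hx0
  have h8 : 0 ≤ 1 - (inner ℂ y x).re := by
    have := sq_nonneg ‖y 0 - x 0‖
    linarith
  rw [inner_bpt]
  unfold NP
  have h9 := (abs_le.1 h1).1
  push_cast at h9
  have h10 : ((m : ℝ) + 1 + 1) * (m + 1) / 2 * ‖y 0 - x 0‖ ^ 2
      ≤ ((m : ℝ) + 1 + 1) * (m + 1) / 2 * (2 * (1 - (inner ℂ y x).re)) := by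
    gcongr
  have h11 : (x 0 ^ (m + 2)).re * (1 - (inner ℂ y x).re) ≤ 1 - (inner ℂ y x).re := by
    have := mul_le_mul_of_nonneg_right (abs_le.1 h7).2 h8
    linarith
  have h12 : ((m : ℝ) + 1) * ((x 0 ^ (m + 2)).re * (1 - (inner ℂ y x).re))
      ≤ (m + 1) * (1 - (inner ℂ y x).re) := by
    gcongr
  have h13 : -(((m : ℝ) + 2) ^ 2 - 1) * (1 - (inner ℂ y x).re)
      ≤ E.re - (m + 1) * ((x 0 ^ (m + 2)).re * (1 - (inner ℂ y x).re)) := by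
    nlinarith
  have h14 := mul_le_mul_of_nonneg_left h13 hδ
  rw [hEre] at h14
  nlinarith

end Run7.h549
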