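import Pool.Agent.Run7.h549.Pert2

set_option maxHeartbeats 400000
open MeasureTheory Set Filter Topology
open scoped ENNReal Real Pointwise

namespace Run7.h549

theorem cis_two_pi (θ : ℝ) : cis (θ + 2 * π) = cis θ := cis_periodic θ

theorem inner_I_re (z : C2) : (inner ℂ (Complex.I • z) z).re = 0 := by
  rw [inner_smul_left, inner_self_eq_norm_sq_to_K, Complex.conj_I]
  have : (RCLike.ofReal ‖z‖ : ℂ) = ((‖z‖ : ℝ) : ℂ) := rfl
  have h2 : (((‖z‖ : ℝ) : ℂ) ^ 2).im = 0 := by
    rw [← Complex.ofReal_pow]; exact Complex.ofReal_im _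
  rw [this]
  simp [h2]

/-- the real inner product is preserved -/
theorem inner_S (S : C2 ≃ₗᵢ[ℝ] C2) (x z : C2) : (inner ℂ (S x) (S z)).re = (inner ℂ x z).re := by
  rw [inner_symm, S.symm_apply_apply]

theorem inner_self_re {z : C2} (hz : ‖z‖ = 1) : (inner ℂ z z).re = 1 := by
  rw [inner_self_eq_norm_sq_to_K, hz]
  simp

theorem norm_curve (S : C2 ≃ₗᵢ[ℝ] C2) {x : C2} (hx : ‖x‖ = 1) (θ : ℝ) : ‖S (cis θ • x)‖ = 1 := by
  rw [S.norm_map, norm_smul, norm_cis, hx, one_mul]

theorem inner_curve (S : C2 ≃ₗᵢ[ℝ] C2) {x : C2} (hx : ‖x‖ = 1) (θ φ : ℝ) :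
    (inner ℂ (S (cis φ • x)) (S (cis θ • x))).re = Real.cos (φ - θ) := by
  rw [inner_S, inner_smul_left, inner_smul_right, inner_self_eq_norm_sq_to_K, hx]
  simp only [RCLike.ofReal_one, one_pow, mul_one]
  rw [Complex.mul_re, Complex.conj_re, Complex.conj_im, (cis_re_im θ).1, (cis_re_im θ).2,
    (cis_re_im φ).1, (cis_re_im φ).2, Real.cos_sub]
  ring

theorem cos_lt_one_of_ne {θ φ : ℝ} (hθ : θ ∈ Ioc (-π) π) (hφ : φ ∈ Ioc (-π) π) (hne : θ ≠ φ) :
    Real.cos (φ - θ) < 1 := by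
  refine lt_of_le_of_ne (Real.cos_le_one _) ?_
  intro h
  have h2 := (Real.cos_eq_one_iff_of_lt_of_lt (by linarith [hθ.2, hφ.1]) (by linarith [hθ.1, hφ.2])).1 h
  exact hne (by linarith)

/-- the integrand on the unit sphere -/
noncomputable def PhiP (j : C2 → C2) (δ : ℝ) (m : ℕ) (y : C2) : ℝ :=
  NP δ m y ^ 2 - (δ * ((m + 2) * y 0 ^ (m + 1) * (j y) 0).re) ^ 2

theorem NP_cont (δ : ℝ) (m : ℕ) : Continuous (NP δ m) := by
  unfold NP
  have := Complex.continuous_re
  fun_prop

theorem PhiP_cont {j : C2 → C2} (hj : Continuous j) (δ : ℝ) (m : ℕ) : Continuous (PhiP j δ m) := by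
  unfold PhiP
  have h1 := NP_cont δ m
  have h2 := Complex.continuous_re
  have h3 : Continuous fun y : C2 => (j y) 0 :=
    (EuclideanSpace.proj (0 : Fin 2) : C2 →L[ℂ] ℂ).continuous.comp hj
  have h4 : Continuous fun y : C2 => (((m : ℂ) + 2) * y 0 ^ (m + 1) * (j y) 0) := by fun_prop
  have h5 := h2.comp h4
  have h6 : Continuous fun y : C2 => (((m : ℂ) + 2) * y 0 ^ (m + 1) * (j y) 0).re := h5
  fun_prop

theorem NP_bounds {δ : ℝ} (hδ : 0 ≤ δ) (hδ1 : δ < 1) (m : ℕ) {y : C2} (hy : ‖y‖ = 1) :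
    0 ≤ NP δ m y ∧ NP δ m y ≤ 2 := by
  have h7 : |(y 0 ^ (m + 2)).re| ≤ 1 := by
    refine (Complex.abs_re_le_norm _).trans ?_
    rw [norm_pow]
    exact pow_le_one₀ (norm_nonneg _) (norm_coord_le hy.le 0)
  have h8 := abs_le.1 h7
  unfold NP
  constructor <;> nlinarith [h8.1, h8.2]

theorem al_pert {R : C2 ≃ₗᵢ[ℝ] C2} {j : C2 → C2} (hjc : Continuous j)
    (hj : ∀ x, R.symm (Complex.I • x) = j (R.symm x)) {δ : ℝ} (hδ : 0 ≤ δ) {m : ℕ}
    (hδ1 : δ * ((m + 2) ^ 2 + 1) < 1) {K M : ConvexBody C2} (hK : (K : Set C2) = wulff (NP δ m))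
    (hM : (M : Set C2) = R '' (K : Set C2)) : al M = 3 / π * LL (PhiP j δ m) := by
  have hδ2 : δ < 1 := by
    have : (0:ℝ) ≤ δ * (m + 2) ^ 2 := by positivity
    linarith
  have hδ3 : 0 < 1 - δ * ((m + 2) ^ 2 - 1) := by nlinarith
  have hpt : ∀ x : C2, ‖x‖ = 1 → pa x M = (∫ θ in (-π)..π, PhiP j δ m (R.symm (cis θ • x))) / 2 := by
    intro x hx
    have hx' : ‖Complex.I • x‖ = 1 := by rw [norm_smul, Complex.norm_I, hx, one_mul]
    set P : ℝ → ℂ := fun θ => co0 R.symm (cis θ • x) with hP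
    set P1 : ℝ → ℂ := fun θ => co0 R.symm (cis θ • Complex.I • x) with hP1
    have d1 : ∀ θ, HasDerivAt P (P1 θ) θ := fun θ => curve_hasDeriv _ _ _
    have d2 : ∀ θ, HasDerivAt P1 (-P θ) θ := by
      intro θ
      have := curve_hasDeriv (co0 R.symm) (Complex.I • x) θ
      refine this.congr_deriv ?_
      rw [smul_smul Complex.I, Complex.I_mul_I, neg_smul, one_smul, smul_neg, map_neg]
    have n1 : ∀ θ, ‖P θ‖ ≤ 1 := by
      intro θ
      rw [hP]
      exact norm_coord_le (norm_curve R.symm hx θ).le 0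
    have n2 : ∀ θ, ‖P1 θ‖ ≤ 1 := by
      intro θ
      rw [hP1]
      exact norm_coord_le (norm_curve R.symm hx' θ).le 0
    have hper : ∀ θ, P (θ + 2 * π) = P θ := by
      intro θ
      rw [hP]
      simp only [cis_two_pi]
    have hS := supF_pert d1 d2 n1 n2 hper m hδ hδ1
    have hg : ∀ θ, 1 + δ * (P θ ^ (m + 2)).re = NP δ m (R.symm (cis θ • x)) := by
      intro θ; rfl
    have hjI : ∀ θ, R.symm (cis θ • Complex.I • x) = j (R.symm (cis θ • x)) := by
      intro θ
      rw [← hj, smul_comm]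
    have hint : ∫ θ in (-π)..π, PhiP j δ m (R.symm (cis θ • x))
        = ∫ θ in (-π)..π, ((1 + δ * (P θ ^ (m + 2)).re) ^ 2
          - (δ * ((m + 2) * P θ ^ (m + 1) * P1 θ).re) ^ 2) := by
      apply intervalIntegral.integral_congr
      intro θ _
      simp only
      unfold PhiP
      rw [← hjI θ]
      rfl
    rw [hint]
    apply le_antisymm
    · apply pa_le_rot hM hS
      intro z hz θ
      rw [hK] at hz
      exact hz _ (norm_curve R.symm hx θ)
    · apply pa_ge_rot hM _ hS (fun θ => bpt δ m (R.symm (cis θ • x)))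
      · intro θ
        rw [hK]
        intro y hy
        have h1 := bpt_ineq hδ m (norm_curve R.symm hx θ).le hy
        have h2 : 0 ≤ 1 - (inner ℂ y (R.symm (cis θ • x))).re := by
          have h3 := norm_sub_sq_C2 (R.symm (cis θ • x)) y
          rw [hy, norm_curve R.symm hx θ] at h3
          have := sq_nonneg ‖y - R.symm (cis θ • x)‖
          linarith
        have h4 := mul_nonneg hδ3.le h2
        linarith
      · intro θ
        rw [inner_bpt, inner_self_re (norm_curve R.symm hx θ)]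
        have e1 : (R.symm (cis θ • x)) 0 = P θ := rfl
        rw [e1]
        have e2 : P θ ^ (m + 1) * P θ = P θ ^ (m + 2) := by ring
        rw [e2]
        ring
      · intro θ
        have e0 : (inner ℂ (R.symm (cis θ • Complex.I • x)) (R.symm (cis θ • x))).re = 0 := by
          rw [inner_S, smul_comm]
          exact inner_I_re _
        rw [inner_bpt, e0]
        have e1 : (R.symm (cis θ • x)) 0 = P θ := rfl
        have e2 : (R.symm (cis θ • Complex.I • x)) 0 = P1 θ := rfl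
        rw [e1, e2]
        have e3 : ((m : ℂ) + 2) * P θ ^ (m + 1) * P1 θ
            = ((m + 2 : ℝ) : ℂ) * (P θ ^ (m + 1) * P1 θ) := by
          push_cast; ring
        rw [e3, Complex.re_ofReal_mul]
        ring
      · intro θ hθ φ hφ hne
        have h1 := bpt_ineq hδ m (norm_curve R.symm hx θ).le (norm_curve R.symm hx φ)
        rw [inner_curve R.symm hx] at h1
        have h2 := cos_lt_one_of_ne hθ hφ hne
        have h3 : 0 < (1 - δ * ((m + 2) ^ 2 - 1)) * (1 - Real.cos (φ - θ)) :=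
          mul_pos hδ3 (by linarith)
        have h4 : NP δ m (R.symm (cis φ • x)) = 1 + δ * (P φ ^ (m + 2)).re := rfl
        rw [h4] at h1
        linarith
      · rw [hK]
        exact wulff_zero (fun y hy => (NP_bounds hδ hδ2 m hy).1)
  have hn := nice_of_continuous (PhiP_cont hjc δ m)
  apply le_antisymm
  · exact al_le_avg hn R.symm (fun x hx => (hpt x hx).le)
  · exact al_ge_avg hn R.symm (fun x hx => (hpt x hx).ge)

end Run7.h549
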