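import Pool.Agent.Run7.h549.Pert3

set_option maxHeartbeats 400000
open MeasureTheory Set Filter Topology
open scoped ENNReal Real Pointwise

namespace Run7.h549

theorem cis_pow (φ : ℝ) (n : ℕ) : cis φ ^ n = cis (n * φ) := by
  unfold cis
  rw [← Complex.exp_nat_mul]
  congr 1
  push_cast
  ring

theorem cis_half_pi : cis (π / 2) = Complex.I := by
  apply Complex.ext
  · rw [(cis_re_im _).1, Real.cos_pi_div_two]; simp
  · rw [(cis_re_im _).2, Real.sin_pi_div_two]; simp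

theorem cis_pi : cis π = -1 := by
  apply Complex.ext
  · rw [(cis_re_im _).1, Real.cos_pi]; simp
  · rw [(cis_re_im _).2, Real.sin_pi]; simp

theorem exists_root_I (n : ℕ) : ∃ c : ℂ, ‖c‖ = 1 ∧ c ^ (n + 1) = Complex.I := by
  refine ⟨cis (π / 2 / (n + 1)), norm_cis _, ?_⟩
  rw [cis_pow, ← cis_half_pi]
  congr 1
  push_cast
  have : (n : ℝ) + 1 ≠ 0 := by positivity
  field_simp

theorem exists_root_neg (n : ℕ) : ∃ c : ℂ, ‖c‖ = 1 ∧ c ^ (n + 1) = -1 := by
  refine ⟨cis (π / (n + 1)), norm_cis _, ?_⟩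
  rw [cis_pow, ← cis_pi]
  congr 1
  push_cast
  have : (n : ℝ) + 1 ≠ 0 := by positivity
  field_simp

theorem LL_one : LL (fun _ => 1) = π ^ 2 / 3 := by
  rw [LL_rad' (h := fun _ => 1) continuous_const (fun _ _ => rfl)]
  simp

theorem LL_re (m : ℕ) : LL (fun y : C2 => (y 0 ^ (m + 2)).re) = 0 := by
  obtain ⟨c, hc, hc2⟩ := exists_root_neg (m + 1)
  have h1 := LL_iso (phaseL hc) (fun y : C2 => (y 0 ^ (m + 2)).re)
  have h2 : LL (fun y : C2 => ((phaseL hc y) 0 ^ (m + 2)).re)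
      = -1 * LL (fun y : C2 => (y 0 ^ (m + 2)).re) := by
    rw [← LL_smul]
    apply LL_congr
    intro y _
    rw [phaseL_0, mul_pow, hc2]
    simp
  simp only at h1
  rw [h2] at h1
  linarith

theorem re_sq_cont {u : C2 → ℂ} (hu : Continuous u) : Continuous fun y => (u y).re ^ 2 := by
  have := Complex.continuous_re.comp hu
  exact this.pow 2

theorem im_sq_cont {u : C2 → ℂ} (hu : Continuous u) : Continuous fun y => (u y).im ^ 2 := by
  have := Complex.continuous_im.comp hu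
  exact this.pow 2

theorem LL_half' {T : C2 ≃ₗᵢ[ℝ] C2} {u : C2 → ℂ} (hc : Continuous u)
    (hu : ∀ y, u (T y) = Complex.I * u y ∨ u (T y) = -(Complex.I * u y)) :
    LL (fun y => (u y).re ^ 2) = LL (fun y => ‖u y‖ ^ 2) / 2 := by
  have h := LL_half (T := T) (ω := fun _ => 1) (u := u) (fun _ => rfl) hu
    (nice_of_continuous (by simpa using re_sq_cont hc))
    (nice_of_continuous (by simpa using im_sq_cont hc))
  simpa using h

theorem LL_pow_pow (a b : ℕ) :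
    LL (fun y : C2 => ‖y 0‖ ^ (2 * a) * ‖y 1‖ ^ (2 * b)) = π ^ 2 / 3 * ∫ w in (0:ℝ)..1, w ^ a * (1 - w) ^ b := by
  apply LL_rad' (h := fun w : ℝ => w ^ a * (1 - w) ^ b) (by fun_prop)
  intro y hy
  have := norm_sq_C2 y
  rw [hy] at this
  have h1 : 1 - ‖y 0‖ ^ 2 = ‖y 1‖ ^ 2 := by linarith
  rw [h1, ← pow_mul, ← pow_mul]

theorem LL_u (m : ℕ) (d : ℂ) (hd : ‖d‖ = 1) :
    LL (fun y : C2 => (y 0 ^ (m + 1) * (d * y 0)).re ^ 2) = π ^ 2 / 3 * (1 / (2 * (m + 3))) := by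
  obtain ⟨c, hc, hc2⟩ := exists_root_I (m + 1)
  rw [LL_half' (T := phaseL hc) (u := fun y : C2 => (y 0 ^ (m + 1) * (d * y 0))) (by fun_prop)]
  · have h1 : LL (fun y : C2 => ‖(y 0 ^ (m + 1) * (d * y 0))‖ ^ 2)
        = LL (fun y : C2 => ‖y 0‖ ^ (2 * (m + 2)) * ‖y 1‖ ^ (2 * 0)) := by
      apply LL_congr
      intro y _
      rw [norm_mul, norm_mul, hd, norm_pow]
      ring
    rw [h1, LL_pow_pow]
    simp only [pow_zero, mul_one]
    rw [integral_pow]
    push_cast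
    simp
    have : (m : ℝ) + 2 + 1 = m + 3 := by ring
    rw [this]
    ring
  · intro y
    left
    rw [phaseL_0]
    calc (c * y 0) ^ (m + 1) * (d * (c * y 0)) = c ^ (m + 1 + 1) * (y 0 ^ (m + 1) * (d * y 0)) := by ring
      _ = _ := by rw [hc2]

theorem LL_w (m : ℕ) (d : ℂ) (hd : ‖d‖ = 1) :
    LL (fun y : C2 => (y 0 ^ (m + 1) * (d * (starRingEnd ℂ) (y 1))).re ^ 2)
      = π ^ 2 / 3 * (1 / (2 * ((m + 2) * (m + 3)))) := by
  obtain ⟨c, hc, hc2⟩ := exists_root_I m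
  rw [LL_half' (T := phaseL hc) (u := fun y : C2 => (y 0 ^ (m + 1) * (d * (starRingEnd ℂ) (y 1))))
    (by have := Complex.continuous_conj; fun_prop)]
  · have h1 : LL (fun y : C2 => ‖(y 0 ^ (m + 1) * (d * (starRingEnd ℂ) (y 1)))‖ ^ 2)
        = LL (fun y : C2 => ‖y 0‖ ^ (2 * (m + 1)) * ‖y 1‖ ^ (2 * 1)) := by
      apply LL_congr
      intro y _
      rw [norm_mul, norm_mul, hd, norm_pow, RCLike.norm_conj]
      ring
    rw [h1, LL_pow_pow]
    have h2 : ∫ w in (0:ℝ)..1, w ^ (m + 1) * (1 - w) ^ 1 = 1 / (((m : ℝ) + 2) * ((m : ℝ) + 3)) := by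
      have h3 : ∀ w : ℝ, w ^ (m + 1) * (1 - w) ^ 1 = w ^ (m + 1) - w ^ (m + 2) := by intro w; ring
      simp only [h3]
      rw [intervalIntegral.integral_sub (by simp) (by simp), integral_pow, integral_pow]
      push_cast
      simp
      field_simp
      ring
    rw [h2]
    field_simp
  · intro y
    left
    rw [phaseL_0, phaseL_1]
    calc (c * y 0) ^ (m + 1) * (d * (starRingEnd ℂ) (y 1))
        = c ^ (m + 1) * (y 0 ^ (m + 1) * (d * (starRingEnd ℂ) (y 1))) := by ring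
      _ = _ := by rw [hc2]

theorem LL_PhiP {j : C2 → C2} (hj : Continuous j) (δ : ℝ) (m : ℕ) {J : ℝ}
    (hJ : LL (fun y : C2 => (y 0 ^ (m + 1) * (j y) 0).re ^ 2) = J) :
    LL (PhiP j δ m) = π ^ 2 / 3 * (1 + δ ^ 2 * (1 / (2 * (m + 3)))) - δ ^ 2 * (m + 2) ^ 2 * J := by
  have hre := Complex.continuous_re
  have cu : Continuous fun y : C2 => (y 0 ^ (m + 2)).re := by fun_prop
  have hj0 : Continuous fun y : C2 => (j y) 0 :=
    (EuclideanSpace.proj (0 : Fin 2) : C2 →L[ℂ] ℂ).continuous.comp hj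
  have cw' : Continuous fun y : C2 => (y 0 ^ (m + 1) * (j y) 0) := by fun_prop
  have cw : Continuous fun y : C2 => (y 0 ^ (m + 1) * (j y) 0).re := hre.comp cw'
  have e : LL (PhiP j δ m) = LL (fun y => (1 + 2 * δ * (y 0 ^ (m + 2)).re
      + δ ^ 2 * (y 0 ^ (m + 1) * (1 * y 0)).re ^ 2)
      + (-(δ ^ 2 * (m + 2) ^ 2)) * (y 0 ^ (m + 1) * (j y) 0).re ^ 2) := by
    apply LL_congr
    intro y _
    unfold PhiP NP
    have e1 : ((m : ℂ) + 2) * y 0 ^ (m + 1) * (j y) 0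
        = ((m + 2 : ℝ) : ℂ) * (y 0 ^ (m + 1) * (j y) 0) := by push_cast; ring
    have e2 : y 0 ^ (m + 1) * (1 * y 0) = y 0 ^ (m + 2) := by ring
    rw [e1, Complex.re_ofReal_mul, e2]
    ring
  have cu' : Continuous fun y : C2 => (y 0 ^ (m + 1) * (1 * y 0)).re := by fun_prop
  have n1 : Nice fun y : C2 => 2 * δ * (y 0 ^ (m + 2)).re := nice_of_continuous (by fun_prop)
  have n2 : Nice fun y : C2 => δ ^ 2 * (y 0 ^ (m + 1) * (1 * y 0)).re ^ 2 :=
    nice_of_continuous (by fun_prop)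
  have n3 : Nice fun y : C2 => (-(δ ^ 2 * (m + 2) ^ 2)) * (y 0 ^ (m + 1) * (j y) 0).re ^ 2 :=
    nice_of_continuous (by fun_prop)
  have n0 : Nice fun _ : C2 => (1 : ℝ) := nice_of_continuous continuous_const
  have n01 : Nice fun y : C2 => 1 + 2 * δ * (y 0 ^ (m + 2)).re := nice_of_continuous (by fun_prop)
  have n012 : Nice fun y : C2 => 1 + 2 * δ * (y 0 ^ (m + 2)).re
      + δ ^ 2 * (y 0 ^ (m + 1) * (1 * y 0)).re ^ 2 := nice_of_continuous (by fun_prop)
  rw [e, LL_add n012 n3, LL_add n01 n2, LL_add n0 n1, LL_smul, LL_smul, LL_smul, LL_one, LL_re, hJ,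
    LL_u m 1 (by simp)]
  ring

theorem jI_cont : Continuous fun y : C2 => Complex.I • y := by fun_prop

theorem jc_cont (c : ℂ) : Continuous fun y : C2 => c • jj y := by
  have h : Continuous fun y : C2 => c • jjL y := by fun_prop
  exact h

/-- `α` of the perturbed ball -/
theorem al_P {δ : ℝ} (hδ : 0 ≤ δ) {m : ℕ} (hδ1 : δ * ((m + 2) ^ 2 + 1) < 1) {K : ConvexBody C2}
    (hK : (K : Set C2) = wulff (NP δ m)) : al K = π * (1 - δ ^ 2 * (m + 1) / 2) := by
  rw [al_pert (R := LinearIsometryEquiv.refl ℝ C2) (j := fun y => Complex.I • y) jI_cont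
    (fun x => rfl) hδ hδ1 hK (by simp)]
  have h1 : LL (fun y : C2 => (y 0 ^ (m + 1) * (Complex.I • y) 0).re ^ 2)
      = π ^ 2 / 3 * (1 / (2 * (m + 3))) := LL_u m Complex.I (by simp)
  rw [LL_PhiP jI_cont δ m h1]
  have hpi := Real.pi_pos
  have : (m : ℝ) + 3 ≠ 0 := by positivity
  field_simp
  ring

/-- `α_L` of the perturbed ball -/
theorem alL_P {δ : ℝ} (hδ : 0 ≤ δ) {m : ℕ} (hδ1 : δ * ((m + 2) ^ 2 + 1) < 1) {K : ConvexBody C2}
    (hK : (K : Set C2) = wulff (NP δ m)) : alL K = π * (1 - δ ^ 2 * (m + 1) / (2 * (m + 3))) := by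
  have hpi := Real.pi_pos
  have h1 : ∀ φ : ℝ, al (mapBody (Rl (cis φ)) K) = π * (1 - δ ^ 2 * (m + 1) / (2 * (m + 3))) := by
    intro φ
    rw [al_pert (R := RlI (norm_cis φ)) (j := fun y => cis φ • jj y) (jc_cont _)
      (fun x => RlI_symm_I (norm_cis φ) x) hδ hδ1 hK (RlI_image (norm_cis φ) K)]
    have h1 : LL (fun y : C2 => (y 0 ^ (m + 1) * (cis φ • jj y) 0).re ^ 2)
        = π ^ 2 / 3 * (1 / (2 * ((m + 2) * (m + 3)))) := by
      have e : ∀ y : C2, (cis φ • jj y) 0 = (-cis φ) * (starRingEnd ℂ) (y 1) := by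
        intro y
        simp [jj]
      simp only [e]
      exact LL_w m (-cis φ) (by rw [norm_neg, norm_cis])
    rw [LL_PhiP (jc_cont _) δ m h1]
    have : (m : ℝ) + 3 ≠ 0 := by positivity
    have : (m : ℝ) + 2 ≠ 0 := by positivity
    field_simp
    ring
  unfold alL
  simp only [h1]
  rw [intervalIntegral.integral_const, sub_zero, smul_eq_mul]
  field_simp

end Run7.h549
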