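import Pool.Agent.Run7.h549.Iface

open MeasureTheory Set Filter Topology
open scoped ENNReal Real

namespace Run7.h549

/-- vertical section -/
def sec (P : Set ℂ) (s : ℝ) : Set ℝ := {t | (s : ℂ) + (t : ℂ) * Complex.I ∈ P}

theorem sec_compact {P : Set ℂ} (hP : IsCompact P) (s : ℝ) : IsCompact (sec P s) := by
  obtain ⟨R, hR⟩ := hP.isBounded.subset_closedBall (0 : ℂ)
  apply Metric.isCompact_of_isClosed_isBounded
  · exact hP.isClosed.preimage (by fun_prop)
  · apply (Metric.isBounded_closedBall (x := (0:ℝ)) (r := R)).subset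
    intro t ht
    have h1 := hR ht
    rw [mem_closedBall_zero_iff] at h1 ⊢
    have h2 := Complex.abs_im_le_norm ((s : ℂ) + (t : ℂ) * Complex.I)
    simp at h2
    rw [Real.norm_eq_abs]
    linarith

theorem mem_of_re_im {P : Set ℂ} {z : ℂ} : z ∈ P ↔ z.im ∈ sec P z.re := by
  unfold sec
  simp only [mem_ofPred_eq, Complex.re_add_im]

noncomputable def Uf (P : Set ℂ) (s : ℝ) : ℝ := sSup (sec P s)
noncomputable def Lf (P : Set ℂ) (s : ℝ) : ℝ := sInf (sec P s)

theorem sec_nonempty {P : Set ℂ} {s : ℝ} (hs : s ∈ Complex.re '' P) : (sec P s).Nonempty := by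
  obtain ⟨z, hz, rfl⟩ := hs
  exact ⟨z.im, mem_of_re_im.1 hz⟩

theorem Uf_mem {P : Set ℂ} (hP : IsCompact P) {s : ℝ} (hs : s ∈ Complex.re '' P) :
    Uf P s ∈ sec P s := (sec_compact hP s).sSup_mem (sec_nonempty hs)

theorem Lf_mem {P : Set ℂ} (hP : IsCompact P) {s : ℝ} (hs : s ∈ Complex.re '' P) :
    Lf P s ∈ sec P s := (sec_compact hP s).sInf_mem (sec_nonempty hs)

theorem le_Uf {P : Set ℂ} (hP : IsCompact P) {s t : ℝ} (ht : t ∈ sec P s) : t ≤ Uf P s :=
  le_csSup (sec_compact hP s).bddAbove ht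

theorem Lf_le {P : Set ℂ} (hP : IsCompact P) {s t : ℝ} (ht : t ∈ sec P s) : Lf P s ≤ t :=
  csInf_le (sec_compact hP s).bddBelow ht

theorem sec_comb {P : Set ℂ} (hc : Convex ℝ P) {s s' t t' a b : ℝ} (ht : t ∈ sec P s)
    (ht' : t' ∈ sec P s') (ha : 0 ≤ a) (hb : 0 ≤ b) (hab : a + b = 1) :
    a * t + b * t' ∈ sec P (a * s + b * s') := by
  have h := hc ht ht' ha hb hab
  unfold sec
  simp only [mem_ofPred_eq]
  convert h using 1
  simp only [Complex.real_smul]
  push_cast
  ring

theorem re_image_convex {P : Set ℂ} (hc : Convex ℝ P) : Convex ℝ (Complex.re '' P) :=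
  hc.linear_image Complex.reLm

theorem Uf_concave {P : Set ℂ} (hP : IsCompact P) (hc : Convex ℝ P) :
    ConcaveOn ℝ (Complex.re '' P) (Uf P) := by
  refine ⟨re_image_convex hc, ?_⟩
  intro s hs s' hs' a b ha hb hab
  exact le_Uf hP (sec_comb hc (Uf_mem hP hs) (Uf_mem hP hs') ha hb hab)

theorem Lf_convex {P : Set ℂ} (hP : IsCompact P) (hc : Convex ℝ P) :
    ConvexOn ℝ (Complex.re '' P) (Lf P) := by
  refine ⟨re_image_convex hc, ?_⟩
  intro s hs s' hs' a b ha hb hab
  exact Lf_le hP (sec_comb hc (Lf_mem hP hs) (Lf_mem hP hs') ha hb hab)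

/-- the geometry of the vertical sections -/
theorem sections {P : Set ℂ} (hP : IsCompact P) (hc : Convex ℝ P) (hi : (interior P).Nonempty) :
    ∃ (α β R : ℝ) (L U : ℝ → ℝ), α < β ∧ ContinuousOn L (Ioo α β) ∧ ContinuousOn U (Ioo α β) ∧
      (∀ s ∈ Ioo α β, L s < U s) ∧ (∀ s ∈ Ioo α β, |L s| ≤ R ∧ |U s| ≤ R) ∧
      (∀ z ∈ interior P, z.re ∈ Ioo α β ∧ L z.re ≤ z.im ∧ z.im ≤ U z.re) ∧
      (∀ s ∈ Ioo α β, ∀ t, L s ≤ t → t ≤ U s → (s : ℂ) + (t : ℂ) * Complex.I ∈ P) := by
  obtain ⟨z₀, hz₀⟩ := hi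
  have hPne : P.Nonempty := ⟨z₀, interior_subset hz₀⟩
  have hcomp : IsCompact (Complex.re '' P) := hP.image Complex.continuous_re
  have hconv : Convex ℝ (Complex.re '' P) := re_image_convex hc
  have hconn : IsConnected (Complex.re '' P) := ⟨hPne.image _, hconv.isPreconnected⟩
  have hIcc := eq_Icc_of_connected_compact hconn hcomp
  set α := sInf (Complex.re '' P) with hα
  set β := sSup (Complex.re '' P) with hβ
  have hint : ∀ z ∈ interior P, z.re ∈ Ioo α β := by
    intro z hz
    have h1 : Complex.re '' interior P ⊆ interior (Complex.re '' P) :=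
      interior_maximal (image_mono interior_subset) (Complex.isOpenMap_re _ isOpen_interior)
    have h2 := h1 (mem_image_of_mem _ hz)
    rw [hIcc, interior_Icc] at h2
    exact h2
  have hαβ : α < β := by have := hint z₀ hz₀; exact this.1.trans this.2
  have hsub : Ioo α β ⊆ Complex.re '' P := by rw [hIcc]; exact Ioo_subset_Icc_self
  have hαm : α ∈ Complex.re '' P := by rw [hIcc]; exact left_mem_Icc.2 hαβ.le
  have hβm : β ∈ Complex.re '' P := by rw [hIcc]; exact right_mem_Icc.2 hαβ.le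
  obtain ⟨R, hR⟩ := hP.isBounded.subset_closedBall (0 : ℂ)
  have hbd : ∀ s t, t ∈ sec P s → |t| ≤ R := by
    intro s t ht
    have h1 := hR ht
    rw [mem_closedBall_zero_iff] at h1
    have h2 := Complex.abs_im_le_norm ((s : ℂ) + (t : ℂ) * Complex.I)
    simp at h2
    linarith
  -- strict inequality at the base point
  have hbase : Lf P z₀.re < Uf P z₀.re := by
    obtain ⟨ε, hε, hball⟩ := Metric.isOpen_iff.1 isOpen_interior z₀ hz₀
    have h1 : z₀.im + ε / 2 ∈ sec P z₀.re := by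
      show (z₀.re : ℂ) + ((z₀.im + ε / 2 : ℝ) : ℂ) * Complex.I ∈ P
      apply interior_subset
      apply hball
      rw [mem_ball_iff_norm]
      have : (z₀.re : ℂ) + ((z₀.im + ε / 2 : ℝ) : ℂ) * Complex.I - z₀ = ((ε / 2 : ℝ) : ℂ) * Complex.I := by
        apply Complex.ext <;> simp
      rw [this, norm_mul, Complex.norm_I, Complex.norm_real, Real.norm_eq_abs, abs_of_pos (by positivity)]
      linarith
    have h2 : z₀.im ∈ sec P z₀.re := mem_of_re_im.1 (interior_subset hz₀)
    have h3 := Lf_le hP h2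
    have h4 := le_Uf hP h1
    linarith
  have hcomb : ∀ e ∈ Complex.re '' P, ∀ a b : ℝ, 0 ≤ a → 0 < b → a + b = 1 →
      Lf P (a * e + b * z₀.re) < Uf P (a * e + b * z₀.re) := by
    intro e he a b ha hb hab
    have hz : z₀.re ∈ Complex.re '' P := mem_image_of_mem _ (interior_subset hz₀)
    have h1 := Lf_le hP (sec_comb hc (Lf_mem hP he) (Lf_mem hP hz) ha hb.le hab)
    have h2 := le_Uf hP (sec_comb hc (Uf_mem hP he) (Uf_mem hP hz) ha hb.le hab)
    have h3 : Lf P e ≤ Uf P e := Lf_le hP (Uf_mem hP he)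
    have h4 := mul_le_mul_of_nonneg_left h3 ha
    have h5 := mul_lt_mul_of_pos_left hbase hb
    linarith
  refine ⟨α, β, R, Lf P, Uf P, hαβ, ?_, ?_, ?_, ?_, ?_, ?_⟩
  · exact ((Lf_convex hP hc).subset hsub (convex_Ioo α β)).continuousOn isOpen_Ioo
  · exact ((Uf_concave hP hc).subset hsub (convex_Ioo α β)).continuousOn isOpen_Ioo
  · intro s hs
    have hz := hint z₀ hz₀
    rcases le_total s z₀.re with h | h
    · have hd : 0 < z₀.re - α := by linarith [hz.1]
      have := hcomb α hαm ((z₀.re - s) / (z₀.re - α)) ((s - α) / (z₀.re - α))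
        (div_nonneg (by linarith) hd.le) (div_pos (by linarith [hs.1]) hd) (by field_simp; ring)
      have e : (z₀.re - s) / (z₀.re - α) * α + (s - α) / (z₀.re - α) * z₀.re = s := by
        field_simp; ring
      rwa [e] at this
    · have hd : 0 < β - z₀.re := by linarith [hz.2]
      have := hcomb β hβm ((s - z₀.re) / (β - z₀.re)) ((β - s) / (β - z₀.re))
        (div_nonneg (by linarith) hd.le) (div_pos (by linarith [hs.2]) hd) (by field_simp; ring)
      have e : (s - z₀.re) / (β - z₀.re) * β + (β - s) / (β - z₀.re) * z₀.re = s := by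
        field_simp; ring
      rwa [e] at this
  · intro s hs
    exact ⟨hbd s _ (Lf_mem hP (hsub hs)), hbd s _ (Uf_mem hP (hsub hs))⟩
  · intro z hz
    have h2 : z.im ∈ sec P z.re := mem_of_re_im.1 (interior_subset hz)
    exact ⟨hint z hz, Lf_le hP h2, le_Uf hP h2⟩
  · intro s hs t h1 h2
    have hL := Lf_mem hP (hsub hs)
    have hU := Uf_mem hP (hsub hs)
    have hconvs : Convex ℝ (sec P s) := by
      intro x hx y hy a b ha hb hab
      have := sec_comb hc hx hy ha hb hab
      have e : a * s + b * s = s := by rw [← add_mul, hab, one_mul]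
      rw [e] at this
      exact this
    have := hconvs.ordConnected.out hL hU ⟨h1, h2⟩
    exact this

end Run7.h549
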