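import Pool.Agent.Run7.h549.Knothe
import Pool.Agent.Run7.h549.Sect

open MeasureTheory Set Filter Topology
open scoped ENNReal Real

namespace Run7.h549

variable {α β R : ℝ} {L U : ℝ → ℝ}

noncomputable def rr (α β : ℝ) (L U : ℝ → ℝ) : ℝ := √(FF α β L U β / π)

theorem rr_sq (h : SD α β R L U) : rr α β L U ^ 2 = FF α β L U β / π :=
  Real.sq_sqrt (div_nonneg (area_pos h).le Real.pi_pos.le)

theorem rr_pos (h : SD α β R L U) : 0 < rr α β L U :=
  Real.sqrt_pos.2 (div_pos (area_pos h) Real.pi_pos)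

/-- first component of Knothe's map -/
noncomputable def G1 (α β : ℝ) (L U : ℝ → ℝ) (z : ℂ) : ℝ := rr α β L U * QQ α β L U z.re
noncomputable def H1 (α β : ℝ) (L U : ℝ → ℝ) (z : ℂ) : ℝ := rr α β L U * QQ1 α β L U z.re
/-- second component -/
noncomputable def H2 (α β : ℝ) (L U : ℝ → ℝ) (z : ℂ) : ℝ := (rr α β L U * QQ1 α β L U z.re)⁻¹
noncomputable def G2 (α β : ℝ) (L U : ℝ → ℝ) (z : ℂ) : ℝ :=
  (rr α β L U * QQ1 α β L U z.re)⁻¹ * (z.im - (L z.re + U z.re) / 2)

theorem H2_eq (h : SD α β R L U) {s : ℝ} (hs : s ∈ Ioo α β) :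
    (rr α β L U * QQ1 α β L U s)⁻¹ = 2 * rr α β L U * et α β L U s / (U s - L s) := by
  have h1 := rr_pos h
  have h2 := et_pos h hs
  have h3 := lam_pos h hs
  have h4 := area_pos h
  have h5 := rr_sq h
  have h6 : FF α β L U β = rr α β L U ^ 2 * π := by
    rw [h5]; field_simp
  rw [lam_eq hs] at h3
  unfold QQ1
  rw [lam_eq hs, h6]
  field_simp

theorem G2_abs (h : SD α β R L U) {z : ℂ} (hs : z.re ∈ Ioo α β) (h1 : L z.re ≤ z.im)
    (h2 : z.im ≤ U z.re) : |G2 α β L U z| ≤ rr α β L U := by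
  have hr := rr_pos h
  have he := et_pos h hs
  have he1 := et_le_one (α := α) (β := β) (L := L) (U := U) z.re
  have h3 := lam_pos h hs
  rw [lam_eq hs] at h3
  unfold G2
  rw [H2_eq h hs, abs_mul, abs_of_pos (by positivity)]
  have h4 : |z.im - (L z.re + U z.re) / 2| ≤ (U z.re - L z.re) / 2 := by
    rw [abs_le]; constructor <;> linarith
  calc 2 * rr α β L U * et α β L U z.re / (U z.re - L z.re) * |z.im - (L z.re + U z.re) / 2|
      ≤ 2 * rr α β L U * et α β L U z.re / (U z.re - L z.re) * ((U z.re - L z.re) / 2) := by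
        gcongr
    _ = rr α β L U * et α β L U z.re := by field_simp
    _ ≤ rr α β L U * 1 := by gcongr
    _ = rr α β L U := mul_one _

theorem G1_abs (h : SD α β R L U) {z : ℂ} (hs : z.re ∈ Ioo α β) :
    |G1 α β L U z| ≤ rr α β L U := by
  have hr := rr_pos h
  obtain ⟨h1, h2⟩ := QQ_mem h hs
  unfold G1
  rw [abs_mul, abs_of_pos hr]
  have : |QQ α β L U z.re| ≤ 1 := abs_le.2 ⟨h1.le, h2.le⟩
  nlinarith

theorem G1_contAt (h : SD α β R L U) (z : ℂ) : ContinuousAt (G1 α β L U) z := by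
  unfold G1
  exact (continuous_const.mul ((QQ_cont h).comp Complex.continuous_re)).continuousAt

theorem H1_contAt (h : SD α β R L U) {z : ℂ} (hs : z.re ∈ Ioo α β) :
    ContinuousAt (H1 α β L U) z := by
  unfold H1
  apply ContinuousAt.mul continuousAt_const
  exact ContinuousAt.comp (g := QQ1 α β L U) (QQ1_contAt h hs) Complex.continuous_re.continuousAt

theorem H2_contAt (h : SD α β R L U) {z : ℂ} (hs : z.re ∈ Ioo α β) :
    ContinuousAt (H2 α β L U) z := by
  have := H1_contAt h hs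
  have hne : H1 α β L U z ≠ 0 := by
    unfold H1
    exact (mul_pos (rr_pos h) (QQ1_pos h hs)).ne'
  exact this.inv₀ hne

theorem G2_contAt (h : SD α β R L U) {z : ℂ} (hs : z.re ∈ Ioo α β) :
    ContinuousAt (G2 α β L U) z := by
  have h1 := H2_contAt h hs
  have hL : ContinuousAt (fun z : ℂ => L z.re) z :=
    ContinuousAt.comp (g := L) (h.cL.continuousAt (isOpen_Ioo.mem_nhds hs))
      Complex.continuous_re.continuousAt
  have hU : ContinuousAt (fun z : ℂ => U z.re) z :=
    ContinuousAt.comp (g := U) (h.cU.continuousAt (isOpen_Ioo.mem_nhds hs))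
      Complex.continuous_re.continuousAt
  unfold G2
  apply ContinuousAt.mul h1
  exact Complex.continuous_im.continuousAt.sub ((hL.add hU).div_const 2)

theorem G1_line (h : SD α β R L U) {z : ℂ} (hs : z.re ∈ Ioo α β) :
    HasLineDerivAt ℝ (G1 α β L U) (H1 α β L U z) z 1 := by
  unfold HasLineDerivAt G1 H1
  apply HasDerivAt.const_mul
  have h1 : HasDerivAt (QQ α β L U) (QQ1 α β L U z.re) (z.re + 0) := by
    rw [add_zero]; exact QQ_deriv h hs
  have h2 := h1.comp_const_add z.re 0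
  refine h2.congr_of_eventuallyEq (Eventually.of_forall fun t => ?_)
  simp

theorem G2_line (z : ℂ) : HasLineDerivAt ℝ (G2 α β L U) (H2 α β L U z) z Complex.I := by
  unfold HasLineDerivAt G2 H2
  have h1 : HasDerivAt (fun t : ℝ => (rr α β L U * QQ1 α β L U z.re)⁻¹ *
      (z.im + t - (L z.re + U z.re) / 2)) ((rr α β L U * QQ1 α β L U z.re)⁻¹ * 1) 0 := by
    apply HasDerivAt.const_mul
    exact ((hasDerivAt_id 0).const_add z.im).sub_const _
  rw [mul_one] at h1
  refine h1.congr_of_eventuallyEq (Eventually.of_forall fun t => ?_)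
  simp

end Run7.h549
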