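import Pool.Agent.Run7.h549.Planar

open MeasureTheory Set Filter Topology
open scoped ENNReal Real

namespace Run7.h549

variable {α β R : ℝ} {L U : ℝ → ℝ}

noncomputable def HH (α β : ℝ) (L U : ℝ → ℝ) (z : ℂ) : ℝ := G1 α β L U z ^ 2 + G2 α β L U z ^ 2

theorem HH_integrableOn (h : SD α β R L U) {O : Set ℂ} (hO : IsOpen O) (hfin : volume O < ∞)
    (hsub : ∀ z ∈ O, z.re ∈ Ioo α β ∧ L z.re ≤ z.im ∧ z.im ≤ U z.re) :
    IntegrableOn (HH α β L U) O := by
  refine IntegrableOn.of_bound hfin ?_ (2 * rr α β L U ^ 2) ?_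
  · apply ContinuousOn.aestronglyMeasurable _ hO.measurableSet
    intro z hz
    have := hsub z hz
    exact (((G1_contAt h z).pow 2).add ((G2_contAt h this.1).pow 2)).continuousWithinAt
  · filter_upwards [ae_restrict_mem hO.measurableSet] with z hz
    obtain ⟨h1, h2, h3⟩ := hsub z hz
    have e1 := G1_abs h h1
    have e2 := G2_abs h h1 h2 h3
    have e3 := sq_le_sq.2 (show |G1 α β L U z| ≤ |rr α β L U| by rwa [abs_of_pos (rr_pos h)])
    have e4 := sq_le_sq.2 (show |G2 α β L U z| ≤ |rr α β L U| by rwa [abs_of_pos (rr_pos h)])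
    unfold HH
    rw [Real.norm_eq_abs, abs_of_nonneg (by positivity)]
    linarith

theorem inner_int (h : SD α β R L U) {s : ℝ} (hs : s ∈ Ioo α β) :
    ∫ t in (L s)..(U s), HH α β L U ⟨s, t⟩
      = (FF α β L U β / π) * (QQ α β L U s ^ 2 + et α β L U s ^ 2 / 3) * lam α β L U s := by
  have h3 := lam_pos h hs
  rw [lam_eq hs] at h3
  set b := (rr α β L U * QQ1 α β L U s)⁻¹ with hb
  have e : ∀ t, HH α β L U ⟨s, t⟩ = rr α β L U ^ 2 * QQ α β L U s ^ 2
      + b ^ 2 * (t - (L s + U s) / 2) ^ 2 := by
    intro t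
    unfold HH G1 G2
    simp only [← hb]
    ring
  simp only [e]
  rw [intervalIntegral.integral_add (by simp) (by
    apply Continuous.intervalIntegrable; fun_prop)]
  have e2 : ∫ t in (L s)..(U s), b ^ 2 * (t - (L s + U s) / 2) ^ 2 = b ^ 2 * ((U s - L s) ^ 3 / 12) := by
    rw [intervalIntegral.integral_const_mul,
      intervalIntegral.integral_comp_sub_right (fun t => t ^ 2), integral_pow]
    ring
  rw [e2, intervalIntegral.integral_const]
  have hb2 : b = 2 * rr α β L U * et α β L U s / (U s - L s) := H2_eq h hs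
  rw [hb2, ← rr_sq h, lam_eq hs, smul_eq_mul]
  field_simp
  ring

theorem HH_energy (h : SD α β R L U) {O : Set ℂ} (hO : IsOpen O) (hfin : volume O < ∞)
    (hsub : ∀ z ∈ O, z.re ∈ Ioo α β ∧ L z.re ≤ z.im ∧ z.im ≤ U z.re) :
    ∫ z in O, HH α β L U z ≤ FF α β L U β ^ 2 / (2 * π) := by
  have hint := HH_integrableOn h hO hfin hsub
  rw [← integral_indicator hO.measurableSet]
  have hint2 : Integrable (O.indicator (HH α β L U)) := (integrable_indicator_iff hO.measurableSet).2 hint
  have mp := Complex.volume_preserving_equiv_real_prod.symm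
  have e1 : ∫ z, O.indicator (HH α β L U) z
      = ∫ q : ℝ × ℝ, O.indicator (HH α β L U) (Complex.measurableEquivRealProd.symm q) :=
    (mp.integral_comp' _).symm
  have hint3 : Integrable (fun q : ℝ × ℝ => O.indicator (HH α β L U)
      (Complex.measurableEquivRealProd.symm q)) (volume.prod volume) :=
    mp.integrable_comp_of_integrable hint2
  rw [e1, Measure.volume_eq_prod, integral_prod _ hint3]
  rw [← knothe_energy h, intervalIntegral.integral_of_le h.lt.le, integral_Ioc_eq_integral_Ioo,
    ← integral_indicator measurableSet_Ioo]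
  set K : ℝ → ℝ := (Ioo α β).indicator (fun s => (FF α β L U β / π) *
    (QQ α β L U s ^ 2 + et α β L U s ^ 2 / 3) * lam α β L U s) with hK
  have hKint : Integrable K := by
    rw [hK, integrable_indicator_iff measurableSet_Ioo]
    have hc : Continuous (fun s => (FF α β L U β / π) * (QQ α β L U s ^ 2 + et α β L U s ^ 2 / 3)) := by
      have h2 := QQ_cont h
      have h3 := et_cont h
      fun_prop
    have := ((lam_int h).integrableOn (s := Icc α β)).continuousOn_mul hc.continuousOn isCompact_Icc
    exact this.mono_set Ioo_subset_Icc_self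
  have hnn : ∀ z, 0 ≤ O.indicator (HH α β L U) z := fun z =>
    indicator_nonneg (fun z _ => by unfold HH; positivity) z
  apply integral_mono_of_nonneg (Eventually.of_forall fun s => integral_nonneg fun t => hnn _) hKint
  apply Eventually.of_forall
  intro s
  simp only
  by_cases hs : s ∈ Ioo α β
  · rw [hK, indicator_of_mem hs, ← inner_int h hs]
    have hLU := (h.pos s hs).le
    rw [intervalIntegral.integral_of_le hLU, ← integral_Icc_eq_integral_Ioc,
      ← integral_indicator measurableSet_Icc]
    apply integral_mono_of_nonneg (Eventually.of_forall fun t => hnn _)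
    · rw [integrable_indicator_iff measurableSet_Icc]
      apply ContinuousOn.integrableOn_compact isCompact_Icc
      unfold HH G1 G2
      apply Continuous.continuousOn
      show Continuous fun t : ℝ => (rr α β L U * QQ α β L U s) ^ 2 +
        ((rr α β L U * QQ1 α β L U s)⁻¹ * (t - (L s + U s) / 2)) ^ 2
      fun_prop
    · apply Eventually.of_forall
      intro t
      simp only [Complex.measurableEquivRealProd_symm_apply]
      by_cases ht : (⟨s, t⟩ : ℂ) ∈ O
      · rw [indicator_of_mem ht, indicator_of_mem (show t ∈ Icc (L s) (U s) from (hsub _ ht).2)]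
      · rw [indicator_of_notMem ht]
        exact indicator_nonneg (fun z _ => by unfold HH; positivity) t
  · rw [hK, indicator_of_notMem hs]
    have : ∀ t : ℝ, O.indicator (HH α β L U) (Complex.measurableEquivRealProd.symm (s, t)) = 0 := by
      intro t
      apply indicator_of_notMem
      intro ht
      exact hs (hsub _ ht).1
    simp only [this, integral_zero, le_refl]

theorem mul_ibp {φ ψ G H : ℂ → ℝ} {O : Set ℂ} {v : ℂ} (cφ : Continuous φ) (cψ : Continuous ψ)
    (hc : HasCompactSupport φ) (ts : tsupport φ ⊆ O) (ts' : tsupport ψ ⊆ tsupport φ)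
    (hd : ∀ z, HasLineDerivAt ℝ φ (ψ z) z v) (cG : ∀ z ∈ O, ContinuousAt G z)
    (cH : ∀ z ∈ O, ContinuousAt H z) (hG : ∀ z ∈ O, HasLineDerivAt ℝ G (H z) z v) :
    Integrable (fun z => ψ z * G z) ∧ Integrable (fun z => φ z * H z) ∧
      ∫ z, φ z * H z = - ∫ z, ψ z * G z := by
  have i1 : ∀ {χ K : ℂ → ℝ}, Continuous χ → tsupport χ ⊆ tsupport φ → (∀ z ∈ O, ContinuousAt K z) →
      Integrable (fun z => χ z * K z) := by
    intro χ K c1 c2 c3
    apply Continuous.integrable_of_hasCompactSupport
    · apply continuous_of_tsupport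
      intro z hz
      have hz2 := ts (c2 (tsupport_mul_subset_left hz))
      exact c1.continuousAt.mul (c3 z hz2)
    · have : HasCompactSupport χ := hc.of_isClosed_subset (isClosed_tsupport _) c2
      exact this.mul_right
  have a1 := i1 cψ ts' cG
  have a2 := i1 cφ subset_rfl cH
  have a3 := i1 cφ subset_rfl cG
  refine ⟨a1, a2, ?_⟩
  exact integral_bilinear_hasLineDerivAt_right_eq_neg_left_of_integrable
    (B := ContinuousLinearMap.mul ℝ ℝ) a1 a2 a3 (fun z _ => hd z) (fun z hz => hG z (ts hz))

theorem line_tsupport {φ ψ : ℂ → ℝ} {v : ℂ} (hd : ∀ z, HasLineDerivAt ℝ φ (ψ z) z v) :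
    tsupport ψ ⊆ tsupport φ := by
  apply closure_minimal _ (isClosed_tsupport φ)
  intro z hz
  by_contra hne
  apply hz
  have h1 : φ =ᶠ[𝓝 z] 0 := notMem_tsupport_iff_eventuallyEq.1 hne
  have h2 : HasLineDerivAt ℝ (0 : ℂ → ℝ) (ψ z) z v := (hd z).congr_of_eventuallyEq h1.symm
  have h3 : HasLineDerivAt ℝ (0 : ℂ → ℝ) 0 z v := hasDerivAt_const _ _
  exact h2.unique h3

end Run7.h549
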