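import Pool.Agent.Run7.h549.Planar2

set_option maxHeartbeats 400000
open MeasureTheory Set Filter Topology
open scoped ENNReal Real

namespace Run7.h549

variable {α β R : ℝ} {L U : ℝ → ℝ}

theorem planar_core (h : SD α β R L U) {O : Set ℂ} (hO : IsOpen O) (hfin : volume O < ∞)
    (hsub : ∀ z ∈ O, z.re ∈ Ioo α β ∧ L z.re ≤ z.im ∧ z.im ≤ U z.re)
    {φ ψ₁ ψ₂ : ℂ → ℝ} (cφ : Continuous φ) (c1 : Continuous ψ₁) (c2 : Continuous ψ₂)
    (hc : HasCompactSupport φ) (hn : ∀ p, 0 ≤ φ p) (ts : tsupport φ ⊆ O)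
    (d1 : ∀ z, HasLineDerivAt ℝ φ (ψ₁ z) z 1) (d2 : ∀ z, HasLineDerivAt ℝ φ (ψ₂ z) z Complex.I) :
    8 * π * (∫ p, φ p) ^ 2 ≤ FF α β L U β ^ 2 * ∫ p, (ψ₁ p ^ 2 + ψ₂ p ^ 2) := by
  have t1 := line_tsupport d1
  have t2 := line_tsupport d2
  obtain ⟨i1, j1, k1⟩ := mul_ibp cφ c1 hc ts t1 d1 (fun z _ => G1_contAt h z)
    (fun z hz => H1_contAt h (hsub z hz).1) (fun z hz => G1_line h (hsub z hz).1)
  obtain ⟨i2, j2, k2⟩ := mul_ibp cφ c2 hc ts t2 d2 (fun z hz => G2_contAt h (hsub z hz).1)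
    (fun z hz => H2_contAt h (hsub z hz).1) (fun z _ => G2_line z)
  have hint := HH_integrableOn h hO hfin hsub
  have hE := HH_energy h hO hfin hsub
  have hint2 : Integrable (O.indicator (HH α β L U)) := (integrable_indicator_iff hO.measurableSet).2 hint
  have iφ : Integrable φ := cφ.integrable_of_hasCompactSupport hc
  have s1 : HasCompactSupport ψ₁ := hc.of_isClosed_subset (isClosed_tsupport _) t1
  have s2 : HasCompactSupport ψ₂ := hc.of_isClosed_subset (isClosed_tsupport _) t2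
  have q1 : Integrable (fun p => ψ₁ p ^ 2) := by
    apply Continuous.integrable_of_hasCompactSupport (by fun_prop)
    exact s1.comp_left (g := fun x : ℝ => x ^ 2) (by simp)
  have q2 : Integrable (fun p => ψ₂ p ^ 2) := by
    apply Continuous.integrable_of_hasCompactSupport (by fun_prop)
    exact s2.comp_left (g := fun x : ℝ => x ^ 2) (by simp)
  have q : Integrable (fun p => ψ₁ p ^ 2 + ψ₂ p ^ 2) := q1.add q2
  set I := ∫ p, φ p with hI
  set E := ∫ p, (ψ₁ p ^ 2 + ψ₂ p ^ 2) with hEdef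
  set a := FF α β L U β with ha
  have hI0 : 0 ≤ I := integral_nonneg hn
  have hE0 : 0 ≤ E := integral_nonneg fun p => by positivity
  have ha0 : 0 < a := area_pos h
  -- the linearised inequality
  have key : ∀ l : ℝ, 0 < l → 2 * I ≤ l / 2 * E + (2 * l)⁻¹ * (a ^ 2 / (2 * π)) := by
    intro l hl
    have p1 : ∀ z, 2 * φ z ≤ φ z * H1 α β L U z + φ z * H2 α β L U z := by
      intro z
      by_cases hz : z ∈ O
      · have e1 : 0 < H1 α β L U z := mul_pos (rr_pos h) (QQ1_pos h (hsub z hz).1)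
        have e2 : H2 α β L U z = (H1 α β L U z)⁻¹ := rfl
        have e3 : 2 ≤ H1 α β L U z + (H1 α β L U z)⁻¹ := by
          have : H1 α β L U z + (H1 α β L U z)⁻¹ - 2 = (H1 α β L U z - 1) ^ 2 / H1 α β L U z := by
            field_simp; ring
          have : 0 ≤ (H1 α β L U z - 1) ^ 2 / H1 α β L U z := by positivity
          linarith
        rw [e2, ← mul_add]
        nlinarith [hn z]
      · have : φ z = 0 := by
          by_contra h0
          exact hz (ts (subset_tsupport φ h0))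
        simp [this]
    have p2 : 2 * I ≤ ∫ z, (φ z * H1 α β L U z + φ z * H2 α β L U z) := by
      rw [hI, ← integral_const_mul]
      exact integral_mono (iφ.const_mul 2) (j1.add j2) p1
    rw [integral_add j1 j2, k1, k2, ← neg_add, ← integral_add i1 i2, ← integral_neg] at p2
    have p3 : ∀ z, -(ψ₁ z * G1 α β L U z + ψ₂ z * G2 α β L U z)
        ≤ l / 2 * (ψ₁ z ^ 2 + ψ₂ z ^ 2) + (2 * l)⁻¹ * O.indicator (HH α β L U) z := by
      intro z
      by_cases hz : z ∈ O
      · rw [indicator_of_mem hz]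
        unfold HH
        have : l / 2 * (ψ₁ z ^ 2 + ψ₂ z ^ 2) + (2 * l)⁻¹ * (G1 α β L U z ^ 2 + G2 α β L U z ^ 2)
            + (ψ₁ z * G1 α β L U z + ψ₂ z * G2 α β L U z)
            = (2 * l)⁻¹ * ((l * ψ₁ z + G1 α β L U z) ^ 2 + (l * ψ₂ z + G2 α β L U z) ^ 2) := by
          field_simp; ring
        have h0 : 0 ≤ (2 * l)⁻¹ * ((l * ψ₁ z + G1 α β L U z) ^ 2 + (l * ψ₂ z + G2 α β L U z) ^ 2) := by
          positivity
        linarith
      · have e1 : ψ₁ z = 0 := by
          by_contra h0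
          exact hz (ts (t1 (subset_tsupport ψ₁ h0)))
        have e2 : ψ₂ z = 0 := by
          by_contra h0
          exact hz (ts (t2 (subset_tsupport ψ₂ h0)))
        rw [indicator_of_notMem hz, e1, e2]
        simp
    have p4 : ∫ z, -(ψ₁ z * G1 α β L U z + ψ₂ z * G2 α β L U z)
        ≤ ∫ z, (l / 2 * (ψ₁ z ^ 2 + ψ₂ z ^ 2) + (2 * l)⁻¹ * O.indicator (HH α β L U) z) :=
      integral_mono (i1.add i2).neg ((q.const_mul _).add (hint2.const_mul _)) p3
    rw [integral_add (q.const_mul _) (hint2.const_mul _), integral_const_mul, integral_const_mul,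
      integral_indicator hO.measurableSet] at p4
    have p5 : (2 * l)⁻¹ * ∫ z in O, HH α β L U z ≤ (2 * l)⁻¹ * (a ^ 2 / (2 * π)) :=
      mul_le_mul_of_nonneg_left hE (by positivity)
    linarith
  rcases hI0.eq_or_lt with h0 | hpos
  · rw [← h0]
    simp
    positivity
  · have hpi := Real.pi_pos
    have h1 := key (a ^ 2 / (2 * π) / (2 * I)) (by positivity)
    have e1 : (2 * (a ^ 2 / (2 * π) / (2 * I)))⁻¹ * (a ^ 2 / (2 * π)) = I := by
      field_simp
    rw [e1] at h1
    have h2 : I ≤ a ^ 2 / (2 * π) / (2 * I) / 2 * E := by linarith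
    have h3 : I * (8 * π * I) ≤ a ^ 2 / (2 * π) / (2 * I) / 2 * E * (8 * π * I) :=
      mul_le_mul_of_nonneg_right h2 (by positivity)
    have e2 : a ^ 2 / (2 * π) / (2 * I) / 2 * E * (8 * π * I) = a ^ 2 * E := by
      field_simp
      ring
    rw [e2] at h3
    calc 8 * π * I ^ 2 = I * (8 * π * I) := by ring
      _ ≤ a ^ 2 * E := h3


end Run7.h549
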