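import Pool.Agent.Run7.h549.Low

set_option maxHeartbeats 400000
open MeasureTheory Set Filter Topology
open scoped ENNReal Real Pointwise

namespace Run7.h549

/-! ### Bodies with support function `√(f(|y₀|²))` on the unit sphere -/

/-- data of a profile -/
structure Prof (f f1 f2 : ℝ → ℝ) : Prop where
  d1 : ∀ w, HasDerivAt f (f1 w) w
  d2 : ∀ w, HasDerivAt f1 (f2 w) w
  c2 : Continuous f2
  pos : ∀ w, 0 ≤ w → 0 < f w
  cvx : ∀ w, 0 ≤ w → w ≤ 1 → 0 ≤ f2 w
  cond : ∀ w, 0 ≤ w → w ≤ 1 → 0 ≤ (f w - w * f1 w) * (f w + (1 - w) * f1 w)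

variable {f f1 f2 : ℝ → ℝ}

theorem Prof.c1 (h : Prof f f1 f2) : Continuous f1 :=
  continuous_iff_continuousAt.2 fun θ => (h.d2 θ).continuousAt

theorem Prof.c0 (h : Prof f f1 f2) : Continuous f :=
  continuous_iff_continuousAt.2 fun θ => (h.d1 θ).continuousAt

theorem supF_prof (h : Prof f f1 f2) {q q1 : ℝ → ℝ} (dq : ∀ θ, HasDerivAt q (q1 θ) θ)
    (dq1 : ∀ θ, HasDerivAt q1 (2 - 4 * q θ) θ) (hq0 : ∀ θ, 0 ≤ q θ) (hq1 : ∀ θ, q θ ≤ 1)
    (hqq : ∀ θ, q1 θ ^ 2 ≤ 4 * (q θ * (1 - q θ))) (hper : ∀ θ, q (θ + 2 * π) = q θ) :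
    SupF (fun θ => √(f (q θ))) (fun θ => f1 (q θ) * q1 θ / (2 * √(f (q θ))))
      (fun θ => ((f2 (q θ) * q1 θ ^ 2 + f1 (q θ) * (2 - 4 * q θ)) * (2 * √(f (q θ)))
        - f1 (q θ) * q1 θ * (2 * (f1 (q θ) * q1 θ / (2 * √(f (q θ)))))) / (2 * √(f (q θ))) ^ 2) := by
  have hG : ∀ θ, 0 < f (q θ) := fun θ => h.pos _ (hq0 θ)
  have hs : ∀ θ, 0 < √(f (q θ)) := fun θ => Real.sqrt_pos.2 (hG θ)
  have D0 : ∀ θ, HasDerivAt (fun θ => f (q θ)) (f1 (q θ) * q1 θ) θ := fun θ =>
    (h.d1 (q θ)).comp θ (dq θ)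
  have D1 : ∀ θ, HasDerivAt (fun θ => √(f (q θ))) (f1 (q θ) * q1 θ / (2 * √(f (q θ)))) θ := fun θ =>
    (D0 θ).sqrt (hG θ).ne'
  have D2 : ∀ θ, HasDerivAt (fun θ => f1 (q θ) * q1 θ)
      (f2 (q θ) * q1 θ ^ 2 + f1 (q θ) * (2 - 4 * q θ)) θ := by
    intro θ
    have := ((h.d2 (q θ)).comp θ (dq θ)).mul (dq1 θ)
    refine this.congr_deriv ?_
    simp only [Function.comp_apply]
    ring
  constructor
  · exact D1
  · intro θ
    exact (D2 θ).div ((D1 θ).const_mul 2) (by have := hs θ; positivity)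
  · have cq : Continuous q := continuous_iff_continuousAt.2 fun θ => (dq θ).continuousAt
    have cq1 : Continuous q1 := continuous_iff_continuousAt.2 fun θ => (dq1 θ).continuousAt
    have c0 := h.c0
    have c1 := h.c1
    have c2 := h.c2
    have a0 : Continuous fun θ => f (q θ) := c0.comp cq
    have a1 : Continuous fun θ => f1 (q θ) := c1.comp cq
    have a2 : Continuous fun θ => f2 (q θ) := c2.comp cq
    have as : Continuous fun θ => √(f (q θ)) := Real.continuous_sqrt.comp a0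
    apply Continuous.div
    · apply Continuous.sub
      · fun_prop
      · apply Continuous.mul (by fun_prop)
        apply Continuous.mul continuous_const
        apply Continuous.div (by fun_prop) (by fun_prop)
        intro θ
        have := hs θ
        positivity
    · fun_prop
    · intro θ
      have := hs θ
      positivity
  · intro θ
    simp only [hper]
  · exact hs
  · intro θ
    have hs0 := hs θ
    have hsq : √(f (q θ)) ^ 2 = f (q θ) := Real.sq_sqrt (hG θ).le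
    set s := √(f (q θ)) with hsd
    have hG0 := hG θ
    have key : 0 ≤ 4 * f (q θ) ^ 2 + 2 * f (q θ) * (f2 (q θ) * q1 θ ^ 2 + f1 (q θ) * (2 - 4 * q θ))
        - (f1 (q θ) * q1 θ) ^ 2 := by
      have k1 := h.cvx (q θ) (hq0 θ) (hq1 θ)
      have k2 := h.cond (q θ) (hq0 θ) (hq1 θ)
      have k3 := hqq θ
      have k4 : 0 ≤ 2 * f (q θ) * (f2 (q θ) * q1 θ ^ 2) := by positivity
      have k5 : f1 (q θ) ^ 2 * q1 θ ^ 2 ≤ f1 (q θ) ^ 2 * (4 * (q θ * (1 - q θ))) :=
        mul_le_mul_of_nonneg_left k3 (sq_nonneg _)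
      nlinarith
    have e : s + ((f2 (q θ) * q1 θ ^ 2 + f1 (q θ) * (2 - 4 * q θ)) * (2 * s)
        - f1 (q θ) * q1 θ * (2 * (f1 (q θ) * q1 θ / (2 * s)))) / (2 * s) ^ 2
        = (4 * f (q θ) ^ 2 + 2 * f (q θ) * (f2 (q θ) * q1 θ ^ 2 + f1 (q θ) * (2 - 4 * q θ))
        - (f1 (q θ) * q1 θ) ^ 2) / (4 * s ^ 3) := by
      rw [← hsq]
      field_simp
      ring
    rw [e]
    positivity

/-- the integrand -/
noncomputable def PhiF (f f1 : ℝ → ℝ) (c : ℂ) (y : C2) : ℝ :=
  f (‖y 0‖ ^ 2) + (-1) * (f1 (‖y 0‖ ^ 2) ^ 2 / f (‖y 0‖ ^ 2) * ((starRingEnd ℂ) (y 0) * (c • jj y) 0).re ^ 2)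

theorem PhiF_cont (h : Prof f f1 f2) (c : ℂ) :
    Continuous (fun y : C2 => f1 (‖y 0‖ ^ 2) ^ 2 / f (‖y 0‖ ^ 2) * ((starRingEnd ℂ) (y 0) * (c • jj y) 0).re ^ 2) ∧
    Continuous (fun y : C2 => f1 (‖y 0‖ ^ 2) ^ 2 / f (‖y 0‖ ^ 2) * ((starRingEnd ℂ) (y 0) * (c • jj y) 0).im ^ 2) ∧
    Continuous (fun y : C2 => f (‖y 0‖ ^ 2)) := by
  have c0 := h.c0
  have c1 := h.c1
  have a : Continuous fun y : C2 => ‖y 0‖ ^ 2 := by fun_prop
  have a0 : Continuous fun y : C2 => f (‖y 0‖ ^ 2) := c0.comp a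
  have a1 : Continuous fun y : C2 => f1 (‖y 0‖ ^ 2) := c1.comp a
  have a2 : Continuous fun y : C2 => f1 (‖y 0‖ ^ 2) ^ 2 / f (‖y 0‖ ^ 2) := by
    apply Continuous.div (by fun_prop) a0
    intro y
    exact (h.pos _ (by positivity)).ne'
  have h3 : Continuous fun y : C2 => (c • jj y) 0 :=
    (EuclideanSpace.proj (0 : Fin 2) : C2 →L[ℂ] ℂ).continuous.comp (jc_cont c)
  have hcj := Complex.continuous_conj
  have h4 : Continuous fun y : C2 => ((starRingEnd ℂ) (y 0) * (c • jj y) 0) := by fun_prop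
  have h5 : Continuous fun y : C2 => ((starRingEnd ℂ) (y 0) * (c • jj y) 0).re :=
    Complex.continuous_re.comp h4
  have h6 : Continuous fun y : C2 => ((starRingEnd ℂ) (y 0) * (c • jj y) 0).im :=
    Complex.continuous_im.comp h4
  exact ⟨a2.mul (h5.pow 2), a2.mul (h6.pow 2), a0⟩

/-- the integrand on `[0,1]` -/
noncomputable def hF (f f1 : ℝ → ℝ) (w : ℝ) : ℝ := f w - f1 w ^ 2 / f w * (w * (1 - w)) / 2

theorem LL_PhiF (h : Prof f f1 f2) {c : ℂ} (hc : ‖c‖ = 1) :
    LL (PhiF f f1 c) = π ^ 2 / 3 * ∫ w in (0:ℝ)..1, hF f f1 w := by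
  obtain ⟨k1, k2, k3⟩ := PhiF_cont h c
  unfold PhiF
  rw [LL_add (nice_of_continuous k3) (nice_of_continuous (by fun_prop)), LL_smul]
  have hI : ‖(-Complex.I)‖ = 1 := by simp
  have hjc : ∀ y : C2, (c • jj y) 0 = (-c) * (starRingEnd ℂ) (y 1) := by
    intro y
    simp [jj]
  rw [LL_half (T := phaseL hI) (ω := fun y : C2 => f1 (‖y 0‖ ^ 2) ^ 2 / f (‖y 0‖ ^ 2))
    (u := fun y : C2 => ((starRingEnd ℂ) (y 0) * (c • jj y) 0))]
  · have e1 : LL (fun y : C2 => f1 (‖y 0‖ ^ 2) ^ 2 / f (‖y 0‖ ^ 2) * ‖(starRingEnd ℂ) (y 0) * (c • jj y) 0‖ ^ 2)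
        = π ^ 2 / 3 * ∫ w in (0:ℝ)..1, (fun w : ℝ => f1 (max w 0) ^ 2 / f (max w 0) * (w * (1 - w))) w := by
      apply LL_rad' (h := fun w : ℝ => f1 (max w 0) ^ 2 / f (max w 0) * (w * (1 - w)))
      · have c0 := h.c0
        have c1 := h.c1
        have a : Continuous fun w : ℝ => max w 0 := by fun_prop
        have a0 : Continuous fun w : ℝ => f (max w 0) := c0.comp a
        have a1 : Continuous fun w : ℝ => f1 (max w 0) := c1.comp a
        apply Continuous.mul _ (by fun_prop)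
        apply Continuous.div (by fun_prop) a0
        intro w
        exact (h.pos _ (le_max_right _ _)).ne'
      · intro y hy
        have h0 : max (‖y 0‖ ^ 2) 0 = ‖y 0‖ ^ 2 := max_eq_left (by positivity)
        have h1 := norm_sq_C2 y
        rw [hy] at h1
        simp only
        rw [h0, hjc, norm_mul, norm_mul, norm_neg, hc, RCLike.norm_conj, RCLike.norm_conj]
        have h2 : 1 - ‖y 0‖ ^ 2 = ‖y 1‖ ^ 2 := by linarith
        rw [h2]
        ring
    have e2 : LL (fun y : C2 => f (‖y 0‖ ^ 2)) = π ^ 2 / 3 * ∫ w in (0:ℝ)..1, f w :=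
      LL_rad' h.c0 (fun y _ => rfl)
    rw [e1, e2]
    have e3 : ∫ w in (0:ℝ)..1, (fun w : ℝ => f1 (max w 0) ^ 2 / f (max w 0) * (w * (1 - w))) w
        = ∫ w in (0:ℝ)..1, f1 w ^ 2 / f w * (w * (1 - w)) := by
      apply intervalIntegral.integral_congr
      intro w hw
      rw [uIcc_of_le zero_le_one] at hw
      simp only
      rw [max_eq_left hw.1]
    rw [e3]
    have i1 : IntervalIntegrable f volume 0 1 := h.c0.intervalIntegrable _ _
    have i2 : IntervalIntegrable (fun w => f1 w ^ 2 / f w * (w * (1 - w)) / 2) volume 0 1 := by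
      apply ContinuousOn.intervalIntegrable
      have c0 := h.c0
      have c1 := h.c1
      apply ContinuousOn.div_const
      apply ContinuousOn.mul _ (by fun_prop)
      apply ContinuousOn.div (by fun_prop) c0.continuousOn
      intro w hw
      rw [uIcc_of_le zero_le_one] at hw
      exact (h.pos _ hw.1).ne'
    unfold hF
    rw [intervalIntegral.integral_sub i1 i2, intervalIntegral.integral_div]
    ring
  · intro y
    simp only
    rw [phaseL_0, norm_mul, hI, one_mul]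
  · intro y
    left
    simp only
    rw [hjc, hjc, phaseL_0, phaseL_1, map_mul]
    simp
    ring
  · exact nice_of_continuous k1
  · exact nice_of_continuous k2

/-- upper bound for `α_L` -/
theorem alL_prof (h : Prof f f1 f2) {K : ConvexBody C2}
    (hK : ∀ z ∈ (K : Set C2), ∀ y : C2, ‖y‖ = 1 → (inner ℂ y z).re ≤ √(f (‖y 0‖ ^ 2))) (φ : ℝ) :
    al (mapBody (Rl (cis φ)) K) ≤ π * ∫ w in (0:ℝ)..1, hF f f1 w := by
  have hc := norm_cis φ
  set c := cis φ with hcd
  obtain ⟨k1, k2, k3⟩ := PhiF_cont h c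
  have hnice : Nice (PhiF f f1 c) := nice_of_continuous (k3.add (continuous_const.mul k1))
  have e5 : ∀ A B G : ℝ, 0 < G → (√G) ^ 2 - (A * B / (2 * √G)) ^ 2
      = G + (-1) * (A ^ 2 / G * (B / 2) ^ 2) := by
    intro A B G hG
    rw [div_pow, mul_pow 2, Real.sq_sqrt hG.le]
    field_simp
    ring
  have hal := al_le_avg hnice (RlI hc).symm (M := mapBody (Rl c) K) (by
    intro x hx
    have hx' : ‖Complex.I • x‖ = 1 := by rw [norm_smul, Complex.norm_I, hx, one_mul]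
    set S := (RlI hc).symm with hS
    set P : ℝ → ℂ := fun θ => co0 S (cis θ • x) with hP
    set P1 : ℝ → ℂ := fun θ => co0 S (cis θ • Complex.I • x) with hP1
    have d1 : ∀ θ, HasDerivAt P (P1 θ) θ := fun θ => curve_hasDeriv _ _ _
    have d2 : ∀ θ, HasDerivAt P1 (-P θ) θ := by
      intro θ
      have := curve_hasDeriv (co0 S) (Complex.I • x) θ
      refine this.congr_deriv ?_
      rw [smul_smul Complex.I, Complex.I_mul_I, neg_smul, one_smul, smul_neg, map_neg]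
    have hjI : ∀ θ, S (cis θ • Complex.I • x) = c • jj (S (cis θ • x)) := by
      intro θ
      rw [← RlI_symm_I hc, smul_comm]
    have hPn : ∀ θ, ‖P1 θ‖ ^ 2 = 1 - ‖P θ‖ ^ 2 := by
      intro θ
      have e1 : P1 θ = (c • jj (S (cis θ • x))) 0 := by rw [← hjI]; rfl
      have e2 : (c • jj (S (cis θ • x))) 0 = (-c) * (starRingEnd ℂ) ((S (cis θ • x)) 1) := by
        simp [jj]
      have e3 := norm_sq_C2 (S (cis θ • x))
      rw [norm_curve S hx θ] at e3
      rw [e1, e2, norm_mul, norm_neg, hc, RCLike.norm_conj, one_mul]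
      have e4 : P θ = (S (cis θ • x)) 0 := rfl
      rw [e4]
      linarith
    have hre : ∀ {F : ℝ → ℂ} {F' : ℂ} {θ : ℝ}, HasDerivAt F F' θ →
        HasDerivAt (fun t => (F t).re) F'.re θ := by
      intro F F' θ h
      exact Complex.reCLM.hasFDerivAt.comp_hasDerivAt θ h
    have him : ∀ {F : ℝ → ℂ} {F' : ℂ} {θ : ℝ}, HasDerivAt F F' θ →
        HasDerivAt (fun t => (F t).im) F'.im θ := by
      intro F F' θ h
      exact Complex.imCLM.hasFDerivAt.comp_hasDerivAt θ h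
    have hns : ∀ z : ℂ, ‖z‖ ^ 2 = z.re ^ 2 + z.im ^ 2 := by
      intro z
      rw [← Complex.normSq_eq_norm_sq, Complex.normSq_apply]; ring
    set q : ℝ → ℝ := fun θ => (P θ).re ^ 2 + (P θ).im ^ 2 with hq
    set q1 : ℝ → ℝ := fun θ => 2 * ((P θ).re * (P1 θ).re + (P θ).im * (P1 θ).im) with hq1
    have hqn : ∀ θ, q θ = ‖P θ‖ ^ 2 := fun θ => (hns _).symm
    have dq : ∀ θ, HasDerivAt q (q1 θ) θ := by
      intro θ
      have := ((hre (d1 θ)).pow 2).add ((him (d1 θ)).pow 2)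
      refine this.congr_deriv ?_
      simp only [hq1]
      push_cast
      ring
    have dq1 : ∀ θ, HasDerivAt q1 (2 - 4 * q θ) θ := by
      intro θ
      have := (((hre (d1 θ)).mul (hre (d2 θ))).add ((him (d1 θ)).mul (him (d2 θ)))).const_mul 2
      refine this.congr_deriv ?_
      have h5 := hPn θ
      rw [hns, hns] at h5
      simp only [hq, Complex.neg_re, Complex.neg_im]
      linear_combination 2 * h5
    have hq0 : ∀ θ, 0 ≤ q θ := fun θ => by simp only [hq]; positivity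
    have hq1' : ∀ θ, q θ ≤ 1 := by
      intro θ
      have h5 := hPn θ
      have := sq_nonneg ‖P1 θ‖
      rw [hqn]
      linarith
    have hqq : ∀ θ, q1 θ ^ 2 ≤ 4 * (q θ * (1 - q θ)) := by
      intro θ
      have h5 := hPn θ
      rw [hns, hns] at h5
      have h6 : 1 - q θ = (P1 θ).re ^ 2 + (P1 θ).im ^ 2 := by simp only [hq]; linarith
      rw [h6]
      simp only [hq, hq1]
      nlinarith [sq_nonneg ((P θ).re * (P1 θ).im - (P θ).im * (P1 θ).re)]
    have hper : ∀ θ, q (θ + 2 * π) = q θ := by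
      intro θ
      simp only [hq, hP, cis_two_pi]
    have hSup := supF_prof h dq dq1 hq0 hq1' hqq hper
    have hle := pa_le_rot (K := K) (R := RlI hc) (RlI_image hc K) (x := x) hSup (by
      intro z hz θ
      have := hK z hz _ (norm_curve S hx θ)
      have e : ‖(S (cis θ • x)) 0‖ ^ 2 = q θ := (hqn θ).symm
      rw [e] at this
      exact this)
    refine hle.trans (le_of_eq ?_)
    congr 1
    apply intervalIntegral.integral_congr
    intro θ _
    simp only
    unfold PhiF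
    rw [← hjI θ]
    have e : ‖(S (cis θ • x)) 0‖ ^ 2 = q θ := (hqn θ).symm
    have e0 : (S (cis θ • x)) 0 = P θ := rfl
    have e1 : (S (cis θ • Complex.I • x)) 0 = P1 θ := rfl
    have hG := h.pos _ (hq0 θ)
    have e2 : ((starRingEnd ℂ) (P θ) * P1 θ).re = q1 θ / 2 := by
      simp only [hq1]
      rw [Complex.mul_re, Complex.conj_re, Complex.conj_im]
      ring
    rw [e, e0, e1, e2]
    exact e5 _ _ _ hG)
  refine hal.trans (le_of_eq ?_)
  have := LL_PhiF h hc
  unfold LL at this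
  rw [this]
  have hpi := Real.pi_pos
  field_simp

theorem alL_prof' (h : Prof f f1 f2) {K : ConvexBody C2}
    (hK : ∀ z ∈ (K : Set C2), ∀ y : C2, ‖y‖ = 1 → (inner ℂ y z).re ≤ √(f (‖y 0‖ ^ 2))) :
    alL K ≤ π * ∫ w in (0:ℝ)..1, hF f f1 w := by
  have hpi := Real.pi_pos
  unfold alL
  have h2 : ∫ φ in (0 : ℝ)..(2 * π), al (mapBody (Rl (cis φ)) K)
      ≤ ∫ φ in (0 : ℝ)..(2 * π), (π * ∫ w in (0:ℝ)..1, hF f f1 w) := by
    apply intervalIntegral.integral_mono_on (by positivity) ((alR_cont K).intervalIntegrable _ _) (by simp)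
    intro φ _
    exact alL_prof h hK φ
  rw [intervalIntegral.integral_const, sub_zero, smul_eq_mul] at h2
  rw [inv_mul_eq_div, div_le_iff₀ (by positivity)]
  linarith

end Run7.h549
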