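import Pool.Agent.Run7.h549.Body
import Pool.Agent.Run7.h549.Klain

set_option maxHeartbeats 400000
open MeasureTheory Set Filter Topology
open scoped ENNReal Real Pointwise

namespace Run7.h549

/-- `z ↦ ⟪x, z⟫` as a real linear map -/
noncomputable def projL (x : C2) : C2 →L[ℝ] ℂ := (innerSL ℂ x).restrictScalars ℝ

theorem projL_apply (x z : C2) : projL x z = inner ℂ x z := rfl

theorem projL_cont : Continuous projL := by
  have h1 : Continuous (fun x : C2 => innerSL ℂ x) := (innerSL ℂ).continuous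
  have h2 : Continuous (ContinuousLinearMap.restrictScalars ℝ : (C2 →L[ℂ] ℂ) → (C2 →L[ℝ] ℂ)) :=
    ContinuousLinearMap.continuous_restrictScalars ℝ
  exact h2.comp h1

/-- area of the projection `{⟪x, z⟫ : z ∈ K}` -/
noncomputable def pa (x : C2) (K : ConvexBody C2) : ℝ :=
  (volume ((fun z => inner ℂ x z) '' (K : Set C2))).toReal

theorem pa_eq (x : C2) (K : ConvexBody C2) : pa x K = (volume (mapBody (projL x) K : Set ℂ)).toReal :=
  rfl

theorem pa_nonneg (x : C2) (K : ConvexBody C2) : 0 ≤ pa x K := ENNReal.toReal_nonneg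

theorem pa_cont : Continuous (fun p : C2 × ConvexBody C2 => pa p.1 p.2) := by
  have h1 : Continuous (fun p : C2 × ConvexBody C2 => mapBody (projL p.1) p.2) :=
    mapBody_cont.comp ((projL_cont.comp continuous_fst).prodMk continuous_snd)
  exact (vol_cont (volume : Measure ℂ)).comp h1

theorem pa_cont_left (K : ConvexBody C2) : Continuous (fun x : C2 => pa x K) := by
  have h : Continuous (fun x : C2 => ((x, K) : C2 × ConvexBody C2)) := Continuous.prodMk_left K
  have h2 := Continuous.comp pa_cont h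
  exact h2

theorem pa_smul (r : ℝ) (x : C2) (K : ConvexBody C2) : pa (r • x) K = r ^ 2 * pa x K := by
  unfold pa
  have e : (fun z => inner ℂ (r • x) z) '' (K : Set C2) = r • ((fun z => inner ℂ x z) '' (K : Set C2)) := by
    rw [← image_smul, image_image]
    apply image_congr
    intro z _
    have : r • x = (r : ℂ) • x := by
      ext i; simp
    rw [this, inner_smul_left]
    simp
  rw [e, Measure.addHaar_smul, ENNReal.toReal_mul, Complex.finrank_real_complex,
    ENNReal.toReal_ofReal (abs_nonneg _), abs_of_nonneg (by positivity)]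

/-- the mean area of the projections on complex lines -/
noncomputable def al (K : ConvexBody C2) : ℝ :=
  3 / π ^ 2 * ∫ x in Metric.closedBall (0 : C2) 1, pa x K

theorem comp_ball {u : C2} (hu : ‖u‖ = 1) :
    ∫ x in Metric.closedBall (0 : C2) 1, ‖inner ℂ x u‖ ^ 2 = π ^ 2 / 6 := by
  have hv : ‖Complex.I • u‖ = 1 := by rw [norm_smul, Complex.norm_I, hu, one_mul]
  have hi : inner ℂ u (Complex.I • u) = Complex.I := by
    rw [inner_smul_right, inner_self_eq_norm_sq_to_K, hu]; simp
  have h := klain u (Complex.I • u) hu hv (by rw [hi]; simp)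
  rw [hi, Complex.I_im] at h
  have e : ∀ x : C2, |((starRingEnd ℂ (inner ℂ x u)) * inner ℂ x (Complex.I • u)).im|
      = ‖inner ℂ x u‖ ^ 2 := by
    intro x
    rw [inner_smul_right]
    have : (starRingEnd ℂ) (inner ℂ x u) * (Complex.I * inner ℂ x u)
        = ((‖inner ℂ x u‖ ^ 2 : ℝ) : ℂ) * Complex.I := by
      rw [← Complex.normSq_eq_norm_sq, Complex.normSq_eq_conj_mul_self]
      ring
    rw [this, Complex.mul_I_im, Complex.ofReal_re, abs_of_nonneg (by positivity)]
  simp only [e] at h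
  rw [h]
  norm_num
  ring

theorem sq_ball : ∫ x in Metric.closedBall (0 : C2) 1, ‖x‖ ^ 2 = π ^ 2 / 3 := by
  have h0 : ‖(!₂[1, 0] : C2)‖ = 1 := by
    have : ‖(!₂[1, 0] : C2)‖ ^ 2 = 1 := by rw [norm_sq_C2]; simp
    nlinarith [norm_nonneg (!₂[1, 0] : C2)]
  have h1 : ‖(!₂[0, 1] : C2)‖ = 1 := by
    have : ‖(!₂[0, 1] : C2)‖ ^ 2 = 1 := by rw [norm_sq_C2]; simp
    nlinarith [norm_nonneg (!₂[0, 1] : C2)]
  have e0 : ∀ x : C2, ‖inner ℂ x (!₂[1, 0] : C2)‖ ^ 2 = ‖x 0‖ ^ 2 := by
    intro x; rw [inner_C2]; simp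
  have e1 : ∀ x : C2, ‖inner ℂ x (!₂[0, 1] : C2)‖ ^ 2 = ‖x 1‖ ^ 2 := by
    intro x; rw [inner_C2]; simp
  have k0 := comp_ball h0
  have k1 := comp_ball h1
  simp only [e0] at k0
  simp only [e1] at k1
  simp only [norm_sq_C2]
  rw [integral_add]
  · rw [k0, k1]; ring
  · exact (by fun_prop : Continuous fun x : C2 => ‖x 0‖ ^ 2).continuousOn.integrableOn_compact
      (isCompact_closedBall _ _)
  · exact (by fun_prop : Continuous fun x : C2 => ‖x 1‖ ^ 2).continuousOn.integrableOn_compact
      (isCompact_closedBall _ _)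

end Run7.h549
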