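import Pool.Agent.Run7.h549.Iface

open MeasureTheory Set Filter Topology
open scoped ENNReal Real

namespace Run7.h549

/-- twice the height of the unit circle (extended by a positive function) -/
noncomputable def kap (y : ℝ) : ℝ := 2 * √|1 - y ^ 2|

theorem kap_cont : Continuous kap := by unfold kap; fun_prop

theorem kap_nonneg (y : ℝ) : 0 ≤ kap y := by unfold kap; positivity

theorem kap_pos {y : ℝ} (h1 : y ≠ 1) (h2 : y ≠ -1) : 0 < kap y := by
  unfold kap
  have : 1 - y ^ 2 ≠ 0 := by
    intro h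
    have h3 : (1 - y) * (1 + y) = 0 := by ring_nf; linarith
    rcases mul_eq_zero.1 h3 with h | h
    · exact h1 (by linarith)
    · exact h2 (by linarith)
  have := abs_pos.2 this
  positivity

/-- the distribution function of the first coordinate on the unit disc -/
noncomputable def gg (y : ℝ) : ℝ := ∫ τ in (-1 : ℝ)..y, kap τ

theorem gg_deriv (y : ℝ) : HasDerivAt gg (kap y) y :=
  (kap_cont.integral_hasStrictDerivAt (-1) y).hasDerivAt

theorem gg_cont : Continuous gg := continuous_iff_continuousAt.2 fun y => (gg_deriv y).continuousAt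

theorem gg_sub (x y : ℝ) : gg y - gg x = ∫ τ in x..y, kap τ := by
  unfold gg
  rw [intervalIntegral.integral_interval_sub_left]
  · exact kap_cont.intervalIntegrable _ _
  · exact kap_cont.intervalIntegrable _ _

theorem gg_strictMono : StrictMono gg := by
  intro x y hxy
  have h : 0 < ∫ τ in x..y, kap τ := by
    apply intervalIntegral.integral_pos hxy kap_cont.continuousOn (fun _ _ => kap_nonneg _)
    by_cases h1 : x ≠ 1 ∧ x ≠ -1
    · exact ⟨x, ⟨le_rfl, hxy.le⟩, kap_pos h1.1 h1.2⟩
    by_cases h2 : y ≠ 1 ∧ y ≠ -1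
    · exact ⟨y, ⟨hxy.le, le_rfl⟩, kap_pos h2.1 h2.2⟩
    refine ⟨(x + y) / 2, ⟨by linarith, by linarith⟩, ?_⟩
    have h3 : x = 1 ∨ x = -1 := by
      by_contra h; push Not at h; exact h1 h
    have h4 : y = 1 ∨ y = -1 := by
      by_contra h; push Not at h; exact h2 h
    apply kap_pos
    · rcases h3 with h3 | h3 <;> rcases h4 with h4 | h4 <;> intro h <;> linarith
    · rcases h3 with h3 | h3 <;> rcases h4 with h4 | h4 <;> intro h <;> linarith
  rw [← gg_sub] at h
  linarith

theorem gg_neg_one : gg (-1) = 0 := by unfold gg; simp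

theorem gg_one : gg 1 = π := by
  unfold gg
  have e : ∫ τ in (-1 : ℝ)..1, kap τ = ∫ τ in (-1 : ℝ)..1, 2 * √(1 - τ ^ 2) := by
    apply intervalIntegral.integral_congr
    intro τ hτ
    rw [uIcc_of_le (by norm_num)] at hτ
    simp only [kap]
    rw [abs_of_nonneg]
    nlinarith [hτ.1, hτ.2]
  rw [e, intervalIntegral.integral_const_mul, integral_sqrt_one_sub_sq]
  ring

theorem gg_top : Tendsto gg atTop atTop := by
  apply tendsto_atTop_mono' atTop (f₁ := fun y : ℝ => y - 2) _ (tendsto_atTop_add_const_right _ _ tendsto_id)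
  filter_upwards [eventually_ge_atTop (2 : ℝ)] with y hy
  have h1 : gg y - gg 2 = ∫ τ in (2:ℝ)..y, kap τ := gg_sub 2 y
  have h2 : 0 ≤ gg 2 := by
    rw [← gg_neg_one]; exact gg_strictMono.monotone (by norm_num)
  have h3 : ∫ τ in (2:ℝ)..y, (1:ℝ) ≤ ∫ τ in (2:ℝ)..y, kap τ := by
    apply intervalIntegral.integral_mono_on hy (by simp) (kap_cont.intervalIntegrable _ _)
    intro x hx
    unfold kap
    have : (1:ℝ) ≤ |1 - x ^ 2| := by
      rw [abs_of_nonpos (by nlinarith [hx.1])]; nlinarith [hx.1]
    have := Real.one_le_sqrt.2 this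
    linarith
  simp at h3
  linarith

theorem gg_bot : Tendsto gg atBot atBot := by
  apply tendsto_atBot_mono' atBot _ (tendsto_atBot_add_const_right atBot (2:ℝ) tendsto_id)
  filter_upwards [eventually_le_atBot (-2 : ℝ)] with y hy
  have h1 : gg (-2) - gg y = ∫ τ in y..(-2:ℝ), kap τ := gg_sub y (-2)
  have h2 : gg (-2) ≤ 0 := by
    rw [← gg_neg_one]; exact gg_strictMono.monotone (by norm_num)
  have h3 : ∫ τ in y..(-2:ℝ), (1:ℝ) ≤ ∫ τ in y..(-2:ℝ), kap τ := by
    apply intervalIntegral.integral_mono_on hy (by simp) (kap_cont.intervalIntegrable _ _)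
    intro x hx
    unfold kap
    have : (1:ℝ) ≤ |1 - x ^ 2| := by
      rw [abs_of_nonpos (by nlinarith [hx.2])]; nlinarith [hx.2]
    have := Real.one_le_sqrt.2 this
    linarith
  simp at h3
  simp only [id_eq]
  linarith

theorem gg_surj : Function.Surjective gg := gg_cont.surjective gg_top gg_bot

/-- the inverse function -/
noncomputable def qq : ℝ → ℝ := (gg_strictMono.orderIsoOfSurjective gg gg_surj).symm

theorem qq_cont : Continuous qq := (gg_strictMono.orderIsoOfSurjective gg gg_surj).symm.continuous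

theorem gg_qq (c : ℝ) : gg (qq c) = c :=
  (gg_strictMono.orderIsoOfSurjective gg gg_surj).apply_symm_apply c

theorem qq_gg (c : ℝ) : qq (gg c) = c :=
  (gg_strictMono.orderIsoOfSurjective gg gg_surj).symm_apply_apply c

theorem qq_zero : qq 0 = -1 := by rw [← gg_neg_one, qq_gg]

theorem qq_pi : qq π = 1 := by rw [← gg_one, qq_gg]

theorem qq_strictMono : StrictMono qq := (gg_strictMono.orderIsoOfSurjective gg gg_surj).symm.strictMono

theorem qq_deriv {c : ℝ} (h0 : 0 < c) (h1 : c < π) :
    HasDerivAt qq ((2 * √(1 - qq c ^ 2))⁻¹) c := by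
  have a1 : -1 < qq c := by rw [← qq_zero]; exact qq_strictMono h0
  have a2 : qq c < 1 := by rw [← qq_pi]; exact qq_strictMono h1
  have e : kap (qq c) = 2 * √(1 - qq c ^ 2) := by
    unfold kap
    rw [abs_of_nonneg (by nlinarith)]
  rw [← e]
  apply HasDerivAt.of_local_left_inverse qq_cont.continuousAt (gg_deriv (qq c))
  · exact (kap_pos a2.ne a1.ne').ne'
  · exact Eventually.of_forall gg_qq

end Run7.h549
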