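import Pool.Agent.Run7.h549.Avg

set_option maxHeartbeats 400000
open MeasureTheory Set Filter Topology
open scoped ENNReal Real Pointwise

namespace Run7.h549

theorem lint_scale1 {σ : ℝ} (hσ : 0 < σ) {h : ℝ → ℝ≥0∞} (hm : Measurable h) :
    ∫⁻ s in Ioo (0:ℝ) σ, h (s / σ) = ENNReal.ofReal σ * ∫⁻ w in Ioo (0:ℝ) 1, h w := by
  have h1 := Real.map_volume_mul_left hσ.ne'
  -- ∫⁻ s, F(s) = ofReal σ ∫⁻ w, F (σ w)
  have h2 : ∀ F : ℝ → ℝ≥0∞, Measurable F → ∫⁻ w, F (σ * w) = ENNReal.ofReal |σ⁻¹| * ∫⁻ s, F s := by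
    intro F hF
    rw [← lintegral_map (f := F) hF (by fun_prop : Measurable fun w : ℝ => σ * w), h1,
      lintegral_smul_measure]
    rfl
  have hF : Measurable ((Ioo (0:ℝ) σ).indicator fun s => h (s / σ)) :=
    (hm.comp (by fun_prop)).indicator measurableSet_Ioo
  have h3 := h2 _ hF
  rw [← lintegral_indicator measurableSet_Ioo, ← lintegral_indicator measurableSet_Ioo]
  have h4 : ∀ w : ℝ, (Ioo (0:ℝ) σ).indicator (fun s => h (s / σ)) (σ * w)
      = (Ioo (0:ℝ) 1).indicator h w := by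
    intro w
    by_cases hw : w ∈ Ioo (0:ℝ) 1
    · have h5 : σ * w ∈ Ioo (0:ℝ) σ := ⟨by nlinarith [hw.1], by nlinarith [hw.2]⟩
      rw [indicator_of_mem hw, indicator_of_mem h5]
      congr 1
      field_simp
    · have h5 : σ * w ∉ Ioo (0:ℝ) σ := by
        rintro ⟨a, b⟩
        apply hw
        constructor
        · by_contra hn
          push Not at hn
          nlinarith
        · by_contra hn
          push Not at hn
          nlinarith
      rw [indicator_of_notMem hw, indicator_of_notMem h5]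
  simp only [h4] at h3
  rw [h3, ← mul_assoc, ← ENNReal.ofReal_mul hσ.le, abs_of_pos (inv_pos.2 hσ),
    mul_inv_cancel₀ hσ.ne', ENNReal.ofReal_one, one_mul]

theorem lint_tri2 {h : ℝ → ℝ≥0∞} (hm : Measurable h) :
    ∫⁻ s in Ioi (0:ℝ), ∫⁻ t in Ioi (0:ℝ),
      (if s + t ≤ 1 then ENNReal.ofReal (s + t) * h (s / (s + t)) else 0)
      = ENNReal.ofReal (1 / 3) * ∫⁻ w in Ioo (0:ℝ) 1, h w := by
  have e1 : ∀ s : ℝ, ∫⁻ t in Ioi (0:ℝ),
      (if s + t ≤ 1 then ENNReal.ofReal (s + t) * h (s / (s + t)) else 0)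
      = ∫⁻ σ, (if s < σ ∧ σ ≤ 1 then ENNReal.ofReal σ * h (s / σ) else 0) := by
    intro s
    rw [← lintegral_add_left_eq_self
      (fun σ => (if s < σ ∧ σ ≤ 1 then ENNReal.ofReal σ * h (s / σ) else 0)) s,
      ← lintegral_indicator measurableSet_Ioi]
    congr 1
    funext t
    by_cases ht : 0 < t
    · rw [indicator_of_mem (show t ∈ Ioi (0:ℝ) from ht)]
      have : s < s + t := by linarith
      simp only [this, true_and]
    · rw [indicator_of_notMem (show t ∉ Ioi (0:ℝ) from ht)]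
      have : ¬ (s < s + t) := by linarith
      simp [this]
  simp only [e1]
  rw [← lintegral_indicator measurableSet_Ioi]
  have e2 : ∀ s : ℝ, (Ioi (0:ℝ)).indicator (fun s => ∫⁻ σ,
      (if s < σ ∧ σ ≤ 1 then ENNReal.ofReal σ * h (s / σ) else 0)) s
      = ∫⁻ σ, (if 0 < s ∧ s < σ ∧ σ ≤ 1 then ENNReal.ofReal σ * h (s / σ) else 0) := by
    intro s
    by_cases hs : 0 < s
    · rw [indicator_of_mem (show s ∈ Ioi (0:ℝ) from hs)]
      simp only [hs, true_and]
    · rw [indicator_of_notMem (show s ∉ Ioi (0:ℝ) from hs)]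
      simp [hs]
  simp only [e2]
  rw [lintegral_lintegral_swap (by
    apply Measurable.aemeasurable
    apply Measurable.ite _ _ measurable_const
    · apply MeasurableSet.inter
      · exact measurableSet_lt measurable_const measurable_fst
      apply MeasurableSet.inter
      · exact measurableSet_lt measurable_fst measurable_snd
      · exact measurableSet_le measurable_snd measurable_const
    · exact (ENNReal.measurable_ofReal.comp measurable_snd).mul
        (hm.comp (measurable_fst.div measurable_snd)))]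
  have e3 : ∀ σ : ℝ, ∫⁻ s, (if 0 < s ∧ s < σ ∧ σ ≤ 1 then ENNReal.ofReal σ * h (s / σ) else 0)
      = (Ioc (0:ℝ) 1).indicator (fun σ => ENNReal.ofReal (σ ^ 2) * ∫⁻ w in Ioo (0:ℝ) 1, h w) σ := by
    intro σ
    by_cases hσ : σ ∈ Ioc (0:ℝ) 1
    · rw [indicator_of_mem hσ]
      have h1 : ∀ s : ℝ, (if 0 < s ∧ s < σ ∧ σ ≤ 1 then ENNReal.ofReal σ * h (s / σ) else 0)
          = (Ioo (0:ℝ) σ).indicator (fun s => ENNReal.ofReal σ * h (s / σ)) s := by
        intro s
        by_cases hs : s ∈ Ioo 0 σ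
        · rw [indicator_of_mem hs, if_pos ⟨hs.1, hs.2, hσ.2⟩]
        · rw [indicator_of_notMem hs, if_neg]
          rintro ⟨a, b, _⟩; exact hs ⟨a, b⟩
      simp only [h1]
      have hm2 : Measurable fun s : ℝ => h (s / σ) := hm.comp (by fun_prop : Measurable fun s : ℝ => s / σ)
      rw [lintegral_indicator measurableSet_Ioo, lintegral_const_mul _ hm2,
        lint_scale1 hσ.1 hm, ← mul_assoc, ← ENNReal.ofReal_mul hσ.1.le, sq]
    · rw [indicator_of_notMem hσ]
      have : ∀ s : ℝ, ¬ (0 < s ∧ s < σ ∧ σ ≤ 1) := by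
        rintro s ⟨a, b, c⟩
        exact hσ ⟨lt_trans a b, c⟩
      simp [this]
  simp only [e3]
  rw [lintegral_indicator measurableSet_Ioc, lintegral_mul_const _ (by fun_prop)]
  congr 1
  rw [← ofReal_integral_eq_lintegral_ofReal]
  · congr 1
    rw [← intervalIntegral.integral_of_le zero_le_one, integral_pow]
    norm_num
  · exact (by fun_prop : Continuous fun σ : ℝ => σ ^ 2).integrableOn_Ioc
  · exact Eventually.of_forall fun σ => by positivity

/-- the key radial formula, for nonnegative functions -/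
theorem lint_rad {h : ℝ → ℝ≥0∞} (hm : Measurable h) :
    ∫⁻ x in BB, ENNReal.ofReal (‖x‖ ^ 2) * h (‖x 0‖ ^ 2 / ‖x‖ ^ 2)
      = ENNReal.ofReal (π ^ 2 / 3) * ∫⁻ w in Ioo (0:ℝ) 1, h w := by
  rw [← lintegral_indicator BB_meas]
  have e1 : ∀ x : C2, BB.indicator (fun x => ENNReal.ofReal (‖x‖ ^ 2) * h (‖x 0‖ ^ 2 / ‖x‖ ^ 2)) x
      = (fun s t : ℝ => (if s + t ≤ 1 then ENNReal.ofReal (s + t) * h (s / (s + t)) else 0))
        (‖x 0‖ ^ 2) (‖x 1‖ ^ 2) := by
    intro x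
    simp only
    rw [← norm_sq_C2]
    by_cases hx : x ∈ BB
    · have hx' := mem_closedBall_zero_iff.1 hx
      rw [indicator_of_mem hx, if_pos (pow_le_one₀ (norm_nonneg _) hx')]
    · rw [indicator_of_notMem hx, if_neg]
      intro hc
      apply hx
      rw [mem_closedBall_zero_iff]
      nlinarith [norm_nonneg x]
  simp only [e1]
  rw [lint_C2 (F := fun s t : ℝ => (if s + t ≤ 1 then ENNReal.ofReal (s + t) * h (s / (s + t)) else 0))]
  · rw [lint_tri2 hm, ← mul_assoc, ← ENNReal.ofReal_mul (by positivity)]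
    congr 2
    ring
  · apply Measurable.ite _ _ measurable_const
    · exact measurableSet_le (by fun_prop) measurable_const
    · exact (ENNReal.measurable_ofReal.comp (by fun_prop)).mul (hm.comp (by fun_prop))

/-- the key radial formula -/
theorem int_rad {h : ℝ → ℝ} (hm : Measurable h) {C : ℝ} (hb : ∀ w, |h w| ≤ C) :
    ∫ x in BB, ‖x‖ ^ 2 * h (‖x 0‖ ^ 2 / ‖x‖ ^ 2) = π ^ 2 / 3 * ∫ w in (0:ℝ)..1, h w := by
  have hp : ∀ w, 0 ≤ h w + C := fun w => by linarith [(abs_le.1 (hb w)).1]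
  have m1 : Measurable fun x : C2 => ‖x‖ ^ 2 * (h (‖x 0‖ ^ 2 / ‖x‖ ^ 2) + C) := by
    have : Measurable fun x : C2 => h (‖x 0‖ ^ 2 / ‖x‖ ^ 2) := hm.comp (by fun_prop)
    fun_prop
  have m2 : Measurable fun x : C2 => ‖x‖ ^ 2 * h (‖x 0‖ ^ 2 / ‖x‖ ^ 2) := by
    have : Measurable fun x : C2 => h (‖x 0‖ ^ 2 / ‖x‖ ^ 2) := hm.comp (by fun_prop)
    fun_prop
  -- with `h + C`
  have k1 : ∫ x in BB, ‖x‖ ^ 2 * (h (‖x 0‖ ^ 2 / ‖x‖ ^ 2) + C)
      = π ^ 2 / 3 * ∫ w in (0:ℝ)..1, (h w + C) := by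
    rw [integral_eq_lintegral_of_nonneg_ae (Eventually.of_forall fun x =>
      mul_nonneg (by positivity) (hp _)) m1.aestronglyMeasurable]
    have e1 : ∀ x : C2, ENNReal.ofReal (‖x‖ ^ 2 * (h (‖x 0‖ ^ 2 / ‖x‖ ^ 2) + C))
        = ENNReal.ofReal (‖x‖ ^ 2) * (fun w => ENNReal.ofReal (h w + C)) (‖x 0‖ ^ 2 / ‖x‖ ^ 2) := by
      intro x
      rw [ENNReal.ofReal_mul (by positivity)]
    simp only [e1]
    rw [lint_rad (h := fun w => ENNReal.ofReal (h w + C)) (by fun_prop), ENNReal.toReal_mul,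
      ENNReal.toReal_ofReal (by positivity), intervalIntegral.integral_of_le zero_le_one,
      integral_Ioc_eq_integral_Ioo,
      integral_eq_lintegral_of_nonneg_ae (Eventually.of_forall hp)
        (by fun_prop : Measurable fun w => h w + C).aestronglyMeasurable]
  have i1 : IntegrableOn (fun x : C2 => ‖x‖ ^ 2 * h (‖x 0‖ ^ 2 / ‖x‖ ^ 2)) BB := by
    apply Measure.integrableOn_of_bounded BB_fin m2.aestronglyMeasurable (M := C)
    filter_upwards [ae_restrict_mem BB_meas] with y hy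
    have hy' := mem_closedBall_zero_iff.1 hy
    rw [Real.norm_eq_abs, abs_mul, abs_of_nonneg (by positivity)]
    calc ‖y‖ ^ 2 * |h (‖y 0‖ ^ 2 / ‖y‖ ^ 2)| ≤ 1 * C :=
          mul_le_mul (pow_le_one₀ (norm_nonneg _) hy') (hb _) (abs_nonneg _) zero_le_one
      _ = C := one_mul C
  have i2 : IntegrableOn (fun x : C2 => ‖x‖ ^ 2 * C) BB :=
    (by fun_prop : Continuous fun x : C2 => ‖x‖ ^ 2 * C).continuousOn.integrableOn_compact
      (isCompact_closedBall _ _)
  have k2 : ∫ x in BB, ‖x‖ ^ 2 * (h (‖x 0‖ ^ 2 / ‖x‖ ^ 2) + C)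
      = (∫ x in BB, ‖x‖ ^ 2 * h (‖x 0‖ ^ 2 / ‖x‖ ^ 2)) + ∫ x in BB, ‖x‖ ^ 2 * C := by
    rw [← integral_add i1 i2]
    congr 1
    funext x
    ring
  have j1 : IntervalIntegrable h volume 0 1 := by
    rw [intervalIntegrable_iff]
    apply Measure.integrableOn_of_bounded (M := C) (by simp) hm.aestronglyMeasurable
    exact Eventually.of_forall fun w => by rw [Real.norm_eq_abs]; exact hb w
  rw [k2, intervalIntegral.integral_add j1 (by simp), integral_mul_const, sq_ball] at k1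
  simp at k1
  linarith

/-! ### The functional `Φ ↦ ∫_B ‖x‖² Φ(x/‖x‖) dx` -/

noncomputable def LL (Φ : C2 → ℝ) : ℝ := ∫ x in BB, hom2 Φ x

theorem LL_congr {Φ Ψ : C2 → ℝ} (h : ∀ y, ‖y‖ = 1 → Φ y = Ψ y) : LL Φ = LL Ψ := by
  unfold LL
  congr 1
  funext y
  unfold hom2
  by_cases h0 : y = 0
  · simp [h0]
  · rw [h _ (norm_unit h0)]

theorem LL_add {Φ Ψ : C2 → ℝ} (h1 : Nice Φ) (h2 : Nice Ψ) : LL (fun y => Φ y + Ψ y) = LL Φ + LL Ψ := by
  unfold LL
  rw [← integral_add (hom2_integrable h1) (hom2_integrable h2)]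
  congr 1
  funext y
  unfold hom2
  ring

theorem LL_smul (a : ℝ) (Φ : C2 → ℝ) : LL (fun y => a * Φ y) = a * LL Φ := by
  unfold LL
  rw [← integral_const_mul]
  congr 1
  funext y
  unfold hom2
  ring

theorem LL_iso (T : C2 ≃ₗᵢ[ℝ] C2) (Φ : C2 → ℝ) : LL (fun y => Φ (T y)) = LL Φ := by
  unfold LL
  rw [← ball_iso T (hom2 Φ)]
  congr 1
  funext y
  unfold hom2
  rw [T.norm_map, ← map_smul]

theorem LL_rad {Φ : C2 → ℝ} {h : ℝ → ℝ} (hm : Measurable h) {C : ℝ} (hb : ∀ w, |h w| ≤ C)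
    (hΦ : ∀ y, ‖y‖ = 1 → Φ y = h (‖y 0‖ ^ 2)) : LL Φ = π ^ 2 / 3 * ∫ w in (0:ℝ)..1, h w := by
  rw [← int_rad hm hb]
  unfold LL
  congr 1
  funext y
  unfold hom2
  by_cases h0 : y = 0
  · simp [h0]
  · rw [hΦ _ (norm_unit h0)]
    congr 2
    rw [PiLp.smul_apply, norm_smul, norm_inv, norm_norm, mul_pow, inv_pow]
    ring

theorem LL_rad' {Φ : C2 → ℝ} {h : ℝ → ℝ} (hc : Continuous h)
    (hΦ : ∀ y, ‖y‖ = 1 → Φ y = h (‖y 0‖ ^ 2)) : LL Φ = π ^ 2 / 3 * ∫ w in (0:ℝ)..1, h w := by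
  obtain ⟨C, hC⟩ := (isCompact_Icc (a := (0:ℝ)) (b := 1)).exists_bound_of_continuousOn hc.continuousOn
  have hC0 : 0 ≤ C := (norm_nonneg _).trans (hC 0 ⟨le_rfl, zero_le_one⟩)
  set h' : ℝ → ℝ := (Icc (0:ℝ) 1).indicator h with hh'
  have h1 : Measurable h' := hc.measurable.indicator measurableSet_Icc
  have h2 : ∀ w, |h' w| ≤ C := by
    intro w
    by_cases hw : w ∈ Icc (0:ℝ) 1
    · rw [hh', indicator_of_mem hw]; exact hC w hw
    · rw [hh', indicator_of_notMem hw]; simpa using hC0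
  have h3 : ∀ y : C2, ‖y‖ = 1 → Φ y = h' (‖y 0‖ ^ 2) := by
    intro y hy
    have h4 : ‖y 0‖ ^ 2 ∈ Icc (0:ℝ) 1 := by
      have := norm_sq_C2 y
      rw [hy] at this
      exact ⟨by positivity, by nlinarith [sq_nonneg ‖y 1‖]⟩
    rw [hh', indicator_of_mem h4, hΦ y hy]
  rw [LL_rad h1 h2 h3]
  congr 1
  apply intervalIntegral.integral_congr
  intro w hw
  rw [uIcc_of_le zero_le_one] at hw
  rw [hh']
  exact indicator_of_mem hw h

/-- the rotation of the first coordinate -/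
noncomputable def phaseL {c : ℂ} (hc : ‖c‖ = 1) : C2 ≃ₗᵢ[ℝ] C2 :=
  LinearIsometry.toLinearIsometryEquiv
    ⟨{ toFun := fun x => !₂[c * x 0, x 1]
       map_add' := fun x y => by
        ext i
        fin_cases i
        · simp; ring
        · simp
       map_smul' := fun r x => by
        ext i
        fin_cases i
        · simp; ring
        · simp }, fun x => by
      have h : ‖(!₂[c * x 0, x 1] : C2)‖ ^ 2 = ‖x‖ ^ 2 := by
        rw [norm_sq_C2, norm_sq_C2]
        simp [hc]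
      exact (sq_eq_sq₀ (norm_nonneg _) (norm_nonneg _)).1 h⟩ rfl

theorem phaseL_0 {c : ℂ} (hc : ‖c‖ = 1) (x : C2) : (phaseL hc x) 0 = c * x 0 := rfl

theorem phaseL_1 {c : ℂ} (hc : ‖c‖ = 1) (x : C2) : (phaseL hc x) 1 = x 1 := rfl

/-- averaging a squared real part over phases -/
theorem LL_half {T : C2 ≃ₗᵢ[ℝ] C2} {ω : C2 → ℝ} {u : C2 → ℂ} (hω : ∀ y, ω (T y) = ω y)
    (hu : ∀ y, u (T y) = Complex.I * u y ∨ u (T y) = -(Complex.I * u y))
    (h1 : Nice fun y => ω y * (u y).re ^ 2) (h2 : Nice fun y => ω y * (u y).im ^ 2) :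
    LL (fun y => ω y * (u y).re ^ 2) = LL (fun y => ω y * ‖u y‖ ^ 2) / 2 := by
  have e1 : LL (fun y => ω y * (u y).re ^ 2) = LL (fun y => ω y * (u y).im ^ 2) := by
    rw [← LL_iso T (fun y => ω y * (u y).re ^ 2)]
    apply LL_congr
    intro y _
    rw [hω]
    rcases hu y with h | h <;> rw [h] <;> simp
  have e2 : LL (fun y => ω y * ‖u y‖ ^ 2)
      = LL (fun y => ω y * (u y).re ^ 2) + LL (fun y => ω y * (u y).im ^ 2) := by
    rw [← LL_add h1 h2]
    apply LL_congr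
    intro y _
    rw [← Complex.normSq_eq_norm_sq, Complex.normSq_apply]
    ring
  rw [e2, ← e1]
  ring

end Run7.h549
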