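import Pool.Agent.Run7.h549.Frame

set_option maxHeartbeats 400000
open MeasureTheory Set Filter Topology
open scoped ENNReal Real

namespace Run7.h549

theorem lint_normsq {F : ℝ → ℝ≥0∞} (hF : Measurable F) :
    ∫⁻ ζ : ℂ, F (‖ζ‖ ^ 2) = ENNReal.ofReal π * ∫⁻ s in Ioi (0:ℝ), F s := by
  rw [← Complex.lintegral_comp_polarCoord_symm]
  have e1 : ∀ p ∈ polarCoord.target, ENNReal.ofReal p.1 • F (‖Complex.polarCoord.symm p‖ ^ 2)
      = ENNReal.ofReal p.1 * F (p.1 ^ 2) := by
    intro p hp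
    have hp1 : 0 < p.1 := hp.1
    rw [Complex.norm_polarCoord_symm, abs_of_pos hp1, smul_eq_mul]
  rw [setLIntegral_congr_fun polarCoord.open_target.measurableSet e1]
  have e2 : polarCoord.target = Ioi (0:ℝ) ×ˢ Ioo (-π) π := rfl
  rw [e2, Measure.volume_eq_prod, ← Measure.prod_restrict]
  rw [lintegral_prod _ (by
    apply Measurable.aemeasurable
    fun_prop)]
  simp only [lintegral_const, Measure.restrict_apply_univ, Real.volume_Ioo]
  rw [lintegral_mul_const _ (by fun_prop)]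
  have e3 : ∫⁻ s in Ioi (0:ℝ), F s = ∫⁻ r in Ioi (0:ℝ), ENNReal.ofReal (2 * r) * F (r ^ 2) := by
    have himg : (fun r : ℝ => r ^ 2) '' Ioi 0 = Ioi 0 := by
      ext s
      simp only [mem_image, mem_Ioi]
      constructor
      · rintro ⟨r, hr, rfl⟩; positivity
      · intro hs
        exact ⟨√s, Real.sqrt_pos.2 hs, Real.sq_sqrt hs.le⟩
    conv_lhs => rw [← himg]
    rw [lintegral_image_eq_lintegral_deriv_mul_of_monotoneOn (f := fun r : ℝ => r ^ 2)
      (f' := fun r => 2 * r) measurableSet_Ioi]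
    · intro x _
      have := (hasDerivAt_pow 2 x).hasDerivWithinAt (s := Ioi 0)
      simpa using this
    · intro x hx y hy hxy
      simp only
      have : (0:ℝ) < x := hx
      gcongr
  rw [e3]
  have e4 : ∀ r ∈ Ioi (0:ℝ), ENNReal.ofReal (2 * r) * F (r ^ 2)
      = 2 * (ENNReal.ofReal r * F (r ^ 2)) := by
    intro r _
    rw [ENNReal.ofReal_mul (by norm_num), mul_assoc]
    simp
  rw [setLIntegral_congr_fun measurableSet_Ioi e4, lintegral_const_mul _ (by fun_prop)]
  have e5 : ENNReal.ofReal (π - -π) = ENNReal.ofReal π * 2 := by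
    rw [show π - -π = π * 2 by ring, ENNReal.ofReal_mul Real.pi_pos.le]
    simp
  rw [e5]
  ring

theorem lint_C2 {F : ℝ → ℝ → ℝ≥0∞} (hF : Measurable (Function.uncurry F)) :
    ∫⁻ x : C2, F (‖x 0‖ ^ 2) (‖x 1‖ ^ 2)
      = ENNReal.ofReal (π ^ 2) * ∫⁻ s in Ioi (0:ℝ), ∫⁻ t in Ioi (0:ℝ), F s t := by
  set e : C2 := !₂[1, 0] with he
  have hn : ‖e‖ = 1 := by
    have : ‖e‖ ^ 2 = 1 := by rw [norm_sq_C2]; simp [he]
    nlinarith [norm_nonneg e]
  have hmp := mp_frame e hn
  have hG : Measurable (fun x : C2 => F (‖x 0‖ ^ 2) (‖x 1‖ ^ 2)) := by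
    apply hF.comp (g := Function.uncurry F) (f := fun x : C2 => (‖x 0‖ ^ 2, ‖x 1‖ ^ 2))
    fun_prop
  rw [← hmp.lintegral_comp hG]
  have h0 : ∀ q : ℂ × ℂ, (q.1 • e + q.2 • jj e) 0 = q.1 := by
    intro q; simp [he, jj]
  have h1 : ∀ q : ℂ × ℂ, (q.1 • e + q.2 • jj e) 1 = q.2 := by
    intro q; simp [he, jj]
  simp only [h0, h1]
  rw [Measure.volume_eq_prod, lintegral_prod _ (by
    apply Measurable.aemeasurable
    apply hF.comp (g := Function.uncurry F) (f := fun x : ℂ × ℂ => (‖x.1‖ ^ 2, ‖x.2‖ ^ 2))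
    fun_prop)]
  have i1 : ∀ p : ℂ, ∫⁻ η : ℂ, F (‖p‖ ^ 2) (‖η‖ ^ 2)
      = ENNReal.ofReal π * ∫⁻ t in Ioi (0:ℝ), F (‖p‖ ^ 2) t := by
    intro p
    exact lint_normsq (F := F (‖p‖ ^ 2)) (hF.comp (by fun_prop : Measurable fun t : ℝ => (‖p‖ ^ 2, t)))
  simp only [i1]
  have hm0 : Measurable (fun s : ℝ => ∫⁻ t in Ioi (0:ℝ), F s t) :=
    Measurable.lintegral_prod_right' (ν := volume.restrict (Ioi (0:ℝ))) hF
  have hm : Measurable (fun s : ℝ => ENNReal.ofReal π * ∫⁻ t in Ioi (0:ℝ), F s t) :=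
    hm0.const_mul _
  rw [lint_normsq (F := fun s => ENNReal.ofReal π * ∫⁻ t in Ioi (0:ℝ), F s t) hm,
    lintegral_const_mul _ hm0,
    ← mul_assoc, ← ENNReal.ofReal_mul Real.pi_pos.le, sq]

theorem abs_int {σ c : ℝ} (h0 : 0 ≤ c) (h1 : c ≤ σ) :
    ∫ s in (0:ℝ)..σ, |s - c| = (c ^ 2 + (σ - c) ^ 2) / 2 := by
  rw [← intervalIntegral.integral_add_adjacent_intervals (b := c)
    ((by fun_prop : Continuous fun s : ℝ => |s - c|).intervalIntegrable _ _)
    ((by fun_prop : Continuous fun s : ℝ => |s - c|).intervalIntegrable _ _)]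
  have e1 : ∫ s in (0:ℝ)..c, |s - c| = ∫ s in (0:ℝ)..c, (c - s) := by
    apply intervalIntegral.integral_congr
    intro s hs
    rw [uIcc_of_le h0] at hs
    simp only
    rw [abs_of_nonpos (by linarith [hs.2])]; ring
  have e2 : ∫ s in c..σ, |s - c| = ∫ s in c..σ, (s - c) := by
    apply intervalIntegral.integral_congr
    intro s hs
    rw [uIcc_of_le h1] at hs
    simp only
    rw [abs_of_nonneg (by linarith [hs.1])]
  rw [e1, e2, intervalIntegral.integral_sub (by simp) (by simp),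
    intervalIntegral.integral_sub (by simp) (by simp)]
  simp
  ring

theorem lint_abs {σ c : ℝ} (h0 : 0 ≤ c) (h1 : c ≤ σ) :
    ∫⁻ s in Ioc (0:ℝ) σ, ENNReal.ofReal |s - c| = ENNReal.ofReal ((c ^ 2 + (σ - c) ^ 2) / 2) := by
  rw [← abs_int h0 h1, intervalIntegral.integral_of_le (h0.trans h1),
    ofReal_integral_eq_lintegral_ofReal]
  · exact (by fun_prop : Continuous fun s : ℝ => |s - c|).integrableOn_Ioc
  · exact Eventually.of_forall fun _ => abs_nonneg _

/-- the integral over the triangle -/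
theorem lint_triangle {p q : ℝ} (hp : 0 ≤ p) (hq : 0 ≤ q) (hpq : p + q = 1) :
    ∫⁻ s in Ioi (0:ℝ), ∫⁻ t in Ioi (0:ℝ), ENNReal.ofReal (if s + t ≤ 1 then |p * s - q * t| else 0)
      = ENNReal.ofReal ((p ^ 2 + q ^ 2) / 6) := by
  have e1 : ∀ s : ℝ, ∫⁻ t in Ioi (0:ℝ), ENNReal.ofReal (if s + t ≤ 1 then |p * s - q * t| else 0)
      = ∫⁻ σ, ENNReal.ofReal (if s < σ ∧ σ ≤ 1 then |s - q * σ| else 0) := by
    intro s
    rw [← lintegral_add_left_eq_self (fun σ => ENNReal.ofReal (if s < σ ∧ σ ≤ 1 then |s - q * σ| else 0)) s,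
      ← lintegral_indicator measurableSet_Ioi]
    congr 1
    funext t
    by_cases ht : 0 < t
    · rw [indicator_of_mem (show t ∈ Ioi (0:ℝ) from ht)]
      congr 1
      have : s < s + t := by linarith
      simp only [this, true_and]
      congr 2
      have : p = 1 - q := by linarith
      rw [this]; ring
    · rw [indicator_of_notMem (show t ∉ Ioi (0:ℝ) from ht)]
      have : ¬ (s < s + t) := by linarith
      simp [this]
  simp only [e1]
  rw [← lintegral_indicator measurableSet_Ioi]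
  have e2 : ∀ s : ℝ, (Ioi (0:ℝ)).indicator (fun s => ∫⁻ σ, ENNReal.ofReal
      (if s < σ ∧ σ ≤ 1 then |s - q * σ| else 0)) s
      = ∫⁻ σ, ENNReal.ofReal (if 0 < s ∧ s < σ ∧ σ ≤ 1 then |s - q * σ| else 0) := by
    intro s
    by_cases hs : 0 < s
    · rw [indicator_of_mem (show s ∈ Ioi (0:ℝ) from hs)]
      simp only [hs, true_and]
    · rw [indicator_of_notMem (show s ∉ Ioi (0:ℝ) from hs)]
      simp [hs]
  simp only [e2]
  rw [lintegral_lintegral_swap (by
    apply Measurable.aemeasurable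
    apply ENNReal.measurable_ofReal.comp
    apply Measurable.ite _ (by fun_prop) measurable_const
    apply MeasurableSet.inter
    · exact measurableSet_lt measurable_const measurable_fst
    apply MeasurableSet.inter
    · exact measurableSet_lt measurable_fst measurable_snd
    · exact measurableSet_le measurable_snd measurable_const)]
  have e3 : ∀ σ : ℝ, ∫⁻ s, ENNReal.ofReal (if 0 < s ∧ s < σ ∧ σ ≤ 1 then |s - q * σ| else 0)
      = (Ioc (0:ℝ) 1).indicator (fun σ => ENNReal.ofReal ((p ^ 2 + q ^ 2) / 2 * σ ^ 2)) σ := by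
    intro σ
    by_cases hσ : σ ∈ Ioc (0:ℝ) 1
    · rw [indicator_of_mem hσ]
      have h1 := lint_abs (σ := σ) (c := q * σ) (mul_nonneg hq hσ.1.le)
        (by nlinarith [hσ.1, hσ.2])
      have h2 : ((q * σ) ^ 2 + (σ - q * σ) ^ 2) / 2 = (p ^ 2 + q ^ 2) / 2 * σ ^ 2 := by
        have : p = 1 - q := by linarith
        rw [this]; ring
      rw [← h2, ← h1, setLIntegral_congr Ioo_ae_eq_Ioc.symm, ← lintegral_indicator measurableSet_Ioo]
      congr 1
      funext s
      by_cases hs : s ∈ Ioo 0 σ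
      · rw [indicator_of_mem hs, if_pos ⟨hs.1, hs.2, hσ.2⟩]
      · rw [indicator_of_notMem hs, if_neg]
        · simp
        · rintro ⟨a, b, _⟩; exact hs ⟨a, b⟩
    · rw [indicator_of_notMem hσ]
      have : ∀ s : ℝ, ¬ (0 < s ∧ s < σ ∧ σ ≤ 1) := by
        rintro s ⟨a, b, c⟩
        exact hσ ⟨lt_trans a b, c⟩
      simp [this]
  simp only [e3]
  rw [lintegral_indicator measurableSet_Ioc, ← ofReal_integral_eq_lintegral_ofReal]
  · congr 1
    rw [← intervalIntegral.integral_of_le zero_le_one, intervalIntegral.integral_const_mul, integral_pow]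
    norm_num
    ring
  · exact (by fun_prop : Continuous fun σ : ℝ => (p ^ 2 + q ^ 2) / 2 * σ ^ 2).integrableOn_Ioc
  · exact Eventually.of_forall fun σ => by positivity

end Run7.h549
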