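import Mathlib

set_option maxHeartbeats 400000

open MeasureTheory

namespace Run7.h549.Rot

abbrev E3 := EuclideanSpace ℝ (Fin 3)

/-- a continuous function with `F s + F t + F (-s-t) = 0` whenever `s² + s t + t² ≤ 3/4` is linear on `[-1,1]`. -/
theorem cauchy_ell (F : ℝ → ℝ) (hF : Continuous F)
    (h : ∀ s t : ℝ, s ^ 2 + s * t + t ^ 2 ≤ 3 / 4 → F s + F t + F (-s - t) = 0) :
    ∀ s : ℝ, -1 ≤ s → s ≤ 1 → F s = s * F 1 := by
  set D : ℝ → ℝ := fun t => F t - t * F 1 with hD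
  have hDc : Continuous D := by fun_prop
  have hDe : ∀ s t : ℝ, s ^ 2 + s * t + t ^ 2 ≤ 3 / 4 → D s + D t + D (-s - t) = 0 := by
    intro s t hst
    have := h s t hst
    simp only [hD]
    linear_combination this
  have hD1 : D 1 = 0 := by simp [hD]
  have hDm : D (-1 / 2) = 0 := by
    have := hDe (-1 / 2) (-1 / 2) (by norm_num)
    have e : (-(-1 / 2 : ℝ) - (-1 / 2)) = 1 := by norm_num
    rw [e, hD1] at this
    linarith
  have hD0 : D 0 = 0 := by
    have := hDe 0 0 (by norm_num)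
    have e : (-(0 : ℝ) - 0) = 0 := by norm_num
    rw [e] at this
    linarith
  have hDp : D (1 / 2) = 0 := by
    have := hDe (1 / 2) (-1 / 2) (by norm_num)
    have e : (-(1 / 2 : ℝ) - (-1 / 2)) = 0 := by norm_num
    rw [e, hD0, hDm] at this
    linarith
  obtain ⟨t0, ht0, hmax⟩ := (isCompact_Icc (a := (-1 : ℝ)) (b := 1)).exists_isMaxOn
    (Set.nonempty_Icc.mpr (by norm_num)) (f := fun t => |D t|) (by fun_prop)
  have hmax' : ∀ t : ℝ, -1 ≤ t → t ≤ 1 → |D t| ≤ |D t0| := fun t h1 h2 => hmax ⟨h1, h2⟩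
  -- the small case
  have small : ∀ t : ℝ, |t| ≤ 1 / 2 → |D t| = |D t0| → |D t0| = 0 := by
    intro t ht he
    have ht' := abs_le.mp ht
    have h1 := hDe t t (by nlinarith [ht'.1, ht'.2])
    have h2 := hmax' (-t - t) (by linarith [ht'.2]) (by linarith [ht'.1])
    have h3 : D (-t - t) = -(2 * D t) := by linarith
    rw [h3, abs_neg, abs_mul, he] at h2
    have : |(2 : ℝ)| = 2 := by norm_num
    rw [this] at h2
    have := abs_nonneg (D t0)
    linarith
  have hM : |D t0| = 0 := by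
    rcases le_or_gt |t0| (1 / 2) with hle | hgt
    · exact small t0 hle rfl
    · rcases lt_abs.mp hgt with hpos | hneg
      · have h1 := hDe t0 (-1 / 2) (by nlinarith [ht0.2, hpos])
        rw [hDm] at h1
        have h2 : D (-t0 - (-1 / 2)) = - D t0 := by linarith
        refine small (-t0 - (-1 / 2)) ?_ (by rw [h2, abs_neg])
        rw [abs_le]
        constructor <;> linarith [ht0.2]
      · have h1 := hDe t0 (1 / 2) (by nlinarith [ht0.1, hneg])
        rw [hDp] at h1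
        have h2 : D (-t0 - (1 / 2)) = - D t0 := by linarith
        refine small (-t0 - (1 / 2)) ?_ (by rw [h2, abs_neg])
        rw [abs_le]
        constructor <;> linarith [ht0.1]
  intro s hs1 hs2
  have := hmax' s hs1 hs2
  rw [hM] at this
  have h0 : D s = 0 := abs_nonpos_iff.mp this
  have : F s - s * F 1 = 0 := h0
  linarith

theorem exists_angle {x y R : ℝ} (hR : 0 ≤ R) (h : x ^ 2 + y ^ 2 = R ^ 2) :
    ∃ ψ : ℝ, x = R * Real.cos ψ ∧ y = R * Real.sin ψ := by
  refine ⟨Complex.arg ⟨x, y⟩, ?_, ?_⟩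
  · have hn : ‖(⟨x, y⟩ : ℂ)‖ = R := by
      rw [Complex.norm_def, Complex.normSq_mk]
      rw [show x * x + y * y = R ^ 2 by linarith]
      exact Real.sqrt_sq hR
    have := Complex.norm_mul_cos_arg (⟨x, y⟩ : ℂ)
    rw [hn] at this
    exact this.symm
  · have hn : ‖(⟨x, y⟩ : ℂ)‖ = R := by
      rw [Complex.norm_def, Complex.normSq_mk]
      rw [show x * x + y * y = R ^ 2 by linarith]
      exact Real.sqrt_sq hR
    have := Complex.norm_mul_sin_arg (⟨x, y⟩ : ℂ)
    rw [hn] at this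
    exact this.symm

/-- point with coordinates `(x,y,z)` -/
noncomputable def V (b : OrthonormalBasis (Fin 3) ℝ E3) (x y z : ℝ) : E3 := b.repr.symm !₂[x, y, z]

theorem inner_V (b : OrthonormalBasis (Fin 3) ℝ E3) (x y z x' y' z' : ℝ) :
    inner ℝ (V b x y z) (V b x' y' z') = x * x' + y * y' + z * z' := by
  unfold V
  rw [LinearIsometryEquiv.inner_map_map]
  simp [PiLp.inner_apply, Fin.sum_univ_three]
  ring

theorem norm_V (b : OrthonormalBasis (Fin 3) ℝ E3) (x y z : ℝ) :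
    ‖V b x y z‖ ^ 2 = x ^ 2 + y ^ 2 + z ^ 2 := by
  rw [← real_inner_self_eq_norm_sq, inner_V]
  ring

theorem V_add (b : OrthonormalBasis (Fin 3) ℝ E3) (x y z x' y' z' : ℝ) :
    V b x y z + V b x' y' z' = V b (x + x') (y + y') (z + z') := by
  unfold V
  rw [← map_add]
  congr 1
  ext i
  fin_cases i <;> simp

theorem V_smul (b : OrthonormalBasis (Fin 3) ℝ E3) (c x y z : ℝ) :
    c • V b x y z = V b (c * x) (c * y) (c * z) := by
  unfold V
  rw [← map_smul]
  congr 1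
  ext i
  fin_cases i <;> simp

theorem V_neg_sub (b : OrthonormalBasis (Fin 3) ℝ E3) (x y z x' y' z' : ℝ) :
    -V b x y z - V b x' y' z' = V b (-x - x') (-y - y') (-z - z') := by
  have h1 : -V b x y z = V b (-x) (-y) (-z) := by
    have := V_smul b (-1) x y z
    simpa using this
  have h2 : -V b x' y' z' = V b (-x') (-y') (-z') := by
    have := V_smul b (-1) x' y' z'
    simpa using this
  rw [sub_eq_add_neg, h1, h2, V_add]
  congr 1

theorem V_cont (b : OrthonormalBasis (Fin 3) ℝ E3) : Continuous fun p : ℝ × ℝ × ℝ => V b p.1 p.2.1 p.2.2 := by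
  unfold V
  apply b.repr.symm.continuous.comp
  apply (PiLp.continuous_toLp 2 (fun _ : Fin 3 => ℝ)).comp
  apply continuous_pi
  intro i
  fin_cases i <;> simp <;> fun_prop

theorem V_repr (b : OrthonormalBasis (Fin 3) ℝ E3) (x : E3) :
    V b (b.repr x 0) (b.repr x 1) (b.repr x 2) = x := by
  unfold V
  rw [LinearIsometryEquiv.symm_apply_eq]
  ext i
  fin_cases i <;> simp

theorem V_e2 (b : OrthonormalBasis (Fin 3) ℝ E3) : V b 0 0 1 = b 2 := by
  unfold V
  rw [LinearIsometryEquiv.symm_apply_eq, OrthonormalBasis.repr_self]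
  ext i
  fin_cases i <;> simp

/-- the circle of latitude `s` about the axis `b 2`. -/
noncomputable def circ (b : OrthonormalBasis (Fin 3) ℝ E3) (φ s : ℝ) : E3 :=
  V b (√(1 - s ^ 2) * Real.cos φ) (√(1 - s ^ 2) * Real.sin φ) s

theorem circ_norm (b : OrthonormalBasis (Fin 3) ℝ E3) (φ s : ℝ) (hs : s ^ 2 ≤ 1) :
    ‖circ b φ s‖ = 1 := by
  have h1 : ‖circ b φ s‖ ^ 2 = 1 := by
    unfold circ
    rw [norm_V]
    have h2 := Real.sq_sqrt (show 0 ≤ 1 - s ^ 2 by linarith)
    have h3 := Real.sin_sq_add_cos_sq φ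
    linear_combination (Real.sin φ ^ 2 + Real.cos φ ^ 2) * h2 + (1 - s ^ 2) * h3
  have h2 := norm_nonneg (circ b φ s)
  nlinarith

noncomputable def avg (b : OrthonormalBasis (Fin 3) ℝ E3) (g : E3 → ℝ) (s : ℝ) : ℝ :=
  ∫ φ in (0 : ℝ)..(2 * Real.pi), g (circ b φ s)

theorem circ_cont (b : OrthonormalBasis (Fin 3) ℝ E3) :
    Continuous fun p : ℝ × ℝ => circ b p.2 p.1 := by
  unfold circ
  have h := V_cont b
  exact h.comp (f := fun p : ℝ × ℝ => (√(1 - p.1 ^ 2) * Real.cos p.2, √(1 - p.1 ^ 2) * Real.sin p.2, p.1))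
    (by fun_prop)

theorem avg_cont (b : OrthonormalBasis (Fin 3) ℝ E3) (g : E3 → ℝ) (hg : Continuous g) :
    Continuous (avg b g) := by
  unfold avg
  apply intervalIntegral.continuous_parametric_intervalIntegral_of_continuous'
  exact hg.comp (circ_cont b)

theorem avg_shift (b : OrthonormalBasis (Fin 3) ℝ E3) (g : E3 → ℝ) (ψ s : ℝ) :
    ∫ φ in (0 : ℝ)..(2 * Real.pi), g (circ b (φ + ψ) s) = avg b g s := by
  unfold avg
  rw [intervalIntegral.integral_comp_add_right (fun φ => g (circ b φ s)) ψ]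
  have hp : Function.Periodic (fun φ => g (circ b φ s)) (2 * Real.pi) := by
    intro φ
    simp [circ, Real.cos_add_two_pi, Real.sin_add_two_pi]
  have := hp.intervalIntegral_add_eq ψ 0
  rw [zero_add] at this ⊢
  rw [← this, add_comm ψ]

theorem triple (b : OrthonormalBasis (Fin 3) ℝ E3) (s t : ℝ) (h : s ^ 2 + s * t + t ^ 2 ≤ 3 / 4) :
    ∃ ψ ψ' : ℝ, ∀ φ : ℝ, inner ℝ (circ b φ s) (circ b (φ + ψ) t) = -(1 / 2 : ℝ) ∧
      -circ b φ s - circ b (φ + ψ) t = circ b (φ + ψ') (-s - t) := by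
  have hs : s ^ 2 ≤ 1 := by nlinarith [sq_nonneg (t + s / 2)]
  have ht : t ^ 2 ≤ 1 := by nlinarith [sq_nonneg (s + t / 2)]
  have hw : (-s - t) ^ 2 ≤ 1 := by nlinarith [sq_nonneg (s - t)]
  set a := √(1 - s ^ 2) with ha
  set c := √(1 - t ^ 2) with hc
  set d := √(1 - (-s - t) ^ 2) with hd
  have ha2 : a ^ 2 = 1 - s ^ 2 := Real.sq_sqrt (by linarith)
  have hc2 : c ^ 2 = 1 - t ^ 2 := Real.sq_sqrt (by linarith)
  have hd2 : d ^ 2 = 1 - (-s - t) ^ 2 := Real.sq_sqrt (by linarith)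
  have ha0 : 0 ≤ a := Real.sqrt_nonneg _
  have hc0 : 0 ≤ c := Real.sqrt_nonneg _
  have hd0 : 0 ≤ d := Real.sqrt_nonneg _
  have hkey : (-1 / 2 - s * t) ^ 2 ≤ (a * c) ^ 2 := by
    rw [mul_pow, ha2, hc2]
    nlinarith
  have hkey' : |-1 / 2 - s * t| ≤ a * c := abs_le_of_sq_le_sq hkey (by positivity)
  obtain ⟨ψ, hψ⟩ : ∃ ψ : ℝ, a * c * Real.cos ψ = -1 / 2 - s * t := by
    rcases eq_or_lt_of_le (show 0 ≤ a * c by positivity) with h0 | hpos
    · refine ⟨0, ?_⟩
      rw [← h0] at hkey' ⊢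
      have := abs_nonpos_iff.mp hkey'
      rw [this]
      simp
    · refine ⟨Real.arccos ((-1 / 2 - s * t) / (a * c)), ?_⟩
      have h1 := abs_le.mp hkey'
      rw [Real.cos_arccos]
      · rw [mul_div_assoc']
        exact mul_div_cancel_left₀ _ hpos.ne'
      · rw [le_div_iff₀ hpos]; linarith
      · rw [div_le_iff₀ hpos]; linarith
  obtain ⟨ψ', h1, h2⟩ := exists_angle (x := -a - c * Real.cos ψ) (y := -(c * Real.sin ψ)) hd0 (by
    have h3 := Real.sin_sq_add_cos_sq ψ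
    rw [hd2]
    linear_combination ha2 + c ^ 2 * h3 + hc2 + 2 * hψ)
  refine ⟨ψ, ψ', fun φ => ⟨?_, ?_⟩⟩
  · unfold circ
    rw [inner_V, ← ha, ← hc, Real.cos_add, Real.sin_add]
    have h3 := Real.sin_sq_add_cos_sq φ
    linear_combination hψ + a * c * Real.cos ψ * h3
  · unfold circ
    rw [V_neg_sub, ← ha, ← hc, ← hd, Real.cos_add, Real.sin_add, Real.cos_add, Real.sin_add]
    congr 1
    · linear_combination Real.cos φ * h1 - Real.sin φ * h2
    · linear_combination Real.sin φ * h1 + Real.cos φ * h2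

theorem avg_eq (b : OrthonormalBasis (Fin 3) ℝ E3) (g : E3 → ℝ) (hg : Continuous g)
    (h3 : ∀ p q : E3, ‖p‖ = 1 → ‖q‖ = 1 → inner ℝ p q = -(1 / 2 : ℝ) → g p + g q + g (-p - q) = 0)
    (s t : ℝ) (h : s ^ 2 + s * t + t ^ 2 ≤ 3 / 4) :
    avg b g s + avg b g t + avg b g (-s - t) = 0 := by
  obtain ⟨ψ, ψ', hp⟩ := triple b s t h
  have hs : s ^ 2 ≤ 1 := by nlinarith [sq_nonneg (t + s / 2)]
  have ht : t ^ 2 ≤ 1 := by nlinarith [sq_nonneg (s + t / 2)]
  rw [← avg_shift b g ψ t, ← avg_shift b g ψ' (-s - t)]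
  unfold avg
  have c1 : Continuous fun φ => g (circ b φ s) :=
    hg.comp ((circ_cont b).comp (f := fun φ : ℝ => (s, φ)) (by fun_prop))
  have c2 : Continuous fun φ => g (circ b (φ + ψ) t) :=
    hg.comp ((circ_cont b).comp (f := fun φ : ℝ => (t, φ + ψ)) (by fun_prop))
  have c3 : Continuous fun φ => g (circ b (φ + ψ') (-s - t)) :=
    hg.comp ((circ_cont b).comp (f := fun φ : ℝ => (-s - t, φ + ψ')) (by fun_prop))
  have c12 : Continuous fun φ => g (circ b φ s) + g (circ b (φ + ψ) t) := c1.add c2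
  rw [← intervalIntegral.integral_add (c1.intervalIntegrable _ _) (c2.intervalIntegrable _ _),
    ← intervalIntegral.integral_add (c12.intervalIntegrable _ _) (c3.intervalIntegrable _ _)]
  rw [intervalIntegral.integral_congr (g := fun _ => (0 : ℝ))]
  · simp
  · intro φ _
    obtain ⟨h4, h5⟩ := hp φ
    have := h3 (circ b φ s) (circ b (φ + ψ) t) (circ_norm b φ s hs) (circ_norm b _ t ht) h4
    rw [h5] at this
    exact this

theorem avg_lin (b : OrthonormalBasis (Fin 3) ℝ E3) (g : E3 → ℝ) (hg : Continuous g)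
    (h3 : ∀ p q : E3, ‖p‖ = 1 → ‖q‖ = 1 → inner ℝ p q = -(1 / 2 : ℝ) → g p + g q + g (-p - q) = 0)
    (s : ℝ) (h1 : -1 ≤ s) (h2 : s ≤ 1) :
    avg b g s = s * (2 * Real.pi * g (b 2)) := by
  rw [cauchy_ell (avg b g) (avg_cont b g hg) (avg_eq b g hg h3) s h1 h2]
  congr 1
  unfold avg circ
  simp [V_e2]

end Run7.h549.Rot
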