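import Pool.Agent.Run7.h549.Rot1

set_option maxHeartbeats 400000

open MeasureTheory

namespace Run7.h549.Rot

noncomputable def rotLin (φ : ℝ) : E3 →ₗ[ℝ] E3 where
  toFun x := !₂[Real.cos φ * x 0 - Real.sin φ * x 1, Real.sin φ * x 0 + Real.cos φ * x 1, x 2]
  map_add' x y := by
    ext i
    fin_cases i <;> simp <;> ring
  map_smul' c x := by
    ext i
    fin_cases i <;> simp <;> ring

noncomputable def rot0 (φ : ℝ) : E3 ≃ₗᵢ[ℝ] E3 :=
  (LinearIsometry.mk (rotLin φ) (by
    intro x
    rw [EuclideanSpace.norm_eq, EuclideanSpace.norm_eq]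
    congr 1
    have h3 := Real.sin_sq_add_cos_sq φ
    simp only [rotLin, LinearMap.coe_mk, AddHom.coe_mk, Real.norm_eq_abs, sq_abs, Fin.sum_univ_three]
    simp
    linear_combination (x 0 ^ 2 + x 1 ^ 2) * h3)).toLinearIsometryEquiv rfl

theorem rot0_apply (φ : ℝ) (x : E3) :
    rot0 φ x = !₂[Real.cos φ * x 0 - Real.sin φ * x 1, Real.sin φ * x 0 + Real.cos φ * x 1, x 2] := rfl

noncomputable def rotb (b : OrthonormalBasis (Fin 3) ℝ E3) (φ : ℝ) : E3 ≃ₗᵢ[ℝ] E3 :=
  b.repr.trans ((rot0 φ).trans b.repr.symm)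

theorem rotb_apply (b : OrthonormalBasis (Fin 3) ℝ E3) (φ : ℝ) (x : E3) :
    rotb b φ x = V b (Real.cos φ * b.repr x 0 - Real.sin φ * b.repr x 1)
      (Real.sin φ * b.repr x 0 + Real.cos φ * b.repr x 1) (b.repr x 2) := rfl

theorem repr_V (b : OrthonormalBasis (Fin 3) ℝ E3) (x y z : ℝ) : b.repr (V b x y z) = !₂[x, y, z] := by
  unfold V
  exact b.repr.apply_symm_apply _

theorem repr_rotb (b : OrthonormalBasis (Fin 3) ℝ E3) (φ : ℝ) (x : E3) :
    b.repr (rotb b φ x) 2 = b.repr x 2 := by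
  rw [rotb_apply, repr_V]
  simp

theorem normsq_repr (b : OrthonormalBasis (Fin 3) ℝ E3) (x : E3) :
    ‖x‖ ^ 2 = b.repr x 0 ^ 2 + b.repr x 1 ^ 2 + b.repr x 2 ^ 2 := by
  conv_lhs => rw [← V_repr b x]
  rw [norm_V]

theorem int_rotb (b : OrthonormalBasis (Fin 3) ℝ E3) (g : E3 → ℝ) (hg : Continuous g)
    (hom : ∀ (c : ℝ) (x : E3), 0 ≤ c → g (c • x) = c * g x)
    (h3 : ∀ p q : E3, ‖p‖ = 1 → ‖q‖ = 1 → inner ℝ p q = -(1 / 2 : ℝ) → g p + g q + g (-p - q) = 0)
    (x : E3) :
    ∫ φ in (0 : ℝ)..(2 * Real.pi), g (rotb b φ x) = b.repr x 2 * (2 * Real.pi * g (b 2)) := by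
  rcases eq_or_ne x 0 with rfl | hx
  · have h0 : g 0 = 0 := by
      have := hom 0 0 le_rfl
      simpa using this
    simp [h0]
  · have hpos : 0 < ‖x‖ := norm_pos_iff.mpr hx
    have hn := normsq_repr b x
    set ρ := ‖x‖ with hρ
    set s := b.repr x 2 / ρ with hs
    have hs2 : b.repr x 2 = ρ * s := by
      rw [hs]; field_simp
    have hs1 : s ^ 2 ≤ 1 := by
      rw [hs, div_pow, div_le_one (by positivity)]
      nlinarith [sq_nonneg (b.repr x 0), sq_nonneg (b.repr x 1)]
    have hq := Real.sq_sqrt (show 0 ≤ 1 - s ^ 2 by linarith)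
    obtain ⟨ψ, h1, h2⟩ := exists_angle (x := b.repr x 0) (y := b.repr x 1)
      (R := ρ * √(1 - s ^ 2)) (by positivity) (by
        rw [mul_pow, hq]
        rw [hs2] at hn
        linear_combination -hn)
    have hr : ∀ φ : ℝ, rotb b φ x = ρ • circ b (φ + ψ) s := by
      intro φ
      rw [rotb_apply]
      unfold circ
      rw [V_smul, h1, h2, hs2, Real.cos_add, Real.sin_add]
      congr 1 <;> ring
    simp_rw [hr, hom _ _ hpos.le]
    rw [intervalIntegral.integral_const_mul, avg_shift, avg_lin b g hg h3 s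
      (by nlinarith) (by nlinarith), hs2]
    ring

theorem rotb_cont (b : OrthonormalBasis (Fin 3) ℝ E3) :
    Continuous fun p : ℝ × E3 => rotb b p.1 p.2 := by
  have h := V_cont b
  have c : ∀ i, Continuous fun x : E3 => b.repr x i := by
    intro i
    exact (PiLp.continuous_apply 2 _ i).comp b.repr.continuous
  have c0 := c 0
  have c1 := c 1
  have c2 := c 2
  exact h.comp (f := fun p : ℝ × E3 => (Real.cos p.1 * b.repr p.2 0 - Real.sin p.1 * b.repr p.2 1,
      Real.sin p.1 * b.repr p.2 0 + Real.cos p.1 * b.repr p.2 1, b.repr p.2 2))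
    (by fun_prop)

theorem ball_int (b : OrthonormalBasis (Fin 3) ℝ E3) (g : E3 → ℝ) (hg : Continuous g)
    (hom : ∀ (c : ℝ) (x : E3), 0 ≤ c → g (c • x) = c * g x)
    (h3 : ∀ p q : E3, ‖p‖ = 1 → ‖q‖ = 1 → inner ℝ p q = -(1 / 2 : ℝ) → g p + g q + g (-p - q) = 0) :
    ∫ x in Metric.closedBall (0 : E3) 1, g x * b.repr x 2 =
      g (b 2) * ∫ x in Metric.closedBall (0 : E3) 1, (b.repr x 2) ^ 2 := by
  have c2 : Continuous fun x : E3 => b.repr x 2 :=
    (PiLp.continuous_apply 2 _ 2).comp b.repr.continuous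
  have hinv : ∀ φ : ℝ, ∫ x in Metric.closedBall (0 : E3) 1, g (rotb b φ x) * b.repr x 2 =
      ∫ x in Metric.closedBall (0 : E3) 1, g x * b.repr x 2 := by
    intro φ
    have hmp := (rotb b φ).measurePreserving
    have := hmp.setIntegral_preimage_emb (rotb b φ).toHomeomorph.measurableEmbedding
      (fun x => g x * b.repr x 2) (Metric.closedBall (0 : E3) 1)
    rw [← this]
    have hpre : (rotb b φ) ⁻¹' (Metric.closedBall (0 : E3) 1) = Metric.closedBall (0 : E3) 1 := by
      ext x
      simp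
    rw [hpre]
    simp_rw [repr_rotb]
  have hcont : Continuous (Function.uncurry fun (φ : ℝ) (x : E3) => g (rotb b φ x) * b.repr x 2) := by
    have := rotb_cont b
    exact (hg.comp this).mul (c2.comp continuous_snd)
  have hint : Integrable (Function.uncurry fun (φ : ℝ) (x : E3) => g (rotb b φ x) * b.repr x 2)
      ((volume.restrict (Set.Ioc 0 (2 * Real.pi))).prod
        (volume.restrict (Metric.closedBall (0 : E3) 1))) := by
    rw [Measure.prod_restrict]
    have h1 : IntegrableOn (Function.uncurry fun (φ : ℝ) (x : E3) => g (rotb b φ x) * b.repr x 2)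
        (Set.Icc 0 (2 * Real.pi) ×ˢ Metric.closedBall (0 : E3) 1) (volume.prod volume) :=
      hcont.continuousOn.integrableOn_compact
        (isCompact_Icc.prod (isCompact_closedBall (0 : E3) 1))
    exact h1.mono_set (Set.prod_mono Set.Ioc_subset_Icc_self subset_rfl)
  have hswap := integral_integral_swap hint
  have hpi : (0 : ℝ) ≤ 2 * Real.pi := by positivity
  have e1 : ∫ φ in Set.Ioc 0 (2 * Real.pi), ∫ x in Metric.closedBall (0 : E3) 1,
      g (rotb b φ x) * b.repr x 2 =
      (2 * Real.pi) * ∫ x in Metric.closedBall (0 : E3) 1, g x * b.repr x 2 := by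
    simp_rw [hinv]
    rw [← intervalIntegral.integral_of_le hpi]
    simp
  have e2 : ∫ x in Metric.closedBall (0 : E3) 1, ∫ φ in Set.Ioc 0 (2 * Real.pi),
      g (rotb b φ x) * b.repr x 2 =
      (2 * Real.pi) * (g (b 2) * ∫ x in Metric.closedBall (0 : E3) 1, (b.repr x 2) ^ 2) := by
    have : ∀ x : E3, ∫ φ in Set.Ioc 0 (2 * Real.pi), g (rotb b φ x) * b.repr x 2 =
        (2 * Real.pi * g (b 2)) * (b.repr x 2) ^ 2 := by
      intro x
      rw [integral_mul_const, ← intervalIntegral.integral_of_le hpi, int_rotb b g hg hom h3]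
      ring
    simp_rw [this]
    rw [integral_const_mul]
    ring
  rw [e1, e2] at hswap
  exact mul_left_cancel₀ (by positivity) hswap

/-- The constant `∫_B y₂²`. -/
noncomputable def kap : ℝ := ∫ y in Metric.closedBall (0 : E3) 1, (y 2) ^ 2

theorem kap_eq (b : OrthonormalBasis (Fin 3) ℝ E3) :
    ∫ x in Metric.closedBall (0 : E3) 1, (b.repr x 2) ^ 2 = kap := by
  unfold kap
  have hmp := b.repr.measurePreserving
  have := hmp.setIntegral_preimage_emb b.repr.toHomeomorph.measurableEmbedding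
    (fun y : E3 => (y 2) ^ 2) (Metric.closedBall (0 : E3) 1)
  rw [← this]
  have hpre : b.repr ⁻¹' (Metric.closedBall (0 : E3) 1) = Metric.closedBall (0 : E3) 1 := by
    ext x
    simp
  rw [hpre]

theorem kap_pos : 0 < kap := by
  unfold kap
  have c2 : Continuous fun y : E3 => (y 2) ^ 2 := by fun_prop
  rw [setIntegral_pos_iff_support_of_nonneg_ae]
  · have hopen : IsOpen (Metric.ball (0 : E3) 1 ∩ {y : E3 | y 2 ≠ 0}) := by
      apply Metric.isOpen_ball.inter
      have c3 : Continuous fun y : E3 => y 2 := by fun_prop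
      exact isOpen_ne_fun c3 continuous_const
    have hne : (Metric.ball (0 : E3) 1 ∩ {y : E3 | y 2 ≠ 0}).Nonempty := by
      refine ⟨EuclideanSpace.single 2 (1 / 2 : ℝ), ?_, ?_⟩
      · simp only [Metric.mem_ball, dist_zero_right, PiLp.norm_single]
        norm_num
      · simp
    refine lt_of_lt_of_le (hopen.measure_pos volume hne) (measure_mono ?_)
    rintro y ⟨h1, h2⟩
    refine ⟨?_, Metric.ball_subset_closedBall h1⟩
    simp only [Function.mem_support]
    exact pow_ne_zero 2 h2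
  · exact Filter.Eventually.of_forall fun y => sq_nonneg _
  · exact c2.continuousOn.integrableOn_compact (isCompact_closedBall (0 : E3) 1)

/-- A continuous, positively homogeneous function which sums to `0` on every triple of coplanar unit
vectors at mutual angles `120°` is linear. -/
theorem linear_of_triples (g : E3 → ℝ) (hg : Continuous g)
    (hom : ∀ (c : ℝ) (x : E3), 0 ≤ c → g (c • x) = c * g x)
    (h3 : ∀ p q : E3, ‖p‖ = 1 → ‖q‖ = 1 → inner ℝ p q = -(1 / 2 : ℝ) → g p + g q + g (-p - q) = 0) :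
    ∃ a : E3, ∀ x, g x = inner ℝ a x := by
  set w : E3 := ∫ x in Metric.closedBall (0 : E3) 1, g x • x with hw
  have hint : Integrable (fun x : E3 => g x • x) (volume.restrict (Metric.closedBall (0 : E3) 1)) := by
    have : Continuous fun x : E3 => g x • x := hg.smul continuous_id
    exact this.continuousOn.integrableOn_compact (isCompact_closedBall (0 : E3) 1)
  have hunit : ∀ z : E3, ‖z‖ = 1 → g z = inner ℝ (kap⁻¹ • w) z := by
    intro z hz
    obtain ⟨b, hb⟩ := Orthonormal.exists_orthonormalBasis_extension_of_card_eq (𝕜 := ℝ) (E := E3)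
      (ι := Fin 3) (by simp) (v := fun _ => z) (s := {2}) (by
        constructor
        · intro i; simpa using hz
        · intro i j hij
          exact absurd (Subsingleton.elim i j) hij)
    have hb2 : b 2 = z := hb 2 rfl
    have h := ball_int b g hg hom h3
    rw [kap_eq, hb2] at h
    have h1 : ∫ x in Metric.closedBall (0 : E3) 1, g x * b.repr x 2 = inner ℝ z w := by
      rw [hw, ← integral_inner hint z]
      congr 1
      funext x
      rw [inner_smul_right, b.repr_apply_apply, hb2]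
    rw [h1] at h
    rw [inner_smul_left, real_inner_comm]
    have hk := kap_pos.ne'
    simp only [conj_trivial]
    rw [h]
    field_simp
  refine ⟨kap⁻¹ • w, fun x => ?_⟩
  rcases eq_or_ne x 0 with rfl | hx
  · have h0 : g 0 = 0 := by
      have := hom 0 0 le_rfl
      simpa using this
    simp [h0]
  · have hpos : 0 < ‖x‖ := norm_pos_iff.mpr hx
    have h1 : x = ‖x‖ • (‖x‖⁻¹ • x) := by
      rw [smul_smul, mul_inv_cancel₀ hpos.ne', one_smul]
    have h2 : ‖‖x‖⁻¹ • x‖ = 1 := by
      rw [norm_smul, norm_inv, norm_norm, inv_mul_cancel₀ hpos.ne']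
    calc g x = g (‖x‖ • (‖x‖⁻¹ • x)) := by rw [← h1]
      _ = ‖x‖ * inner ℝ (kap⁻¹ • w) (‖x‖⁻¹ • x) := by rw [hom _ _ hpos.le, hunit _ h2]
      _ = inner ℝ (kap⁻¹ • w) (‖x‖ • (‖x‖⁻¹ • x)) := (inner_smul_right _ _ _).symm
      _ = inner ℝ (kap⁻¹ • w) x := by rw [← h1]

end Run7.h549.Rot
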