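import Pool.Agent.Run7.h549.Rot2

set_option maxHeartbeats 400000

open MeasureTheory

namespace Run7.h549.Rot

theorem ob_of_pair (p q : E3) (hp : ‖p‖ = 1) (hq : ‖q‖ = 1) (hpq : inner ℝ p q = -(1 / 2 : ℝ)) :
    ∃ b : OrthonormalBasis (Fin 3) ℝ E3, b 0 = p ∧ q = (-(1 / 2 : ℝ)) • b 0 + (√3 / 2 : ℝ) • b 1 := by
  have h3 : (0 : ℝ) < √3 := Real.sqrt_pos.mpr (by norm_num)
  have h3' : √3 ^ 2 = (3 : ℝ) := Real.sq_sqrt (by norm_num)
  set w : E3 := (2 / √3 : ℝ) • (q + (1 / 2 : ℝ) • p) with hw
  have hpw : inner ℝ p w = (0 : ℝ) := by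
    rw [hw, inner_smul_right, inner_add_right, inner_smul_right, hpq, real_inner_self_eq_norm_sq, hp]
    ring
  have hww : ‖w‖ = 1 := by
    have h1 : ‖w‖ ^ 2 = 1 := by
      rw [← real_inner_self_eq_norm_sq, hw, inner_smul_left, inner_smul_right, inner_add_left,
        inner_add_right, inner_add_right, inner_smul_left, inner_smul_right, inner_smul_left,
        inner_smul_right, real_inner_self_eq_norm_sq, real_inner_self_eq_norm_sq, hp, hq,
        real_inner_comm p q, hpq]
      simp only [conj_trivial]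
      field_simp
      rw [h3']
      ring
    have h2 := norm_nonneg w
    nlinarith
  obtain ⟨b, hb⟩ := Orthonormal.exists_orthonormalBasis_extension_of_card_eq (𝕜 := ℝ) (E := E3)
    (ι := Fin 3) (by simp) (v := ![p, w, 0]) (s := {0, 1}) (by
      constructor
      · rintro ⟨i, hi⟩
        rcases hi with rfl | hi
        · simpa using hp
        · rw [Set.mem_singleton_iff] at hi
          subst hi
          simpa using hww
      · rintro ⟨i, hi⟩ ⟨j, hj⟩ hij
        rcases hi with rfl | hi <;> rcases hj with rfl | hj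
        · exact absurd rfl hij
        · rw [Set.mem_singleton_iff] at hj
          subst hj
          simpa using hpw
        · rw [Set.mem_singleton_iff] at hi
          subst hi
          simpa [real_inner_comm] using hpw
        · rw [Set.mem_singleton_iff] at hi hj
          subst hi hj
          exact absurd rfl hij)
  have hb0 : b 0 = p := by simpa using hb 0 (by simp)
  have hb1 : b 1 = w := by simpa using hb 1 (by simp)
  refine ⟨b, hb0, ?_⟩
  rw [hb0, hb1, hw, smul_smul]
  have : √3 / 2 * (2 / √3) = 1 := by field_simp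
  rw [this, one_smul]
  module

theorem exists_rot (p q n m : E3) (hp : ‖p‖ = 1) (hq : ‖q‖ = 1) (hpq : inner ℝ p q = -(1 / 2 : ℝ))
    (hn : ‖n‖ = 1) (hm : ‖m‖ = 1) (hnm : inner ℝ n m = -(1 / 2 : ℝ)) :
    ∃ ρ : E3 ≃ₗᵢ[ℝ] E3, LinearMap.det (ρ.toLinearEquiv : E3 →ₗ[ℝ] E3) = 1 ∧ ρ p = n ∧ ρ q = m := by
  obtain ⟨b, hb0, hb1⟩ := ob_of_pair p q hp hq hpq
  obtain ⟨c, hc0, hc1⟩ := ob_of_pair n m hn hm hnm
  set ρ0 : E3 ≃ₗᵢ[ℝ] E3 := b.equiv c (Equiv.refl _) with hρ0
  have e : ∀ i, ρ0 (b i) = c i := fun i => by rw [hρ0, OrthonormalBasis.equiv_apply_basis]; rfl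
  have e0 : ρ0 p = n := by rw [← hb0, e, hc0]
  have e1 : ρ0 q = m := by rw [hb1, map_add, map_smul, map_smul, e, e, ← hc1]
  have hdet : |LinearMap.det (ρ0.toLinearEquiv : E3 →ₗ[ℝ] E3)| = 1 := by
    rw [← LinearMap.normDet_eq_abs_det]
    exact LinearIsometry.normDet_eq_one ρ0.toLinearIsometry
  rcases abs_eq (zero_le_one (α := ℝ)) |>.mp hdet with h1 | h1
  · exact ⟨ρ0, h1, e0, e1⟩
  · set S : Submodule ℝ E3 := (ℝ ∙ (c 2))ᗮ with hS
    have hfr : Module.finrank ℝ (Sᗮ : Submodule ℝ E3) = 1 := by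
      rw [hS, Submodule.orthogonal_orthogonal]
      apply finrank_span_singleton
      intro h
      have := c.norm_eq_one 2
      rw [h, norm_zero] at this
      exact zero_ne_one this
    have hc2 : ∀ i : Fin 3, i ≠ 2 → c i ∈ S := by
      intro i hi
      rw [hS, Submodule.mem_orthogonal_singleton_iff_inner_right]
      exact c.inner_eq_zero (Ne.symm hi)
    refine ⟨ρ0.trans S.reflection, ?_, ?_, ?_⟩
    · have : ((ρ0.trans S.reflection).toLinearEquiv : E3 →ₗ[ℝ] E3) =
          (S.reflection.toLinearEquiv : E3 →ₗ[ℝ] E3) ∘ₗ (ρ0.toLinearEquiv : E3 →ₗ[ℝ] E3) := rfl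
      rw [this, LinearMap.det_comp, h1]
      have h2 := S.det_reflection
      rw [hfr] at h2
      have h3 : LinearMap.det (S.reflection.toLinearEquiv : E3 →ₗ[ℝ] E3) = -1 := by
        rw [pow_one] at h2
        exact h2
      rw [h3]
      norm_num
    · rw [LinearIsometryEquiv.trans_apply, e0, ← hc0]
      exact Submodule.reflection_mem_subspace_eq_self (hc2 0 (by decide))
    · rw [LinearIsometryEquiv.trans_apply, e1, hc1]
      exact Submodule.reflection_mem_subspace_eq_self
        (S.add_mem (S.smul_mem _ (hc2 0 (by decide))) (S.smul_mem _ (hc2 1 (by decide))))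

/-- support function -/
noncomputable def hsup (K : Set E3) (u : E3) : ℝ := sSup ((fun x => inner ℝ x u) '' K)

theorem le_hsup {K : Set E3} (hK : IsCompact K) {x : E3} (hx : x ∈ K) (u : E3) :
    inner ℝ x u ≤ hsup K u := by
  have hc : Continuous fun x : E3 => (inner ℝ x u : ℝ) := by fun_prop
  exact le_csSup (hK.image hc).bddAbove ⟨x, hx, rfl⟩

theorem hsup_att {K : Set E3} (hK : IsCompact K) (hne : K.Nonempty) (u : E3) :
    ∃ x ∈ K, inner ℝ x u = hsup K u := by
  have hc : Continuous fun x : E3 => (inner ℝ x u : ℝ) := by fun_prop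
  exact (hK.image hc).sSup_mem (hne.image _)

theorem hsup_eq {K : Set E3} (hK : IsCompact K) {u : E3} {c : ℝ} (h1 : ∀ x ∈ K, inner ℝ x u ≤ c)
    {x : E3} (hx : x ∈ K) (h2 : inner ℝ x u = c) : hsup K u = c := by
  apply le_antisymm
  · obtain ⟨y, hy, hy2⟩ := hsup_att hK ⟨x, hx⟩ u
    rw [← hy2]
    exact h1 y hy
  · rw [← h2]
    exact le_hsup hK hx u

theorem hsup_hom {K : Set E3} (hK : IsCompact K) (hne : K.Nonempty) {c : ℝ} (hc : 0 ≤ c) (u : E3) :
    hsup K (c • u) = c * hsup K u := by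
  obtain ⟨x, hx, hx2⟩ := hsup_att hK hne u
  apply hsup_eq hK (x := x) _ hx
  · rw [inner_smul_right, hx2]
  · intro y hy
    rw [inner_smul_right]
    exact mul_le_mul_of_nonneg_left (le_hsup hK hy u) hc

theorem hsup_cont {K : Set E3} (hK : IsCompact K) (hne : K.Nonempty) : Continuous (hsup K) := by
  obtain ⟨R, hR⟩ := hK.isBounded.exists_norm_le
  have hR0 : 0 ≤ R := by
    obtain ⟨x, hx⟩ := hne
    exact (norm_nonneg x).trans (hR x hx)
  have key : ∀ u v : E3, hsup K u - hsup K v ≤ R * ‖u - v‖ := by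
    intro u v
    obtain ⟨x, hx, hx2⟩ := hsup_att hK hne u
    have h1 := le_hsup hK hx v
    have h2 : inner ℝ x (u - v) ≤ ‖x‖ * ‖u - v‖ := real_inner_le_norm _ _
    rw [inner_sub_right] at h2
    have h3 := mul_le_mul_of_nonneg_right (hR x hx) (norm_nonneg (u - v))
    linarith
  have : LipschitzWith (Real.toNNReal R) (hsup K) := by
    apply LipschitzWith.of_dist_le_mul
    intro u v
    rw [Real.dist_eq, dist_eq_norm, abs_le]
    have h1 := key u v
    have h2 := key v u
    rw [norm_sub_rev] at h2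
    rw [Real.coe_toNNReal R hR0]
    constructor <;> linarith
  exact this.continuous

theorem ball_of_hsup {K : Set E3} (hK : IsCompact K) (hne : K.Nonempty) (hconv : Convex ℝ K) {r : ℝ}
    {a : E3} (h : ∀ u, hsup K u = r * ‖u‖ + inner ℝ a u) : K = Metric.closedBall a r := by
  apply Set.Subset.antisymm
  · intro x hx
    rw [Metric.mem_closedBall, dist_eq_norm]
    have h1 := le_hsup hK hx (x - a)
    rw [h] at h1
    have h2 : inner ℝ x (x - a) - inner ℝ a (x - a) = ‖x - a‖ ^ 2 := by
      rw [← inner_sub_left, real_inner_self_eq_norm_sq]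
    rcases eq_or_lt_of_le (norm_nonneg (x - a)) with h0 | hpos
    · rw [← h0]
      obtain ⟨y, hy⟩ := hne
      -- r ≥ 0
      by_contra hneg
      push Not at hneg
      have h3 := h (EuclideanSpace.single 0 1)
      have h4 := h (-(EuclideanSpace.single 0 1))
      have h5 := le_hsup hK hy (EuclideanSpace.single 0 1)
      have h6 := le_hsup hK hy (-(EuclideanSpace.single 0 1))
      rw [inner_neg_right] at h6
      rw [h3] at h5
      rw [h4, norm_neg, inner_neg_right] at h6
      have h7 : ‖(EuclideanSpace.single 0 1 : E3)‖ = 1 := by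
        simp [PiLp.norm_single]
      rw [h7] at h5 h6
      linarith
    · nlinarith
  · intro x hx
    rw [Metric.mem_closedBall, dist_eq_norm] at hx
    by_contra hxK
    obtain ⟨f, c, h1, h2⟩ := geometric_hahn_banach_closed_point hconv hK.isClosed hxK
    obtain ⟨u, hu⟩ := (InnerProductSpace.toDual ℝ E3).surjective f
    have hf : ∀ y, f y = inner ℝ y u := by
      intro y
      rw [← hu, InnerProductSpace.toDual_apply_apply, real_inner_comm]
    obtain ⟨y, hy, hy2⟩ := hsup_att hK hne u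
    have h3 := h1 y hy
    rw [hf, hy2, h] at h3
    rw [hf] at h2
    have h4 : inner ℝ (x - a) u ≤ ‖x - a‖ * ‖u‖ := real_inner_le_norm _ _
    rw [inner_sub_left] at h4
    have h5 := mul_le_mul_of_nonneg_right hx (norm_nonneg u)
    have h6 : inner ℝ a u = (inner ℝ a u : ℝ) := rfl
    linarith

end Run7.h549.Rot
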