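import Pool.Agent.Run7.h549.Rot3

set_option maxHeartbeats 400000

namespace Run7.h549.Rot

noncomputable def cen (A B C : E3) : E3 := (1 / 3 : ℝ) • (A + B + C)

noncomputable def nrm (s : ℝ) (A B C : E3) : E3 := (1 / (√3 * s) : ℝ) • (B + C - (2 : ℝ) • A)

theorem cen_rot (A B C : E3) : cen B C A = cen A B C := by
  unfold cen
  congr 1
  abel

theorem nrm_sum (s : ℝ) (A B C : E3) : nrm s A B C + nrm s B C A + nrm s C A B = 0 := by
  unfold nrm
  module

theorem inner_uv {s : ℝ} {A B C : E3} (h1 : dist A B = s) (h2 : dist B C = s) (h3 : dist C A = s) :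
    inner ℝ (B - A) (B - A) = s ^ 2 ∧ inner ℝ (C - A) (C - A) = s ^ 2 ∧
      inner ℝ (B - A) (C - A) = s ^ 2 / 2 := by
  have e1 : inner ℝ (B - A) (B - A) = s ^ 2 := by
    rw [real_inner_self_eq_norm_sq, ← dist_eq_norm, dist_comm, h1]
  have e2 : inner ℝ (C - A) (C - A) = s ^ 2 := by
    rw [real_inner_self_eq_norm_sq, ← dist_eq_norm, h3]
  refine ⟨e1, e2, ?_⟩
  have e3 : ‖(B - A) - (C - A)‖ ^ 2 = s ^ 2 := by
    rw [sub_sub_sub_cancel_right, ← dist_eq_norm, h2]
  rw [norm_sub_sq_real, ← real_inner_self_eq_norm_sq, ← real_inner_self_eq_norm_sq, e1, e2] at e3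
  linarith

theorem nrm_facts {s : ℝ} (hs : 0 < s) {A B C : E3} (h1 : dist A B = s) (h2 : dist B C = s)
    (h3 : dist C A = s) :
    ‖nrm s A B C‖ = 1 ∧ inner ℝ (nrm s A B C) (nrm s B C A) = -(1 / 2 : ℝ) ∧
    inner ℝ (A - cen A B C) (nrm s A B C) = -(2 * (s / (2 * √3))) ∧
    inner ℝ (B - cen A B C) (nrm s A B C) = s / (2 * √3) ∧
    inner ℝ (C - cen A B C) (nrm s A B C) = s / (2 * √3) := by
  obtain ⟨e1, e2, e3⟩ := inner_uv h1 h2 h3
  have e4 : inner ℝ (C - A) (B - A) = s ^ 2 / 2 := by rw [real_inner_comm]; exact e3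
  have q3 : (0 : ℝ) < √3 := Real.sqrt_pos.mpr (by norm_num)
  have q3' : √3 ^ 2 = (3 : ℝ) := Real.sq_sqrt (by norm_num)
  have hA : nrm s A B C = (1 / (√3 * s) : ℝ) • ((B - A) + (C - A)) := by
    unfold nrm; module
  have hB : nrm s B C A = (1 / (√3 * s) : ℝ) • ((C - A) - (2 : ℝ) • (B - A)) := by
    unfold nrm; module
  have gA : A - cen A B C = (-(1 / 3) : ℝ) • ((B - A) + (C - A)) := by
    unfold cen; module
  have gB : B - cen A B C = (1 / 3 : ℝ) • ((2 : ℝ) • (B - A) - (C - A)) := by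
    unfold cen; module
  have gC : C - cen A B C = (1 / 3 : ℝ) • ((2 : ℝ) • (C - A) - (B - A)) := by
    unfold cen; module
  set u := B - A with hu
  set v := C - A with hv
  refine ⟨?_, ?_, ?_, ?_, ?_⟩
  · have h1 : ‖nrm s A B C‖ ^ 2 = 1 := by
      rw [← real_inner_self_eq_norm_sq, hA]
      simp only [inner_smul_left, inner_smul_right, inner_add_left, inner_add_right, conj_trivial,
        e1, e2, e3, e4]
      field_simp
      rw [q3']
      ring
    have h2 := norm_nonneg (nrm s A B C)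
    nlinarith
  · rw [hA, hB]
    simp only [inner_smul_left, inner_smul_right, inner_add_left, inner_add_right, inner_sub_left,
      inner_sub_right, conj_trivial, e1, e2, e3, e4]
    field_simp
    rw [q3']
    ring
  · rw [gA, hA]
    simp only [inner_smul_left, inner_smul_right, inner_add_left, inner_add_right, inner_sub_left,
      inner_sub_right, conj_trivial, e1, e2, e3, e4]
    field_simp
    ring
  · rw [gB, hA]
    simp only [inner_smul_left, inner_smul_right, inner_add_left, inner_add_right, inner_sub_left,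
      inner_sub_right, conj_trivial, e1, e2, e3, e4]
    field_simp
    ring
  · rw [gC, hA]
    simp only [inner_smul_left, inner_smul_right, inner_add_left, inner_add_right, inner_sub_left,
      inner_sub_right, conj_trivial, e1, e2, e3, e4]
    field_simp
    ring

/-- `S × ℝ` -/
def cyl (S : Set E3) : Set E3 := {x | ∃ y ∈ S, ∃ τ : ℝ, x = y + τ • EuclideanSpace.single 2 1}

theorem inner_e2_nrm {s : ℝ} {A B C : E3} (hA : A 2 = 0) (hB : B 2 = 0) (hC : C 2 = 0) :
    inner ℝ (EuclideanSpace.single 2 1 : E3) (nrm s A B C) = 0 := by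
  rw [EuclideanSpace.inner_single_left]
  unfold nrm
  simp [hA, hB, hC]

theorem cyl_le {s : ℝ} (hs : 0 < s) {A B C : E3} (h1 : dist A B = s) (h2 : dist B C = s)
    (h3 : dist C A = s) (hA : A 2 = 0) (hB : B 2 = 0) (hC : C 2 = 0) {x : E3}
    (hx : x ∈ cyl (convexHull ℝ {A, B, C})) :
    inner ℝ (x - cen A B C) (nrm s A B C) ≤ s / (2 * √3) := by
  obtain ⟨y, hy, τ, rfl⟩ := hx
  obtain ⟨-, -, f1, f2, f3⟩ := nrm_facts hs h1 h2 h3
  have hr : 0 < s / (2 * √3) := by positivity
  have hsub : convexHull ℝ {A, B, C} ⊆ {y : E3 | inner ℝ (y - cen A B C) (nrm s A B C) ≤ s / (2 * √3)} := by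
    apply convexHull_min
    · rintro z (rfl | rfl | rfl)
      · simp only [Set.mem_ofPred_eq]
        rw [f1]
        linarith
      · simp only [Set.mem_ofPred_eq]
        rw [f2]
      · simp only [Set.mem_ofPred_eq]
        rw [f3]
    · intro z hz w hw a b ha hb hab
      simp only [Set.mem_ofPred_eq] at hz hw ⊢
      have : a • z + b • w - cen A B C = a • (z - cen A B C) + b • (w - cen A B C) := by
        rw [smul_sub, smul_sub]
        have : cen A B C = a • cen A B C + b • cen A B C := by rw [← add_smul, hab, one_smul]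
        nth_rewrite 1 [this]
        abel
      rw [this, inner_add_left, inner_smul_left, inner_smul_left]
      simp only [conj_trivial]
      nlinarith
  have h4 := hsub hy
  simp only [Set.mem_ofPred_eq] at h4
  rw [add_sub_right_comm, inner_add_left, inner_smul_left, inner_e2_nrm hA hB hC]
  simpa using h4

theorem cyl_eq {s : ℝ} (hs : 0 < s) {A B C : E3} (h1 : dist A B = s) (h2 : dist B C = s)
    (h3 : dist C A = s) (hA : A 2 = 0) (hB : B 2 = 0) (hC : C 2 = 0) {x : E3}
    (hx : x ∈ cyl (segment ℝ B C)) :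
    inner ℝ (x - cen A B C) (nrm s A B C) = s / (2 * √3) := by
  obtain ⟨y, ⟨a, b, ha, hb, hab, rfl⟩, τ, rfl⟩ := hx
  obtain ⟨-, -, f1, f2, f3⟩ := nrm_facts hs h1 h2 h3
  have : a • B + b • C - cen A B C = a • (B - cen A B C) + b • (C - cen A B C) := by
    rw [smul_sub, smul_sub]
    have : cen A B C = a • cen A B C + b • cen A B C := by rw [← add_smul, hab, one_smul]
    nth_rewrite 1 [this]
    abel
  rw [add_sub_right_comm, inner_add_left, inner_smul_left, inner_e2_nrm hA hB hC, this,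
    inner_add_left, inner_smul_left, inner_smul_left, f2, f3]
  simp only [conj_trivial, mul_zero, add_zero]
  rw [← add_mul, hab, one_mul]

/-- Support function of a body touching the face opposite to `A`. -/
theorem hsup_face {s : ℝ} (hs : 0 < s) {A B C : E3} (h1 : dist A B = s) (h2 : dist B C = s)
    (h3 : dist C A = s) (hA : A 2 = 0) (hB : B 2 = 0) (hC : C 2 = 0) {K : Set E3} (hK : IsCompact K)
    (ρ : E3 ≃ₗᵢ[ℝ] E3) (t : E3) (hin : ∀ x ∈ K, ρ x + t ∈ cyl (convexHull ℝ {A, B, C}))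
    (hf : ∃ x ∈ K, ρ x + t ∈ cyl (segment ℝ B C)) {p : E3} (hp : ρ p = nrm s A B C) :
    hsup K p = s / (2 * √3) - inner ℝ (t - cen A B C) (nrm s A B C) := by
  obtain ⟨x, hx, hx2⟩ := hf
  have key : ∀ y : E3, inner ℝ y p = inner ℝ (ρ y + t - cen A B C) (nrm s A B C) -
      inner ℝ (t - cen A B C) (nrm s A B C) := by
    intro y
    rw [add_sub_assoc, inner_add_left, ← hp, LinearIsometryEquiv.inner_map_map]
    ring
  apply hsup_eq hK (x := x) _ hx
  · rw [key, cyl_eq hs h1 h2 h3 hA hB hC hx2]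
  · intro y hy
    rw [key]
    have := cyl_le hs h1 h2 h3 hA hB hC (hin y hy)
    linarith

theorem rotor_ball {s : ℝ} (hs : 0 < s) {A B C : E3} (h1 : dist A B = s) (h2 : dist B C = s)
    (h3 : dist C A = s) (hA : A 2 = 0) (hB : B 2 = 0) (hC : C 2 = 0) {K : Set E3} (hK : IsCompact K)
    (hne : K.Nonempty) (hconv : Convex ℝ K)
    (hrot : ∀ ρ : E3 ≃ₗᵢ[ℝ] E3, LinearMap.det (ρ.toLinearEquiv : E3 →ₗ[ℝ] E3) = 1 →
      ∃ t : E3, (∀ x ∈ K, ρ x + t ∈ cyl (convexHull ℝ {A, B, C})) ∧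
        (∃ x ∈ K, ρ x + t ∈ cyl (segment ℝ A B)) ∧ (∃ x ∈ K, ρ x + t ∈ cyl (segment ℝ B C)) ∧
        (∃ x ∈ K, ρ x + t ∈ cyl (segment ℝ C A))) :
    ∃ c, K = Metric.closedBall c (s / (2 * √3)) := by
  set r := s / (2 * √3) with hr
  obtain ⟨n1, n2, -, -, -⟩ := nrm_facts hs h1 h2 h3
  obtain ⟨m1, -, -, -, -⟩ := nrm_facts hs h2 h3 h1
  have trip : ∀ p q : E3, ‖p‖ = 1 → ‖q‖ = 1 → inner ℝ p q = -(1 / 2 : ℝ) →
      hsup K p + hsup K q + hsup K (-p - q) = 3 * r := by
    intro p q hp hq hpq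
    obtain ⟨ρ, hρ, e1, e2⟩ := exists_rot p q _ _ hp hq hpq n1 m1 n2
    obtain ⟨t, hin, fAB, fBC, fCA⟩ := hrot ρ hρ
    have e3 : ρ (-p - q) = nrm s C A B := by
      rw [map_sub, map_neg, e1, e2]
      have := nrm_sum s A B C
      rw [add_eq_zero_iff_eq_neg'] at this
      rw [this]
      abel
    have s1 := hsup_face hs h1 h2 h3 hA hB hC hK ρ t hin fBC e1
    have s2 := hsup_face hs h2 h3 h1 hB hC hA hK ρ t
      (fun x hx => by
        have := hin x hx
        rwa [show ({B, C, A} : Set E3) = {A, B, C} by ext z; simp; tauto]) fCA e2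
    have s3 := hsup_face hs h3 h1 h2 hC hA hB hK ρ t
      (fun x hx => by
        have := hin x hx
        rwa [show ({C, A, B} : Set E3) = {A, B, C} by ext z; simp; tauto]) fAB e3
    rw [cen_rot A B C] at s2
    rw [← cen_rot C A B] at s3
    rw [s1, s2, s3]
    have : inner ℝ (t - cen A B C) (nrm s A B C) + inner ℝ (t - cen A B C) (nrm s B C A) +
        inner ℝ (t - cen A B C) (nrm s C A B) = 0 := by
      rw [← inner_add_right, ← inner_add_right, nrm_sum, inner_zero_right]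
    linear_combination -this
  obtain ⟨a, ha⟩ := linear_of_triples (fun x => hsup K x - r * ‖x‖)
    ((hsup_cont hK hne).sub (continuous_const.mul continuous_norm))
    (by
      intro c x hc
      rw [hsup_hom hK hne hc, norm_smul, Real.norm_of_nonneg hc]
      ring)
    (by
      intro p q hp hq hpq
      have hpq1 : ‖-p - q‖ = 1 := by
        have h : ‖-p - q‖ ^ 2 = 1 := by
          rw [norm_sub_sq_real, norm_neg, inner_neg_left, hp, hq, hpq]
          norm_num
        have h2 := norm_nonneg (-p - q)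
        nlinarith
      have := trip p q hp hq hpq
      simp only [hp, hq, hpq1]
      linear_combination this)
  refine ⟨a, ball_of_hsup hK hne hconv fun u => ?_⟩
  have : hsup K u - r * ‖u‖ = inner ℝ a u := ha u
  linarith

theorem face_pt {s : ℝ} (hs : 0 < s) (A B C : E3) :
    cen A B C + (s / (2 * √3)) • nrm s A B C = (1 / 2 : ℝ) • B + (1 / 2 : ℝ) • C := by
  have q3 : (0 : ℝ) < √3 := Real.sqrt_pos.mpr (by norm_num)
  have q3' : √3 * √3 = (3 : ℝ) := Real.mul_self_sqrt (by norm_num)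
  unfold nrm cen
  rw [smul_smul]
  have : s / (2 * √3) * (1 / (√3 * s)) = 1 / 6 := by
    rw [div_mul_div_comm, mul_one, show 2 * √3 * (√3 * s) = 2 * (√3 * √3) * s by ring, q3']
    field_simp
    norm_num
  rw [this]
  module

theorem vert_pt {s : ℝ} (hs : 0 < s) (A B C : E3) :
    A = cen A B C - (2 * (s / (2 * √3))) • nrm s A B C := by
  have q3 : (0 : ℝ) < √3 := Real.sqrt_pos.mpr (by norm_num)
  have q3' : √3 * √3 = (3 : ℝ) := Real.mul_self_sqrt (by norm_num)
  unfold nrm cen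
  rw [smul_smul]
  have : 2 * (s / (2 * √3)) * (1 / (√3 * s)) = 1 / 3 := by
    rw [mul_assoc, div_mul_div_comm, mul_one,
      show 2 * √3 * (√3 * s) = 2 * (√3 * √3) * s by ring, q3']
    field_simp
  rw [this]
  module

/-- The three unit vectors form a tight frame of the plane. -/
theorem frame {n m l w : E3} (hn : ‖n‖ = 1) (hm : ‖m‖ = 1) (hnm : inner ℝ n m = -(1 / 2 : ℝ))
    (hl : n + m + l = 0) (n2 : n 2 = 0) (m2 : m 2 = 0) (w2 : w 2 = 0) :
    w = (2 / 3 * inner ℝ w n : ℝ) • n + (2 / 3 * inner ℝ w m : ℝ) • m + (2 / 3 * inner ℝ w l : ℝ) • l := by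
  have hl' : l = -n - m := by
    have := eq_neg_of_add_eq_zero_right hl
    rw [this]; abel
  have inn : ∀ x y : E3, inner ℝ x y = x 0 * y 0 + x 1 * y 1 + x 2 * y 2 := by
    intro x y
    simp [PiLp.inner_apply, Fin.sum_univ_three]
    ring
  have hn' : n 0 ^ 2 + n 1 ^ 2 = 1 := by
    have h := real_inner_self_eq_norm_sq n
    rw [inn, n2, hn] at h
    linarith
  have hm' : m 0 ^ 2 + m 1 ^ 2 = 1 := by
    have h := real_inner_self_eq_norm_sq m
    rw [inn, m2, hm] at h
    linarith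
  have hnm' : n 0 * m 0 + n 1 * m 1 = -(1 / 2) := by
    rw [inn, n2, m2] at hnm
    linarith
  have hdet : (n 0 * m 1 - n 1 * m 0) ^ 2 = 3 / 4 := by
    have : (n 0 * m 1 - n 1 * m 0) ^ 2 + (n 0 * m 0 + n 1 * m 1) ^ 2 =
      (n 0 ^ 2 + n 1 ^ 2) * (m 0 ^ 2 + m 1 ^ 2) := by ring
    rw [hn', hm', hnm'] at this
    linarith
  set d := n 0 * m 1 - n 1 * m 0 with hd
  have hd0 : d ≠ 0 := by
    intro h
    rw [h] at hdet
    norm_num at hdet
  -- components of the difference
  set z0 := w 0 - ((2 / 3 * inner ℝ w n) * n 0 + (2 / 3 * inner ℝ w m) * m 0 +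
    (2 / 3 * inner ℝ w l) * l 0) with hz0
  set z1 := w 1 - ((2 / 3 * inner ℝ w n) * n 1 + (2 / 3 * inner ℝ w m) * m 1 +
    (2 / 3 * inner ℝ w l) * l 1) with hz1
  have l0 : l 0 = - n 0 - m 0 := by rw [hl']; simp
  have l1 : l 1 = - n 1 - m 1 := by rw [hl']; simp
  have l2 : l 2 = 0 := by rw [hl']; simp [n2, m2]
  have iwn : inner ℝ w n = w 0 * n 0 + w 1 * n 1 := by rw [inn, n2]; ring
  have iwm : inner ℝ w m = w 0 * m 0 + w 1 * m 1 := by rw [inn, m2]; ring
  have iwl : inner ℝ w l = -(w 0 * n 0 + w 1 * n 1) - (w 0 * m 0 + w 1 * m 1) := by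
    rw [inn, l0, l1, l2]; ring
  have o1 : z0 * n 0 + z1 * n 1 = 0 := by
    rw [hz0, hz1, l0, l1, iwn, iwm, iwl]
    linear_combination (-(4 / 3) * (w 0 * n 0 + w 1 * n 1) - (2 / 3) * (w 0 * m 0 + w 1 * m 1)) * hn' +
      (-(4 / 3) * (w 0 * m 0 + w 1 * m 1) - (2 / 3) * (w 0 * n 0 + w 1 * n 1)) * hnm'
  have o2 : z0 * m 0 + z1 * m 1 = 0 := by
    rw [hz0, hz1, l0, l1, iwn, iwm, iwl]
    linear_combination (-(4 / 3) * (w 0 * m 0 + w 1 * m 1) - (2 / 3) * (w 0 * n 0 + w 1 * n 1)) * hm' +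
      (-(4 / 3) * (w 0 * n 0 + w 1 * n 1) - (2 / 3) * (w 0 * m 0 + w 1 * m 1)) * hnm'
  have hz0' : z0 = 0 := by
    have : z0 * d = 0 := by rw [hd]; linear_combination m 1 * o1 - n 1 * o2
    exact (mul_eq_zero.mp this).resolve_right hd0
  have hz1' : z1 = 0 := by
    have : z1 * d = 0 := by rw [hd]; linear_combination n 0 * o2 - m 0 * o1
    exact (mul_eq_zero.mp this).resolve_right hd0
  ext i
  fin_cases i
  · simp only [PiLp.add_apply, PiLp.smul_apply, smul_eq_mul]
    have := hz0'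
    rw [hz0] at this
    exact sub_eq_zero.mp this
  · simp only [PiLp.add_apply, PiLp.smul_apply, smul_eq_mul]
    have := hz1'
    rw [hz1] at this
    exact sub_eq_zero.mp this
  · simp [n2, m2, l2, w2]

theorem nrm_two {s : ℝ} {A B C : E3} (hA : A 2 = 0) (hB : B 2 = 0) (hC : C 2 = 0) :
    (nrm s A B C) 2 = 0 := by
  unfold nrm
  simp [hA, hB, hC]

/-- The ball of radius `s/(2√3)` about the centre lies in the prism. -/
theorem ball_in {s : ℝ} (hs : 0 < s) {A B C : E3} (h1 : dist A B = s) (h2 : dist B C = s)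
    (h3 : dist C A = s) (hA : A 2 = 0) (hB : B 2 = 0) (hC : C 2 = 0) {y : E3}
    (hy : ‖y - cen A B C‖ ≤ s / (2 * √3)) : y ∈ cyl (convexHull ℝ {A, B, C}) := by
  have hr : 0 < s / (2 * √3) := by positivity
  set r := s / (2 * √3) with hrdef
  obtain ⟨n1, n2, -, -, -⟩ := nrm_facts hs h1 h2 h3
  obtain ⟨m1, -, -, -, -⟩ := nrm_facts hs h2 h3 h1
  obtain ⟨l1, -, -, -, -⟩ := nrm_facts hs h3 h1 h2
  have hsum := nrm_sum s A B C
  have vA := vert_pt hs A B C
  have vB := vert_pt hs B C A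
  have vC := vert_pt hs C A B
  rw [cen_rot A B C] at vB
  rw [← cen_rot C A B] at vC
  rw [← hrdef] at vA vB vC
  have nA2 := nrm_two (s := s) hA hB hC
  have nB2 := nrm_two (s := s) hB hC hA
  have nC2 := nrm_two (s := s) hC hA hB
  set n := nrm s A B C
  set m := nrm s B C A
  set l := nrm s C A B
  set G := cen A B C with hG
  have hG2 : G 2 = 0 := by rw [hG]; unfold cen; simp [hA, hB, hC]
  set w : E3 := y - G - (y 2) • EuclideanSpace.single 2 1 with hw
  have hw2 : w 2 = 0 := by rw [hw]; simp [hG2]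
  have hfr := frame n1 m1 n2 hsum nA2 nB2 hw2
  have hez : ∀ v : E3, v 2 = 0 → inner ℝ w v = inner ℝ (y - G) v := by
    intro v hv
    rw [hw, inner_sub_left, inner_smul_left, EuclideanSpace.inner_single_left, hv]
    simp
  have bd : ∀ v : E3, v 2 = 0 → ‖v‖ = 1 → inner ℝ w v ≤ r := by
    intro v hv hv1
    rw [hez v hv]
    have := real_inner_le_norm (y - G) v
    rw [hv1, mul_one] at this
    exact this.trans hy
  have bn := bd n nA2 n1
  have bm := bd m nB2 m1
  have bl := bd l nC2 l1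
  have hs0 : inner ℝ w n + inner ℝ w m + inner ℝ w l = (0 : ℝ) := by
    rw [← inner_add_right, ← inner_add_right, hsum, inner_zero_right]
  refine ⟨G + w, ?_, y 2, by rw [hw]; abel⟩
  have hmem := (convex_convexHull ℝ ({A, B, C} : Set E3)).sum_mem (t := Finset.univ)
    (w := ![(r - inner ℝ w n) / (3 * r), (r - inner ℝ w m) / (3 * r), (r - inner ℝ w l) / (3 * r)])
    (z := ![A, B, C])
    (by
      intro i _
      fin_cases i
      · simp only [Fin.zero_eta, Matrix.cons_val_zero]; exact div_nonneg (by linarith) (by positivity)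
      · simp only [Fin.mk_one, Matrix.cons_val_one]; exact div_nonneg (by linarith) (by positivity)
      · simp only [Fin.reduceFinMk, Matrix.cons_val]; exact div_nonneg (by linarith) (by positivity))
    (by
      simp only [Fin.sum_univ_three, Matrix.cons_val_zero, Matrix.cons_val_one, Matrix.cons_val]
      field_simp
      linear_combination -hs0)
    (by
      intro i _
      apply subset_convexHull
      fin_cases i <;> simp)
  have heq : G + w = ∑ i : Fin 3, (![(r - inner ℝ w n) / (3 * r), (r - inner ℝ w m) / (3 * r),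
      (r - inner ℝ w l) / (3 * r)] i) • (![A, B, C] i) := by
    simp only [Fin.sum_univ_three, Matrix.cons_val_zero, Matrix.cons_val_one, Matrix.cons_val]
    have hl' : l = -n - m := by
      have := eq_neg_of_add_eq_zero_right hsum
      rw [this]; abel
    have e0 : inner ℝ w l = -inner ℝ w n - inner ℝ w m := by linarith
    generalize inner ℝ w n = x1 at *
    generalize inner ℝ w m = x2 at *
    rw [e0] at hfr
    rw [e0]
    rw [hfr, vA, vB, vC, hl']
    have hr0 : r ≠ 0 := hr.ne'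
    have e1 : (r - x1) / (3 * r) = 1 / 3 - x1 / (3 * r) := by field_simp
    have e2 : (r - x2) / (3 * r) = 1 / 3 - x2 / (3 * r) := by field_simp
    have e3 : (r - (-x1 - x2)) / (3 * r) = 1 / 3 + x1 / (3 * r) + x2 / (3 * r) := by field_simp; ring
    rw [e1, e2, e3]
    have f1 : x1 = 3 * r * (x1 / (3 * r)) := by field_simp
    have f2 : x2 = 3 * r * (x2 / (3 * r)) := by field_simp
    set X1 := x1 / (3 * r)
    set X2 := x2 / (3 * r)
    rw [f1, f2]
    module
  rw [heq]
  exact hmem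

theorem ball_rotor {s : ℝ} (hs : 0 < s) {A B C : E3} (h1 : dist A B = s) (h2 : dist B C = s)
    (h3 : dist C A = s) (hA : A 2 = 0) (hB : B 2 = 0) (hC : C 2 = 0) (c : E3)
    (ρ : E3 ≃ₗᵢ[ℝ] E3) :
      ∃ t : E3, (∀ x ∈ Metric.closedBall c (s / (2 * √3)), ρ x + t ∈ cyl (convexHull ℝ {A, B, C})) ∧
        (∃ x ∈ Metric.closedBall c (s / (2 * √3)), ρ x + t ∈ cyl (segment ℝ A B)) ∧
        (∃ x ∈ Metric.closedBall c (s / (2 * √3)), ρ x + t ∈ cyl (segment ℝ B C)) ∧
        (∃ x ∈ Metric.closedBall c (s / (2 * √3)), ρ x + t ∈ cyl (segment ℝ C A)) := by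
  have hr : 0 < s / (2 * √3) := by positivity
  obtain ⟨n1, -, -, -, -⟩ := nrm_facts hs h1 h2 h3
  obtain ⟨m1, -, -, -, -⟩ := nrm_facts hs h2 h3 h1
  obtain ⟨l1, -, -, -, -⟩ := nrm_facts hs h3 h1 h2
  have fA := face_pt hs A B C
  have fB := face_pt hs B C A
  have fC := face_pt hs C A B
  rw [cen_rot A B C] at fB
  rw [← cen_rot C A B] at fC
  have face : ∀ (v : E3) (S : Set E3), ‖v‖ = 1 → cen A B C + (s / (2 * √3)) • v ∈ S →
      ∃ x ∈ Metric.closedBall c (s / (2 * √3)), ρ x + (cen A B C - ρ c) ∈ cyl S := by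
    intro v S hv hS
    refine ⟨c + (s / (2 * √3)) • ρ.symm v, ?_, ?_⟩
    · rw [Metric.mem_closedBall, dist_eq_norm, add_sub_cancel_left, norm_smul,
        LinearIsometryEquiv.norm_map, hv, mul_one, Real.norm_of_nonneg hr.le]
    · refine ⟨_, hS, 0, ?_⟩
      rw [map_add, map_smul, LinearIsometryEquiv.apply_symm_apply]
      module
  have seg : ∀ P Q : E3, (1 / 2 : ℝ) • P + (1 / 2 : ℝ) • Q ∈ segment ℝ P Q := fun P Q =>
    ⟨1 / 2, 1 / 2, by norm_num, by norm_num, by norm_num, rfl⟩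
  refine ⟨cen A B C - ρ c, fun x hx => ?_, ?_, ?_, ?_⟩
  · apply ball_in hs h1 h2 h3 hA hB hC
    rw [show ρ x + (cen A B C - ρ c) - cen A B C = ρ (x - c) by rw [map_sub]; abel,
      LinearIsometryEquiv.norm_map, ← dist_eq_norm]
    exact hx
  · exact face _ _ l1 (by rw [fC]; exact seg A B)
  · exact face _ _ n1 (by rw [fA]; exact seg B C)
  · exact face _ _ m1 (by rw [fB]; exact seg C A)

end Run7.h549.Rot
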