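import Mathlib

set_option maxHeartbeats 400000

namespace Run7.h549

open Matrix

section

variable {A : Type*} [CommRing A]

/-- Upper elementary matrix. -/
def eU (x : A) : SpecialLinearGroup (Fin 2) A :=
  ⟨!![1, x; 0, 1], by simp [Matrix.det_fin_two]⟩

/-- Lower elementary matrix. -/
def eL (x : A) : SpecialLinearGroup (Fin 2) A :=
  ⟨!![1, 0; x, 1], by simp [Matrix.det_fin_two]⟩

/-- Diagonal matrix `diag(v, v⁻¹)`. -/
def dg (v : Aˣ) : SpecialLinearGroup (Fin 2) A :=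
  ⟨!![(v : A), 0; 0, ((v⁻¹ : Aˣ) : A)], by simp [Matrix.det_fin_two]⟩

theorem eU_add (x y : A) : eU x * eU y = eU (x + y) := by
  apply Subtype.ext
  ext i j
  fin_cases i <;> fin_cases j <;> simp [eU, Matrix.mul_apply, Fin.sum_univ_two, add_comm]

theorem eL_add (x y : A) : eL x * eL y = eL (x + y) := by
  apply Subtype.ext
  ext i j
  fin_cases i <;> fin_cases j <;> simp [eL, Matrix.mul_apply, Fin.sum_univ_two]

theorem eU_zero : eU (0 : A) = 1 := by
  apply Subtype.ext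
  ext i j
  fin_cases i <;> fin_cases j <;> simp [eU]

theorem eL_zero : eL (0 : A) = 1 := by
  apply Subtype.ext
  ext i j
  fin_cases i <;> fin_cases j <;> simp [eL]

theorem dg_eL (v : Aˣ) (x : A) : dg v * eL ((v : A) ^ 2 * x) = eL x * dg v := by
  apply Subtype.ext
  ext i j
  have h : ((v⁻¹ : Aˣ) : A) * (v : A) = 1 := v.inv_mul
  fin_cases i <;> fin_cases j <;> simp [eL, dg, Matrix.mul_apply, Fin.sum_univ_two]
  linear_combination (v : A) * x * h

theorem dg_eU (v : Aˣ) (x : A) : dg v * eU x = eU ((v : A) ^ 2 * x) * dg v := by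
  apply Subtype.ext
  ext i j
  have h : ((v⁻¹ : Aˣ) : A) * (v : A) = 1 := v.inv_mul
  fin_cases i <;> fin_cases j <;> simp [eU, dg, Matrix.mul_apply, Fin.sum_univ_two]
  linear_combination (-(v : A) * x) * h

theorem dg_eq (v : Aˣ) : dg v = eU (v : A) * eL (-((v⁻¹ : Aˣ) : A)) * eU (v : A) *
    eU (-1) * eL 1 * eU (-1) := by
  apply Subtype.ext
  ext i j
  have h : ((v⁻¹ : Aˣ) : A) * (v : A) = 1 := v.inv_mul
  fin_cases i <;> fin_cases j <;>
    simp [eU, eL, dg, Matrix.mul_apply, Fin.sum_univ_two] 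

theorem lower_upper (g : SpecialLinearGroup (Fin 2) A) (a : Aˣ) (ha : g 0 0 = a) :
    g = eL (g 1 0 * ((a⁻¹ : Aˣ) : A)) * dg a * eU (((a⁻¹ : Aˣ) : A) * g 0 1) := by
  apply Subtype.ext
  ext i j
  have h : ((a⁻¹ : Aˣ) : A) * (a : A) = 1 := a.inv_mul
  have hd := g.det_coe
  rw [Matrix.det_fin_two] at hd
  fin_cases i <;> fin_cases j <;>
    simp [eU, eL, dg, Matrix.mul_apply, Fin.sum_univ_two, ha]
  have hd' : (g 0 0) * (g 1 1) - (g 0 1) * (g 1 0) = 1 := hd
  rw [ha] at hd'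
  linear_combination ((a⁻¹ : Aˣ) : A) * hd' - (g 1 1) * h

end

end Run7.h549
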