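import Pool.Agent.Run7.h549.Sl1

set_option maxHeartbeats 400000

namespace Run7.h549

open Matrix

section

variable {A : Type*} [CommRing A] {Q : Type*} [Group Q]
  (φ : SpecialLinearGroup (Fin 2) A →* Q)

theorem phi_eL_sq (v : Aˣ) (x : A) (h : φ (eL x) = 1) : φ (eL ((v : A) ^ 2 * x)) = 1 := by
  have := congrArg φ (dg_eL v x)
  rw [map_mul, map_mul, h, one_mul] at this
  exact mul_eq_left.mp this

theorem phi_eL_add (x y : A) (hx : φ (eL x) = 1) (hy : φ (eL y) = 1) : φ (eL (x + y)) = 1 := by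
  rw [← eL_add, map_mul, hx, hy, one_mul]

theorem eL_neg (x : A) : eL (-x) = (eL x)⁻¹ := by
  rw [eq_inv_iff_mul_eq_one, eL_add]
  simp [eL_zero]

theorem eU_neg (x : A) : eU (-x) = (eU x)⁻¹ := by
  rw [eq_inv_iff_mul_eq_one, eU_add]
  simp [eU_zero]

theorem phi_eL_sub (x y : A) (hx : φ (eL x) = 1) (hy : φ (eL y) = 1) : φ (eL (x - y)) = 1 := by
  rw [sub_eq_add_neg, ← eL_add, map_mul, hx, eL_neg, map_inv, hy, inv_one, one_mul]

theorem phi_eL_four (s r : A) (h1 : IsUnit (1 + r)) (h2 : IsUnit (1 - r))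
    (h : φ (eL s) = 1) : φ (eL (4 * r * s)) = 1 := by
  obtain ⟨v, hv⟩ := h1
  obtain ⟨w, hw⟩ := h2
  have a := phi_eL_sq φ v s h
  have b := phi_eL_sq φ w s h
  have c := phi_eL_sub φ _ _ a b
  have e : (v : A) ^ 2 * s - (w : A) ^ 2 * s = 4 * r * s := by
    rw [hv, hw]; ring
  rwa [e] at c

theorem phi_eU_of_eL (x : A) (h : φ (eL x) = 1) : φ (eU x) = 1 := by
  have key : (eU 1 * eL (-1) * eU 1 : SpecialLinearGroup (Fin 2) A) * eL (-x) =
      eU x * (eU 1 * eL (-1) * eU 1) := by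
    apply Subtype.ext
    ext i j
    fin_cases i <;> fin_cases j <;>
      simp [eU, eL, Matrix.mul_apply, Fin.sum_univ_two]
  have := congrArg φ key
  have hx : φ (eL (-x)) = 1 := by rw [eL_neg, map_inv, h, inv_one]
  rw [map_mul, map_mul φ (eU x), hx, mul_one] at this
  exact (mul_eq_right.mp this.symm)

/-- An element of the kernel with invertible `(0,0)` entry and lower left entry `c` gives
`eL (c·unit)` in the kernel. -/
theorem phi_core (u : Aˣ) (k : SpecialLinearGroup (Fin 2) A) (a : Aˣ) (ha : k 0 0 = a)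
    (hk : φ k = 1) (s' : A)
    (hs' : (u : A) ^ 4 * s' = ((u : A) ^ 2 - 1) ^ 2 * (k 1 0 * ((a⁻¹ : Aˣ) : A))) :
    φ (eL s') = 1 := by
  set ℓ : A := k 1 0 * ((a⁻¹ : Aˣ) : A) with hℓ
  set β : A := ((a⁻¹ : Aˣ) : A) * k 0 1 with hβ
  have h0 : φ (eL ℓ) * φ (dg a) * φ (eU β) = 1 := by
    rw [← map_mul, ← map_mul, ← lower_upper k a ha, hk]
  -- ℓ = u^2 * ℓ'
  set ℓ' : A := ((u⁻¹ : Aˣ) : A) ^ 2 * ℓ with hℓ'
  have hu : ((u⁻¹ : Aˣ) : A) * (u : A) = 1 := u.inv_mul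
  have e1 : (u : A) ^ 2 * ℓ' = ℓ := by
    rw [hℓ']
    have : (u : A) ^ 2 * (((u⁻¹ : Aˣ) : A) ^ 2 * ℓ) = (((u⁻¹ : Aˣ) : A) * (u : A)) ^ 2 * ℓ := by
      ring
    rw [this, hu]; ring
  have hdgcomm : dg a * dg u = dg u * dg a := by
    apply Subtype.ext
    ext i j
    fin_cases i <;> fin_cases j <;> simp [dg, Matrix.mul_apply, Fin.sum_univ_two, mul_comm]
  have c1 : φ (dg u) * φ (eL ℓ) = φ (eL ℓ') * φ (dg u) := by
    rw [← map_mul, ← map_mul, ← dg_eL u ℓ', e1]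
  have c2 : φ (dg u) * φ (eU β) = φ (eU ((u : A) ^ 2 * β)) * φ (dg u) := by
    rw [← map_mul, ← map_mul, dg_eU]
  have c3 : φ (dg u) * φ (dg a) = φ (dg a) * φ (dg u) := by
    rw [← map_mul, ← map_mul, hdgcomm]
  -- conjugated relation
  have h1 : φ (eL ℓ') * φ (dg a) * φ (eU ((u : A) ^ 2 * β)) = 1 := by
    have : φ (dg u) * (φ (eL ℓ) * φ (dg a) * φ (eU β)) =
        (φ (eL ℓ') * φ (dg a) * φ (eU ((u : A) ^ 2 * β))) * φ (dg u) := by
      calc φ (dg u) * (φ (eL ℓ) * φ (dg a) * φ (eU β))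
          = (φ (dg u) * φ (eL ℓ)) * φ (dg a) * φ (eU β) := by group
        _ = φ (eL ℓ') * (φ (dg u) * φ (dg a)) * φ (eU β) := by rw [c1]; group
        _ = φ (eL ℓ') * φ (dg a) * (φ (dg u) * φ (eU β)) := by rw [c3]; group
        _ = _ := by rw [c2]; group
    rw [h0, mul_one] at this
    exact (mul_eq_right.mp this.symm)
  -- F(ℓ - ℓ') = E((u^2-1)β)
  have h2 : φ (eL (ℓ - ℓ')) = φ (eU ((u : A) ^ 2 * β - β)) := by
    rw [sub_eq_add_neg, ← eL_add, map_mul, eL_neg, map_inv, sub_eq_add_neg, ← eU_add, map_mul,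
      eU_neg, map_inv]
    have i1 : φ (eL ℓ) = (φ (eU β))⁻¹ * (φ (dg a))⁻¹ := by
      rw [← _root_.mul_inv_rev, eq_inv_iff_mul_eq_one, ← mul_assoc, h0]
    have i2 : φ (eL ℓ') = (φ (eU ((u : A) ^ 2 * β)))⁻¹ * (φ (dg a))⁻¹ := by
      rw [← _root_.mul_inv_rev, eq_inv_iff_mul_eq_one, ← mul_assoc, h1]
    rw [i1, i2]
    have i3 : φ (eU β) * φ (eU ((u : A) ^ 2 * β)) = φ (eU ((u : A) ^ 2 * β)) * φ (eU β) := by
      rw [← map_mul, ← map_mul, eU_add, eU_add, add_comm]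
    calc (φ (eU β))⁻¹ * (φ (dg a))⁻¹ * ((φ (eU ((u : A) ^ 2 * β)))⁻¹ * (φ (dg a))⁻¹)⁻¹
        = (φ (eU β))⁻¹ * (φ (eU ((u : A) ^ 2 * β)) * φ (eU β)) * (φ (eU β))⁻¹ := by group
      _ = (φ (eU β))⁻¹ * (φ (eU β) * φ (eU ((u : A) ^ 2 * β))) * (φ (eU β))⁻¹ := by rw [i3]
      _ = _ := by group
  set s : A := ℓ - ℓ' with hs
  set t : A := (u : A) ^ 2 * β - β with ht
  -- F(s) commutes with E(y) and F(z)
  have k1 : ∀ y, Commute (φ (eL s)) (φ (eU y)) := by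
    intro y
    rw [h2]
    show _ = _
    rw [← map_mul, ← map_mul, eU_add, eU_add, add_comm]
  have k2 : ∀ y, Commute (φ (eL s)) (φ (eL y)) := by
    intro y
    show _ = _
    rw [← map_mul, ← map_mul, eL_add, eL_add, add_comm]
  have k3 : Commute (φ (eL s)) (φ (dg u)) := by
    rw [dg_eq]
    simp only [map_mul]
    exact (((((k1 _).mul_right (k2 _)).mul_right (k1 _)).mul_right (k1 _)).mul_right
      (k2 _)).mul_right (k1 _)
  set s2 : A := ((u⁻¹ : Aˣ) : A) ^ 2 * s with hs2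
  have e2 : (u : A) ^ 2 * s2 = s := by
    rw [hs2]
    have : (u : A) ^ 2 * (((u⁻¹ : Aˣ) : A) ^ 2 * s) = (((u⁻¹ : Aˣ) : A) * (u : A)) ^ 2 * s := by
      ring
    rw [this, hu]; ring
  have k4 : φ (eL s2) = φ (eL s) := by
    have := congrArg φ (dg_eL u s2)
    rw [e2, map_mul, map_mul, ← k3.eq] at this
    exact (mul_right_cancel this).symm
  have k5 : φ (eL (s - s2)) = 1 := by
    rw [sub_eq_add_neg, ← eL_add, map_mul, eL_neg, map_inv, k4, mul_inv_cancel]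
  have e3 : s' = s - s2 := by
    have q : (u : A) ^ 4 * s' = (u : A) ^ 4 * (s - s2) := by
      rw [hs']
      have q1 : (u : A) ^ 4 * (s - s2) = (u:A)^4 * s - (u:A)^2 * ((u:A)^2 * s2) := by ring
      rw [q1, e2, hs]
      have q2 : (u : A) ^ 4 * (ℓ - ℓ') - (u : A) ^ 2 * (ℓ - ℓ') =
        (u:A)^4 * ℓ - (u:A)^2 * ((u:A)^2 * ℓ') - (u:A)^2 * ℓ + ((u:A)^2 * ℓ') := by ring
      rw [q2, e1]; ring
    have hu4 : IsUnit ((u : A) ^ 4) := (u.isUnit).pow 4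
    exact hu4.mul_left_cancel q
  rw [e3]
  exact k5

end

end Run7.h549
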