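import Pool.Agent.Run7.h549.Sl2

set_option maxHeartbeats 400000

namespace Run7.h549

open Matrix

section

variable {A : Type*} [CommRing A] {Q : Type*} [Group Q]
  (φ : SpecialLinearGroup (Fin 2) A →* Q)

/-- The commutator of `g` with an upper elementary matrix. -/
theorem comm_entries (g : SpecialLinearGroup (Fin 2) A) (x : A) :
    (g * eU x * g⁻¹ * eU (-x)) 0 0 = 1 - x * (g 0 0 * g 1 0) ∧
    (g * eU x * g⁻¹ * eU (-x)) 1 0 = - (x * (g 1 0) ^ 2) := by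
  have hd := g.det_coe
  rw [Matrix.det_fin_two] at hd
  have hd' : (g 0 0) * (g 1 1) - (g 0 1) * (g 1 0) = 1 := hd
  have hi : (g⁻¹ : SpecialLinearGroup (Fin 2) A) = ⟨!![g 1 1, -(g 0 1); -(g 1 0), g 0 0], by
      rw [Matrix.det_fin_two]; simp; linear_combination hd'⟩ := by
    apply Subtype.ext
    ext i j
    rw [Matrix.SpecialLinearGroup.coe_inv, Matrix.adjugate_fin_two]
  constructor
  · rw [hi]
    simp [eU, Matrix.mul_apply, Fin.sum_univ_two]
    linear_combination hd'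
  · rw [hi]
    simp [eU, Matrix.mul_apply, Fin.sum_univ_two]
    ring

theorem phi_lower (π : A) (hπ : ∀ r, IsUnit (1 + π * r)) (h2 : IsUnit (2 : A))
    (h3 : IsUnit (3 : A)) (g : SpecialLinearGroup (Fin 2) A) (hg : φ g = 1) (y : A) :
    φ (eL (π ^ 2 * (g 1 0) ^ 2 * y)) = 1 := by
  set c : A := g 1 0 with hc
  set k := g * eU π * g⁻¹ * eU (-π) with hk
  obtain ⟨k00, k10⟩ := comm_entries g π
  rw [← hk] at k00 k10
  have hk1 : φ k = 1 := by
    rw [hk]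
    simp only [map_mul, map_inv, hg, eU_neg]
    group
  obtain ⟨a, ha⟩ := hπ (-(g 0 0 * c))
  have ha' : k 0 0 = a := by rw [k00, ha]; ring
  obtain ⟨u, hu⟩ := h2
  obtain ⟨t, ht⟩ := h3
  have huu : ((u⁻¹ : Aˣ) : A) * 2 = 1 := by rw [← hu]; exact u.inv_mul
  have htt : ((t⁻¹ : Aˣ) : A) * 3 = 1 := by rw [← ht]; exact t.inv_mul
  have haa : ((a⁻¹ : Aˣ) : A) * (a : A) = 1 := a.inv_mul
  set ui : A := ((u⁻¹ : Aˣ) : A) with hui
  set ti : A := ((t⁻¹ : Aˣ) : A) with hti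
  set ai : A := ((a⁻¹ : Aˣ) : A) with hai
  have core := phi_core φ u k a ha' hk1 (ui ^ 4 * (9 * (k 1 0 * ai))) (by
    rw [hu]
    have : (2 : A) ^ 4 * (ui ^ 4 * (9 * (k 1 0 * ai))) = (ui * 2) ^ 4 * (9 * (k 1 0 * ai)) := by
      ring
    rw [this, huu]; ring)
  have hr1 : IsUnit (1 + π * (-(4 * ti ^ 2 * (a : A) * y))) := hπ _
  have hr2 : IsUnit (1 - π * (-(4 * ti ^ 2 * (a : A) * y))) := by
    have := hπ ((4 * ti ^ 2 * (a : A) * y))
    convert this using 1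
    ring
  have := phi_eL_four φ _ _ hr1 hr2 core
  have e : 4 * (π * (-(4 * ti ^ 2 * (a : A) * y))) * (ui ^ 4 * (9 * (k 1 0 * ai))) =
      π ^ 2 * c ^ 2 * y := by
    have hk10 : k 1 0 = -(π * c ^ 2) := k10
    rw [hk10]
    have e1 : 4 * (π * (-(4 * ti ^ 2 * (a : A) * y))) * (ui ^ 4 * (9 * (-(π * c ^ 2) * ai))) =
        (ti * 3) ^ 2 * (ui * 2) ^ 4 * (ai * (a : A)) * (π ^ 2 * c ^ 2 * y) := by ring
    rw [e1, htt, huu, haa]; ring
  rwa [e] at this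

theorem phi_congruence (π : A) (hπ : ∀ r, IsUnit (1 + π * r)) (h2 : IsUnit (2 : A))
    (h3 : IsUnit (3 : A)) (g : SpecialLinearGroup (Fin 2) A) (hg : φ g = 1)
    (h : SpecialLinearGroup (Fin 2) A)
    (h00 : π ^ 2 * (g 1 0) ^ 2 ∣ h 0 0 - 1) (h01 : π ^ 2 * (g 1 0) ^ 2 ∣ h 0 1)
    (h10 : π ^ 2 * (g 1 0) ^ 2 ∣ h 1 0) : φ h = 1 := by
  have L : ∀ x, π ^ 2 * (g 1 0) ^ 2 ∣ x → φ (eL x) = 1 := by
    rintro x ⟨y, rfl⟩
    exact phi_lower φ π hπ h2 h3 g hg y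
  have U : ∀ x, π ^ 2 * (g 1 0) ^ 2 ∣ x → φ (eU x) = 1 := fun x hx =>
    phi_eU_of_eL φ x (L x hx)
  obtain ⟨y, hy⟩ := h00
  obtain ⟨b, hb⟩ := hπ (π * (g 1 0) ^ 2 * y)
  have hb' : (b : A) = 1 + π ^ 2 * (g 1 0) ^ 2 * y := by rw [hb]; ring
  have D : φ (dg b) = 1 := by
    set x : A := π ^ 2 * (g 1 0) ^ 2 * y with hx
    have hxd : π ^ 2 * (g 1 0) ^ 2 ∣ x := ⟨y, rfl⟩
    set k : SpecialLinearGroup (Fin 2) A := eU 1 * eL x * eU (-1) with hk
    have k00 : k 0 0 = b := by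
      rw [hb', hk]
      simp [eU, eL, Matrix.mul_apply, Fin.sum_univ_two]
    have k10 : k 1 0 = x := by
      rw [hk]
      simp [eU, eL, Matrix.mul_apply, Fin.sum_univ_two]
    have k01 : k 0 1 = -x := by
      rw [hk]
      simp [eU, eL, Matrix.mul_apply, Fin.sum_univ_two]
    have hk1 : φ k = 1 := by
      rw [hk, map_mul, map_mul, L x hxd, eU_neg, map_inv]
      group
    have := congrArg φ (lower_upper k b k00)
    rw [hk1, map_mul, map_mul, L _ (by rw [k10]; exact hxd.mul_right _),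
      U _ (by rw [k01]; exact (hxd.neg_right).mul_left _), one_mul, mul_one] at this
    exact this.symm
  have h00' : h 0 0 = b := by rw [hb']; linear_combination hy
  rw [lower_upper h b h00', map_mul, map_mul, D, L _ (h10.mul_right _), U _ (h01.mul_left _)]
  simp

end

end Run7.h549
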