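import Pool.Agent.Run7.h549.Sl3

set_option maxHeartbeats 400000

namespace Run7.h549

open Matrix

section

variable (p : ℕ) [Fact p.Prime]

theorem padic_dvd_of_norm_le {d y : ℤ_[p]} (hd : d ≠ 0) (h : ‖y‖ ≤ ‖d‖) : d ∣ y := by
  have hd' : (d : ℚ_[p]) ≠ 0 := by
    intro h0
    exact hd (PadicInt.coe_eq_zero.mp h0)
  have hn : ‖(y : ℚ_[p]) / (d : ℚ_[p])‖ ≤ 1 := by
    rw [norm_div]
    apply div_le_one_of_le₀ _ (norm_nonneg _)
    exact h
  refine ⟨⟨(y : ℚ_[p]) / (d : ℚ_[p]), hn⟩, ?_⟩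
  apply PadicInt.ext
  rw [PadicInt.coe_mul]
  show (y : ℚ_[p]) = (d : ℚ_[p]) * ((y : ℚ_[p]) / (d : ℚ_[p]))
  field_simp

theorem padic_unit_nat {n : ℕ} (hn : n ≠ 0) (h : n < p) : IsUnit ((n : ℕ) : ℤ_[p]) := by
  rw [PadicInt.isUnit_iff, PadicInt.norm_natCast_eq_one_iff]
  exact Nat.Coprime.symm ((Nat.coprime_of_lt_prime hn h Fact.out).symm)

theorem padic_unit_one_add (r : ℤ_[p]) : IsUnit (1 + (p : ℤ_[p]) * r) := by
  rw [PadicInt.isUnit_iff]
  have h1 : ‖(p : ℤ_[p]) * r‖ < 1 := by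
    rw [norm_mul, PadicInt.norm_p]
    have hp : (1 : ℝ) < p := by exact_mod_cast (Fact.out : p.Prime).one_lt
    have h2 : (p : ℝ)⁻¹ < 1 := inv_lt_one_of_one_lt₀ hp
    have h3 : ‖r‖ ≤ 1 := PadicInt.norm_le_one r
    have h4 : (0:ℝ) ≤ (p:ℝ)⁻¹ := by positivity
    nlinarith [norm_nonneg r]
  have := PadicInt.norm_add_eq_max_of_ne (q := (1 : ℤ_[p])) (r := (p : ℤ_[p]) * r) (by
    rw [norm_one]; exact h1.ne')
  rw [this, norm_one]
  exact max_eq_left h1.le

/-- A normal subgroup of `SL₂(ℤ_p)`, `p ≥ 5`, containing an element with a nonzero lower left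
entry is open. -/
theorem isOpen_of_entry (hp : 5 ≤ p) (N : Subgroup (SpecialLinearGroup (Fin 2) ℤ_[p]))
    [N.Normal] (g : SpecialLinearGroup (Fin 2) ℤ_[p]) (hg : g ∈ N) (hc : g 1 0 ≠ 0) :
    IsOpen (N : Set (SpecialLinearGroup (Fin 2) ℤ_[p])) := by
  set d : ℤ_[p] := (p : ℤ_[p]) ^ 2 * (g 1 0) ^ 2 with hd
  have hp0 : (p : ℤ_[p]) ≠ 0 := by
    exact_mod_cast (Fact.out : p.Prime).ne_zero
  have hd0 : d ≠ 0 := mul_ne_zero (pow_ne_zero _ hp0) (pow_ne_zero _ hc)
  have hpos : 0 < ‖d‖ := norm_pos_iff.mpr hd0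
  apply Subgroup.isOpen_of_mem_nhds N (g := 1)
  have hV : {h : SpecialLinearGroup (Fin 2) ℤ_[p] | ‖h 0 0 - 1‖ < ‖d‖ ∧ ‖h 0 1‖ < ‖d‖ ∧
      ‖h 1 0‖ < ‖d‖} ∈ nhds (1 : SpecialLinearGroup (Fin 2) ℤ_[p]) := by
    apply IsOpen.mem_nhds
    · have c00 : Continuous fun h : SpecialLinearGroup (Fin 2) ℤ_[p] => h 0 0 :=
        (continuous_apply_apply (0 : Fin 2) (0 : Fin 2)).comp continuous_subtype_val
      have c01 : Continuous fun h : SpecialLinearGroup (Fin 2) ℤ_[p] => h 0 1 :=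
        (continuous_apply_apply (0 : Fin 2) (1 : Fin 2)).comp continuous_subtype_val
      have c10 : Continuous fun h : SpecialLinearGroup (Fin 2) ℤ_[p] => h 1 0 :=
        (continuous_apply_apply (1 : Fin 2) (0 : Fin 2)).comp continuous_subtype_val
      apply IsOpen.inter (isOpen_lt (c00.sub continuous_const).norm continuous_const)
      exact IsOpen.inter (isOpen_lt c01.norm continuous_const)
        (isOpen_lt c10.norm continuous_const)
    · simp [hpos]
  apply Filter.mem_of_superset hV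
  rintro h ⟨h00, h01, h10⟩
  have := phi_congruence (QuotientGroup.mk' N) (p : ℤ_[p]) (padic_unit_one_add p)
    (by exact_mod_cast padic_unit_nat p (n := 2) (by norm_num) (by omega))
    (by exact_mod_cast padic_unit_nat p (n := 3) (by norm_num) (by omega)) g
    (by rwa [QuotientGroup.mk'_apply, QuotientGroup.eq_one_iff]) h
    (padic_dvd_of_norm_le p hd0 h00.le) (padic_dvd_of_norm_le p hd0 h01.le)
    (padic_dvd_of_norm_le p hd0 h10.le)
  rwa [QuotientGroup.mk'_apply, QuotientGroup.eq_one_iff] at this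

/-- If all elements of a normal subgroup have zero lower left entry, they are `±1`. -/
theorem pm_one_of_entries (N : Subgroup (SpecialLinearGroup (Fin 2) ℤ_[p]))
    (hN : N.Normal) (h0 : ∀ g ∈ N, g 1 0 = 0) (g : SpecialLinearGroup (Fin 2) ℤ_[p])
    (hg : g ∈ N) : g = 1 ∨ g = -1 := by
  have hd := g.det_coe
  rw [Matrix.det_fin_two] at hd
  have hd' : (g 0 0) * (g 1 1) - (g 0 1) * (g 1 0) = 1 := hd
  have g10 := h0 g hg
  have g01 : g 0 1 = 0 := by
    have hw := hN.conj_mem g hg (eU 1 * eL (-1) * eU 1)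
    have e : (eU (1 : ℤ_[p]) * eL (-1) * eU 1)⁻¹ = eU (-1) * eL 1 * eU (-1) := by
      rw [eU_neg, eL_neg]; group
    rw [e] at hw
    have h1 := h0 _ hw
    have e2 : (eU (1 : ℤ_[p]) * eL (-1) * eU 1 * g * (eU (-1) * eL 1 * eU (-1)) :
        SpecialLinearGroup (Fin 2) ℤ_[p]) 1 0 =
        -(g 0 1) := by
      simp [eL, eU, Matrix.mul_apply, Fin.sum_univ_two, Matrix.vecMul, dotProduct]
    rw [e2] at h1
    exact neg_eq_zero.mp h1
  have g00 : g 0 0 = g 1 1 := by
    have hw := hN.conj_mem g hg (eL 1)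
    rw [← eL_neg] at hw
    have this := h0 _ hw
    have e : (eL (1 : ℤ_[p]) * g * eL (-1) : SpecialLinearGroup (Fin 2) ℤ_[p]) 1 0 =
        g 0 0 + g 1 0 - (g 0 1 + g 1 1) := by
      simp [eL, Matrix.mul_apply, Fin.sum_univ_two, Matrix.vecMul, dotProduct]
      ring
    rw [e, g10, g01] at this
    linear_combination this
  rw [g10, ← g00] at hd'
  have hsq : (g 0 0 - 1) * (g 0 0 + 1) = 0 := by linear_combination hd'
  rcases mul_eq_zero.mp hsq with h | h
  · left
    apply Subtype.ext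
    ext i j
    fin_cases i <;> fin_cases j
    · simpa using sub_eq_zero.mp h
    · simpa using g01
    · simpa using g10
    · simpa using (g00 ▸ sub_eq_zero.mp h)
  · right
    have h' : g 0 0 = -1 := by linear_combination h
    apply Subtype.ext
    ext i j
    fin_cases i <;> fin_cases j
    · simpa using h'
    · simpa using g01
    · simpa using g10
    · simpa using (g00 ▸ h')

/-- Every normal subgroup of `SL₂(ℤ_p)`, `p ≥ 5`, is contained in `{1, -1}` or open. -/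
theorem normal_dichotomy (hp : 5 ≤ p) (N : Subgroup (SpecialLinearGroup (Fin 2) ℤ_[p]))
    (hN : N.Normal) :
    (N : Set (SpecialLinearGroup (Fin 2) ℤ_[p])) ⊆ {1, -1} ∨
      IsOpen (N : Set (SpecialLinearGroup (Fin 2) ℤ_[p])) := by
  by_cases h : ∃ g ∈ N, g 1 0 ≠ 0
  · obtain ⟨g, hg, hc⟩ := h
    right
    have := hN
    exact isOpen_of_entry p hp N g hg hc
  · left
    push Not at h
    intro g hg
    simpa using pm_one_of_entries p N hN h g hg

end

end Run7.h549
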