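import Pool.Agent.Run7.h549.Sl4

set_option maxHeartbeats 400000

namespace Run7.h549

open Matrix Cardinal

section

variable (p : ℕ) [Fact p.Prime]

theorem sl_compact : CompactSpace (SpecialLinearGroup (Fin 2) ℤ_[p]) := by
  have h : CompactSpace (Matrix (Fin 2) (Fin 2) ℤ_[p]) :=
    inferInstanceAs (CompactSpace (Fin 2 → Fin 2 → ℤ_[p]))
  exact (Matrix.SpecialLinearGroup.isClosedEmbedding_val (R := ℤ_[p])
    (n := Fin 2)).compactSpace

theorem sl_metrizable : TopologicalSpace.MetrizableSpace (SpecialLinearGroup (Fin 2) ℤ_[p]) := by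
  have h : TopologicalSpace.MetrizableSpace (Matrix (Fin 2) (Fin 2) ℤ_[p]) :=
    inferInstanceAs (TopologicalSpace.MetrizableSpace (Fin 2 → Fin 2 → ℤ_[p]))
  exact (Matrix.SpecialLinearGroup.isClosedEmbedding_val (R := ℤ_[p])
    (n := Fin 2)).isEmbedding.metrizableSpace

theorem sl_totallyDisconnected :
    TotallyDisconnectedSpace (SpecialLinearGroup (Fin 2) ℤ_[p]) := by
  have h : TotallyDisconnectedSpace (Matrix (Fin 2) (Fin 2) ℤ_[p]) :=
    inferInstanceAs (TotallyDisconnectedSpace (Fin 2 → Fin 2 → ℤ_[p]))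
  exact inferInstanceAs (TotallyDisconnectedSpace
    {A : Matrix (Fin 2) (Fin 2) ℤ_[p] // A.det = 1})

theorem sl_nonarch : NonarchimedeanGroup (SpecialLinearGroup (Fin 2) ℤ_[p]) := by
  have h1 := sl_compact p
  have h2 := sl_metrizable p
  have h3 := sl_totallyDisconnected p
  refine { is_nonarchimedean := ?_ }
  intro U hU
  obtain ⟨W, hW, h1W, hWU⟩ := compact_exists_isClopen_in_isOpen
    (isOpen_interior (s := U)) (mem_interior_iff_mem_nhds.mpr hU)
  obtain ⟨H, hH⟩ := IsTopologicalGroup.exist_openSubgroup_sub_clopen_nhds_of_one hW h1W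
  exact ⟨H, hH.trans (hWU.trans interior_subset)⟩

theorem padic_uncountable : Uncountable ℤ_[p] := by
  have h : 𝔠 ≤ #(Metric.closedBall (0 : ℚ_[p]) 1) := by
    apply continuum_le_cardinal_of_isOpen ℚ_[p]
    · exact IsUltrametricDist.isOpen_closedBall _ one_ne_zero
    · exact ⟨0, by simp⟩
  have h2 : ℵ₀ < #(Metric.closedBall (0 : ℚ_[p]) 1) := lt_of_lt_of_le aleph0_lt_continuum h
  have h3 : Uncountable (Metric.closedBall (0 : ℚ_[p]) 1) := by
    rwa [← Cardinal.aleph0_lt_mk_iff]
  let f : Metric.closedBall (0 : ℚ_[p]) 1 → ℤ_[p] := fun x => ⟨x.1, by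
    exact mem_closedBall_zero_iff.mp x.2⟩
  have hf : Function.Injective f := by
    intro x y hxy
    apply Subtype.ext
    exact congrArg (fun z : ℤ_[p] => (z : ℚ_[p])) hxy
  exact hf.uncountable

theorem sl_uncountable : Uncountable (SpecialLinearGroup (Fin 2) ℤ_[p]) := by
  have := padic_uncountable p
  have hf : Function.Injective (fun x : ℤ_[p] => eU x) := by
    intro x y hxy
    have := congrArg (fun g : SpecialLinearGroup (Fin 2) ℤ_[p] => g 0 1) hxy
    simpa [eU] using this
  exact hf.uncountable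

end

end Run7.h549
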