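import Pool.Agent.Run7.h549.Wulff
import Pool.Agent.Run7.h549.Lag3

set_option maxHeartbeats 400000
open MeasureTheory Set Filter Topology
open scoped ENNReal Real Pointwise

namespace Run7.h549

/-- planar area in real coordinates -/
theorem vol_reim (A : Set ℂ) : volume A = volume ((fun p : ℂ => (p.re, p.im)) '' A) := by
  have mp := Complex.volume_preserving_equiv_real_prod
  have h2 : (fun p : ℂ => (p.re, p.im)) '' A = Complex.measurableEquivRealProd.symm ⁻¹' A := by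
    have h3 : (fun p : ℂ => (p.re, p.im)) '' A = Complex.measurableEquivRealProd '' A := rfl
    rw [h3]
    exact Complex.measurableEquivRealProd.image_eq_preimage_symm A
  rw [h2]
  exact (mp.symm _).measure_preimage_equiv A |>.symm

theorem re_cis_inner (θ : ℝ) (x z : C2) :
    (inner ℂ (cis θ • x) z).re = (inner ℂ x z).re * Real.cos θ + (inner ℂ x z).im * Real.sin θ := by
  rw [inner_smul_left, Complex.mul_re, Complex.conj_re, Complex.conj_im, (cis_re_im θ).1,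
    (cis_re_im θ).2]
  ring

theorem re_icis_inner (θ : ℝ) (x z : C2) :
    (inner ℂ (cis θ • Complex.I • x) z).re
      = -(inner ℂ x z).re * Real.sin θ + (inner ℂ x z).im * Real.cos θ := by
  rw [re_cis_inner, inner_smul_left]
  simp
  ring

theorem pa_le_of {x : C2} {M : ConvexBody C2} {g g1 g2 : ℝ → ℝ} (hg : SupF g g1 g2)
    (h : ∀ z ∈ (M : Set C2), ∀ θ, (inner ℂ (cis θ • x) z).re ≤ g θ) :
    pa x M ≤ (∫ θ in (-π)..π, (g θ ^ 2 - g1 θ ^ 2)) / 2 := by
  unfold pa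
  rw [vol_reim]
  have hsub : (fun p : ℂ => (p.re, p.im)) '' ((fun z => inner ℂ x z) '' (M : Set C2)) ⊆ Wset g := by
    rintro _ ⟨_, ⟨z, hz, rfl⟩, rfl⟩ θ
    have := h z hz θ
    rwa [re_cis_inner] at this
  have h1 := (measure_mono hsub).trans (Wset_le hg)
  exact ENNReal.toReal_le_of_le_ofReal hg.int_nonneg h1

theorem pa_ge_of {x : C2} {M : ConvexBody C2} {g g1 g2 : ℝ → ℝ} (hg : SupF g g1 g2)
    (h0 : (0 : C2) ∈ (M : Set C2)) (b : ℝ → C2) (hb : ∀ θ, b θ ∈ (M : Set C2))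
    (h1 : ∀ θ, (inner ℂ (cis θ • x) (b θ)).re = g θ)
    (h2 : ∀ θ, (inner ℂ (cis θ • Complex.I • x) (b θ)).re = g1 θ)
    (h3 : ∀ θ ∈ Ioc (-π) π, ∀ φ ∈ Ioc (-π) π, θ ≠ φ → (inner ℂ (cis φ • x) (b θ)).re < g φ) :
    (∫ θ in (-π)..π, (g θ ^ 2 - g1 θ ^ 2)) / 2 ≤ pa x M := by
  have hT : ∀ θ, TT g g1 (1, θ) = ((inner ℂ x (b θ)).re, (inner ℂ x (b θ)).im) := by
    intro θ
    have e1 := h1 θ
    have e2 := h2 θ
    rw [re_cis_inner] at e1
    rw [re_icis_inner] at e2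
    have hcs := Real.sin_sq_add_cos_sq θ
    unfold TT
    apply Prod.ext
    · simp only
      rw [← e1, ← e2]
      linear_combination (inner ℂ x (b θ)).re * hcs
    · simp only
      rw [← e1, ← e2]
      linear_combination (inner ℂ x (b θ)).im * hcs
  have hge := Wset_ge hg (by
    intro θ hθ φ hφ hne
    rw [hT]
    have := h3 θ hθ φ hφ hne
    rwa [re_cis_inner] at this)
  have hsub : TT g g1 '' (Ioc (0:ℝ) 1 ×ˢ Ioc (-π) π)
      ⊆ (fun p : ℂ => (p.re, p.im)) '' ((fun z => inner ℂ x z) '' (M : Set C2)) := by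
    rintro _ ⟨⟨ρ, θ⟩, ⟨hρ, hθ⟩, rfl⟩
    simp only at hρ hθ
    refine ⟨inner ℂ x (ρ • b θ), ⟨ρ • b θ, ?_, rfl⟩, ?_⟩
    · exact M.convex.smul_mem_of_zero_mem h0 (hb θ) ⟨hρ.1.le, hρ.2⟩
    · have e1 : inner ℂ x (ρ • b θ) = ρ • inner ℂ x (b θ) := (projL x).map_smul ρ (b θ)
      have hsc : TT g g1 (ρ, θ) = (ρ * (TT g g1 (1, θ)).1, ρ * (TT g g1 (1, θ)).2) := by
        unfold TT; simp
      rw [hsc, hT, e1]
      simp
  have h4 := hge.trans (measure_mono hsub)
  unfold pa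
  rw [vol_reim]
  have hfin : volume ((fun p : ℂ => (p.re, p.im)) '' ((fun z => inner ℂ x z) '' (M : Set C2))) ≠ ∞ := by
    rw [← vol_reim]
    exact (M.isCompact.image (by fun_prop)).measure_lt_top.ne
  rwa [ENNReal.ofReal_le_iff_le_toReal hfin] at h4

end Run7.h549
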