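import Mathlib

/-! Tree-shifts of finite type and their entropy: the counting part. -/

namespace Run7.h549.TS

open Filter Topology

/-- Labelled trees: a label for every node; nodes are finite words over `Fin d`, the root is the
empty word and the children of `w` are the words `w ++ [i]`. -/
abbrev LTree (d : ℕ) (S : Type) := List (Fin d) → S

/-- `n`-blocks: labellings of the nodes of length less than `n` (that is, at most `n - 1`). -/
abbrev Block (d n : ℕ) (S : Type) := {w : List (Fin d) // w.length < n} → S

/-- The `n`-block of the labelled tree `t` at the node `v`. -/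
def blockAt {d : ℕ} {S : Type} (t : LTree d S) (v : List (Fin d)) (n : ℕ) : Block d n S :=
  fun w => t (v ++ w.1)

/-- The labelled trees in which no block of `F` occurs at any node. -/
def treeShift {d : ℕ} {S : Type} (F : Set (Σ n : ℕ, Block d n S)) : Set (LTree d S) :=
  {t | ∀ v : List (Fin d), ∀ n : ℕ, (⟨n, blockAt t v n⟩ : Σ n : ℕ, Block d n S) ∉ F}

/-- Tree-shifts of finite type: given by a finite set of forbidden blocks. -/
def IsTSFT {d : ℕ} {S : Type} (X : Set (LTree d S)) : Prop :=
  ∃ F : Set (Σ n : ℕ, Block d n S), F.Finite ∧ (∀ p ∈ F, 1 ≤ p.1) ∧ X = treeShift F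

/-- The `n`-blocks occurring in elements of `X`. -/
def blocksOf {d : ℕ} {S : Type} (X : Set (LTree d S)) (n : ℕ) : Set (Block d n S) :=
  {b | ∃ t ∈ X, ∃ v, blockAt t v n = b}

/-- `X` has entropy `h`: the numbers `ln ln |B_n(X)| / n` converge to `h`. -/
def HasEntropy {d : ℕ} {S : Type} (X : Set (LTree d S)) (h : ℝ) : Prop :=
  Tendsto (fun n : ℕ => Real.log (Real.log ((blocksOf X n).ncard : ℝ)) / (n : ℝ)) atTop (𝓝 h)

/-- The matrix shift of a `0`-`1` matrix. -/
def matrixShift {V : Type} (A : Matrix V V ℕ) : Set (ℤ → V) := {x | ∀ i, A (x i) (x (i + 1)) = 1}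

/-- The logarithm of the spectral radius of `A`. -/
noncomputable def matrixEntropy {V : Type} [Fintype V] [DecidableEq V] (A : Matrix V V ℕ) : ℝ :=
  Real.log (spectralRadius ℂ (A.map (Nat.cast : ℕ → ℂ))).toReal

theorem exists_row {V : Type} [Fintype V] [DecidableEq V] (r : V → ℕ) (d : ℕ)
    (h : ∑ b, r b ≤ d) :
    ∃ δ : Fin d → Option V, ∀ b, (Finset.univ.filter (fun i => δ i = some b)).card = r b := by
  classical
  have hc : Fintype.card (Fin d) = Fintype.card ((Σ b, Fin (r b)) ⊕ Fin (d - ∑ b, r b)) := by
    simp [Fintype.card_sum, Fintype.card_sigma]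
    omega
  let e := Fintype.equivOfCardEq hc
  refine ⟨fun i => Sum.elim (fun p => some p.1) (fun _ => none) (e i), fun b => ?_⟩
  have hinj : Function.Injective (fun j : Fin (r b) => e.symm (Sum.inl ⟨b, j⟩)) := by
    intro j j' hj
    have h1 := e.symm.injective hj
    simpa using h1
  have : (Finset.univ.filter (fun i => Sum.elim (fun p : (Σ b, Fin (r b)) => some p.1)
      (fun _ => none) (e i) = some b)) =
      (Finset.univ : Finset (Fin (r b))).map ⟨fun j => e.symm (Sum.inl ⟨b, j⟩), hinj⟩ := by
    ext i
    simp only [Finset.mem_filter, Finset.mem_univ, true_and, Finset.mem_map,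
      Function.Embedding.coeFn_mk]
    constructor
    · intro hi
      rcases he : e i with ⟨b', j⟩ | j
      · rw [he] at hi
        simp only [Sum.elim_inl, Option.some.injEq] at hi
        subst hi
        exact ⟨j, by rw [← he]; simp⟩
      · rw [he] at hi
        simp at hi
    · rintro ⟨j, rfl⟩
      simp
  rw [this]
  simp

section
variable {V : Type} {d : ℕ} (δ : V → Fin d → Option V)

/-- Running the partial automaton. -/
def run (o : Option V) (w : List (Fin d)) : Option V :=
  w.foldl (fun o i => o.bind (fun a => δ a i)) o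

@[simp] theorem run_nil (o : Option V) : run δ o [] = o := rfl

@[simp] theorem run_cons (o : Option V) (i : Fin d) (w : List (Fin d)) :
    run δ o (i :: w) = run δ (o.bind (fun a => δ a i)) w := rfl

theorem run_append (o : Option V) (w : List (Fin d)) (i : Fin d) :
    run δ o (w ++ [i]) = (run δ o w).bind (fun a => δ a i) := by
  simp [run, List.foldl_append]

@[simp] theorem run_none (w : List (Fin d)) : run δ none w = none := by
  induction w with
  | nil => rfl
  | cons i w ih => simpa using ih

/-- The type of a label. -/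
def typ (s : Option (V × Bool)) : Option V := s.map Prod.fst

/-- Forbidden 2-blocks. -/
def forb : Set (Σ n : ℕ, Block d n (Option (V × Bool))) :=
  {p | ∃ b : Block d 2 (Option (V × Bool)), p = ⟨2, b⟩ ∧
    ∃ i : Fin d, typ (b ⟨[i], by simp⟩) ≠ (typ (b ⟨[], by simp⟩)).bind (fun a => δ a i)}

instance finNodes (n : ℕ) : Finite {w : List (Fin d) // w.length < n} :=
  (List.finite_length_lt (Fin d) n).to_subtype

theorem forb_finite [Finite V] : (forb δ).Finite := by
  have : (forb δ) ⊆ Set.range (fun b : Block d 2 (Option (V × Bool)) =>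
      (⟨2, b⟩ : Σ n : ℕ, Block d n (Option (V × Bool)))) := by
    rintro p ⟨b, rfl, _⟩
    exact ⟨b, rfl⟩
  exact (Set.finite_range _).subset this

theorem mem_shift (t : LTree d (Option (V × Bool))) :
    t ∈ treeShift (forb δ) ↔
      ∀ v i, typ (t (v ++ [i])) = (typ (t v)).bind (fun a => δ a i) := by
  constructor
  · intro ht v i
    by_contra hne
    refine ht v 2 ⟨blockAt t v 2, rfl, i, ?_⟩
    simpa [blockAt] using hne
  · rintro ht v n ⟨b, hb, i, hi⟩
    obtain ⟨h1, h2⟩ := Sigma.mk.inj_iff.1 hb
    subst h1
    have h3 := eq_of_heq h2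
    subst h3
    apply hi
    have := ht v i
    simpa [blockAt] using this

theorem typ_run {t : LTree d (Option (V × Bool))} (ht : t ∈ treeShift (forb δ))
    (w : List (Fin d)) : ∀ v, typ (t (v ++ w)) = run δ (typ (t v)) w := by
  rw [mem_shift] at ht
  induction w with
  | nil => intro v; simp
  | cons i w ih =>
      intro v
      have := ih (v ++ [i])
      rw [List.append_assoc, List.singleton_append] at this
      rw [this, ht v i, run_cons]

/-- Nodes on which the automaton is defined. -/
abbrev Supp (o : Option V) (n : ℕ) :=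
  {w : {w : List (Fin d) // w.length < n} // (run δ o w.1).isSome}

/-- The block with given types and bits. -/
def mk (o : Option V) (n : ℕ) (β : Supp δ o n → Bool) : Block d n (Option (V × Bool)) :=
  fun w => if h : (run δ o w.1).isSome then some ((run δ o w.1).get h, β ⟨w, h⟩) else none

theorem typ_mk (o : Option V) (n : ℕ) (β : Supp δ o n → Bool)
    (w : {w : List (Fin d) // w.length < n}) : typ (mk δ o n β w) = run δ o w.1 := by
  unfold mk typ
  split_ifs with h
  · simp
  · simp only [Option.map_none]
    simpa using (Option.not_isSome_iff_eq_none.1 h).symm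

theorem mk_injective (o : Option V) (n : ℕ) : Function.Injective (mk δ o n) := by
  intro β β' h
  funext w
  have h1 := congrFun h w.1
  unfold mk at h1
  have h2 := w.2
  simp only [h2, dif_pos] at h1
  have h3 := Option.some.inj h1
  exact congrArg Prod.snd h3

theorem blocksOf_eq (n : ℕ) :
    blocksOf (treeShift (forb δ)) n = ⋃ o : Option V, Set.range (mk δ o n) := by
  ext b
  simp only [Set.mem_iUnion, Set.mem_range]
  constructor
  · rintro ⟨t, ht, v, rfl⟩
    refine ⟨typ (t v), fun p => ((t (v ++ p.1.1)).map Prod.snd).getD false, ?_⟩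
    funext w
    have h1 := typ_run δ ht w.1 v
    unfold mk blockAt
    rcases hs : t (v ++ w.1) with _ | ⟨a, β⟩
    · rw [hs] at h1
      have h2 : run δ (typ (t v)) w.1 = none := by rw [← h1]; rfl
      simp [h2]
    · rw [hs] at h1
      have h2 : run δ (typ (t v)) w.1 = some a := by rw [← h1]; rfl
      simp [h2, hs]
  · rintro ⟨o, β, rfl⟩
    let t : LTree d (Option (V × Bool)) := fun w =>
      if hw : w.length < n then mk δ o n β ⟨w, hw⟩ else (run δ o w).map (fun a => (a, false))
    have htyp : ∀ w, typ (t w) = run δ o w := by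
      intro w
      by_cases hw : w.length < n
      · simp only [t, dif_pos hw]
        exact typ_mk δ o n β ⟨w, hw⟩
      · simp only [t, dif_neg hw, typ, Option.map_map]
        cases run δ o w <;> simp
    refine ⟨t, ?_, [], ?_⟩
    · rw [mem_shift]
      intro v i
      rw [htyp, htyp, run_append]
    · funext w
      simp only [blockAt, List.nil_append, t, dif_pos w.2]

theorem shift_nonempty [Nonempty V] : (treeShift (forb δ)).Nonempty := by
  refine ⟨fun _ => none, ?_⟩
  rw [mem_shift]
  intro v i
  rfl

end

end Run7.h549.TS
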