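import Pool.Agent.Run7.h549.TS1

/-! Counting blocks through matrix powers. -/

namespace Run7.h549.TS

open Filter Topology

/-- The words of length less than `n`, as a finset. -/
def Lw (d : ℕ) : ℕ → Finset (List (Fin d))
  | 0 => ∅
  | n + 1 => insert [] (((Finset.univ : Finset (Fin d)) ×ˢ Lw d n).image (fun p => p.1 :: p.2))

theorem mem_Lw {d : ℕ} : ∀ (n : ℕ) (w : List (Fin d)), w ∈ Lw d n ↔ w.length < n := by
  intro n
  induction n with
  | zero => intro w; simp [Lw]
  | succ n ih =>
      intro w
      cases w with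
      | nil => simp [Lw]
      | cons i w => simp [Lw, ih]

section
variable {V : Type} [Fintype V] [DecidableEq V] {d : ℕ} (δ : V → Fin d → Option V)

/-- Number of nodes of level `< n` on which the automaton is defined. -/
def cnt (o : Option V) (n : ℕ) : ℕ := ∑ w ∈ Lw d n, if (run δ o w).isSome then 1 else 0

theorem card_supp (o : Option V) (n : ℕ) : Nat.card (Supp δ o n) = cnt δ o n := by
  have e1 : Supp δ o n ≃ {w : List (Fin d) // w.length < n ∧ (run δ o w).isSome} :=
    Equiv.subtypeSubtypeEquivSubtypeInter (fun w : List (Fin d) => w.length < n)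
      (fun w => (run δ o w).isSome)
  have e2 : {w : List (Fin d) // w.length < n ∧ (run δ o w).isSome} ≃
      {w : List (Fin d) // w ∈ (Lw d n).filter (fun w => (run δ o w).isSome)} :=
    Equiv.subtypeEquivRight (fun w => by simp [mem_Lw])
  rw [Nat.card_congr (e1.trans e2), Nat.card_eq_fintype_card, Fintype.card_coe, cnt,
    Finset.card_filter]

theorem cnt_zero (o : Option V) : cnt δ o 0 = 0 := by simp [cnt, Lw]

theorem cnt_none (n : ℕ) : cnt δ none n = 0 := by simp [cnt]

theorem cnt_succ (a : V) (n : ℕ) :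
    cnt δ (some a) (n + 1) = 1 + ∑ i, cnt δ (δ a i) n := by
  have hinj : Function.Injective (fun p : Fin d × List (Fin d) => p.1 :: p.2) := by
    intro p q h
    simp only [List.cons.injEq] at h
    exact Prod.ext h.1 h.2
  unfold cnt
  rw [Lw, Finset.sum_insert (by simp)]
  rw [Finset.sum_image (fun p _ q _ h => hinj h), Finset.sum_product]
  simp only [run_nil, run_cons, Option.isSome_some, if_true, Option.bind_some]
  rfl

theorem cnt_succ' (A : Matrix V V ℕ)
    (hδ : ∀ a b, (Finset.univ.filter (fun i => δ a i = some b)).card = A a b) (a : V) (n : ℕ) :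
    cnt δ (some a) (n + 1) = 1 + ∑ b, A a b * cnt δ (some b) n := by
  rw [cnt_succ]
  congr 1
  have h1 : ∀ i, cnt δ (δ a i) n = ∑ b, if δ a i = some b then cnt δ (some b) n else 0 := by
    intro i
    rcases h : δ a i with _ | c
    · simp [cnt_none]
    · simp
  calc ∑ i, cnt δ (δ a i) n = ∑ i, ∑ b, if δ a i = some b then cnt δ (some b) n else 0 :=
        Finset.sum_congr rfl (fun i _ => h1 i)
    _ = ∑ b, ∑ i, if δ a i = some b then cnt δ (some b) n else 0 := Finset.sum_comm
    _ = ∑ b, A a b * cnt δ (some b) n := by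
        refine Finset.sum_congr rfl (fun b _ => ?_)
        rw [← hδ a b, ← Finset.sum_filter, Finset.sum_const, smul_eq_mul]

theorem cnt_eq (A : Matrix V V ℕ)
    (hδ : ∀ a b, (Finset.univ.filter (fun i => δ a i = some b)).card = A a b) (n : ℕ) :
    ∀ a, cnt δ (some a) n = ∑ k ∈ Finset.range n, ∑ b, (A ^ k) a b := by
  induction n with
  | zero => intro a; simp [cnt_zero]
  | succ n ih =>
      intro a
      rw [cnt_succ' δ A hδ, Finset.sum_range_succ']
      simp only [ih]
      have h0 : ∑ b, (A ^ 0) a b = 1 := by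
        simp [Matrix.one_apply]
      rw [h0, add_comm]
      congr 1
      calc ∑ b, A a b * ∑ k ∈ Finset.range n, ∑ c, (A ^ k) b c
          = ∑ b, ∑ k ∈ Finset.range n, ∑ c, A a b * (A ^ k) b c := by
            refine Finset.sum_congr rfl (fun b _ => ?_)
            rw [Finset.mul_sum]
            refine Finset.sum_congr rfl (fun k _ => ?_)
            rw [Finset.mul_sum]
        _ = ∑ k ∈ Finset.range n, ∑ b, ∑ c, A a b * (A ^ k) b c := Finset.sum_comm
        _ = ∑ k ∈ Finset.range n, ∑ c, (A ^ (k + 1)) a c := by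
            refine Finset.sum_congr rfl (fun k _ => ?_)
            rw [Finset.sum_comm]
            refine Finset.sum_congr rfl (fun c _ => ?_)
            rw [pow_succ', Matrix.mul_apply]

theorem ncard_range_mk (o : Option V) (n : ℕ) :
    (Set.range (mk δ o n)).ncard = 2 ^ cnt δ o n := by
  haveI : Finite {w : List (Fin d) // w.length < n} := finNodes n
  rw [Set.ncard_range_of_injective (mk_injective δ o n), Nat.card_fun, card_supp]
  simp

theorem ncard_lower (A : Matrix V V ℕ)
    (hδ : ∀ a b, (Finset.univ.filter (fun i => δ a i = some b)).card = A a b) (n : ℕ) (a : V) :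
    2 ^ (∑ k ∈ Finset.range n, ∑ b, (A ^ k) a b) ≤ (blocksOf (treeShift (forb δ)) n).ncard := by
  haveI : Finite {w : List (Fin d) // w.length < n} := finNodes n
  rw [← cnt_eq δ A hδ n a, ← ncard_range_mk, blocksOf_eq]
  exact Set.ncard_le_ncard (Set.subset_iUnion (fun o : Option V => Set.range (mk δ o n)) (some a))
    (Set.toFinite _)

theorem ncard_upper (A : Matrix V V ℕ)
    (hδ : ∀ a b, (Finset.univ.filter (fun i => δ a i = some b)).card = A a b) (n : ℕ) (M : ℕ)
    (hM : ∀ a, ∑ k ∈ Finset.range n, ∑ b, (A ^ k) a b ≤ M) :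
    (blocksOf (treeShift (forb δ)) n).ncard ≤ (Fintype.card V + 1) * 2 ^ M := by
  rw [blocksOf_eq]
  calc (⋃ o : Option V, Set.range (mk δ o n)).ncard
      ≤ ∑ o : Option V, (Set.range (mk δ o n)).ncard := Set.ncard_iUnion_le_of_fintype _
    _ ≤ ∑ _o : Option V, 2 ^ M := by
        refine Finset.sum_le_sum (fun o _ => ?_)
        rw [ncard_range_mk]
        refine Nat.pow_le_pow_right (by norm_num) ?_
        rcases o with _ | a
        · rw [cnt_none]; exact Nat.zero_le _
        · rw [cnt_eq δ A hδ]; exact hM a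
    _ = (Fintype.card V + 1) * 2 ^ M := by
        simp [Finset.sum_const, Fintype.card_option]

end

end Run7.h549.TS
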