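import Mathlib

/-! Growth of row sums of matrix powers and a general growth lemma. -/

namespace Run7.h549.TS

open Filter Topology

/-- Row sums of powers. -/
def rs {V : Type} [Fintype V] [DecidableEq V] (A : Matrix V V ℕ) (k : ℕ) (a : V) : ℕ :=
  ∑ b, (A ^ k) a b

/-- Maximal row sum of the `k`-th power. -/
def mrs {V : Type} [Fintype V] [DecidableEq V] (A : Matrix V V ℕ) (k : ℕ) : ℕ :=
  Finset.univ.sup (rs A k)

theorem rs_le_mrs {V : Type} [Fintype V] [DecidableEq V] (A : Matrix V V ℕ) (k : ℕ) (a : V) :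
    rs A k a ≤ mrs A k := Finset.le_sup (Finset.mem_univ a)

theorem exists_mrs {V : Type} [Fintype V] [DecidableEq V] [Nonempty V] (A : Matrix V V ℕ)
    (k : ℕ) : ∃ a, mrs A k = rs A k a := by
  obtain ⟨a, _, ha⟩ := Finset.exists_mem_eq_sup Finset.univ Finset.univ_nonempty (rs A k)
  exact ⟨a, ha⟩

section
attribute [local instance] Matrix.linftyOpNormedRing Matrix.linftyOpNormedAlgebra

theorem norm_pow_eq {V : Type} [Fintype V] [DecidableEq V] [Nonempty V] (A : Matrix V V ℕ)
    (k : ℕ) : ‖(A.map (Nat.cast : ℕ → ℂ)) ^ k‖ = (mrs A k : ℝ) := by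
  have h1 : (A.map (Nat.cast : ℕ → ℂ)) ^ k = (A ^ k).map (Nat.cast : ℕ → ℂ) := by
    have := map_pow (Nat.castRingHom ℂ).mapMatrix A k
    simpa [RingHom.mapMatrix_apply] using this.symm
  rw [h1, Matrix.linfty_opNorm_def]
  have h2 : ∀ i, (∑ j, ‖((A ^ k).map (Nat.cast : ℕ → ℂ)) i j‖₊) = ((rs A k i : ℕ) : NNReal) := by
    intro i
    simp [rs, Matrix.map_apply]
  simp only [h2]
  obtain ⟨a, ha⟩ := exists_mrs A k
  have h3 : (Finset.univ.sup fun i => ((rs A k i : ℕ) : NNReal)) = ((mrs A k : ℕ) : NNReal) := by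
    apply le_antisymm
    · refine Finset.sup_le (fun i _ => ?_)
      exact_mod_cast rs_le_mrs A k i
    · rw [ha]
      exact Finset.le_sup (f := fun i => ((rs A k i : ℕ) : NNReal)) (Finset.mem_univ a)
  rw [h3]
  simp

theorem gelfand' {V : Type} [Fintype V] [DecidableEq V] [Nonempty V] (A : Matrix V V ℕ) :
    Tendsto (fun k : ℕ => ENNReal.ofReal ((mrs A k : ℝ) ^ (1 / k : ℝ))) atTop
      (𝓝 (spectralRadius ℂ (A.map (Nat.cast : ℕ → ℂ)))) := by
  haveI : CompleteSpace (Matrix V V ℂ) := FiniteDimensional.complete ℂ _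
  have h := spectrum.pow_norm_pow_one_div_tendsto_nhds_spectralRadius
    (A.map (Nat.cast : ℕ → ℂ))
  simpa only [norm_pow_eq] using h

theorem sr_lt_top {V : Type} [Fintype V] [DecidableEq V] [Nonempty V] (A : Matrix V V ℕ) :
    spectralRadius ℂ (A.map (Nat.cast : ℕ → ℂ)) < ⊤ := by
  haveI : CompleteSpace (Matrix V V ℂ) := FiniteDimensional.complete ℂ _
  haveI : NormOneClass (Matrix V V ℂ) := ⟨by
    have := norm_pow_eq (V := V) 1 0
    have h0 : mrs (1 : Matrix V V ℕ) 0 = 1 := by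
      obtain ⟨a, ha⟩ := exists_mrs (1 : Matrix V V ℕ) 0
      rw [ha]
      simp [rs, Matrix.one_apply]
    rw [pow_zero, h0] at this
    simpa using this⟩
  exact lt_of_le_of_lt (spectrum.spectralRadius_le_nnnorm _) ENNReal.coe_lt_top

end

theorem log_mrs {V : Type} [Fintype V] [DecidableEq V] [Nonempty V] (A : Matrix V V ℕ)
    (hpos : ∀ k, 1 ≤ mrs A k) :
    Tendsto (fun k : ℕ => Real.log (mrs A k : ℝ) / k) atTop
      (𝓝 (Real.log (spectralRadius ℂ (A.map (Nat.cast : ℕ → ℂ))).toReal)) ∧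
    0 ≤ Real.log (spectralRadius ℂ (A.map (Nat.cast : ℕ → ℂ))).toReal := by
  have h1 : ∀ k, (1 : ℝ) ≤ (mrs A k : ℝ) := fun k => by exact_mod_cast hpos k
  have h2 : ∀ k : ℕ, (1 : ℝ) ≤ (mrs A k : ℝ) ^ (1 / k : ℝ) := fun k =>
    Real.one_le_rpow (h1 k) (by positivity)
  have hg := gelfand' A
  have hne := (sr_lt_top A).ne
  have h3 : (1 : ENNReal) ≤ spectralRadius ℂ (A.map (Nat.cast : ℕ → ℂ)) := by
    refine ge_of_tendsto hg (Eventually.of_forall (fun k => ?_))
    rw [← ENNReal.ofReal_one]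
    exact ENNReal.ofReal_le_ofReal (h2 k)
  have h4 : (1 : ℝ) ≤ (spectralRadius ℂ (A.map (Nat.cast : ℕ → ℂ))).toReal := by
    have := ENNReal.toReal_mono hne h3
    simpa using this
  have h5 := (ENNReal.tendsto_toReal hne).comp hg
  have h6 : Tendsto (fun k : ℕ => (mrs A k : ℝ) ^ (1 / k : ℝ)) atTop
      (𝓝 (spectralRadius ℂ (A.map (Nat.cast : ℕ → ℂ))).toReal) := by
    refine h5.congr (fun k => ?_)
    simp only [Function.comp]
    rw [ENNReal.toReal_ofReal (by linarith [h2 k])]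
  have h7 := h6.log (by linarith)
  refine ⟨h7.congr (fun k => ?_), Real.log_nonneg h4⟩
  rw [Real.log_rpow (by linarith [h1 k])]
  ring

/-- The growth lemma. -/
theorem growth (m N : ℕ → ℕ) (C : ℕ) (ℓ : ℝ) (hℓ : 0 ≤ ℓ) (hm : ∀ k, 1 ≤ m k)
    (hlim : Tendsto (fun k : ℕ => Real.log (m k : ℝ) / k) atTop (𝓝 ℓ))
    (hlow : ∀ n, 2 ^ m n ≤ N (n + 1)) (hC : 1 ≤ C)
    (hup : ∀ n, N n ≤ C * 2 ^ (∑ k ∈ Finset.range n, m k)) :
    Tendsto (fun n : ℕ => Real.log (Real.log (N n : ℝ)) / n) atTop (𝓝 ℓ) := by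
  have hm1 : ∀ k, (1 : ℝ) ≤ (m k : ℝ) := fun k => by exact_mod_cast hm k
  have hlogm : ∀ k, 0 ≤ Real.log (m k : ℝ) := fun k => Real.log_nonneg (hm1 k)
  have hlog2 : 0 < Real.log 2 := Real.log_pos (by norm_num)
  have hC1 : (1 : ℝ) ≤ C := by exact_mod_cast hC
  have hlogC : 0 ≤ Real.log (C : ℝ) := Real.log_nonneg hC1
  rw [← tendsto_add_atTop_iff_nat 1]
  -- lower bound for log N
  have hlogN : ∀ n, (m n : ℝ) * Real.log 2 ≤ Real.log (N (n + 1) : ℝ) := by
    intro n
    have h1 : (2 : ℝ) ^ m n ≤ (N (n + 1) : ℝ) := by exact_mod_cast hlow n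
    have h2 := Real.log_le_log (by positivity) h1
    rwa [Real.log_pow] at h2
  have hlogNpos : ∀ n, 0 < Real.log (N (n + 1) : ℝ) := fun n =>
    lt_of_lt_of_le (by have := hm1 n; positivity) (hlogN n)
  have hzero : Tendsto (fun n : ℕ => ((n : ℝ) + 1)⁻¹) atTop (𝓝 0) := by
    simpa using tendsto_one_div_add_atTop_nhds_zero_nat (𝕜 := ℝ)
  have hone : Tendsto (fun n : ℕ => (n : ℝ) / ((n : ℝ) + 1)) atTop (𝓝 1) :=
    tendsto_natCast_div_add_atTop (1 : ℝ)
  rw [tendsto_order]
  constructor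
  · intro b hb
    have hg : Tendsto (fun n : ℕ => Real.log (m n : ℝ) / n * ((n : ℝ) / ((n : ℝ) + 1)) +
        Real.log (Real.log 2) * ((n : ℝ) + 1)⁻¹) atTop (𝓝 (ℓ * 1 + Real.log (Real.log 2) * 0)) :=
      (hlim.mul hone).add (hzero.const_mul _)
    rw [mul_one, mul_zero, add_zero] at hg
    filter_upwards [hg.eventually (lt_mem_nhds hb), eventually_gt_atTop 0] with n hn hn0
    refine lt_of_lt_of_le hn ?_
    have hn' : (0 : ℝ) < n := by exact_mod_cast hn0
    have h1 : Real.log (m n : ℝ) + Real.log (Real.log 2) ≤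
        Real.log (Real.log (N (n + 1) : ℝ)) := by
      rw [← Real.log_mul (by linarith [hm1 n]) hlog2.ne']
      exact Real.log_le_log (by have := hm1 n; positivity) (hlogN n)
    push_cast
    have h2 : Real.log (m n : ℝ) / n * ((n : ℝ) / ((n : ℝ) + 1)) +
        Real.log (Real.log 2) * ((n : ℝ) + 1)⁻¹ =
        (Real.log (m n : ℝ) + Real.log (Real.log 2)) / ((n : ℝ) + 1) := by
      field_simp
    rw [h2]
    exact div_le_div_of_nonneg_right h1 (by positivity)
  · intro b hb
    obtain ⟨ε, hε, hεb⟩ : ∃ ε : ℝ, 0 < ε ∧ ℓ + ε < b := ⟨(b - ℓ) / 2, by linarith, by linarith⟩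
    obtain ⟨k0, hk0⟩ := eventually_atTop.1
      (hlim.eventually (gt_mem_nhds (show ℓ < ℓ + ε by linarith)))
    set K : ℝ := ∑ k ∈ Finset.range (k0 + 1), Real.log (m k : ℝ) with hK
    have hK0 : 0 ≤ K := Finset.sum_nonneg (fun k _ => hlogm k)
    have hbound : ∀ k : ℕ, Real.log (m k : ℝ) ≤ (ℓ + ε) * k + K := by
      intro k
      by_cases hk : k < k0 + 1
      · have h1 : Real.log (m k : ℝ) ≤ K :=
          Finset.single_le_sum (f := fun k => Real.log (m k : ℝ)) (fun k _ => hlogm k)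
            (Finset.mem_range.2 hk)
        have h2 : 0 ≤ (ℓ + ε) * (k : ℝ) := by positivity
        linarith
      · have hk' : k0 ≤ k := by omega
        have hkpos : (0 : ℝ) < k := by
          have : 0 < k := by omega
          exact_mod_cast this
        have h1 := hk0 k hk'
        rw [div_lt_iff₀ hkpos] at h1
        linarith
    set D : ℝ := Real.log (C : ℝ) + Real.log 2 with hD
    have hDpos : 0 < D := by positivity
    have hup2 : ∀ n : ℕ, Real.log (Real.log (N (n + 1) : ℝ)) ≤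
        (Real.log D + K) + Real.log ((n : ℝ) + 1) + (ℓ + ε) * ((n : ℝ) + 1) := by
      intro n
      set S : ℕ := ∑ k ∈ Finset.range (n + 1), m k with hS
      have hS1 : (1 : ℝ) ≤ (S : ℝ) := by
        have : 1 ≤ S := le_trans (hm 0) (Finset.single_le_sum (f := m)
          (fun k _ => Nat.zero_le _) (Finset.mem_range.2 (Nat.succ_pos n)))
        exact_mod_cast this
      have h1 : Real.log (N (n + 1) : ℝ) ≤ Real.log (C : ℝ) + S * Real.log 2 := by
        have h2 : (N (n + 1) : ℝ) ≤ (C : ℝ) * 2 ^ S := by exact_mod_cast hup (n + 1)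
        have hNpos : (0 : ℝ) < (N (n + 1) : ℝ) := by
          have h3 : 0 < N (n + 1) := lt_of_lt_of_le (by positivity) (hlow n)
          exact_mod_cast h3
        have h3 := Real.log_le_log hNpos h2
        rwa [Real.log_mul (by linarith) (by positivity), Real.log_pow] at h3
      have h2 : Real.log (C : ℝ) + S * Real.log 2 ≤ D * S := by
        rw [hD]
        nlinarith [mul_le_mul_of_nonneg_left hS1 hlogC]
      have h3 : Real.log (Real.log (N (n + 1) : ℝ)) ≤ Real.log D + Real.log (S : ℝ) := by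
        rw [← Real.log_mul hDpos.ne' (by linarith)]
        exact Real.log_le_log (hlogNpos n) (h1.trans h2)
      have h4 : (S : ℝ) ≤ ((n : ℝ) + 1) * Real.exp ((ℓ + ε) * ((n : ℝ) + 1) + K) := by
        rw [hS]
        push_cast
        calc ∑ k ∈ Finset.range (n + 1), (m k : ℝ)
            ≤ ∑ _k ∈ Finset.range (n + 1), Real.exp ((ℓ + ε) * ((n : ℝ) + 1) + K) := by
              refine Finset.sum_le_sum (fun k hk => ?_)
              have hk' : (k : ℝ) ≤ (n : ℝ) + 1 := by
                have := Finset.mem_range.1 hk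
                have h5 : k ≤ n + 1 := by omega
                exact_mod_cast h5
              have h6 : (m k : ℝ) = Real.exp (Real.log (m k : ℝ)) :=
                (Real.exp_log (by linarith [hm1 k])).symm
              rw [h6]
              refine Real.exp_le_exp.2 ((hbound k).trans ?_)
              have : (ℓ + ε) * (k : ℝ) ≤ (ℓ + ε) * ((n : ℝ) + 1) :=
                mul_le_mul_of_nonneg_left hk' (by linarith)
              linarith
          _ = ((n : ℝ) + 1) * Real.exp ((ℓ + ε) * ((n : ℝ) + 1) + K) := by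
              rw [Finset.sum_const, Finset.card_range, nsmul_eq_mul]
              push_cast
              ring
      have h5 : Real.log (S : ℝ) ≤ Real.log ((n : ℝ) + 1) + ((ℓ + ε) * ((n : ℝ) + 1) + K) := by
        have h6 := Real.log_le_log (by linarith) h4
        rwa [Real.log_mul (by positivity) (Real.exp_pos _).ne', Real.log_exp] at h6
      linarith
    have hlogn : Tendsto (fun n : ℕ => Real.log ((n : ℝ) + 1) / ((n : ℝ) + 1)) atTop (𝓝 0) := by
      have h1 := Real.tendsto_pow_log_div_mul_add_atTop 1 0 1 one_ne_zero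
      have h2 : Tendsto (fun n : ℕ => ((n : ℝ) + 1)) atTop atTop :=
        tendsto_atTop_add_const_right _ _ tendsto_natCast_atTop_atTop
      have h3 := h1.comp h2
      refine h3.congr (fun n => ?_)
      simp [Function.comp]
    have hg : Tendsto (fun n : ℕ => (Real.log D + K) * ((n : ℝ) + 1)⁻¹ +
        Real.log ((n : ℝ) + 1) / ((n : ℝ) + 1) + (ℓ + ε)) atTop
        (𝓝 ((Real.log D + K) * 0 + 0 + (ℓ + ε))) :=
      ((hzero.const_mul _).add hlogn).add_const _
    rw [mul_zero, zero_add, zero_add] at hg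
    filter_upwards [hg.eventually (gt_mem_nhds hεb)] with n hn
    refine lt_of_le_of_lt ?_ hn
    have hpos : (0 : ℝ) < (n : ℝ) + 1 := by positivity
    push_cast
    rw [div_le_iff₀ hpos]
    refine (hup2 n).trans (le_of_eq ?_)
    field_simp

end Run7.h549.TS
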