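import Pool.Agent.Run7.h549.TS2
import Pool.Agent.Run7.h549.TS3

/-! Reduction of the row sums of a nonnegative integer matrix with the same growth. -/

namespace Run7.h549.TS

open Filter Topology

/-- Realisation on the `d`-ary tree for a nonnegative integer matrix with row sums at most `d`. -/
theorem realise0 {V : Type} [Fintype V] [DecidableEq V] [Nonempty V] (A : Matrix V V ℕ)
    (hpos : ∀ k, 1 ≤ mrs A k) (d : ℕ) (hrow : ∀ a, ∑ b, A a b ≤ d) :
    ∃ (S : Type) (_ : Finite S) (X : Set (LTree d S)),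
      IsTSFT X ∧ X.Nonempty ∧ HasEntropy X (matrixEntropy A) := by
  classical
  choose δ hδ using fun a => exists_row (A a) d (hrow a)
  refine ⟨Option (V × Bool), inferInstance, treeShift (forb δ), ⟨forb δ, forb_finite δ, ?_, rfl⟩,
    shift_nonempty δ, ?_⟩
  · rintro p ⟨b, rfl, _⟩
    norm_num
  obtain ⟨hlim, hℓ⟩ := log_mrs A hpos
  unfold HasEntropy matrixEntropy
  refine growth (mrs A) (fun n => (blocksOf (treeShift (forb δ)) n).ncard)
    (Fintype.card V + 1) _ hℓ hpos hlim ?_ (by omega) ?_
  · intro n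
    obtain ⟨a, ha⟩ := exists_mrs A n
    refine le_trans (Nat.pow_le_pow_right (by norm_num) ?_) (ncard_lower δ A hδ (n + 1) a)
    rw [ha]
    exact Finset.single_le_sum (f := fun k => ∑ b, (A ^ k) a b) (fun k _ => Nat.zero_le _)
      (Finset.mem_range.2 (Nat.lt_succ_self n))
  · intro n
    exact ncard_upper δ A hδ n _ (fun a => Finset.sum_le_sum (fun k _ => rs_le_mrs A k a))

/-- Two matrices with comparable row sums of powers have the same entropy. -/
theorem entropy_eq {V W : Type} [Fintype V] [DecidableEq V] [Nonempty V] [Fintype W]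
    [DecidableEq W] [Nonempty W] (A : Matrix V V ℕ) (B : Matrix W W ℕ)
    (hA : ∀ k, 1 ≤ mrs A k) (hB : ∀ k, 1 ≤ mrs B k) (c : ℕ)
    (h1 : ∀ k, mrs B k ≤ c * mrs A k) (h2 : ∀ k, mrs A k ≤ c * mrs B k) :
    matrixEntropy B = matrixEntropy A := by
  have hAl : Tendsto (fun k : ℕ => Real.log (mrs A k : ℝ) / k) atTop (𝓝 (matrixEntropy A)) :=
    (log_mrs A hA).1
  have hBl : Tendsto (fun k : ℕ => Real.log (mrs B k : ℝ) / k) atTop (𝓝 (matrixEntropy B)) :=
    (log_mrs B hB).1
  have hA1 : ∀ k, (1 : ℝ) ≤ (mrs A k : ℝ) := fun k => by exact_mod_cast hA k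
  have hB1 : ∀ k, (1 : ℝ) ≤ (mrs B k : ℝ) := fun k => by exact_mod_cast hB k
  have hc : 1 ≤ c := by
    by_contra hc
    have h0 : c = 0 := by omega
    have h3 := h1 0
    rw [h0, zero_mul] at h3
    have := hB 0
    omega
  have hc1 : (1 : ℝ) ≤ (c : ℝ) := by exact_mod_cast hc
  have key1 : ∀ k, Real.log (mrs B k : ℝ) ≤ Real.log c + Real.log (mrs A k : ℝ) := by
    intro k
    rw [← Real.log_mul (by linarith) (by linarith [hA1 k])]
    exact Real.log_le_log (by linarith [hB1 k]) (by exact_mod_cast h1 k)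
  have key2 : ∀ k, Real.log (mrs A k : ℝ) ≤ Real.log c + Real.log (mrs B k : ℝ) := by
    intro k
    rw [← Real.log_mul (by linarith) (by linarith [hB1 k])]
    exact Real.log_le_log (by linarith [hA1 k]) (by exact_mod_cast h2 k)
  have hz : Tendsto (fun k : ℕ => Real.log c / (k : ℝ)) atTop (𝓝 0) :=
    tendsto_const_div_atTop_nhds_zero_nat _
  apply le_antisymm
  · refine le_of_tendsto_of_tendsto' hBl (by simpa using hz.add hAl) (fun k => ?_)
    rw [← add_div]
    exact div_le_div_of_nonneg_right (key1 k) (Nat.cast_nonneg k)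
  · refine le_of_tendsto_of_tendsto' hAl (by simpa using hz.add hBl) (fun k => ?_)
    rw [← add_div]
    exact div_le_div_of_nonneg_right (key2 k) (Nat.cast_nonneg k)

theorem rs_succ {V : Type} [Fintype V] [DecidableEq V] (A : Matrix V V ℕ) (k : ℕ) (a : V) :
    ∑ b, A a b * rs A k b = rs A (k + 1) a := by
  unfold rs
  calc ∑ b, A a b * ∑ c, (A ^ k) b c = ∑ b, ∑ c, A a b * (A ^ k) b c :=
        Finset.sum_congr rfl (fun b _ => Finset.mul_sum _ _ _)
    _ = ∑ c, ∑ b, A a b * (A ^ k) b c := Finset.sum_comm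
    _ = ∑ c, (A ^ (k + 1)) a c := by
        refine Finset.sum_congr rfl (fun c _ => ?_)
        rw [pow_succ', Matrix.mul_apply]

theorem rs_zero {V : Type} [Fintype V] [DecidableEq V] (A : Matrix V V ℕ) (a : V) :
    rs A 0 a = 1 := by
  simp [rs, Matrix.one_apply]

/-- An approximate eigenvector. -/
theorem exists_vec {V : Type} [Fintype V] [DecidableEq V] (A : Matrix V V ℕ) (d K : ℕ)
    (hd : 1 ≤ d) (hK : 1 ≤ K) (h : ∀ a, rs A K a ≤ d ^ K) :
    ∃ v : V → ℕ, (∀ a, 1 ≤ v a) ∧ ∀ a, ∑ b, A a b * v b ≤ d * v a := by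
  refine ⟨fun a => ∑ k ∈ Finset.range K, d ^ (K - (k + 1)) * rs A k a, fun a => ?_, fun a => ?_⟩
  · have h1 : d ^ (K - (0 + 1)) * rs A 0 a ≤
        ∑ k ∈ Finset.range K, d ^ (K - (k + 1)) * rs A k a :=
      Finset.single_le_sum (f := fun k => d ^ (K - (k + 1)) * rs A k a)
        (fun k _ => Nat.zero_le _) (Finset.mem_range.2 hK)
    rw [rs_zero, mul_one] at h1
    exact le_trans (Nat.one_le_pow _ _ hd) h1
  · have e1 : ∑ b, A a b * ∑ k ∈ Finset.range K, d ^ (K - (k + 1)) * rs A k b =
        ∑ k ∈ Finset.range K, d ^ (K - (k + 1)) * rs A (k + 1) a := by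
      calc ∑ b, A a b * ∑ k ∈ Finset.range K, d ^ (K - (k + 1)) * rs A k b
          = ∑ b, ∑ k ∈ Finset.range K, d ^ (K - (k + 1)) * (A a b * rs A k b) := by
            refine Finset.sum_congr rfl (fun b _ => ?_)
            rw [Finset.mul_sum]
            exact Finset.sum_congr rfl (fun k _ => by ring)
        _ = ∑ k ∈ Finset.range K, ∑ b, d ^ (K - (k + 1)) * (A a b * rs A k b) :=
            Finset.sum_comm
        _ = ∑ k ∈ Finset.range K, d ^ (K - (k + 1)) * rs A (k + 1) a := by
            refine Finset.sum_congr rfl (fun k _ => ?_)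
            rw [← Finset.mul_sum, rs_succ]
    have e2 : d * ∑ k ∈ Finset.range K, d ^ (K - (k + 1)) * rs A k a =
        ∑ k ∈ Finset.range K, d ^ (K - k) * rs A k a := by
      rw [Finset.mul_sum]
      refine Finset.sum_congr rfl (fun k hk => ?_)
      have hk' := Finset.mem_range.1 hk
      have : K - k = (K - (k + 1)) + 1 := by omega
      rw [this, pow_succ]
      ring
    have e3 := Finset.sum_range_succ (fun k => d ^ (K - k) * rs A k a) K
    have e4 := Finset.sum_range_succ' (fun k => d ^ (K - k) * rs A k a) K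
    simp only [Nat.sub_self, pow_zero, one_mul, Nat.sub_zero, rs_zero, mul_one] at e3 e4
    have h5 := h a
    simp only [e1, e2]
    omega

/-- The split matrix. -/
theorem exists_split {V : Type} [Fintype V] [DecidableEq V] (A : Matrix V V ℕ) (d : ℕ)
    (v : V → ℕ) (hv : ∀ a, ∑ b, A a b * v b ≤ d * v a) :
    ∃ B : Matrix (Σ a, Fin (v a)) (Σ a, Fin (v a)) ℕ,
      (∀ p, ∑ q, B p q ≤ d) ∧ ∀ a q, ∑ i : Fin (v a), B ⟨a, i⟩ q = A a q.1 := by
  classical
  have hcard : ∀ a, Fintype.card (Σ q : (Σ b, Fin (v b)), Fin (A a q.1)) ≤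
      Fintype.card (Fin (v a) × Fin d) := by
    intro a
    have h1 : Fintype.card (Σ q : (Σ b, Fin (v b)), Fin (A a q.1)) = ∑ b, A a b * v b := by
      rw [Fintype.card_sigma, Fintype.sum_sigma]
      refine Finset.sum_congr rfl (fun b _ => ?_)
      simp [mul_comm]
    rw [h1, Fintype.card_prod, Fintype.card_fin, Fintype.card_fin, mul_comm (v a) d]
    exact hv a
  have f : ∀ a, (Σ q : (Σ b, Fin (v b)), Fin (A a q.1)) ↪ (Fin (v a) × Fin d) :=
    fun a => (Function.Embedding.nonempty_of_card_le (hcard a)).some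
  refine ⟨fun p q => ((Finset.univ : Finset (Σ q : (Σ b, Fin (v b)), Fin (A p.1 q.1))).filter
    (fun e => (f p.1 e).1 = p.2 ∧ e.1 = q)).card, fun p => ?_, fun a q => ?_⟩
  · have h1 : ∑ q, ((Finset.univ : Finset (Σ q : (Σ b, Fin (v b)), Fin (A p.1 q.1))).filter
        (fun e => (f p.1 e).1 = p.2 ∧ e.1 = q)).card =
        ((Finset.univ : Finset (Σ q : (Σ b, Fin (v b)), Fin (A p.1 q.1))).filter
        (fun e => (f p.1 e).1 = p.2)).card := by
      rw [Finset.card_eq_sum_card_fiberwise (f := fun e => e.1) (t := Finset.univ)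
        (fun _ _ => Finset.mem_univ _)]
      refine Finset.sum_congr rfl (fun q _ => ?_)
      rw [Finset.filter_filter]
    rw [h1]
    have h2 : ((Finset.univ : Finset (Σ q : (Σ b, Fin (v b)), Fin (A p.1 q.1))).filter
        (fun e => (f p.1 e).1 = p.2)).card ≤ (Finset.univ : Finset (Fin d)).card := by
      refine Finset.card_le_card_of_injOn (fun e => (f p.1 e).2) (fun _ _ => Finset.mem_univ _) ?_
      intro e he e' he' hee
      simp only [Finset.coe_filter, Finset.mem_univ, true_and, Set.mem_setOf_eq] at he he'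
      exact (f p.1).injective (Prod.ext (he.trans he'.symm) hee)
    simpa using h2
  · have h1 : ∑ i : Fin (v a), ((Finset.univ : Finset (Σ q : (Σ b, Fin (v b)),
        Fin (A a q.1))).filter (fun e => (f a e).1 = i ∧ e.1 = q)).card =
        ((Finset.univ : Finset (Σ q : (Σ b, Fin (v b)), Fin (A a q.1))).filter
        (fun e => e.1 = q)).card := by
      rw [Finset.card_eq_sum_card_fiberwise (f := fun e => (f a e).1) (t := Finset.univ)
        (fun _ _ => Finset.mem_univ _)]
      refine Finset.sum_congr rfl (fun i _ => ?_)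
      rw [Finset.filter_filter]
      congr 1
      ext e
      simp only [Finset.mem_filter, Finset.mem_univ, true_and]
      exact and_comm
    refine h1.trans ?_
    have h2 : ((Finset.univ : Finset (Σ q : (Σ b, Fin (v b)), Fin (A a q.1))).filter
        (fun e => e.1 = q)) = (Finset.univ : Finset (Fin (A a q.1))).map
        ⟨fun j => ⟨q, j⟩, fun j j' h => by simpa using h⟩ := by
      ext e
      simp only [Finset.mem_filter, Finset.mem_univ, true_and, Finset.mem_map,
        Function.Embedding.coeFn_mk]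
      constructor
      · rintro rfl
        exact ⟨e.2, rfl⟩
      · rintro ⟨j, rfl⟩
        rfl
    rw [h2]
    simp

/-- Powers of the split matrix. -/
theorem split_pow {V : Type} [Fintype V] [DecidableEq V] (A : Matrix V V ℕ) (v : V → ℕ)
    (B : Matrix (Σ a, Fin (v a)) (Σ a, Fin (v a)) ℕ)
    (hB : ∀ a q, ∑ i : Fin (v a), B ⟨a, i⟩ q = A a q.1) (k : ℕ) :
    ∀ a q, (1 ≤ k ∨ 1 ≤ v a) → ∑ i : Fin (v a), (B ^ k) ⟨a, i⟩ q = (A ^ k) a q.1 := by
  induction k with
  | zero =>
      intro a q _
      simp only [pow_zero, Matrix.one_apply]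
      rcases q with ⟨b, j⟩
      by_cases hab : a = b
      · subst hab
        simp
      · simp [hab]
  | succ k ih =>
      intro a q _
      rw [pow_succ, pow_succ, Matrix.mul_apply]
      simp only [Matrix.mul_apply]
      rw [Finset.sum_comm]
      calc ∑ r : (Σ a, Fin (v a)), ∑ i : Fin (v a), (B ^ k) ⟨a, i⟩ r * B r q
          = ∑ r : (Σ a, Fin (v a)), (∑ i : Fin (v a), (B ^ k) ⟨a, i⟩ r) * B r q := by
            refine Finset.sum_congr rfl (fun r _ => ?_)
            rw [Finset.sum_mul]
        _ = ∑ r : (Σ a, Fin (v a)), (A ^ k) a r.1 * B r q := by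
            refine Finset.sum_congr rfl (fun r _ => ?_)
            rcases Nat.eq_zero_or_pos (v a) with h0 | h0
            · rcases Nat.eq_zero_or_pos k with hk | hk
              · subst hk
                simp only [pow_zero, Matrix.one_apply]
                rcases r with ⟨c, j⟩
                by_cases hac : a = c
                · subst hac
                  exact absurd j.2 (by omega)
                · simp [hac]
              · rw [ih a r (Or.inl hk)]
            · rw [ih a r (Or.inr h0)]
        _ = ∑ c, ∑ i : Fin (v c), (A ^ k) a c * B ⟨c, i⟩ q := by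
            rw [Fintype.sum_sigma]
        _ = ∑ c, (A ^ k) a c * A c q.1 := by
            refine Finset.sum_congr rfl (fun c _ => ?_)
            rw [← Finset.mul_sum, hB]

end Run7.h549.TS
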