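import Pool.Agent.Run7.h549.TS4

/-! Realisation on the `d`-ary tree of every entropy `ln ρ(A) ≤ ln d`, and the converse bound. -/

namespace Run7.h549.TS

open Filter Topology

theorem realise_strict {V : Type} [Fintype V] [DecidableEq V] [Nonempty V] (A : Matrix V V ℕ)
    (hpos : ∀ k, 1 ≤ mrs A k) (d : ℕ) (hd : 2 ≤ d) (hlt : matrixEntropy A < Real.log d) :
    ∃ (S : Type) (_ : Finite S) (X : Set (LTree d S)),
      IsTSFT X ∧ X.Nonempty ∧ HasEntropy X (matrixEntropy A) := by
  have hAl : Tendsto (fun k : ℕ => Real.log (mrs A k : ℝ) / k) atTop (𝓝 (matrixEntropy A)) :=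
    (log_mrs A hpos).1
  obtain ⟨K, hK, hK1⟩ := ((hAl.eventually (gt_mem_nhds hlt)).and (eventually_ge_atTop 1)).exists
  have hKpos : (0 : ℝ) < (K : ℝ) := by
    have : 0 < K := hK1
    exact_mod_cast this
  have hmK : mrs A K ≤ d ^ K := by
    rw [div_lt_iff₀ hKpos] at hK
    have h1 : Real.log (mrs A K : ℝ) < Real.log ((d : ℝ) ^ K) := by
      rw [Real.log_pow]
      linarith
    have h2 : (0 : ℝ) < (mrs A K : ℝ) := by
      have := hpos K
      have h3 : 0 < mrs A K := this
      exact_mod_cast h3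
    have h3 : (mrs A K : ℝ) < (d : ℝ) ^ K :=
      (Real.log_lt_log_iff h2 (by positivity)).1 h1
    have h4 : mrs A K < d ^ K := by exact_mod_cast h3
    exact h4.le
  obtain ⟨v, hv1, hv⟩ := exists_vec A d K (by omega) hK1 (fun a => (rs_le_mrs A K a).trans hmK)
  obtain ⟨B, hBrow, hBsum⟩ := exists_split A d v hv
  have hpow := split_pow A v B hBsum
  haveI : Nonempty (Σ a, Fin (v a)) := by
    obtain ⟨a⟩ := (inferInstance : Nonempty V)
    exact ⟨⟨a, ⟨0, hv1 a⟩⟩⟩
  set c : ℕ := ∑ a, v a with hc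
  have hvc : ∀ a, v a ≤ c := fun a =>
    Finset.single_le_sum (f := v) (fun _ _ => Nat.zero_le _) (Finset.mem_univ a)
  have h1 : ∀ k, mrs B k ≤ c * mrs A k := by
    intro k
    obtain ⟨⟨a, i⟩, hp⟩ := exists_mrs B k
    rw [hp]
    calc rs B k ⟨a, i⟩ = ∑ q : (Σ a, Fin (v a)), (B ^ k) ⟨a, i⟩ q := rfl
      _ ≤ ∑ q : (Σ a, Fin (v a)), (A ^ k) a q.1 := by
          refine Finset.sum_le_sum (fun q _ => ?_)
          rw [← hpow k a q (Or.inr (hv1 a))]
          exact Finset.single_le_sum (f := fun i => (B ^ k) ⟨a, i⟩ q) (fun _ _ => Nat.zero_le _)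
            (Finset.mem_univ i)
      _ = ∑ b, ∑ _j : Fin (v b), (A ^ k) a b := by rw [Fintype.sum_sigma]
      _ ≤ ∑ b, c * (A ^ k) a b := by
          refine Finset.sum_le_sum (fun b _ => ?_)
          rw [Finset.sum_const, Finset.card_univ, Fintype.card_fin, smul_eq_mul]
          exact Nat.mul_le_mul_right _ (hvc b)
      _ = c * rs A k a := by rw [← Finset.mul_sum]; rfl
      _ ≤ c * mrs A k := Nat.mul_le_mul_left _ (rs_le_mrs A k a)
  have h2 : ∀ k, mrs A k ≤ c * mrs B k := by
    intro k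
    obtain ⟨a, ha⟩ := exists_mrs A k
    rw [ha]
    calc rs A k a = ∑ b, (A ^ k) a b := rfl
      _ = ∑ b, ∑ i : Fin (v a), (B ^ k) ⟨a, i⟩ ⟨b, ⟨0, hv1 b⟩⟩ := by
          refine Finset.sum_congr rfl (fun b _ => ?_)
          rw [hpow k a ⟨b, ⟨0, hv1 b⟩⟩ (Or.inr (hv1 a))]
      _ = ∑ i : Fin (v a), ∑ b, (B ^ k) ⟨a, i⟩ ⟨b, ⟨0, hv1 b⟩⟩ := Finset.sum_comm
      _ ≤ ∑ i : Fin (v a), rs B k ⟨a, i⟩ := by
          refine Finset.sum_le_sum (fun i _ => ?_)
          unfold rs
          rw [Fintype.sum_sigma]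
          refine Finset.sum_le_sum (fun b _ => ?_)
          exact Finset.single_le_sum (f := fun j => (B ^ k) ⟨a, i⟩ ⟨b, j⟩)
            (fun _ _ => Nat.zero_le _) (Finset.mem_univ (⟨0, hv1 b⟩ : Fin (v b)))
      _ ≤ ∑ _i : Fin (v a), mrs B k := Finset.sum_le_sum (fun i _ => rs_le_mrs B k ⟨a, i⟩)
      _ = v a * mrs B k := by
          rw [Finset.sum_const, Finset.card_univ, Fintype.card_fin, smul_eq_mul]
      _ ≤ c * mrs B k := Nat.mul_le_mul_right _ (hvc a)
  have hB : ∀ k, 1 ≤ mrs B k := by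
    intro k
    by_contra hlt0
    have h0 : mrs B k = 0 := by omega
    have h3 := h2 k
    rw [h0, mul_zero] at h3
    have := hpos k
    omega
  have hent := entropy_eq A B hpos hB c h1 h2
  rw [← hent]
  exact realise0 B hB d hBrow

theorem mrs_unit (d k : ℕ) : mrs (fun _ _ => d : Matrix Unit Unit ℕ) k = d ^ k := by
  obtain ⟨a, ha⟩ := exists_mrs (fun _ _ => d : Matrix Unit Unit ℕ) k
  rw [ha]
  clear ha
  induction k with
  | zero => simp [rs_zero]
  | succ k ih =>
      rw [← rs_succ]
      simp only [Finset.univ_unique, PUnit.default_eq_unit, Finset.sum_singleton]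
      rw [show (PUnit.unit : Unit) = a from rfl, ih, pow_succ, mul_comm]

theorem realise_eq (d : ℕ) (hd : 2 ≤ d) :
    ∃ (S : Type) (_ : Finite S) (X : Set (LTree d S)),
      IsTSFT X ∧ X.Nonempty ∧ HasEntropy X (Real.log d) := by
  have hpos : ∀ k, 1 ≤ mrs (fun _ _ => d : Matrix Unit Unit ℕ) k := by
    intro k
    rw [mrs_unit]
    exact Nat.one_le_pow _ _ (by omega)
  have hl : Tendsto (fun k : ℕ => Real.log (mrs (fun _ _ => d : Matrix Unit Unit ℕ) k : ℝ) / k)
      atTop (𝓝 (matrixEntropy (fun _ _ => d : Matrix Unit Unit ℕ))) := (log_mrs _ hpos).1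
  have hl2 : Tendsto (fun k : ℕ => Real.log (mrs (fun _ _ => d : Matrix Unit Unit ℕ) k : ℝ) / k)
      atTop (𝓝 (Real.log d)) := by
    refine tendsto_const_nhds.congr' ?_
    filter_upwards [eventually_gt_atTop 0] with k hk
    have hk' : (k : ℝ) ≠ 0 := by
      have : k ≠ 0 := by omega
      exact_mod_cast this
    rw [mrs_unit]
    push_cast
    rw [Real.log_pow]
    field_simp
  have he := tendsto_nhds_unique hl hl2
  rw [← he]
  refine realise0 _ hpos d (fun a => ?_)
  simp

theorem card_Lw (d : ℕ) (hd : 2 ≤ d) (n : ℕ) : (Lw d n).card + 1 ≤ d ^ n := by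
  induction n with
  | zero => simp [Lw]
  | succ n ih =>
      have h1 : (Lw d (n + 1)).card ≤ 1 + d * (Lw d n).card := by
        rw [Lw]
        refine (Finset.card_insert_le _ _).trans ?_
        have h2 := Finset.card_image_le (s := (Finset.univ : Finset (Fin d)) ×ˢ Lw d n)
          (f := fun p => p.1 :: p.2)
        rw [Finset.card_product, Finset.card_univ, Fintype.card_fin] at h2
        omega
      have h3 : d * ((Lw d n).card + 1) ≤ d * d ^ n := Nat.mul_le_mul_left d ih
      rw [pow_succ']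
      nlinarith

/-- The entropy of a set of labelled `d`-ary trees over a finite alphabet is at most `ln d`. -/
theorem entropy_le {d : ℕ} (hd : 2 ≤ d) {S : Type} [Finite S] (X : Set (LTree d S)) (h : ℝ)
    (hX : HasEntropy X h) : h ≤ Real.log d := by
  classical
  haveI : Fintype S := Fintype.ofFinite S
  set s : ℕ := Fintype.card S with hs
  have hlogd : 0 ≤ Real.log (d : ℝ) := Real.log_natCast_nonneg d
  have hcard : ∀ n, (blocksOf X n).ncard ≤ (s + 2) ^ (d ^ n) := by
    intro n
    haveI : Finite {w : List (Fin d) // w.length < n} := finNodes n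
    have h1 : (blocksOf X n).ncard ≤ Nat.card (Block d n S) := by
      rw [← Set.ncard_univ]
      exact Set.ncard_le_ncard (Set.subset_univ _) (Set.toFinite _)
    have h2 : Nat.card (Block d n S) = s ^ (Lw d n).card := by
      rw [Nat.card_fun]
      congr 1
      · rw [Nat.card_eq_fintype_card]
      · have e2 : {w : List (Fin d) // w.length < n} ≃ {w : List (Fin d) // w ∈ Lw d n} :=
          Equiv.subtypeEquivRight (fun w => by simp [mem_Lw])
        rw [Nat.card_congr e2, Nat.card_eq_fintype_card, Fintype.card_coe]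
    rw [h2] at h1
    refine h1.trans ?_
    have h3 := card_Lw d hd n
    calc s ^ (Lw d n).card ≤ (s + 2) ^ (Lw d n).card := Nat.pow_le_pow_left (by omega) _
      _ ≤ (s + 2) ^ (d ^ n) := Nat.pow_le_pow_right (by omega) (by omega)
  set C : ℝ := |Real.log (Real.log ((s : ℝ) + 2))| with hC
  have hls : 0 < Real.log ((s : ℝ) + 2) := Real.log_pos (by
    have : (0 : ℝ) ≤ s := Nat.cast_nonneg s
    linarith)
  have hbound : ∀ n : ℕ, Real.log (Real.log ((blocksOf X n).ncard : ℝ)) ≤
      C + (n : ℝ) * Real.log d := by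
    intro n
    by_cases hN : (blocksOf X n).ncard ≤ 1
    · have h0 : Real.log ((blocksOf X n).ncard : ℝ) = 0 := by
        rcases Nat.le_one_iff_eq_zero_or_eq_one.1 hN with h | h <;> simp [h]
      rw [h0, Real.log_zero]
      positivity
    · have hN2 : (1 : ℝ) < ((blocksOf X n).ncard : ℝ) := by
        have : 1 < (blocksOf X n).ncard := by omega
        exact_mod_cast this
      have hpos : 0 < Real.log ((blocksOf X n).ncard : ℝ) := Real.log_pos hN2
      have h1 : Real.log ((blocksOf X n).ncard : ℝ) ≤ (d : ℝ) ^ n * Real.log ((s : ℝ) + 2) := by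
        have h2 : ((blocksOf X n).ncard : ℝ) ≤ ((s : ℝ) + 2) ^ (d ^ n) := by
          exact_mod_cast hcard n
        have h3 := Real.log_le_log (by linarith) h2
        rw [Real.log_pow] at h3
        push_cast at h3
        exact h3
      have h4 := Real.log_le_log hpos h1
      rw [Real.log_mul (by positivity) hls.ne', Real.log_pow] at h4
      have h5 : Real.log (Real.log ((s : ℝ) + 2)) ≤ C := le_abs_self _
      linarith
  have hlim : Tendsto (fun n : ℕ => C / (n : ℝ) + Real.log d) atTop (𝓝 (0 + Real.log d)) :=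
    (tendsto_const_div_atTop_nhds_zero_nat C).add_const _
  rw [zero_add] at hlim
  refine le_of_tendsto_of_tendsto hX hlim ?_
  filter_upwards [eventually_gt_atTop 0] with n hn
  have hn' : (0 : ℝ) < n := by exact_mod_cast hn
  rw [div_le_iff₀ hn']
  refine (hbound n).trans (le_of_eq ?_)
  field_simp

end Run7.h549.TS
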