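import Pool.Agent.Run7.h549.Pert4

set_option maxHeartbeats 400000
open MeasureTheory Set Filter Topology
open scoped ENNReal Real Pointwise

namespace Run7.h549

/-! ### A lower bound for the volume of the perturbed ball -/

/-- `v ↦ A v + B v̄` -/
noncomputable def abL (A B : ℂ) : ℂ →L[ℝ] ℂ :=
  A • ContinuousLinearMap.id ℝ ℂ + B • (Complex.conjCLE : ℂ →L[ℝ] ℂ)

theorem det_abL (A B : ℂ) : (abL A B).det = ‖A‖ ^ 2 - ‖B‖ ^ 2 := by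
  have e : (abL A B : ℂ →ₗ[ℝ] ℂ) = twoL (A + B) (Complex.I * (A - B)) := by
    apply LinearMap.ext
    intro v
    have h1 : (abL A B : ℂ →ₗ[ℝ] ℂ) v = A * v + B * (starRingEnd ℂ) v := rfl
    have h2 : twoL (A + B) (Complex.I * (A - B)) v = v.re • (A + B) + v.im • (Complex.I * (A - B)) := rfl
    rw [h1, h2]
    apply Complex.ext
    · simp
      ring
    · simp
      ring
  rw [ContinuousLinearMap.det, e, det_twoL, ← Complex.normSq_eq_norm_sq, ← Complex.normSq_eq_norm_sq,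
    Complex.normSq_apply, Complex.normSq_apply]
  simp
  ring

/-- the real part factor -/
noncomputable def fac (δ : ℝ) (m : ℕ) (z : ℂ) : ℝ := 1 - δ * (m + 1) * (z ^ (m + 2)).re

/-- the first coordinate of `bpt` -/
noncomputable def gmap (δ : ℝ) (m : ℕ) (z : ℂ) : ℂ :=
  (fac δ m z : ℂ) * z + ((δ * (m + 2) : ℝ) : ℂ) * (starRingEnd ℂ) z ^ (m + 1)

theorem gmap_eq (δ : ℝ) (m : ℕ) (z : ℂ) : gmap δ m z
    = z - ((δ * (m + 1) / 2 : ℝ) : ℂ) * (z ^ (m + 3) + z * (starRingEnd ℂ) z ^ (m + 2))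
      + ((δ * (m + 2) : ℝ) : ℂ) * (starRingEnd ℂ) z ^ (m + 1) := by
  unfold gmap fac
  have h : (((z ^ (m + 2)).re : ℝ) : ℂ) = (z ^ (m + 2) + (starRingEnd ℂ) z ^ (m + 2)) / 2 := by
    rw [← map_pow]
    generalize z ^ (m + 2) = u
    apply Complex.ext
    · simp
    · simp
  push_cast
  rw [h]
  ring

noncomputable def gA (δ : ℝ) (m : ℕ) (z : ℂ) : ℂ :=
  1 - ((δ * (m + 1) / 2 : ℝ) : ℂ) * ((m + 3) * z ^ (m + 2) + (starRingEnd ℂ) z ^ (m + 2))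

noncomputable def gB (δ : ℝ) (m : ℕ) (z : ℂ) : ℂ :=
  - ((δ * (m + 1) / 2 : ℝ) : ℂ) * ((m + 2) * z * (starRingEnd ℂ) z ^ (m + 1))
    + ((δ * (m + 2) : ℝ) : ℂ) * ((m + 1) * (starRingEnd ℂ) z ^ m)

theorem gmap_fderiv (δ : ℝ) (m : ℕ) (z : ℂ) : HasFDerivAt (gmap δ m) (abL (gA δ m z) (gB δ m z)) z := by
  have h0 : gmap δ m = fun z => z - ((δ * (m + 1) / 2 : ℝ) : ℂ)
      * (z ^ (m + 3) + z * (starRingEnd ℂ) z ^ (m + 2))
      + ((δ * (m + 2) : ℝ) : ℂ) * (starRingEnd ℂ) z ^ (m + 1) := funext (gmap_eq δ m)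
  rw [h0]
  have hid : HasFDerivAt (fun z : ℂ => z) (ContinuousLinearMap.id ℝ ℂ) z := hasFDerivAt_id z
  have hcj : HasFDerivAt (fun z : ℂ => (starRingEnd ℂ) z) (Complex.conjCLE : ℂ →L[ℝ] ℂ) z :=
    (Complex.conjCLE : ℂ →L[ℝ] ℂ).hasFDerivAt
  have p1 := hid.pow (m + 3)
  have p2 := hid.mul (hcj.pow (m + 2))
  have p3 := hcj.pow (m + 1)
  have h := (hid.sub ((p1.add p2).const_mul ((δ * (m + 1) / 2 : ℝ) : ℂ))).add
    (p3.const_mul ((δ * (m + 2) : ℝ) : ℂ))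
  refine h.congr_fderiv ?_
  apply ContinuousLinearMap.ext
  intro v
  unfold abL gA gB
  simp
  ring

theorem norm_gA_gB (δ : ℝ) (m : ℕ) (z : ℂ) : ‖gA δ m z‖ ^ 2 - ‖gB δ m z‖ ^ 2
    = 1 - δ * (m + 1) * (m + 4) * (z ^ (m + 2)).re
      + δ ^ 2 * ((m + 1) ^ 2 / 4 * ((m + 2) ^ 2 * ‖z‖ ^ (2 * (m + 2)) + 4 * (m + 3) * (z ^ (m + 2)).re ^ 2)
        - (m + 1) ^ 2 * (m + 2) ^ 2 * ‖z‖ ^ (2 * m) * (1 - ‖z‖ ^ 2 / 2) ^ 2) := by
  have hA : ‖gA δ m z‖ ^ 2 = 1 - δ * (m + 1) * (m + 4) * (z ^ (m + 2)).re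
      + δ ^ 2 * ((m + 1) ^ 2 / 4 * ((m + 2) ^ 2 * ‖z‖ ^ (2 * (m + 2))
        + 4 * (m + 3) * (z ^ (m + 2)).re ^ 2)) := by
    unfold gA
    rw [← map_pow]
    have hr : ‖z‖ ^ (2 * (m + 2)) = (z ^ (m + 2)).re ^ 2 + (z ^ (m + 2)).im ^ 2 := by
      rw [mul_comm 2, pow_mul, ← norm_pow, ← Complex.normSq_eq_norm_sq, Complex.normSq_apply]
      ring
    rw [hr]
    generalize z ^ (m + 2) = u
    rw [← Complex.normSq_eq_norm_sq, Complex.normSq_apply]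
    simp
    ring
  have hB : ‖gB δ m z‖ ^ 2 = δ ^ 2 * ((m + 1) ^ 2 * (m + 2) ^ 2 * ‖z‖ ^ (2 * m) * (1 - ‖z‖ ^ 2 / 2) ^ 2) := by
    have e : gB δ m z = ((δ * (m + 1) * (m + 2) * (1 - ‖z‖ ^ 2 / 2) : ℝ) : ℂ) * (starRingEnd ℂ) z ^ m := by
      unfold gB
      have h1 : (starRingEnd ℂ) z ^ (m + 1) = (starRingEnd ℂ) z * (starRingEnd ℂ) z ^ m := by ring
      have h2 : z * (starRingEnd ℂ) z = ((‖z‖ ^ 2 : ℝ) : ℂ) := by
        rw [Complex.mul_conj, Complex.normSq_eq_norm_sq]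
      rw [h1]
      push_cast at h2 ⊢
      linear_combination (-(↑δ * ((m : ℂ) + 1) / 2) * (m + 2) * (starRingEnd ℂ) z ^ m) * h2
    rw [e, norm_mul, Complex.norm_real, mul_pow, Real.norm_eq_abs, sq_abs, norm_pow, RCLike.norm_conj]
    ring
  rw [hA, hB]
  ring

theorem pow_lip {x y : ℂ} (hx : ‖x‖ ≤ 1) (hy : ‖y‖ ≤ 1) (n : ℕ) :
    ‖y ^ n - x ^ n‖ ≤ n * ‖y - x‖ := by
  induction n with
  | zero => simp
  | succ n ih =>
    have e : y ^ (n + 1) - x ^ (n + 1) = y * (y ^ n - x ^ n) + x ^ n * (y - x) := by ring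
    rw [e]
    refine (norm_add_le _ _).trans ?_
    rw [norm_mul, norm_mul, norm_pow]
    have h1 : ‖x‖ ^ n ≤ 1 := pow_le_one₀ (norm_nonneg _) hx
    calc ‖y‖ * ‖y ^ n - x ^ n‖ + ‖x‖ ^ n * ‖y - x‖ ≤ 1 * (n * ‖y - x‖) + 1 * ‖y - x‖ := by gcongr
      _ = (n + 1 : ℕ) * ‖y - x‖ := by push_cast; ring

theorem gmap_inj {δ : ℝ} (hδ : 0 ≤ δ) {m : ℕ} (hδ1 : δ * ((m + 1) * (2 * m + 5)) < 1) :
    InjOn (gmap δ m) (Metric.closedBall 0 1) := by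
  intro z hz w hw he
  rw [mem_closedBall_zero_iff] at hz hw
  by_contra hne
  have hpos : 0 < ‖z - w‖ := norm_pos_iff.2 (sub_ne_zero.2 hne)
  -- `z - w = - δ (P z - P w)`
  have e : z - w = ((δ : ℝ) : ℂ) * (((m + 1 : ℝ) : ℂ) * (((z ^ (m + 2)).re : ℂ) * (z - w)
      + (((z ^ (m + 2) - w ^ (m + 2)).re : ℝ) : ℂ) * w)
      - ((m + 2 : ℝ) : ℂ) * ((starRingEnd ℂ) z ^ (m + 1) - (starRingEnd ℂ) w ^ (m + 1))) := by
    unfold gmap fac at he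
    rw [Complex.sub_re]
    push_cast at he ⊢
    linear_combination he
  have hre1 : ‖(((z ^ (m + 2)).re : ℝ) : ℂ)‖ ≤ 1 := by
    rw [Complex.norm_real, Real.norm_eq_abs]
    refine (Complex.abs_re_le_norm _).trans ?_
    rw [norm_pow]
    exact pow_le_one₀ (norm_nonneg _) hz
  have hre2 : ‖(((z ^ (m + 2) - w ^ (m + 2)).re : ℝ) : ℂ)‖ ≤ (m + 2) * ‖z - w‖ := by
    rw [Complex.norm_real, Real.norm_eq_abs]
    refine (Complex.abs_re_le_norm _).trans ?_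
    have := pow_lip hw hz (m + 2)
    push_cast at this
    exact this
  have hcj : ‖(starRingEnd ℂ) z ^ (m + 1) - (starRingEnd ℂ) w ^ (m + 1)‖ ≤ (m + 1) * ‖z - w‖ := by
    rw [← map_pow, ← map_pow, ← map_sub, RCLike.norm_conj]
    have := pow_lip hw hz (m + 1)
    push_cast at this
    exact this
  have hb : ‖z - w‖ ≤ δ * (((m + 1) * (2 * m + 5)) * ‖z - w‖) := by
    conv_lhs => rw [e]
    rw [norm_mul, Complex.norm_real, Real.norm_eq_abs, abs_of_nonneg hδ]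
    apply mul_le_mul_of_nonneg_left _ hδ
    refine (norm_sub_le _ _).trans ?_
    rw [norm_mul, norm_mul, Complex.norm_real, Complex.norm_real, Real.norm_eq_abs, Real.norm_eq_abs,
      abs_of_nonneg (by positivity), abs_of_nonneg (by positivity)]
    have h1 : ‖(((z ^ (m + 2)).re : ℝ) : ℂ) * (z - w)
        + (((z ^ (m + 2) - w ^ (m + 2)).re : ℝ) : ℂ) * w‖ ≤ 1 * ‖z - w‖ + ((m + 2) * ‖z - w‖) * 1 := by
      refine (norm_add_le _ _).trans ?_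
      rw [norm_mul, norm_mul]
      gcongr
    calc ((m : ℝ) + 1) * ‖(((z ^ (m + 2)).re : ℝ) : ℂ) * (z - w)
          + (((z ^ (m + 2) - w ^ (m + 2)).re : ℝ) : ℂ) * w‖
          + (m + 2) * ‖(starRingEnd ℂ) z ^ (m + 1) - (starRingEnd ℂ) w ^ (m + 1)‖
        ≤ (m + 1) * (1 * ‖z - w‖ + ((m + 2) * ‖z - w‖) * 1) + (m + 2) * ((m + 1) * ‖z - w‖) := by
          gcongr
      _ = ((m + 1) * (2 * m + 5)) * ‖z - w‖ := by ring
  have : δ * (((m + 1) * (2 * m + 5)) * ‖z - w‖) < 1 * ‖z - w‖ := by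
    rw [← mul_assoc]
    exact mul_lt_mul_of_pos_right hδ1 hpos
  linarith

end Run7.h549
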