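import Pool.Agent.Run7.h549.Vol1

set_option maxHeartbeats 400000
open MeasureTheory Set Filter Topology
open scoped ENNReal Real Pointwise

namespace Run7.h549

/-- the volume of a set in `ℂ²` as an integral of the areas of its sections -/
theorem vol_sections {A : Set C2} (hA : MeasurableSet A) :
    volume A = ∫⁻ z : ℂ, volume {w : ℂ | (!₂[z, w] : C2) ∈ A} := by
  set e : C2 := !₂[1, 0] with he
  have hn : ‖e‖ = 1 := by
    have : ‖e‖ ^ 2 = 1 := by rw [norm_sq_C2]; simp [he]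
    nlinarith [norm_nonneg e]
  have hmp := mp_frame e hn
  have hfe : ∀ q : ℂ × ℂ, q.1 • e + q.2 • jj e = !₂[q.1, q.2] := by
    intro q
    ext i
    fin_cases i <;> simp [he, jj]
  have h1 : volume A = volume ((fun q : ℂ × ℂ => q.1 • e + q.2 • jj e) ⁻¹' A) :=
    (hmp.measure_preimage hA.nullMeasurableSet).symm
  have hmeas : MeasurableSet ((fun q : ℂ × ℂ => q.1 • e + q.2 • jj e) ⁻¹' A) :=
    hmp.measurable hA
  rw [h1, Measure.volume_eq_prod, Measure.prod_apply hmeas]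
  congr 1
  funext z
  congr 1
  ext w
  simp only [mem_preimage, mem_ofPred_eq]
  rw [hfe (z, w)]

theorem fac_bounds {δ : ℝ} (hδ : 0 ≤ δ) {m : ℕ} (hδ1 : δ * (m + 1) < 1) {z : ℂ} (hz : ‖z‖ ≤ 1) :
    0 < fac δ m z := by
  have h : |(z ^ (m + 2)).re| ≤ 1 := by
    refine (Complex.abs_re_le_norm _).trans ?_
    rw [norm_pow]
    exact pow_le_one₀ (norm_nonneg _) hz
  have h2 := (abs_le.1 h).2
  unfold fac
  have h3 : 0 ≤ δ * (m + 1) := by positivity
  nlinarith

theorem section_ge {δ : ℝ} (hδ : 0 ≤ δ) {m : ℕ} (hδ1 : δ * ((m + 2) ^ 2 + 1) < 1) {z : ℂ}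
    (hz : ‖z‖ ≤ 1) :
    ENNReal.ofReal (π * (fac δ m z ^ 2 * (1 - ‖z‖ ^ 2)))
      ≤ volume {w : ℂ | (!₂[gmap δ m z, w] : C2) ∈ wulff (NP δ m)} := by
  have hm0 : (0:ℝ) ≤ m := by positivity
  have hδm : δ * (m + 1) < 1 := by nlinarith
  have hδ3 : 0 < 1 - δ * ((m + 2) ^ 2 - 1) := by nlinarith
  have hf := fac_bounds hδ hδm hz
  have hr0 : 0 ≤ 1 - ‖z‖ ^ 2 := by
    have := pow_le_one₀ (n := 2) (norm_nonneg z) hz
    linarith
  set r : ℝ := fac δ m z * √(1 - ‖z‖ ^ 2) with hr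
  have hrn : 0 ≤ r := by positivity
  have hsub : Metric.closedBall (0 : ℂ) r ⊆ {w : ℂ | (!₂[gmap δ m z, w] : C2) ∈ wulff (NP δ m)} := by
    intro w hw
    rw [mem_closedBall_zero_iff] at hw
    rw [mem_ofPred_eq]
    set x : C2 := !₂[z, w / (fac δ m z : ℂ)] with hx
    have hxn : ‖x‖ ≤ 1 := by
      have h1 : ‖x‖ ^ 2 ≤ 1 := by
        rw [norm_sq_C2]
        have e0 : x 0 = z := rfl
        have e1 : x 1 = w / (fac δ m z : ℂ) := rfl
        rw [e0, e1, norm_div, Complex.norm_real, Real.norm_eq_abs, abs_of_pos hf, div_pow]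
        have h2 : ‖w‖ ^ 2 ≤ fac δ m z ^ 2 * (1 - ‖z‖ ^ 2) := by
          calc ‖w‖ ^ 2 ≤ r ^ 2 := by gcongr
            _ = fac δ m z ^ 2 * (1 - ‖z‖ ^ 2) := by rw [hr, mul_pow, Real.sq_sqrt hr0]
        have h3 : ‖w‖ ^ 2 / fac δ m z ^ 2 ≤ 1 - ‖z‖ ^ 2 := by
          rw [div_le_iff₀ (by positivity)]
          linarith
        linarith
      nlinarith [norm_nonneg x]
    have hb : (!₂[gmap δ m z, w] : C2) = bpt δ m x := by
      unfold bpt gmap
      have e0 : x 0 = z := rfl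
      have e1 : x 1 = w / (fac δ m z : ℂ) := rfl
      rw [e0, e1]
      have hfc : (fac δ m z : ℂ) ≠ 0 := by exact_mod_cast hf.ne'
      have e2 : ((1 - δ * (m + 1) * (z ^ (m + 2)).re : ℝ) : ℂ) = (fac δ m z : ℂ) := rfl
      rw [e2]
      ext i
      fin_cases i
      · simp
      · simp
        field_simp
    rw [hb]
    intro y hy
    have h1 := bpt_ineq hδ m hxn hy
    have h2 : 0 ≤ 1 - (inner ℂ y x).re := by
      have h3 := norm_sub_sq_C2 x y
      rw [hy] at h3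
      have h4 := sq_nonneg ‖y - x‖
      have h5 : ‖x‖ ^ 2 ≤ 1 := pow_le_one₀ (norm_nonneg _) hxn
      linarith
    have h4 := mul_nonneg hδ3.le h2
    linarith
  refine le_trans (le_of_eq ?_) (measure_mono hsub)
  rw [Complex.volume_closedBall, hr]
  rw [show (π * (fac δ m z ^ 2 * (1 - ‖z‖ ^ 2))) = (fac δ m z * √(1 - ‖z‖ ^ 2)) ^ 2 * π by
    rw [mul_pow, Real.sq_sqrt hr0]; ring]
  rw [ENNReal.ofReal_mul (by positivity), ENNReal.ofReal_pow (by positivity)]
  congr 1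
  exact ENNReal.ofReal_coe_nnreal (p := NNReal.pi)

/-- the integrand for the volume -/
noncomputable def WW (δ : ℝ) (m : ℕ) (z : ℂ) : ℝ :=
  (1 - ‖z‖ ^ 2) * (fac δ m z ^ 2 * (‖gA δ m z‖ ^ 2 - ‖gB δ m z‖ ^ 2))

theorem fac_cont (δ : ℝ) (m : ℕ) : Continuous (fac δ m) := by
  unfold fac
  have := Complex.continuous_re
  fun_prop

theorem gA_cont (δ : ℝ) (m : ℕ) : Continuous (gA δ m) := by
  unfold gA
  have := Complex.continuous_conj
  fun_prop

theorem gB_cont (δ : ℝ) (m : ℕ) : Continuous (gB δ m) := by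
  unfold gB
  have := Complex.continuous_conj
  fun_prop

theorem WW_cont (δ : ℝ) (m : ℕ) : Continuous (WW δ m) := by
  unfold WW
  have h1 := fac_cont δ m
  have h2 := gA_cont δ m
  have h3 := gB_cont δ m
  fun_prop

theorem vol_wulff_ge {δ : ℝ} (hδ : 0 ≤ δ) {m : ℕ} (hδ1 : δ * ((m + 2) ^ 2 + 1) < 1)
    (hδ2 : δ * ((m + 1) * (2 * m + 5)) < 1) :
    ENNReal.ofReal (π * ∫ z in Metric.closedBall (0 : ℂ) 1, WW δ m z)
      ≤ volume (wulff (NP δ m)) := by
  set D : Set ℂ := Metric.closedBall (0 : ℂ) 1 with hD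
  have hDm : MeasurableSet D := Metric.isClosed_closedBall.measurableSet
  rw [vol_sections (wulff_closed _).measurableSet]
  set F : ℂ → ℝ≥0∞ := fun z => volume {w : ℂ | (!₂[z, w] : C2) ∈ wulff (NP δ m)} with hF
  have h1 : ∫⁻ z in gmap δ m '' D, F z ≤ ∫⁻ z, F z := setLIntegral_le_lintegral _ _
  refine le_trans ?_ h1
  rw [lintegral_image_eq_lintegral_abs_det_fderiv_mul volume hDm
    (fun z _ => (gmap_fderiv δ m z).hasFDerivWithinAt) (gmap_inj hδ hδ2)]
  -- the integrand with absolute value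
  set W' : ℂ → ℝ := fun z => π * ((1 - ‖z‖ ^ 2) * (fac δ m z ^ 2 * |‖gA δ m z‖ ^ 2 - ‖gB δ m z‖ ^ 2|))
    with hW'
  have c1 := fac_cont δ m
  have c2 := gA_cont δ m
  have c3 := gB_cont δ m
  have hcW : Continuous W' := by rw [hW']; fun_prop
  have hnn : ∀ z ∈ D, 0 ≤ 1 - ‖z‖ ^ 2 := by
    intro z hz
    have := pow_le_one₀ (n := 2) (norm_nonneg z) (mem_closedBall_zero_iff.1 hz)
    linarith
  have h2 : π * ∫ z in D, WW δ m z ≤ ∫ z in D, W' z := by
    rw [← integral_const_mul]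
    apply setIntegral_mono_on
    · exact ((WW_cont δ m).const_mul π).continuousOn.integrableOn_compact (isCompact_closedBall _ _)
    · exact hcW.continuousOn.integrableOn_compact (isCompact_closedBall _ _)
    · exact hDm
    · intro z hz
      rw [hW']
      unfold WW
      have := hnn z hz
      apply mul_le_mul_of_nonneg_left _ Real.pi_pos.le
      apply mul_le_mul_of_nonneg_left _ this
      apply mul_le_mul_of_nonneg_left (le_abs_self _) (by positivity)
  refine (ENNReal.ofReal_le_ofReal h2).trans ?_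
  rw [ofReal_integral_eq_lintegral_ofReal]
  · apply setLIntegral_mono_ae' hDm
    apply Eventually.of_forall
    intro z hz
    rw [det_abL]
    have hz' := mem_closedBall_zero_iff.1 hz
    have h3 := section_ge hδ hδ1 hz'
    have e : W' z = |‖gA δ m z‖ ^ 2 - ‖gB δ m z‖ ^ 2| * (π * (fac δ m z ^ 2 * (1 - ‖z‖ ^ 2))) := by
      rw [hW']; ring
    rw [e, ENNReal.ofReal_mul (abs_nonneg _)]
    gcongr
  · exact hcW.continuousOn.integrableOn_compact (isCompact_closedBall _ _)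
  · filter_upwards [ae_restrict_mem hDm] with z hz
    have := hnn z hz
    rw [hW']
    positivity

end Run7.h549
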