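import Pool.Agent.Run7.h549.Vol2

set_option maxHeartbeats 400000
open MeasureTheory Set Filter Topology
open scoped ENNReal Real Pointwise

namespace Run7.h549

/-- weighted integrals over the unit disc -/
noncomputable def DI (f : ℂ → ℝ) : ℝ := ∫ z in Metric.closedBall (0 : ℂ) 1, (1 - ‖z‖ ^ 2) * f z

theorem DI_int {f : ℂ → ℝ} (hf : Continuous f) :
    IntegrableOn (fun z : ℂ => (1 - ‖z‖ ^ 2) * f z) (Metric.closedBall (0 : ℂ) 1) :=
  (by fun_prop : Continuous fun z : ℂ => (1 - ‖z‖ ^ 2) * f z).continuousOn.integrableOn_compact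
    (isCompact_closedBall _ _)

theorem DI_add {f g : ℂ → ℝ} (hf : Continuous f) (hg : Continuous g) :
    DI (fun z => f z + g z) = DI f + DI g := by
  unfold DI
  rw [← integral_add (DI_int hf) (DI_int hg)]
  congr 1
  funext z
  ring

theorem DI_smul (a : ℝ) (f : ℂ → ℝ) : DI (fun z => a * f z) = a * DI f := by
  unfold DI
  rw [← integral_const_mul]
  congr 1
  funext z
  ring

/-- rotation as an isometry of the plane -/
noncomputable def rotC {c : ℂ} (hc : ‖c‖ = 1) : ℂ ≃ₗᵢ[ℝ] ℂ :=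
  LinearIsometry.toLinearIsometryEquiv
    ⟨(c • ContinuousLinearMap.id ℝ ℂ : ℂ →L[ℝ] ℂ).toLinearMap, fun x => by
      show ‖c * x‖ = ‖x‖
      rw [norm_mul, hc, one_mul]⟩ rfl

theorem DI_rot {c : ℂ} (hc : ‖c‖ = 1) (f : ℂ → ℝ) : DI (fun z => f (c * z)) = DI f := by
  unfold DI
  have hDm : MeasurableSet (Metric.closedBall (0 : ℂ) 1) := Metric.isClosed_closedBall.measurableSet
  rw [← integral_indicator hDm, ← integral_indicator hDm]
  have mp : MeasurePreserving (rotC hc) := LinearIsometryEquiv.measurePreserving _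
  have me : MeasurableEmbedding (rotC hc) := (rotC hc).toHomeomorph.measurableEmbedding
  rw [← mp.integral_comp me ((Metric.closedBall (0 : ℂ) 1).indicator fun z => (1 - ‖z‖ ^ 2) * f z)]
  congr 1
  funext z
  have hz : rotC hc z = c * z := rfl
  have hn : ‖c * z‖ = ‖z‖ := by rw [norm_mul, hc, one_mul]
  rw [hz]
  by_cases h : z ∈ Metric.closedBall (0 : ℂ) 1
  · have h' : c * z ∈ Metric.closedBall (0 : ℂ) 1 := by
      rw [mem_closedBall_zero_iff] at h ⊢
      rw [hn]; exact h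
    rw [indicator_of_mem h, indicator_of_mem h', hn]
  · have h' : c * z ∉ Metric.closedBall (0 : ℂ) 1 := by
      rw [mem_closedBall_zero_iff] at h ⊢
      rw [hn]; exact h
    rw [indicator_of_notMem h, indicator_of_notMem h']

theorem DI_pow (j : ℕ) : DI (fun z => ‖z‖ ^ (2 * j)) = π / ((j + 1) * (j + 2)) := by
  unfold DI
  have hDm : MeasurableSet (Metric.closedBall (0 : ℂ) 1) := Metric.isClosed_closedBall.measurableSet
  rw [integral_eq_lintegral_of_nonneg_ae]
  · rw [← lintegral_indicator hDm]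
    have e1 : ∀ z : ℂ, (Metric.closedBall (0 : ℂ) 1).indicator
        (fun z => ENNReal.ofReal ((1 - ‖z‖ ^ 2) * ‖z‖ ^ (2 * j))) z
        = (fun s : ℝ => if s ≤ 1 then ENNReal.ofReal ((1 - s) * s ^ j) else 0) (‖z‖ ^ 2) := by
      intro z
      simp only
      by_cases hz : z ∈ Metric.closedBall (0 : ℂ) 1
      · rw [indicator_of_mem hz, if_pos (pow_le_one₀ (norm_nonneg _) (mem_closedBall_zero_iff.1 hz)),
          pow_mul]
      · rw [indicator_of_notMem hz, if_neg]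
        intro hc
        apply hz
        rw [mem_closedBall_zero_iff]
        nlinarith [norm_nonneg z]
    simp only [e1]
    rw [lint_normsq (F := fun s : ℝ => if s ≤ 1 then ENNReal.ofReal ((1 - s) * s ^ j) else 0)
      (Measurable.ite measurableSet_Iic (by fun_prop) measurable_const)]
    have e2 : ∫⁻ s in Ioi (0:ℝ), (if s ≤ 1 then ENNReal.ofReal ((1 - s) * s ^ j) else 0)
        = ∫⁻ s in Ioc (0:ℝ) 1, ENNReal.ofReal ((1 - s) * s ^ j) := by
      rw [← lintegral_indicator measurableSet_Ioi, ← lintegral_indicator measurableSet_Ioc]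
      congr 1
      funext s
      by_cases hs : s ∈ Ioc (0:ℝ) 1
      · rw [indicator_of_mem hs, indicator_of_mem (show s ∈ Ioi (0:ℝ) from hs.1), if_pos hs.2]
      · rw [indicator_of_notMem hs]
        by_cases hs0 : s ∈ Ioi (0:ℝ)
        · rw [indicator_of_mem hs0, if_neg]
          intro h1
          exact hs ⟨hs0, h1⟩
        · rw [indicator_of_notMem hs0]
    rw [e2, ← ofReal_integral_eq_lintegral_ofReal, ← ENNReal.ofReal_mul Real.pi_pos.le,
      ← intervalIntegral.integral_of_le zero_le_one]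
    · have e3 : ∫ s in (0:ℝ)..1, (1 - s) * s ^ j = 1 / (((j : ℝ) + 1) * (j + 2)) := by
        have h3 : ∀ s : ℝ, (1 - s) * s ^ j = s ^ j - s ^ (j + 1) := by intro w; ring
        simp only [h3]
        rw [intervalIntegral.integral_sub (by simp) (by simp), integral_pow, integral_pow]
        push_cast
        simp
        field_simp
        ring
      rw [e3, ENNReal.toReal_ofReal (by positivity)]
      ring
    · exact (by fun_prop : Continuous fun s : ℝ => (1 - s) * s ^ j).integrableOn_Ioc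
    · filter_upwards [ae_restrict_mem measurableSet_Ioc] with s hs
      have h1 : 0 ≤ 1 - s := by linarith [hs.2]
      have h2 : 0 ≤ s := hs.1.le
      positivity
  · filter_upwards [ae_restrict_mem hDm] with z hz
    have := pow_le_one₀ (n := 2) (norm_nonneg z) (mem_closedBall_zero_iff.1 hz)
    have h1 : 0 ≤ 1 - ‖z‖ ^ 2 := by linarith
    positivity
  · exact (by fun_prop : Continuous fun z : ℂ => (1 - ‖z‖ ^ 2) * ‖z‖ ^ (2 * j)).aestronglyMeasurable

theorem DI_one : DI (fun _ => 1) = π / 2 := by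
  have h := DI_pow 0
  simp only [mul_zero, pow_zero] at h
  rw [h]
  norm_num

theorem re_pow_cont (n : ℕ) : Continuous fun z : ℂ => (z ^ n).re := by
  have := Complex.continuous_re
  fun_prop

theorem im_pow_cont (n : ℕ) : Continuous fun z : ℂ => (z ^ n).im := by
  have := Complex.continuous_im
  fun_prop

theorem DI_re (n : ℕ) : DI (fun z => (z ^ (n + 1)).re) = 0 := by
  obtain ⟨c, hc, hc2⟩ := exists_root_neg n
  have h1 := DI_rot hc (fun z => (z ^ (n + 1)).re)
  have h2 : DI (fun z => ((c * z) ^ (n + 1)).re) = -1 * DI (fun z => (z ^ (n + 1)).re) := by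
    rw [← DI_smul]
    congr 1
    funext z
    rw [mul_pow, hc2]
    simp
  rw [h2] at h1
  linarith

theorem DI_re_sq (n : ℕ) : DI (fun z => (z ^ (n + 1)).re ^ 2) = π / ((n + 2) * (n + 3)) / 2 := by
  obtain ⟨c, hc, hc2⟩ := exists_root_I n
  have h1 := DI_rot hc (fun z => (z ^ (n + 1)).re ^ 2)
  have h2 : DI (fun z => ((c * z) ^ (n + 1)).re ^ 2) = DI (fun z => (z ^ (n + 1)).im ^ 2) := by
    congr 1
    funext z
    rw [mul_pow, hc2]
    simp
  have h3 : DI (fun z => ‖z‖ ^ (2 * (n + 1)))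
      = DI (fun z => (z ^ (n + 1)).re ^ 2) + DI (fun z => (z ^ (n + 1)).im ^ 2) := by
    have c1 := re_pow_cont (n + 1)
    have c2 := im_pow_cont (n + 1)
    rw [← DI_add (by fun_prop) (by fun_prop)]
    congr 1
    funext z
    rw [mul_comm 2, pow_mul, ← norm_pow, ← Complex.normSq_eq_norm_sq, Complex.normSq_apply]
    ring
  rw [DI_pow] at h3
  push_cast at h3
  have e : ((n : ℝ) + 1 + 1) * (n + 1 + 2) = (n + 2) * (n + 3) := by ring
  rw [e] at h3
  linarith

/-- the coefficient of `δ²` -/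
noncomputable def XX (m : ℕ) (z : ℂ) : ℝ :=
  (m + 1) ^ 2 / 4 * ((m + 2) ^ 2 * ‖z‖ ^ (2 * (m + 2)) + 4 * (m + 3) * (z ^ (m + 2)).re ^ 2)
    - (m + 1) ^ 2 * (m + 2) ^ 2 * ‖z‖ ^ (2 * m) * (1 - ‖z‖ ^ 2 / 2) ^ 2

theorem XX_cont (m : ℕ) : Continuous (XX m) := by
  unfold XX
  have := re_pow_cont (m + 2)
  fun_prop

theorem DI_WW (m : ℕ) : ∃ c3 c4 : ℝ, ∀ δ : ℝ,
    ∫ z in Metric.closedBall (0 : ℂ) 1, WW δ m z
      = π / 2 * (1 - δ ^ 2 * ((m + 1) * (m + 5) / (m + 3))) + δ ^ 3 * c3 + δ ^ 4 * c4 := by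
  refine ⟨DI (fun z => -2 * (m + 1) * (z ^ (m + 2)).re * XX m z
      - (m + 1) ^ 3 * (m + 4) * (z ^ (m + 2)).re ^ 3),
    DI (fun z => (m + 1) ^ 2 * (z ^ (m + 2)).re ^ 2 * XX m z), ?_⟩
  intro δ
  have hR := re_pow_cont (m + 2)
  have hX := XX_cont m
  have e0 : ∫ z in Metric.closedBall (0 : ℂ) 1, WW δ m z
      = DI (fun z => 1 + (-(δ * (m + 1) * (m + 6))) * (z ^ (m + 1 + 1)).re
        + δ ^ 2 * ((m + 1) ^ 2 * (3 * m + 12) * (z ^ (m + 1 + 1)).re ^ 2
          + (m + 1) ^ 2 * (m + 2) ^ 2 / 4 * ‖z‖ ^ (2 * (m + 2))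
          + (-((m + 1) ^ 2 * (m + 2) ^ 2)) * ‖z‖ ^ (2 * m)
          + (m + 1) ^ 2 * (m + 2) ^ 2 * ‖z‖ ^ (2 * (m + 1))
          + (-((m + 1) ^ 2 * (m + 2) ^ 2 / 4)) * ‖z‖ ^ (2 * (m + 2)))
        + δ ^ 3 * (-2 * (m + 1) * (z ^ (m + 2)).re * XX m z
          - (m + 1) ^ 3 * (m + 4) * (z ^ (m + 2)).re ^ 3)
        + δ ^ 4 * ((m + 1) ^ 2 * (z ^ (m + 2)).re ^ 2 * XX m z)) := by
    unfold DI
    congr 1
    funext z
    unfold WW
    rw [norm_gA_gB]
    unfold fac XX
    ring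
  rw [e0]
  rw [DI_add (by fun_prop) (by fun_prop), DI_add (by fun_prop) (by fun_prop),
    DI_add (by fun_prop) (by fun_prop), DI_add (by fun_prop) (by fun_prop), DI_smul, DI_smul, DI_smul,
    DI_smul, DI_add (by fun_prop) (by fun_prop), DI_add (by fun_prop) (by fun_prop),
    DI_add (by fun_prop) (by fun_prop), DI_add (by fun_prop) (by fun_prop), DI_smul, DI_smul, DI_smul,
    DI_smul, DI_smul, DI_one, DI_re, DI_re_sq, DI_pow, DI_pow, DI_pow]
  push_cast
  have h1 : (m : ℝ) + 1 ≠ 0 := by positivity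
  have h2 : (m : ℝ) + 2 ≠ 0 := by positivity
  have h3 : (m : ℝ) + 3 ≠ 0 := by positivity
  have h4 : (m : ℝ) + 4 ≠ 0 := by positivity
  have e1 : (m : ℝ) + 1 + 1 = m + 2 := by ring
  have e2 : (m : ℝ) + 1 + 2 = m + 3 := by ring
  have e3 : (m : ℝ) + 1 + 3 = m + 4 := by ring
  have e4 : (m : ℝ) + 2 + 1 = m + 3 := by ring
  have e5 : (m : ℝ) + 2 + 2 = m + 4 := by ring
  simp only [e1, e2, e3, e4, e5]
  have key : δ ^ 2 * ((m + 1) ^ 2 * (3 * m + 12) * (π / ((m + 3) * (m + 4)) / 2)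
          + (m + 1) ^ 2 * (m + 2) ^ 2 / 4 * (π / ((m + 3) * (m + 4)))
          + (-((m + 1) ^ 2 * (m + 2) ^ 2)) * (π / ((m + 1) * (m + 2)))
          + (m + 1) ^ 2 * (m + 2) ^ 2 * (π / ((m + 2) * (m + 3)))
          + (-((m + 1) ^ 2 * (m + 2) ^ 2 / 4)) * (π / ((m + 3) * (m + 4))))
        = - (π / 2 * (δ ^ 2 * (((m : ℝ) + 1) * (m + 5) / (m + 3)))) := by
    field_simp
    ring
  rw [key]
  ring

end Run7.h549
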