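import Pool.Agent.Run7.h549.Rad2

set_option maxHeartbeats 400000
open MeasureTheory Set Filter Topology
open scoped ENNReal Real Pointwise

namespace Run7.h549

/-- the body with support function at most `N` on the unit sphere -/
def wulff (N : C2 → ℝ) : Set C2 := {z | ∀ y : C2, ‖y‖ = 1 → (inner ℂ y z).re ≤ N y}

theorem wulff_norm {N : C2 → ℝ} {C : ℝ} (hC0 : 0 ≤ C) (hC : ∀ y, ‖y‖ = 1 → N y ≤ C) {z : C2}
    (hz : z ∈ wulff N) : ‖z‖ ≤ C := by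
  by_cases h0 : z = 0
  · rw [h0, norm_zero]; exact hC0
  have h1 := hz _ (norm_unit h0)
  have hs : ‖z‖⁻¹ • z = ((‖z‖⁻¹ : ℝ) : ℂ) • z := by
    ext i; simp
  have h2 : (inner ℂ (‖z‖⁻¹ • z) z).re = ‖z‖ := by
    rw [hs, inner_smul_left, inner_self_eq_norm_sq_to_K, Complex.conj_ofReal]
    have hn : ‖z‖ ≠ 0 := norm_ne_zero_iff.2 h0
    have : ((‖z‖⁻¹ : ℝ) : ℂ) * ((‖z‖ : ℂ)) ^ 2 = ((‖z‖ : ℝ) : ℂ) := by
      push_cast
      field_simp
    rw [show ((‖z‖⁻¹ : ℝ) : ℂ) * ((RCLike.ofReal ‖z‖ : ℂ)) ^ 2 = ((‖z‖ : ℝ) : ℂ) from this]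
    simp
  rw [h2] at h1
  exact h1.trans (hC _ (norm_unit h0))

theorem wulff_closed (N : C2 → ℝ) : IsClosed (wulff N) := by
  have h : wulff N = ⋂ y : {y : C2 // ‖y‖ = 1}, {z : C2 | (inner ℂ y.1 z).re ≤ N y.1} := by
    ext z
    simp [wulff]
  rw [h]
  apply isClosed_iInter
  intro y
  exact isClosed_le (by fun_prop) continuous_const

theorem wulff_convex (N : C2 → ℝ) : Convex ℝ (wulff N) := by
  intro z hz w hw a b ha hb hab y hy
  have e : (inner ℂ y (a • z + b • w)).re = a * (inner ℂ y z).re + b * (inner ℂ y w).re := by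
    have e1 : ∀ (r : ℝ) (w : C2), inner ℂ y (r • w) = r • inner ℂ y w := fun r w =>
      (projL y).map_smul r w
    rw [inner_add_right, e1, e1]
    simp
  rw [e]
  have h1 := mul_le_mul_of_nonneg_left (hz y hy) ha
  have h2 := mul_le_mul_of_nonneg_left (hw y hy) hb
  calc a * (inner ℂ y z).re + b * (inner ℂ y w).re ≤ a * N y + b * N y := add_le_add h1 h2
    _ = N y := by rw [← add_mul, hab, one_mul]

theorem wulff_zero {N : C2 → ℝ} (h0 : ∀ y, ‖y‖ = 1 → 0 ≤ N y) : (0 : C2) ∈ wulff N := by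
  intro y hy
  rw [inner_zero_right]
  exact h0 y hy

/-- the convex body -/
def wulffBody (N : C2 → ℝ) (h0 : ∀ y, ‖y‖ = 1 → 0 ≤ N y) (C : ℝ) (hC0 : 0 ≤ C)
    (hC : ∀ y, ‖y‖ = 1 → N y ≤ C) : ConvexBody C2 where
  carrier := wulff N
  convex' := wulff_convex N
  isCompact' := (isCompact_closedBall (0 : C2) C).of_isClosed_subset (wulff_closed N)
    (fun z hz => mem_closedBall_zero_iff.2 (wulff_norm hC0 hC hz))
  nonempty' := ⟨0, wulff_zero h0⟩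

theorem coe_wulffBody (N : C2 → ℝ) (h0 : ∀ y, ‖y‖ = 1 → 0 ≤ N y) (C : ℝ) (hC0 : 0 ≤ C)
    (hC : ∀ y, ‖y‖ = 1 → N y ≤ C) : (wulffBody N h0 C hC0 hC : Set C2) = wulff N := rfl

theorem real_inner_C2 (x y : C2) : inner ℝ x y = (inner ℂ x y).re := by
  rw [inner_C2, PiLp.inner_apply, Fin.sum_univ_two, Complex.inner, Complex.inner, Complex.add_re,
    mul_comm (y 0), mul_comm (y 1)]

theorem inner_symm (R : C2 ≃ₗᵢ[ℝ] C2) (x z : C2) :
    (inner ℂ x (R z)).re = (inner ℂ (R.symm x) z).re := by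
  have h1 : inner ℝ x (R z) = inner ℝ (R.symm x) z := by
    conv_lhs => rw [← R.apply_symm_apply x]
    exact R.inner_map_map _ _
  rwa [real_inner_C2, real_inner_C2] at h1

/-- upper bound for the projections of a rotated body -/
theorem pa_le_rot {K M : ConvexBody C2} {R : C2 ≃ₗᵢ[ℝ] C2} (hM : (M : Set C2) = R '' (K : Set C2))
    {x : C2} {g g1 g2 : ℝ → ℝ} (hg : SupF g g1 g2)
    (h : ∀ z ∈ (K : Set C2), ∀ θ, (inner ℂ (R.symm (cis θ • x)) z).re ≤ g θ) :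
    pa x M ≤ (∫ θ in (-π)..π, (g θ ^ 2 - g1 θ ^ 2)) / 2 := by
  apply pa_le_of hg
  intro z hz θ
  rw [hM] at hz
  obtain ⟨z', hz', rfl⟩ := hz
  rw [inner_symm]
  exact h z' hz' θ

/-- lower bound for the projections of a rotated body -/
theorem pa_ge_rot {K M : ConvexBody C2} {R : C2 ≃ₗᵢ[ℝ] C2} (hM : (M : Set C2) = R '' (K : Set C2))
    (h0 : (0 : C2) ∈ (K : Set C2)) {x : C2} {g g1 g2 : ℝ → ℝ} (hg : SupF g g1 g2)
    (b : ℝ → C2) (hb : ∀ θ, b θ ∈ (K : Set C2))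
    (h1 : ∀ θ, (inner ℂ (R.symm (cis θ • x)) (b θ)).re = g θ)
    (h2 : ∀ θ, (inner ℂ (R.symm (cis θ • Complex.I • x)) (b θ)).re = g1 θ)
    (h3 : ∀ θ ∈ Ioc (-π) π, ∀ φ ∈ Ioc (-π) π, θ ≠ φ →
      (inner ℂ (R.symm (cis φ • x)) (b θ)).re < g φ) :
    (∫ θ in (-π)..π, (g θ ^ 2 - g1 θ ^ 2)) / 2 ≤ pa x M := by
  apply pa_ge_of hg (M := M) (b := fun θ => R (b θ))
  · rw [hM]; exact ⟨0, h0, map_zero R⟩
  · intro θ
    rw [hM]; exact mem_image_of_mem _ (hb θ)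
  · intro θ
    rw [inner_symm]; exact h1 θ
  · intro θ
    rw [inner_symm]; exact h2 θ
  · intro θ hθ φ hφ hne
    rw [inner_symm]; exact h3 θ hθ φ hφ hne

theorem RlI_symm {c : ℂ} (hc : ‖c‖ = 1) (x : C2) : (RlI hc).symm x = - Rl c x := by
  rw [LinearIsometryEquiv.symm_apply_eq]
  have h1 : RlI hc (-Rl c x) = Rl c (-Rl c x) := rfl
  have hs : ∀ (r : ℝ) (w : C2), r • w = (r : ℂ) • w := by
    intro r w; ext i; simp
  have hcc : (starRingEnd ℂ) c * c = 1 := by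
    rw [← Complex.normSq_eq_conj_mul_self, Complex.normSq_eq_norm_sq, hc]; simp
  have h2 : ((√2 : ℝ) : ℂ) * ((√2 : ℝ) : ℂ) = 2 := by
    rw [← Complex.ofReal_mul, Real.mul_self_sqrt (by norm_num)]; simp
  have h2' : (((√2)⁻¹ : ℝ) : ℂ) * (((√2)⁻¹ : ℝ) : ℂ) = 1 / 2 := by
    push_cast
    rw [← mul_inv, h2]; norm_num
  rw [h1, map_neg, Rl_apply, Rl_apply, hs, hs]
  rw [smul_comm Complex.I, jj_smul, Complex.conj_ofReal, smul_comm c, ← smul_add, smul_smul, h2',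
    jj_add, jj_smul, jj_smul, jj_jj]
  simp only [smul_add, smul_smul, smul_neg, neg_smul, neg_add_rev, neg_neg, Complex.I_mul_I,
    Complex.conj_I, mul_comm c ((starRingEnd ℂ) c), hcc]
  ext i
  simp
  ring

theorem RlI_symm_I {c : ℂ} (hc : ‖c‖ = 1) (x : C2) :
    (RlI hc).symm (Complex.I • x) = c • jj ((RlI hc).symm x) := by
  have hs : ∀ (r : ℝ) (w : C2), r • w = (r : ℂ) • w := by
    intro r w; ext i; simp
  have hcc : c * (starRingEnd ℂ) c = 1 := by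
    rw [Complex.mul_conj, Complex.normSq_eq_norm_sq, hc]; simp
  rw [RlI_symm, RlI_symm, Rl_apply, Rl_apply, hs, hs]
  ext i
  fin_cases i
  · simp [jj]
    linear_combination -((√2 : ℝ) : ℂ)⁻¹ * (x 0) * Complex.I_sq - ((√2 : ℝ) : ℂ)⁻¹ * (x 0) * hcc
  · simp [jj]
    linear_combination -((√2 : ℝ) : ℂ)⁻¹ * (x 1) * Complex.I_sq - ((√2 : ℝ) : ℂ)⁻¹ * (x 1) * hcc

theorem RlI_image {c : ℂ} (hc : ‖c‖ = 1) (K : ConvexBody C2) :
    (mapBody (Rl c) K : Set C2) = RlI hc '' (K : Set C2) := rfl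

end Run7.h549
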