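import Pool.Agent.Run7.h549.Iface

set_option maxHeartbeats 400000
open MeasureTheory Set Filter Topology
open scoped ENNReal Real

namespace Run7.h549

/-- data of a `C²` support function of a planar convex body with the origin inside -/
structure SupF (g g1 g2 : ℝ → ℝ) : Prop where
  d1 : ∀ θ, HasDerivAt g (g1 θ) θ
  d2 : ∀ θ, HasDerivAt g1 (g2 θ) θ
  c2 : Continuous g2
  per : ∀ θ, g (θ + 2 * π) = g θ
  pos : ∀ θ, 0 < g θ
  cv : ∀ θ, 0 ≤ g θ + g2 θ

/-- the planar body with support function `g` -/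
def Wset (g : ℝ → ℝ) : Set (ℝ × ℝ) := {q | ∀ θ, q.1 * Real.cos θ + q.2 * Real.sin θ ≤ g θ}

/-- parametrisation of the body by its normals -/
noncomputable def TT (g g1 : ℝ → ℝ) (q : ℝ × ℝ) : ℝ × ℝ :=
  (q.1 * (g q.2 * Real.cos q.2 - g1 q.2 * Real.sin q.2),
    q.1 * (g q.2 * Real.sin q.2 + g1 q.2 * Real.cos q.2))

noncomputable def TT' (g g1 g2 : ℝ → ℝ) (q : ℝ × ℝ) : ℝ × ℝ →L[ℝ] ℝ × ℝ :=
  (Matrix.toLin (.finTwoProd ℝ) (.finTwoProd ℝ)
    !![g q.2 * Real.cos q.2 - g1 q.2 * Real.sin q.2, -(q.1 * (g q.2 + g2 q.2) * Real.sin q.2);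
      g q.2 * Real.sin q.2 + g1 q.2 * Real.cos q.2, q.1 * (g q.2 + g2 q.2) * Real.cos q.2]).toContinuousLinearMap

variable {g g1 g2 : ℝ → ℝ}

theorem SupF.c1 (h : SupF g g1 g2) : Continuous g1 :=
  continuous_iff_continuousAt.2 fun θ => (h.d2 θ).continuousAt

theorem SupF.c0 (h : SupF g g1 g2) : Continuous g :=
  continuous_iff_continuousAt.2 fun θ => (h.d1 θ).continuousAt

theorem SupF.per1 (h : SupF g g1 g2) (θ : ℝ) : g1 (θ + 2 * π) = g1 θ := by
  have h1 : HasDerivAt (fun s => g (s + 2 * π)) (g1 (θ + 2 * π)) θ :=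
    (h.d1 (θ + 2 * π)).comp_add_const θ (2 * π)
  have h2 : (fun s => g (s + 2 * π)) = g := funext h.per
  rw [h2] at h1
  exact h1.unique (h.d1 θ)

theorem TT_fderiv (h : SupF g g1 g2) (q : ℝ × ℝ) : HasFDerivAt (TT g g1) (TT' g g1 g2 q) q := by
  unfold TT'
  rw [Matrix.toLin_finTwoProd_toContinuousLinearMap]
  have a1 : HasDerivAt (fun θ => g θ * Real.cos θ - g1 θ * Real.sin θ)
      (-((g q.2 + g2 q.2) * Real.sin q.2)) q.2 := by
    have := ((h.d1 q.2).mul (Real.hasDerivAt_cos q.2)).sub ((h.d2 q.2).mul (Real.hasDerivAt_sin q.2))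
    refine this.congr_deriv ?_
    ring
  have a2 : HasDerivAt (fun θ => g θ * Real.sin θ + g1 θ * Real.cos θ)
      ((g q.2 + g2 q.2) * Real.cos q.2) q.2 := by
    have := ((h.d1 q.2).mul (Real.hasDerivAt_sin q.2)).add ((h.d2 q.2).mul (Real.hasDerivAt_cos q.2))
    refine this.congr_deriv ?_
    ring
  have b1 := (hasFDerivAt_fst (𝕜 := ℝ) (p := q)).mul (a1.comp_hasFDerivAt q hasFDerivAt_snd)
  have b2 := (hasFDerivAt_fst (𝕜 := ℝ) (p := q)).mul (a2.comp_hasFDerivAt q hasFDerivAt_snd)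
  have b3 := HasFDerivAt.prodMk (𝕜 := ℝ) b1 b2
  refine b3.congr_fderiv ?_
  ext <;> simp <;> ring

theorem TT_det (q : ℝ × ℝ) : (TT' g g1 g2 q).det = q.1 * (g q.2 * (g q.2 + g2 q.2)) := by
  unfold TT'
  simp only [LinearMap.det_toContinuousLinearMap, LinearMap.det_toLin, Matrix.det_fin_two_of]
  have := Real.sin_sq_add_cos_sq q.2
  linear_combination (q.1 * (g q.2 * (g q.2 + g2 q.2))) * this

/-- every point of the body is hit by the parametrisation -/
theorem Wset_sub (h : SupF g g1 g2) {ζ : ℝ × ℝ} (hζ : ζ ∈ Wset g) :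
    ∃ ρ θ, 0 ≤ ρ ∧ ρ ≤ 1 ∧ θ ∈ Ioc (-π) π ∧ TT g g1 (ρ, θ) = ζ := by
  obtain ⟨x, y⟩ := ζ
  set n : ℝ → ℝ := fun θ => x * Real.cos θ + y * Real.sin θ with hn
  have hcm : Continuous fun θ => n θ / g θ := by
    apply Continuous.div (by rw [hn]; fun_prop) h.c0
    intro θ; exact (h.pos θ).ne'
  have hper : Function.Periodic (fun θ => n θ / g θ) (2 * π) := by
    intro θ
    simp only [hn, Real.cos_add_two_pi, Real.sin_add_two_pi, h.per]
  obtain ⟨θ₁, hθ₁, hmax⟩ := (isCompact_Icc (a := -π) (b := π)).exists_isMaxOn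
    ⟨0, by constructor <;> linarith [Real.pi_pos]⟩ hcm.continuousOn
  have hglob : ∀ θ, n θ / g θ ≤ n θ₁ / g θ₁ := by
    intro θ
    obtain ⟨θ', hθ', he⟩ := hper.exists_mem_Ioc (by positivity : (0:ℝ) < 2 * π) θ (-π)
    rw [he]
    apply hmax
    exact ⟨hθ'.1.le, by linarith [hθ'.2]⟩
  obtain ⟨θ₀, hθ₀, he₀⟩ := hper.exists_mem_Ioc (by positivity : (0:ℝ) < 2 * π) θ₁ (-π)
  have hθ₀' : θ₀ ∈ Ioc (-π) π := ⟨hθ₀.1, by linarith [hθ₀.2]⟩
  have hglob0 : ∀ θ, n θ / g θ ≤ n θ₀ / g θ₀ := by rw [← he₀]; exact hglob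
  have hg := h.pos θ₀
  have hnd : HasDerivAt n (-x * Real.sin θ₀ + y * Real.cos θ₀) θ₀ := by
    have := ((Real.hasDerivAt_cos θ₀).const_mul x).add ((Real.hasDerivAt_sin θ₀).const_mul y)
    refine this.congr_deriv ?_
    ring
  have hd := hnd.div (h.d1 θ₀) hg.ne'
  have hloc : IsLocalMax (fun θ => n θ / g θ) θ₀ := Eventually.of_forall hglob0
  have hz := hloc.hasDerivAt_eq_zero hd
  rw [div_eq_zero_iff] at hz
  have hz' : (-x * Real.sin θ₀ + y * Real.cos θ₀) * g θ₀ - n θ₀ * g1 θ₀ = 0 := by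
    rcases hz with hz | hz
    · exact hz
    · exact absurd hz (by positivity)
  refine ⟨n θ₀ / g θ₀, θ₀, ?_, ?_, hθ₀', ?_⟩
  · -- the maximum is nonnegative
    by_contra hneg
    push Not at hneg
    have h1 := hglob0 θ₀
    have h2 := hglob0 (θ₀ + π)
    have h3 : n (θ₀ + π) = - n θ₀ := by
      simp only [hn, Real.cos_add_pi, Real.sin_add_pi]; ring
    have h4 : n θ₀ < 0 := by
      by_contra h5
      push Not at h5
      have : 0 ≤ n θ₀ / g θ₀ := div_nonneg h5 hg.le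
      linarith
    have h6 : 0 < n (θ₀ + π) / g (θ₀ + π) := div_pos (by linarith) (h.pos _)
    linarith
  · rw [div_le_one hg]
    exact hζ θ₀
  · unfold TT
    have hcs := Real.sin_sq_add_cos_sq θ₀
    have e1 : n θ₀ / g θ₀ * g1 θ₀ = -x * Real.sin θ₀ + y * Real.cos θ₀ := by
      field_simp
      linarith
    have e2 : n θ₀ / g θ₀ * g θ₀ = n θ₀ := by field_simp
    apply Prod.ext
    · show n θ₀ / g θ₀ * (g θ₀ * Real.cos θ₀ - g1 θ₀ * Real.sin θ₀) = x
      rw [mul_sub, ← mul_assoc, ← mul_assoc, e1, e2]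
      simp only [hn]
      linear_combination x * hcs
    · show n θ₀ / g θ₀ * (g θ₀ * Real.sin θ₀ + g1 θ₀ * Real.cos θ₀) = y
      rw [mul_add, ← mul_assoc, ← mul_assoc, e1, e2]
      simp only [hn]
      linear_combination y * hcs

theorem param_lint (h : SupF g g1 g2) {A B : Set ℝ} (hA : A =ᵐ[volume] Icc (0:ℝ) 1)
    (hB : B =ᵐ[volume] Icc (-π) π) :
    ∫⁻ q in A ×ˢ B, ENNReal.ofReal |(TT' g g1 g2 q).det|
      = ENNReal.ofReal ((∫ θ in (-π)..π, (g θ ^ 2 - g1 θ ^ 2)) / 2) := by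
  have e0 : A ×ˢ B =ᵐ[(volume : Measure (ℝ × ℝ))] Icc (0:ℝ) 1 ×ˢ Icc (-π) π := by
    rw [Measure.volume_eq_prod]
    exact Measure.set_prod_ae_eq hA hB
  rw [setLIntegral_congr e0]
  have e1 : ∀ q ∈ Icc (0:ℝ) 1 ×ˢ Icc (-π) π, ENNReal.ofReal |(TT' g g1 g2 q).det|
      = ENNReal.ofReal (q.1 * (g q.2 * (g q.2 + g2 q.2))) := by
    intro q hq
    rw [TT_det, abs_of_nonneg]
    exact mul_nonneg hq.1.1 (mul_nonneg (h.pos _).le (h.cv _))
  rw [setLIntegral_congr_fun (measurableSet_Icc.prod measurableSet_Icc) e1]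
  have hc0 := h.c0
  have hc2 := h.c2
  have hcont : Continuous fun q : ℝ × ℝ => q.1 * (g q.2 * (g q.2 + g2 q.2)) := by fun_prop
  rw [← ofReal_integral_eq_lintegral_ofReal]
  · congr 1
    rw [Measure.volume_eq_prod, setIntegral_prod_mul (fun ρ : ℝ => ρ) (fun θ => g θ * (g θ + g2 θ))]
    rw [integral_Icc_eq_integral_Ioc, integral_Icc_eq_integral_Ioc,
      ← intervalIntegral.integral_of_le zero_le_one,
      ← intervalIntegral.integral_of_le (by linarith [Real.pi_pos])]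
    have e2 : ∫ θ in (-π)..π, (g θ * (g θ + g2 θ)) = ∫ θ in (-π)..π, (g θ ^ 2 - g1 θ ^ 2) := by
      have e3 : ∫ θ in (-π)..π, (g θ * (g θ + g2 θ) - (g θ ^ 2 - g1 θ ^ 2)) = 0 := by
        have hder : ∀ θ ∈ uIcc (-π) π, HasDerivAt (fun s => g s * g1 s)
            (g θ * (g θ + g2 θ) - (g θ ^ 2 - g1 θ ^ 2)) θ := by
          intro θ _
          refine ((h.d1 θ).mul (h.d2 θ)).congr_deriv ?_
          ring
        have hc1 := h.c1
        rw [intervalIntegral.integral_eq_sub_of_hasDerivAt hder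
          ((by fun_prop : Continuous fun θ => (g θ * (g θ + g2 θ) - (g θ ^ 2 - g1 θ ^ 2))).intervalIntegrable _ _)]
        have p1 := h.per (-π)
        have p2 := h.per1 (-π)
        have e4 : -π + 2 * π = π := by ring
        rw [e4] at p1 p2
        rw [p1, p2]; ring
      have hc1 := h.c1
      rw [intervalIntegral.integral_sub
        ((by fun_prop : Continuous fun θ => (g θ * (g θ + g2 θ))).intervalIntegrable _ _)
        ((by fun_prop : Continuous fun θ => (g θ ^ 2 - g1 θ ^ 2)).intervalIntegrable _ _)] at e3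
      linarith
    rw [e2]
    simp
    ring
  · exact hcont.continuousOn.integrableOn_compact (isCompact_Icc.prod isCompact_Icc)
  · filter_upwards [ae_restrict_mem (measurableSet_Icc.prod measurableSet_Icc)] with q hq
    exact mul_nonneg hq.1.1 (mul_nonneg (h.pos _).le (h.cv _))

/-- the area of a planar body is at most `½ ∫ (g² - g'²)` -/
theorem Wset_le (h : SupF g g1 g2) :
    volume (Wset g) ≤ ENNReal.ofReal ((∫ θ in (-π)..π, (g θ ^ 2 - g1 θ ^ 2)) / 2) := by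
  have h1 : Wset g ⊆ TT g g1 '' (Icc (0:ℝ) 1 ×ˢ Icc (-π) π) := by
    intro ζ hζ
    obtain ⟨ρ, θ, h1, h2, h3, h4⟩ := Wset_sub h hζ
    exact ⟨(ρ, θ), ⟨⟨h1, h2⟩, ⟨h3.1.le, h3.2⟩⟩, h4⟩
  calc volume (Wset g) ≤ volume (TT g g1 '' (Icc (0:ℝ) 1 ×ˢ Icc (-π) π)) := measure_mono h1
    _ ≤ ∫⁻ q in Icc (0:ℝ) 1 ×ˢ Icc (-π) π, ENNReal.ofReal |(TT' g g1 g2 q).det| :=
        addHaar_image_le_lintegral_abs_det_fderiv volume (measurableSet_Icc.prod measurableSet_Icc)
          (fun q _ => (TT_fderiv h q).hasFDerivWithinAt)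
    _ = _ := param_lint h (ae_eq_refl _) (ae_eq_refl _)

theorem SupF.int_nonneg (h : SupF g g1 g2) : 0 ≤ (∫ θ in (-π)..π, (g θ ^ 2 - g1 θ ^ 2)) / 2 := by
  by_contra hneg
  push Not at hneg
  have hc0 := h.c0
  have hc1 := h.c1
  have hc2 := h.c2
  have e3 : ∫ θ in (-π)..π, (g θ * (g θ + g2 θ) - (g θ ^ 2 - g1 θ ^ 2)) = 0 := by
    have hder : ∀ θ ∈ uIcc (-π) π, HasDerivAt (fun s => g s * g1 s)
        (g θ * (g θ + g2 θ) - (g θ ^ 2 - g1 θ ^ 2)) θ := by
      intro θ _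
      refine ((h.d1 θ).mul (h.d2 θ)).congr_deriv ?_
      ring
    rw [intervalIntegral.integral_eq_sub_of_hasDerivAt hder
      ((by fun_prop : Continuous fun θ => (g θ * (g θ + g2 θ) - (g θ ^ 2 - g1 θ ^ 2))).intervalIntegrable _ _)]
    have p1 := h.per (-π)
    have p2 := h.per1 (-π)
    have e4 : -π + 2 * π = π := by ring
    rw [e4] at p1 p2
    rw [p1, p2]; ring
  rw [intervalIntegral.integral_sub
    ((by fun_prop : Continuous fun θ => (g θ * (g θ + g2 θ))).intervalIntegrable _ _)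
    ((by fun_prop : Continuous fun θ => (g θ ^ 2 - g1 θ ^ 2)).intervalIntegrable _ _)] at e3
  have h5 : 0 ≤ ∫ θ in (-π)..π, (g θ * (g θ + g2 θ)) := by
    apply intervalIntegral.integral_nonneg (by linarith [Real.pi_pos])
    intro θ _
    exact mul_nonneg (h.pos θ).le (h.cv θ)
  linarith

/-- if every boundary point of the parametrisation is strictly inside the other supporting half
planes then the parametrisation is injective and the area is at least `½ ∫ (g² - g'²)` -/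
theorem Wset_ge (h : SupF g g1 g2)
    (hst : ∀ θ ∈ Ioc (-π) π, ∀ φ ∈ Ioc (-π) π, θ ≠ φ →
      (TT g g1 (1, θ)).1 * Real.cos φ + (TT g g1 (1, θ)).2 * Real.sin φ < g φ) :
    ENNReal.ofReal ((∫ θ in (-π)..π, (g θ ^ 2 - g1 θ ^ 2)) / 2)
      ≤ volume (TT g g1 '' (Ioc (0:ℝ) 1 ×ˢ Ioc (-π) π)) := by
  have hself : ∀ θ, (TT g g1 (1, θ)).1 * Real.cos θ + (TT g g1 (1, θ)).2 * Real.sin θ = g θ := by
    intro θ
    unfold TT
    have := Real.sin_sq_add_cos_sq θ
    simp only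
    linear_combination (g θ) * this
  have hsc : ∀ ρ θ, TT g g1 (ρ, θ) = (ρ * (TT g g1 (1, θ)).1, ρ * (TT g g1 (1, θ)).2) := by
    intro ρ θ; unfold TT; simp
  have hinj : InjOn (TT g g1) (Ioc (0:ℝ) 1 ×ˢ Ioc (-π) π) := by
    rintro ⟨ρ, θ⟩ ⟨hρ, hθ⟩ ⟨ρ', θ'⟩ ⟨hρ', hθ'⟩ he
    simp only at hρ hθ hρ' hθ'
    rw [hsc, hsc ρ'] at he
    have he1 : ρ * (TT g g1 (1, θ)).1 = ρ' * (TT g g1 (1, θ')).1 := congrArg Prod.fst he
    have he2 : ρ * (TT g g1 (1, θ)).2 = ρ' * (TT g g1 (1, θ')).2 := congrArg Prod.snd he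
    have s1 := hself θ
    have s2 := hself θ'
    have p1 := h.pos θ
    have p2 := h.pos θ'
    by_cases hne : θ = θ'
    · subst hne
      have e : ρ * g θ = ρ' * g θ := by
        rw [← s1]
        linear_combination Real.cos θ * he1 + Real.sin θ * he2
      have := mul_right_cancel₀ p1.ne' e
      rw [this]
    · exfalso
      have t1 := hst θ hθ θ' hθ' hne
      have t2 := hst θ' hθ' θ hθ (Ne.symm hne)
      -- ρ g(θ) = ρ' (T θ')·e(θ) < ρ' g(θ), and symmetrically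
      have u1 : ρ * g θ = ρ' * ((TT g g1 (1, θ')).1 * Real.cos θ + (TT g g1 (1, θ')).2 * Real.sin θ) := by
        rw [← s1]
        linear_combination Real.cos θ * he1 + Real.sin θ * he2
      have u2 : ρ' * g θ' = ρ * ((TT g g1 (1, θ)).1 * Real.cos θ' + (TT g g1 (1, θ)).2 * Real.sin θ') := by
        rw [← s2]
        linear_combination -Real.cos θ' * he1 - Real.sin θ' * he2
      have v1 : ρ * g θ < ρ' * g θ := by
        rw [u1]; exact mul_lt_mul_of_pos_left t2 hρ'.1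
      have v2 : ρ' * g θ' < ρ * g θ' := by
        rw [u2]; exact mul_lt_mul_of_pos_left t1 hρ.1
      have w1 := lt_of_mul_lt_mul_right v1 p1.le
      have w2 := lt_of_mul_lt_mul_right v2 p2.le
      linarith
  rw [← lintegral_abs_det_fderiv_eq_addHaar_image volume (measurableSet_Ioc.prod measurableSet_Ioc)
    (fun q _ => (TT_fderiv h q).hasFDerivWithinAt) hinj]
  exact (param_lint h Ioc_ae_eq_Icc Ioc_ae_eq_Icc).ge

end Run7.h549
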